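import Pool.Agent.X157.W.Fix2
import Pool.Agent.TH167.SH.Final

set_option autoImplicit false

/-!
# Fixed components of linear systems at generic points, with multiplicities
-/

namespace Pool.Agent.X157.W

open MvPolynomial Pool.Agent.W609 Pool.Agent.W609.CR Pool.Agent.TH167 Pool.Agent.TH167.SH
  Pool.Agent.TH167.TT

/-- The swap lemma, with multiplicities. -/
theorem swapK {S : Set (MvPolynomial (Fin 3) ℂ)} {F0 : MvPolynomial (Fin 3) ℂ} (hF0 : F0 ∈ S)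
    (h0 : F0 ≠ 0) {G A A' : MvPolynomial (Fin 3) ℂ} (hG : Irreducible G) {n : ℕ}
    (hGA : G ^ n ∣ A)
    (hA : ∀ F ∈ S, A ∣ F) (hsw : ∀ H, A * H ∈ S → A' * H ∈ S) : G ^ n ∣ A' := by
  classical
  have hp : Prime G := hG.prime
  have hex : ∃ k, ∃ F ∈ S, ¬ G ^ (k + 1) ∣ F := by
    obtain ⟨k, hk⟩ := FiniteMultiplicity.of_not_isUnit hG.not_isUnit h0
    exact ⟨k, F0, hF0, hk⟩
  obtain ⟨F1, hF1, hF1k⟩ := Nat.find_spec hex
  obtain ⟨k, hk⟩ : ∃ k, k = Nat.find hex := ⟨_, rfl⟩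
  rw [← hk] at hF1k
  have hall : ∀ F ∈ S, G ^ k ∣ F := by
    intro F hF
    rcases Nat.eq_zero_or_pos k with h1 | h1
    · rw [h1, pow_zero]
      exact one_dvd _
    · by_contra hcon
      have h2 : k - 1 < Nat.find hex := by omega
      exact Nat.find_min hex h2 ⟨F, hF, by rwa [Nat.sub_add_cancel h1]⟩
  obtain ⟨H, hH⟩ := hA F1 hF1
  have h1 := hall _ (hsw H (hH ▸ hF1))
  rw [pow_dvd_iff_le_emultiplicity, emultiplicity_mul hp] at h1
  rw [pow_dvd_iff_le_emultiplicity] at hGA ⊢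
  rw [hH, pow_dvd_iff_le_emultiplicity, emultiplicity_mul hp, not_le] at hF1k
  have h2 : emultiplicity G A + emultiplicity G H ≤ (k : ℕ∞) := by
    have h3 : ((k + 1 : ℕ) : ℕ∞) = (k : ℕ∞) + 1 := by push_cast; rfl
    rw [h3] at hF1k
    exact (ENat.lt_add_one_iff (ENat.coe_ne_top k)).1 hF1k
  have h4 : emultiplicity G H ≠ ⊤ := by
    intro h5
    rw [h5, add_top] at hF1k
    exact absurd hF1k (by simp)
  have h5 := h2.trans h1
  exact hGA.trans ((ENat.add_le_add_iff_right h4).1 h5)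

/-- `(e; u)` is the class of a fixed component of multiplicity at least `k` of the linear system of
class `(d; w)`. -/
def FxK {s : ℕ} (P : Fin s → Fin 2 → ℂ) (d : ℕ) (w : Fin s → ℕ) (k : ℕ) (e : ℕ) (u : Fin s → ℕ)
    (G : MvPolynomial (Fin 3) ℂ) : Prop :=
  Irreducible G ∧ G.IsHomogeneous e ∧ (∀ j, Ord (aff (P j)) (u j) G) ∧
    ∀ F ∈ VS (fun j => aff (P j)) w d, G ^ k ∣ F

theorem ord_pow {v : Fin 3 → ℂ} {m : ℕ} {G : MvPolynomial (Fin 3) ℂ} (h : Ord v m G) (k : ℕ) :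
    Ord v (k * m) (G ^ k) := by
  induction k with
  | zero => rw [zero_mul, pow_zero]; exact ord_one
  | succ k ih =>
    rw [pow_succ, add_mul, one_mul]
    exact ord_mul ih h

/-- Sums of fixed components are rigid. -/
theorem rigidK {ι : Type} {s : ℕ} {P : Fin s → Fin 2 → ℂ} {d : ℕ} {w : Fin s → ℕ}
    {F0 : MvPolynomial (Fin 3) ℂ} (hF0 : F0 ≠ 0) (hF : F0 ∈ VS (fun j => aff (P j)) w d)
    (T : Finset ι) (G : ι → MvPolynomial (Fin 3) ℂ) (k : ι → ℕ) (e : ι → ℕ) (u : ι → Fin s → ℕ)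
    (hG : ∀ t ∈ T, FxK P d w (k t) (e t) (u t) (G t))
    (hne : ∀ t ∈ T, ∀ t' ∈ T, t ≠ t' → ¬ (e t = e t' ∧ u t = u t'))
    {A : MvPolynomial (Fin 3) ℂ}
    (hA : A ∈ VS (fun j => aff (P j)) (fun j => ∑ t ∈ T, k t * u t j) (∑ t ∈ T, k t * e t)) :
    ∃ c : ℂ, A = C c * ∏ t ∈ T, G t ^ k t := by
  have hA' := (mem_VS _ _ _ _).1 hA
  have hB1 : (∏ t ∈ T, G t ^ k t).IsHomogeneous (∑ t ∈ T, k t * e t) :=
    MvPolynomial.IsHomogeneous.prod T (fun t => G t ^ k t) (fun t => k t * e t) fun t ht => by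
      rw [mul_comm]
      exact (hG t ht).2.1.pow _
  have hB2 : ∀ j, Ord (aff (P j)) (∑ t ∈ T, k t * u t j) (∏ t ∈ T, G t ^ k t) := fun j =>
    ord_prod T (fun t => G t ^ k t) (fun t => k t * u t j) fun t ht => ord_pow ((hG t ht).2.2.1 j) _
  have hpd : ∀ F : MvPolynomial (Fin 3) ℂ, (∀ t ∈ T, G t ^ k t ∣ F) →
      ∏ t ∈ T, G t ^ k t ∣ F := by
    intro F hFd
    refine Finset.prod_dvd_of_isRelPrime ?_ hFd
    intro t ht t' ht' htt
    show IsRelPrime (G t ^ k t) (G t' ^ k t')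
    refine IsRelPrime.pow ?_
    rw [(hG t ht).1.isRelPrime_iff_not_dvd]
    intro hd
    obtain ⟨a1, a2, a3, -⟩ := hG t ht
    obtain ⟨b1, b2, b3, -⟩ := hG t' ht'
    exact hne t ht t' ht' htt (assoc_class a1 b1 a2 b2 a3 b3 hd)
  have hBd : ∀ F ∈ VS (fun j => aff (P j)) w d, ∏ t ∈ T, G t ^ k t ∣ F := fun F hF' =>
    hpd F fun t ht => (hG t ht).2.2.2 F hF'
  by_cases hA0 : A = 0
  · exact ⟨0, by rw [hA0, C_0, zero_mul]⟩
  have hB0 : ∏ t ∈ T, G t ^ k t ≠ 0 :=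
    Finset.prod_ne_zero_iff.2 fun t ht => pow_ne_zero _ (hG t ht).1.ne_zero
  have hd : ∏ t ∈ T, G t ^ k t ∣ A := by
    refine hpd A fun t ht => ?_
    refine swapK (S := (VS (fun j => aff (P j)) w d : Set (MvPolynomial (Fin 3) ℂ))) hF hF0
      (hG t ht).1 (Finset.dvd_prod_of_mem (fun t => G t ^ k t) ht) hBd fun H hH => ?_
    by_cases hH0 : H = 0
    · rw [hH0, mul_zero]
      exact Submodule.zero_mem _
    obtain ⟨h1, h2⟩ := mem_of_factor hH (mul_ne_zero hB0 hH0) hB1 hB2 rfl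
    have h3 := (mem_VS _ _ _ _).1 h2
    refine (mem_VS _ _ _ _).2 ⟨?_, fun j => ?_⟩
    · have h4 := hA'.1.mul h3.1
      rwa [Nat.add_sub_cancel' h1] at h4
    · exact van_mono (by omega) (van_mul (hA'.2 j) (h3.2 j))
  obtain ⟨H, hH⟩ := hd
  have hH0 : H ≠ 0 := fun h0 => hA0 (by rw [hH, h0, mul_zero])
  have hHh := Pool.Agent.Chud.homog_of_dvd hA'.1 hA0 (Dvd.intro_left _ hH.symm)
  have h6 := hB1.mul hHh
  rw [← hH] at h6
  have h7 := h6.totalDegree hA0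
  have h8 := hA'.1.totalDegree hA0
  have h9 : H.totalDegree = 0 := by omega
  refine ⟨coeff 0 H, ?_⟩
  rw [hH, mul_comm, ← MvPolynomial.totalDegree_eq_zero_iff_eq_C.1 h9]

/-- The space of a sum of fixed components is one dimensional. -/
theorem rigid_dim {ι : Type} {s : ℕ} {P : Fin s → Fin 2 → ℂ} {d : ℕ} {w : Fin s → ℕ}
    {F0 : MvPolynomial (Fin 3) ℂ} (hF0 : F0 ≠ 0) (hF : F0 ∈ VS (fun j => aff (P j)) w d)
    (T : Finset ι) (G : ι → MvPolynomial (Fin 3) ℂ) (k : ι → ℕ) (e : ι → ℕ) (u : ι → Fin s → ℕ)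
    (hG : ∀ t ∈ T, FxK P d w (k t) (e t) (u t) (G t))
    (hne : ∀ t ∈ T, ∀ t' ∈ T, t ≠ t' → ¬ (e t = e t' ∧ u t = u t')) :
    Module.finrank ℂ ↥(VS (fun j => aff (P j)) (fun j => ∑ t ∈ T, k t * u t j)
      (∑ t ∈ T, k t * e t)) = 1 := by
  have hB1 : (∏ t ∈ T, G t ^ k t).IsHomogeneous (∑ t ∈ T, k t * e t) :=
    MvPolynomial.IsHomogeneous.prod T (fun t => G t ^ k t) (fun t => k t * e t) fun t ht => by
      rw [mul_comm]
      exact (hG t ht).2.1.pow _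
  have hB2 : ∀ j, Ord (aff (P j)) (∑ t ∈ T, k t * u t j) (∏ t ∈ T, G t ^ k t) := fun j =>
    ord_prod T (fun t => G t ^ k t) (fun t => k t * u t j) fun t ht => ord_pow ((hG t ht).2.2.1 j) _
  have hB0 : ∏ t ∈ T, G t ^ k t ≠ 0 :=
    Finset.prod_ne_zero_iff.2 fun t ht => pow_ne_zero _ (hG t ht).1.ne_zero
  refine _root_.finrank_eq_one (⟨∏ t ∈ T, G t ^ k t,
    (mem_VS _ _ _ _).2 ⟨hB1, fun j => (hB2 j).1⟩⟩ : VS (fun j => aff (P j))
      (fun j => ∑ t ∈ T, k t * u t j) (∑ t ∈ T, k t * e t)) ?_ ?_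
  · intro h
    exact hB0 (congrArg Subtype.val h)
  · rintro ⟨A, hA⟩
    obtain ⟨c, hc⟩ := rigidK hF0 hF T G k e u hG hne hA
    refine ⟨c, Subtype.ext ?_⟩
    show c • (∏ t ∈ T, G t ^ k t) = A
    rw [hc, MvPolynomial.smul_eq_C_mul]

/-- Fixed components do not depend on the points. -/
theorem FxK.move {s : ℕ} {P P' : Fin s → Fin 2 → ℂ} (hP : Gen P) (hP' : Gen P') {d k e : ℕ}
    {w u : Fin s → ℕ} {G : MvPolynomial (Fin 3) ℂ} (h : FxK P d w k e u G) :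
    ∃ G', FxK P' d w k e u G' := by
  obtain ⟨hG, hGd, hGo, hGF⟩ := h
  obtain ⟨τ, hτ⟩ := exists_aut_map hP hP'
  have h1 : ∀ j, (fun i => τ (aff (P j) i)) = aff (P' j) := by
    intro j
    have h2 : ∀ b, τ (P j b) = P' j b := fun b => hτ (j, b)
    funext i
    fin_cases i
    · exact h2 0
    · exact h2 1
    · exact map_one τ
  refine ⟨mapEquiv (Fin 3) τ G, (MulEquiv.irreducible_iff (mapEquiv (Fin 3) τ)).2 hG, ?_,
    fun j => ?_, fun F hF => ?_⟩
  · have e1 : (mapEquiv (Fin 3) τ) G = map (τ : ℂ →+* ℂ) G := rfl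
    rw [e1]
    exact hGd.map _
  · unfold CR.Ord
    rw [← h1, van_map, van_map]
    exact hGo j
  · obtain ⟨H, hH⟩ : ∃ H, mapEquiv (Fin 3) τ H = F := (mapEquiv (Fin 3) τ).surjective F
    have hHF := (mem_VS _ _ _ _).1 hF
    have h2 : H ∈ VS (fun j => aff (P j)) w d := by
      refine (mem_VS _ _ _ _).2 ⟨?_, fun j => ?_⟩
      · have e1 : (mapEquiv (Fin 3) τ) H = map (τ : ℂ →+* ℂ) H := rfl
        have h3 := hHF.1
        rw [← hH, e1] at h3
        exact (MvPolynomial.IsHomogeneous.of_map τ.injective h3)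
      · have h3 := hHF.2 j
        rw [← h1 j, ← hH, van_map] at h3
        exact h3
    obtain ⟨K, hK⟩ := hGF H h2
    rw [← hH, hK, map_mul, map_pow]
    exact Dvd.intro _ rfl

/-- Fixed components and permutations. -/
theorem FxK.perm {s : ℕ} {P : Fin s → Fin 2 → ℂ} (hP : Gen P) {d k e : ℕ}
    {w u : Fin s → ℕ} {G : MvPolynomial (Fin 3) ℂ} (h : FxK P d w k e u G)
    (σ : Equiv.Perm (Fin s)) (hσ : ∀ j, w (σ j) = w j) :
    ∃ G', FxK P d w k e (fun j => u (σ j)) G' := by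
  have hP' : Gen (fun j => P (σ j)) := by
    unfold Gen at hP ⊢
    have h1 := hP.comp (Equiv.prodCongr σ (Equiv.refl (Fin 2)))
      (Equiv.prodCongr σ (Equiv.refl (Fin 2))).injective
    exact h1
  have h2 : FxK (fun j => P (σ j)) d w k e (fun j => u (σ j)) G := by
    obtain ⟨hG, hGd, hGo, hGF⟩ := h
    refine ⟨hG, hGd, fun j => hGo (σ j), fun F hF => hGF F ?_⟩
    have hF' := (mem_VS _ _ _ _).1 hF
    refine (mem_VS _ _ _ _).2 ⟨hF'.1, fun j => ?_⟩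
    have h3 := hF'.2 (σ.symm j)
    have h4 := hσ (σ.symm j)
    rw [Equiv.apply_symm_apply] at h4
    rw [← h4] at h3
    simpa using h3
  exact h2.move hP' hP

/-- A set of fixed components, none of which is invariant under the transposition of two points,
and no two of which are exchanged. -/
theorem dissoc {s : ℕ} {P : Fin s → Fin 2 → ℂ} (hP : Gen P) {d : ℕ} {w : Fin s → ℕ}
    {F0 : MvPolynomial (Fin 3) ℂ} (hF0 : F0 ≠ 0) (hF : F0 ∈ VS (fun j => aff (P j)) w d)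
    {i j : Fin s} (T : Finset (ℕ × (Fin s → ℕ))) (hT0 : T.Nonempty)
    (hT : ∀ t ∈ T, (∃ G, Fx P d w t.1 t.2 G) ∧ t.2 i ≠ t.2 j ∧
      (t.1, fun l => t.2 (Equiv.swap i j l)) ∉ T) :
    ∑ t ∈ T, ((t.2 i : ℤ) - t.2 j) ≠ 0 := by
  classical
  intro h0
  obtain ⟨σ, hσ⟩ : ∃ σ, σ = Equiv.swap i j := ⟨_, rfl⟩
  have σi : σ i = j := by rw [hσ]; exact Equiv.swap_apply_left _ _
  have σj : σ j = i := by rw [hσ]; exact Equiv.swap_apply_right _ _
  have hsum : ∑ t ∈ T, t.2 i = ∑ t ∈ T, t.2 j := by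
    rw [Finset.sum_sub_distrib, sub_eq_zero] at h0
    exact_mod_cast h0
  obtain ⟨t, ht⟩ := hT0
  obtain ⟨t', ht', h1, h2⟩ := fam_fix hF0 hF T T (fun t => t.1) (fun t => t.2) (fun t => t.1)
    (fun t l => t.2 (σ l)) (fun t ht => (hT t ht).1)
    (fun t _ t' _ htt h => htt (Prod.ext h.1 h.2)) (fun t ht => by
      obtain ⟨G, hG⟩ := (hT t ht).1
      exact hG.ic.perm hP σ) rfl (fun l => by
      by_cases h1 : l = i
      · rw [h1]
        simp only [σi]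
        exact hsum
      · by_cases h2 : l = j
        · rw [h2]
          simp only [σj]
          exact hsum.symm
        · have h3 : σ l = l := by rw [hσ]; exact Equiv.swap_apply_of_ne_of_ne h1 h2
          simp only [h3]) t ht
  by_cases htt : t = t'
  · rw [← htt] at h2
    have h3 := congrFun h2 i
    simp only [σi] at h3
    exact (hT t ht).2.1 h3
  · refine (hT t' ht').2.2 ?_
    have h3 : t = (t'.1, fun l => t'.2 (Equiv.swap i j l)) := Prod.ext h1 (by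
      rw [hσ] at h2
      exact h2)
    rw [← h3]
    exact ht

end Pool.Agent.X157.W
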