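import Pool.Agent.X157.W.Uni2
import Pool.Agent.X157.W.FixK

set_option autoImplicit false

/-!
# Powers of common factors of uniform systems
-/

namespace Pool.Agent.X157.W

open MvPolynomial Pool.Agent.W609 Pool.Agent.W609.CR Pool.Agent.TH167 Pool.Agent.TH167.SH
  Pool.Agent.TH167.TT

/-- Multiples of the orbit of a multiple common factor are rigid. -/
theorem pow_dim {n : ℕ} {P : Fin n → Fin 2 → ℂ} (hP : Gen P) {d m : ℕ}
    {F : MvPolynomial (Fin 3) ℂ} (hF0 : F ≠ 0) (hF : F ∈ VS (fun j => aff (P j)) (fun _ => m) d)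
    {k e f φ : ℕ} {u : Fin n → ℕ} {G : MvPolynomial (Fin 3) ℂ}
    (hG : FxK P d (fun _ => m) k e u G)
    (hu : (f = e ∧ u = fun _ => φ) ∨ ∃ (y x : ℕ) (i0 : Fin n), x ≠ y ∧ f = n * e ∧
      φ = (n - 1) * y + x ∧ u = fun j => if j = i0 then x else y) :
    Module.finrank ℂ ↥(VS (fun j => aff (P j)) (fun _ => k * φ) (k * f)) = 1 := by
  classical
  rcases hu with ⟨hf, hu⟩ | ⟨y, x, i0, hxy, hf, hφ, hu⟩
  · have h1 : Module.finrank ℂ ↥(VS (fun j => aff (P j))
        (fun j => ∑ _t ∈ ({0} : Finset (Fin 1)), k * u j)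
        (∑ _t ∈ ({0} : Finset (Fin 1)), k * e)) = 1 :=
      rigid_dim hF0 hF ({0} : Finset (Fin 1)) (fun _ => G) (fun _ => k) (fun _ => e)
      (fun _ => u) (fun t _ => hG) (fun t _ t' _ h => absurd (Subsingleton.elim _ _) h)
    have e1 : (fun j => ∑ _t ∈ ({0} : Finset (Fin 1)), k * u j) = fun _ => k * φ := by
      funext j
      rw [Finset.sum_singleton, hu]
    have e2 : (∑ _t ∈ ({0} : Finset (Fin 1)), k * e) = k * f := by
      rw [Finset.sum_singleton, hf]
    rw [e1, e2] at h1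
    exact h1
  · have hex : ∀ i : Fin n, ∃ G', FxK P d (fun _ => m) k e (fun j => if j = i then x else y) G' := by
      intro i
      obtain ⟨G', hG'⟩ := hG.perm hP (Equiv.swap i0 i) (fun _ => rfl)
      have h1 : (fun j => u (Equiv.swap i0 i j)) = fun j => if j = i then x else y := by
        funext j
        rw [hu]
        by_cases h2 : j = i
        · rw [h2, Equiv.swap_apply_right, if_pos rfl]
          show (if i0 = i0 then x else y) = x
          rw [if_pos rfl]
        · rw [if_neg h2]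
          show (if Equiv.swap i0 i j = i0 then x else y) = y
          rw [if_neg]
          intro h3
          apply h2
          have h4 := congrArg (Equiv.swap i0 i) h3
          rwa [Equiv.swap_apply_self, Equiv.swap_apply_left] at h4
      rw [h1] at hG'
      exact ⟨G', hG'⟩
    choose G' hG' using hex
    have hne : ∀ t ∈ (Finset.univ : Finset (Fin n)), ∀ t' ∈ (Finset.univ : Finset (Fin n)),
        t ≠ t' → ¬ (e = e ∧ (fun j => if j = t then x else y) = fun j => if j = t' then x else y) := by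
      intro t _ t' _ htt h
      have h1 := congrFun h.2 t
      simp only [if_pos, if_neg htt] at h1
      exact hxy h1
    have h1 : Module.finrank ℂ ↥(VS (fun j => aff (P j))
        (fun j => ∑ t : Fin n, k * (if j = t then x else y)) (∑ _t : Fin n, k * e)) = 1 :=
      rigid_dim hF0 hF Finset.univ G' (fun _ => k) (fun _ => e)
      (fun t j => if j = t then x else y) (fun t _ => hG' t) hne
    have e1 : (fun j : Fin n => ∑ t : Fin n, k * (if j = t then x else y)) =
        fun _ => k * φ := by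
      funext j
      rw [← Finset.mul_sum, hφ, ← sum_ite_uni j x y]
      congr 1
      exact Finset.sum_congr rfl fun t _ => by
        by_cases h : t = j
        · rw [if_pos h, if_pos h.symm]
        · rw [if_neg h, if_neg (fun h' => h h'.symm)]
    have e2 : (∑ _t : Fin n, k * e) = k * f := by
      rw [Finset.sum_const, Finset.card_univ, Fintype.card_fin, smul_eq_mul, hf]
      ring
    rw [e1, e2] at h1
    exact h1

/-- The numerical consequence. -/
theorem pow_num {n : ℕ} {P : Fin n → Fin 2 → ℂ} {k f φ : ℕ} (hk : 1 ≤ k)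
    (h1 : Module.finrank ℂ ↥(VS (fun j => aff (P j)) (fun _ : Fin n => k * φ) (k * f)) = 1) :
    (k : ℤ) * ((f : ℤ) ^ 2 - n * φ ^ 2) ≤ n * φ - 3 * f := by
  have h2 := chi_le_dim P (k * f) (fun _ : Fin n => k * φ)
  rw [h1] at h2
  have h3 := two_chi (k * f) (fun _ : Fin n => k * φ)
  rw [ip_const, kk_const] at h3
  push_cast at h2 h3
  have hk0 : (0 : ℤ) < k := by exact_mod_cast hk
  have e : (k : ℤ) * (k * ((f : ℤ) ^ 2 - n * φ ^ 2)) ≤ k * (n * φ - 3 * f) := by
    have e1 : (k : ℤ) * (k * ((f : ℤ) ^ 2 - n * φ ^ 2)) =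
        k * f * (k * f) - n * (k * φ * (k * φ)) := by ring
    have e2 : (k : ℤ) * (n * φ - 3 * f) = n * (k * φ) - 3 * (k * f) := by ring
    rw [e1, e2]
    linarith
  exact le_of_mul_le_mul_left e hk0

/-- The multiples of the orbit of a multiple common factor are special. -/
theorem pow_sp {n : ℕ} {P : Fin n → Fin 2 → ℂ} {s f φ : ℕ}
    (h0 : 0 < (f : ℤ) ^ 2 - n * φ ^ 2)
    (hs : (s : ℤ) * ((f : ℤ) ^ 2 - n * φ ^ 2) ≤ n * φ - 3 * f) {k : ℕ} (hk : 1 ≤ k) (hks : k < s)
    (h1 : Module.finrank ℂ ↥(VS (fun j => aff (P j)) (fun _ : Fin n => k * φ) (k * f)) = 1) :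
    Sp P (k * f) (k * φ) := by
  refine ⟨by rw [h1]; exact one_pos, ?_⟩
  rw [h1]
  have h3 := two_chi (k * f) (fun _ : Fin n => k * φ)
  rw [ip_const, kk_const] at h3
  push_cast at h3 ⊢
  have hk0 : (0 : ℤ) < k := by exact_mod_cast hk
  have hks' : (k : ℤ) + 1 ≤ s := by exact_mod_cast hks
  obtain ⟨a, ha⟩ : ∃ a : ℤ, a = (f : ℤ) ^ 2 - n * φ ^ 2 := ⟨_, rfl⟩
  obtain ⟨b, hb⟩ : ∃ b : ℤ, b = n * φ - 3 * f := ⟨_, rfl⟩
  rw [← ha] at h0 hs
  rw [← hb] at hs
  have e1 : (k : ℤ) * f * (k * f) - n * (k * φ * (k * φ)) = k * (k * a) := by rw [ha]; ring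
  have e2 : (n : ℤ) * (k * φ) - 3 * (k * f) = k * b := by rw [hb]; ring
  have h4 : (k : ℤ) * a < b := by nlinarith
  have h5 : (k : ℤ) * (k * a) < k * b := mul_lt_mul_of_pos_left h4 hk0
  have h6 : 2 * chi (k * f) (fun _ : Fin n => k * φ) =
      (k : ℤ) * f * (k * f) - n * (k * φ * (k * φ)) - (n * (k * φ) - 3 * (k * f)) + 2 := by
    linarith
  rw [e1, e2] at h6
  linarith

end Pool.Agent.X157.W
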