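import Pool.Agent.X157.W.Uni
import Pool.Agent.TH142.NU.Self
import Pool.Agent.TH641.NW.End2

set_option autoImplicit false

/-!
# Reduction of special uniform systems
-/

namespace Pool.Agent.X157.W

open MvPolynomial Pool.Agent.W609 Pool.Agent.W609.CR Pool.Agent.TH167 Pool.Agent.TH167.SH
  Pool.Agent.TH167.TT

/-- The system is special. -/
def Sp {n : ℕ} (P : Fin n → Fin 2 → ℂ) (d m : ℕ) : Prop :=
  0 < Module.finrank ℂ ↥(VS (fun j => aff (P j)) (fun _ => m) d) ∧
    chi d (fun _ : Fin n => m) < (Module.finrank ℂ ↥(VS (fun j => aff (P j)) (fun _ => m) d) : ℤ)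

theorem ip_const {n : ℕ} (d m e k : ℕ) :
    ip d (fun _ : Fin n => m) e (fun _ => k) = (d : ℤ) * e - n * (m * k) := by
  unfold ip
  rw [Finset.sum_const, Finset.card_univ, Fintype.card_fin, nsmul_eq_mul]

theorem kk_const {n : ℕ} (d m : ℕ) : kk d (fun _ : Fin n => m) = 3 * (d : ℤ) - n * m := by
  unfold kk
  rw [Finset.sum_const, Finset.card_univ, Fintype.card_fin, nsmul_eq_mul]

theorem chi_add {n : ℕ} (f g φ ψ : ℕ) :
    chi (f + g) (fun _ : Fin n => φ + ψ) = chi f (fun _ : Fin n => φ) +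
      chi g (fun _ : Fin n => ψ) - 1 + ((f : ℤ) * g - n * (φ * ψ)) := by
  have h1 := two_chi (f + g) (fun _ : Fin n => φ + ψ)
  have h2 := two_chi f (fun _ : Fin n => φ)
  have h3 := two_chi g (fun _ : Fin n => ψ)
  rw [ip_const, kk_const] at h1 h2 h3
  push_cast at h1
  have : 2 * chi (f + g) (fun _ : Fin n => φ + ψ) = 2 * (chi f (fun _ : Fin n => φ) +
      chi g (fun _ : Fin n => ψ) - 1 + ((f : ℤ) * g - n * (φ * ψ))) := by
    rw [h1]
    have e : 2 * (chi f (fun _ : Fin n => φ) +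
      chi g (fun _ : Fin n => ψ) - 1 + ((f : ℤ) * g - n * (φ * ψ))) =
      2 * chi f (fun _ : Fin n => φ) + 2 * chi g (fun _ : Fin n => ψ) - 2 +
        2 * ((f : ℤ) * g - n * (φ * ψ)) := by ring
    rw [e, h2, h3]
    ring
  linarith

/-- Nagata's inequality. -/
theorem nag {n : ℕ} (hn : 10 ≤ n) {P : Fin n → Fin 2 → ℂ} (hP : Gen P) {d m : ℕ}
    (h : 0 < Module.finrank ℂ ↥(VS (fun j => aff (P j)) (fun _ => m) d)) (hm : 0 < m) :
    √(n : ℝ) * m < d := by
  have h1 : Nontrivial ↥(VS (fun j => aff (P j)) (fun _ => m) d) := by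
    have hfin := vs_fin (fun j => aff (P j)) (fun _ : Fin n => m) d
    exact Module.finrank_pos_iff.1 h
  obtain ⟨⟨G, hG⟩, hG0⟩ := exists_ne (0 : ↥(VS (fun j => aff (P j)) (fun _ => m) d))
  have hG0' : G ≠ 0 := fun h => hG0 (Subtype.ext h)
  rw [← sys_eq] at hG
  have hG1 : G.IsHomogeneous d := hG.1
  have hG2 : ∀ i, G ∈ (Ideal.span ({X 0 - C (P i 0) * X 2, X 1 - C (P i 1) * X 2} :
      Set (MvPolynomial (Fin 3) ℂ))) ^ m := by
    intro i
    have h2 : G ∈ (⨅ i, SHDefs.pt (P i) ^ m : Ideal (MvPolynomial (Fin 3) ℂ)) := hG.2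
    exact (Submodule.mem_iInf _).1 h2 i
  have h3 := Pool.Agent.TH142.NU.nagata_strict hn (w := fun _ => m) hP hG0' hG1 hG2 (by
    rw [Finset.sum_const, Finset.card_univ, Fintype.card_fin, smul_eq_mul]
    exact Nat.mul_pos (by omega) hm)
  rw [Finset.sum_const, Finset.card_univ, Fintype.card_fin, smul_eq_mul] at h3
  have hn0 : (0 : ℝ) < n := by exact_mod_cast (by omega : 0 < n)
  have hs : 0 < √(n : ℝ) := Real.sqrt_pos.2 hn0
  have hss : √(n : ℝ) * √(n : ℝ) = n := Real.mul_self_sqrt hn0.le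
  push_cast at h3
  have h4 : √(n : ℝ) * (√(n : ℝ) * m) < √(n : ℝ) * d := by
    rw [← mul_assoc, hss]
    exact h3
  exact lt_of_mul_lt_mul_left h4 hs.le

theorem sp_iff {n : ℕ} (P : Fin n → Fin 2 → ℂ) (d m : ℕ) :
    Sp P d m ↔ ¬ H932R3.ExpDim ℂ (fun _ => m) P d := by
  have hc : ∑ _j : Fin n, (m + 1).choose 2 = n * (m + 1).choose 2 := by
    rw [Finset.sum_const, Finset.card_univ, Fintype.card_fin, smul_eq_mul]
  have h1 : H932R3.ExpDim ℂ (fun _ => m) P d ↔
      Module.finrank ℂ ↥(VS (fun j => aff (P j)) (fun _ => m) d) =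
        (d + 2).choose 2 - n * (m + 1).choose 2 := by
    unfold H932R3.ExpDim
    rw [hc, ← sys_eq]
    exact Iff.rfl
  have h2 : chi d (fun _ : Fin n => m) = ((d + 2).choose 2 : ℤ) - (n * (m + 1).choose 2 : ℕ) := by
    unfold chi
    rw [← hc]
    push_cast
    rfl
  have h3 := chi_le_dim P d (fun _ : Fin n => m)
  rw [h1]
  unfold Sp
  rw [h2] at h3 ⊢
  constructor
  · rintro ⟨g1, g2⟩ g3
    omega
  · intro g1
    constructor
    · omega
    · omega

/-- At most one degree is special. -/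
theorem sp_unique {n : ℕ} (hn : 10 ≤ n) {P : Fin n → Fin 2 → ℂ} (hP : Gen P) {m d d' : ℕ}
    (hm : 1 ≤ m) (h : Sp P d m) (h' : Sp P d' m) : d = d' := by
  obtain ⟨F, hF, hF'⟩ := Pool.Agent.TH641.NW.expDim_all_but_one (L := ℂ) hn hm
  have h0 : aeval (fun ij : Fin n × Fin 2 => P ij.1 ij.2) F ≠ 0 := fun h0 =>
    hF (hP.eq_zero_of_aeval_eq_zero F h0)
  have key : ∀ e, Sp P e m → e = Pool.Agent.TH641.NW.dcrit n m := by
    intro e he
    by_contra hcon
    exact (sp_iff P e m).1 he (hF' P h0 e hcon)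
  rw [key d h, key d' h']

/-- The window. -/
theorem sp_win {n : ℕ} (hn : 10 ≤ n) {P : Fin n → Fin 2 → ℂ} (hP : Gen P) {m d : ℕ}
    (hm : 1 ≤ m) (h : Sp P d m) : (d : ℝ) + 3 ≤ √(n : ℝ) * (m + 1) := by
  obtain ⟨F, hF, hF'⟩ := Pool.Agent.TH641.NW.expDim_uni_win2 (L := ℂ) hn hm
  have h0 : aeval (fun ij : Fin n × Fin 2 => P ij.1 ij.2) F ≠ 0 := fun h0 =>
    hF (hP.eq_zero_of_aeval_eq_zero F h0)
  by_contra hcon
  push Not at hcon
  refine (sp_iff P d m).1 h (hF' P h0 d (Or.inr ?_))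
  refine lt_of_le_of_lt (min_le_left _ _) ?_
  have e : √(n : ℝ) * (2 * m + 1) = 2 * (√(n : ℝ) * (m + 1)) - √(n : ℝ) := by ring
  rw [e]
  linarith

/-- The product of two effective classes. -/
theorem prod_nonneg {n : ℕ} (hn : 10 ≤ n) {P : Fin n → Fin 2 → ℂ} (hP : Gen P) {f g φ ψ : ℕ}
    (h : 0 < Module.finrank ℂ ↥(VS (fun j => aff (P j)) (fun _ => φ) f))
    (h' : 0 < Module.finrank ℂ ↥(VS (fun j => aff (P j)) (fun _ => ψ) g)) :
    0 ≤ (f : ℤ) * g - n * (φ * ψ) := by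
  rcases Nat.eq_zero_or_pos φ with h1 | h1
  · rw [h1]
    push_cast
    have : (0 : ℤ) ≤ (f : ℤ) * g := by positivity
    linarith
  rcases Nat.eq_zero_or_pos ψ with h2 | h2
  · rw [h2]
    push_cast
    have : (0 : ℤ) ≤ (f : ℤ) * g := by positivity
    linarith
  have h3 := nag hn hP h h1
  have h4 := nag hn hP h' h2
  have hss : √(n : ℝ) * √(n : ℝ) = n := Real.mul_self_sqrt (Nat.cast_nonneg n)
  have hs0 := Real.sqrt_nonneg (n : ℝ)
  have h5 : (√(n : ℝ) * φ) * (√(n : ℝ) * ψ) ≤ (f : ℝ) * g :=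
    mul_le_mul h3.le h4.le (by positivity) (by positivity)
  have h6 : (√(n : ℝ) * φ) * (√(n : ℝ) * ψ) = n * (φ * ψ) := by
    calc (√(n : ℝ) * φ) * (√(n : ℝ) * ψ) = (√(n : ℝ) * √(n : ℝ)) * (φ * ψ) := by ring
      _ = n * (φ * ψ) := by rw [hss]
  rw [h6] at h5
  have h7 : ((n * (φ * ψ) : ℕ) : ℝ) ≤ ((f * g : ℕ) : ℝ) := by
    push_cast
    exact h5
  have h8 : n * (φ * ψ) ≤ f * g := by exact_mod_cast h7
  have h9 : ((n * (φ * ψ) : ℕ) : ℤ) ≤ ((f * g : ℕ) : ℤ) := by exact_mod_cast h8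
  push_cast at h9
  linarith

/-- **Reduction of special uniform systems**: the system has no fixed component, or it is spanned
by the orbit of one irreducible form. -/
theorem reduction {n : ℕ} (hn : 10 ≤ n) {P : Fin n → Fin 2 → ℂ} (hP : Gen P) :
    ∀ (m : ℕ), 1 ≤ m → ∀ d : ℕ, Sp P d m → ∃ m0 d0 : ℕ, 1 ≤ m0 ∧ m0 ≤ m ∧ d0 ≤ d ∧ Sp P d0 m0 ∧
      ((∀ G : MvPolynomial (Fin 3) ℂ, Irreducible G →
          ∃ F ∈ VS (fun j => aff (P j)) (fun _ => m0) d0, ¬ G ∣ F) ∨
        (Module.finrank ℂ ↥(VS (fun j => aff (P j)) (fun _ => m0) d0) = 1 ∧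
          ∃ A, Orb P d0 m0 A)) := by
  intro m
  induction m using Nat.strong_induction_on with
  | _ m ih =>
    intro hm d hd
    by_cases hG : ∀ G : MvPolynomial (Fin 3) ℂ, Irreducible G →
        ∃ F ∈ VS (fun j => aff (P j)) (fun _ => m) d, ¬ G ∣ F
    · exact ⟨m, d, hm, le_rfl, le_rfl, hd, Or.inl hG⟩
    push Not at hG
    obtain ⟨G, hG, hGF⟩ := hG
    have h1 : Nontrivial ↥(VS (fun j => aff (P j)) (fun _ : Fin n => m) d) := by
      have hfin := vs_fin (fun j => aff (P j)) (fun _ : Fin n => m) d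
      exact Module.finrank_pos_iff.1 hd.1
    obtain ⟨⟨F, hF⟩, hF0⟩ := exists_ne (0 : ↥(VS (fun j => aff (P j)) (fun _ => m) d))
    have hF0' : F ≠ 0 := fun h => hF0 (Subtype.ext h)
    have hGe := Pool.Agent.Chud.homog_of_dvd ((mem_VS _ _ _ _).1 hF).1 hF0' (hGF F hF)
    choose u hu using fun j => exists_ord (p := P j) hG.ne_zero hGe
    obtain ⟨f, φ, A, hf, hA, hAd, hA1⟩ := exists_orb hP hF0' hF ⟨hG, hGe, hu, hGF⟩
    obtain ⟨hfd, hdim⟩ := orb_dim hF0' hF hA hAd
    rcases Nat.eq_zero_or_pos φ with hφ | hφ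
    · -- no multiplicities
      exfalso
      rw [hφ, vs_zero] at hA1
      have h2 : Nat.choose 3 2 ≤ (f + 2).choose 2 := Nat.choose_le_choose 2 (by omega)
      rw [hA1] at h2
      exact absurd h2 (by decide)
    rcases lt_or_ge φ m with hφm | hφm
    · -- smaller multiplicities
      obtain ⟨g, hg⟩ : ∃ g, g = d - f := ⟨_, rfl⟩
      obtain ⟨ψ, hψ⟩ : ∃ ψ, ψ = m - φ := ⟨_, rfl⟩
      rw [← hg, ← hψ] at hdim
      by_cases c1 : chi f (fun _ : Fin n => φ) < 1
      · refine ⟨φ, f, hφ, hφm.le, hfd, ⟨by rw [hA1]; exact one_pos, by rw [hA1]; exact_mod_cast c1⟩,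
          Or.inr ⟨hA1, A, hA⟩⟩
      by_cases c2 : Sp P g ψ
      · obtain ⟨m0, d0, a1, a2, a3, a4, a5⟩ := ih ψ (by omega) (by omega) g c2
        exact ⟨m0, d0, a1, by omega, by omega, a4, a5⟩
      exfalso
      have h3 : 0 < Module.finrank ℂ ↥(VS (fun j => aff (P j)) (fun _ : Fin n => ψ) g) := by
        rw [← hdim]
        exact hd.1
      have h4 : (Module.finrank ℂ ↥(VS (fun j => aff (P j)) (fun _ : Fin n => ψ) g) : ℤ) ≤
          chi g (fun _ : Fin n => ψ) := by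
        by_contra hcon
        push Not at hcon
        exact c2 ⟨h3, hcon⟩
      have h5 := chi_add (n := n) f g φ ψ
      have e1 : f + g = d := by omega
      have e2 : φ + ψ = m := by omega
      rw [e1, e2] at h5
      have h6 := prod_nonneg hn hP (by rw [hA1]; exact one_pos :
        0 < Module.finrank ℂ ↥(VS (fun j => aff (P j)) (fun _ => φ) f)) h3
      have h7 := hd.2
      rw [hdim] at h7
      linarith
    · -- the multiplicities of the orbit are at least `m`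
      have e0 : m - φ = 0 := by omega
      rw [e0, vs_zero] at hdim
      have hAm : A ∈ VS (fun j => aff (P j)) (fun _ : Fin n => m) f :=
        (mem_VS _ _ _ _).2 ⟨hA.hom, fun j => van_mono hφm (hA.ord j).1⟩
      have hpos : 0 < Module.finrank ℂ ↥(VS (fun j => aff (P j)) (fun _ : Fin n => m) f) := by
        have hfin := vs_fin (fun j => aff (P j)) (fun _ : Fin n => m) f
        rw [Module.finrank_pos_iff]
        exact ⟨⟨A, hAm⟩, 0, fun h => hA.ne (congrArg Subtype.val h)⟩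
      have hsf : Sp P f m := by
        refine ⟨hpos, ?_⟩
        by_contra hcon
        push Not at hcon
        have h2 := chi_le_dim P f (fun _ : Fin n => m)
        have h3 := persist P (fun _ : Fin n => m) (le_antisymm hcon h2) (d - f)
        rw [Nat.add_sub_cancel' hfd] at h3
        have h4 := hd.2
        rw [h3] at h4
        exact lt_irrefl _ h4
      have hfd' : f = d := sp_unique hn hP hm hsf hd
      have hφm' : φ = m := by
        by_contra hne
        have h2 : m + 1 ≤ φ := by omega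
        have h3 := nag hn hP (m := φ) (d := f) (by rw [hA1]; exact one_pos) (by omega)
        have h4 := sp_win hn hP hm hd
        rw [← hfd'] at h4
        have h5 : √(n : ℝ) * (m + 1) ≤ √(n : ℝ) * φ :=
          mul_le_mul_of_nonneg_left (by exact_mod_cast h2) (Real.sqrt_nonneg _)
        linarith
      subst hfd'
      subst hφm'
      exact ⟨φ, f, hm, le_rfl, le_rfl, hd, Or.inr ⟨hA1, A, hA⟩⟩

/-- Below the special degree there are no forms. -/
theorem sp_below {n : ℕ} (hn : 10 ≤ n) {P : Fin n → Fin 2 → ℂ} (hP : Gen P) {m d : ℕ}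
    (hm : 1 ≤ m) (h : Sp P d m) {e : ℕ} (he : e < d) :
    Module.finrank ℂ ↥(VS (fun j => aff (P j)) (fun _ : Fin n => m) e) = 0 := by
  by_contra hcon
  have h1 : ¬ Sp P e m := fun h' => by
    have := sp_unique hn hP hm h h'
    omega
  have h2 := chi_le_dim P e (fun _ : Fin n => m)
  have h3 : (Module.finrank ℂ ↥(VS (fun j => aff (P j)) (fun _ : Fin n => m) e) : ℤ) ≤
      chi e (fun _ : Fin n => m) := by
    by_contra hc
    push Not at hc
    exact h1 ⟨by omega, hc⟩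
  have h4 := persist P (fun _ : Fin n => m) (le_antisymm h3 h2) (d - e)
  rw [Nat.add_sub_cancel' he.le] at h4
  have h5 := h.2
  rw [h4] at h5
  exact lt_irrefl _ h5

end Pool.Agent.X157.W
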