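import Pool.Agent.X157.W.Exc
import Pool.Agent.X157.W.Xu
import Pool.Agent.TH167.CL.Neg

set_option autoImplicit false

/-!
# Intersection numbers with `(-1)`-curves
-/

namespace Pool.Agent.X157.W

open MvPolynomial Pool.Agent.W609 Pool.Agent.W609.CR Pool.Agent.TH167 Pool.Agent.TH167.SH

theorem Ic.xu {s : ℕ} {P : Fin s → Fin 2 → ℂ} (hP : Gen P) {d : ℕ} {w : Fin s → ℕ}
    (h : Ic P d w) (k : Fin s) : (w k : ℤ) = 0 ∨ 0 ≤ ip d w d w + w k := by
  rcases Nat.eq_zero_or_pos (w k) with h0 | h0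
  · left
    rw [h0]
    rfl
  · right
    obtain ⟨G, hG, hGe, hGo⟩ := h
    have h1 := Pool.Agent.X157.W.xu hP hG hGe hGo h0
    have h2 : ((∑ j, w j ^ 2 : ℕ) : ℤ) ≤ ((d ^ 2 + w k : ℕ) : ℤ) := by exact_mod_cast h1
    push_cast at h2
    unfold ip
    have h3 : ∑ j, (w j : ℤ) * w j = ∑ j, (w j : ℤ) ^ 2 :=
      Finset.sum_congr rfl fun j _ => by ring
    rw [h3]
    nlinarith

/-- The inequality of Xu and Ein-Lazarsfeld at all `(-1)`-curves. -/
theorem pair_xu {r : ℕ} {P : Fin (r + 4) → Fin 2 → ℂ} (hP : Gen P) {e : ℕ}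
    {u : Fin (r + 4) → ℕ} (hE : Ic P e u) (h1 : ip e u e u = -1) (h2 : kk e u = 1) {d : ℕ}
    {w : Fin (r + 4) → ℕ} (hC : Ic P d w) (hne : NotExc d w) :
    ip d w e u = 0 ∨ 0 ≤ ip d w d w + ip d w e u := by
  obtain ⟨d', w', k, b1, b2, b3, b4, b5, b6⟩ := exc_pair hP e u hE h1 h2 d w hC hne
  rcases b1.xu hP k with h | h
  · left
    rw [← b5, h]
  · right
    rw [b3, b5] at h
    exact h

/-- Negative curves and `(-1)`-curves. -/
theorem pair_neg {r : ℕ} {P : Fin (r + 4) → Fin 2 → ℂ} (hP : Gen P) {e : ℕ}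
    {u : Fin (r + 4) → ℕ} (hE : Ic P e u) (h1 : ip e u e u = -1) (h2 : kk e u = 1) {d : ℕ}
    {w : Fin (r + 4) → ℕ} (hC : Ic P d w) (hne : NotExc d w) (hneg : ip d w d w < 0) :
    ip d w e u = 0 ∨ (ip d w e u = 1 ∧ ip d w d w = -1) ∨ 4 ≤ ip d w e u := by
  obtain ⟨d', w', k, b1, b2, b3, b4, b5, b6⟩ := exc_pair hP e u hE h1 h2 d w hC hne
  obtain ⟨G, hG, hGe, hGo⟩ := b1
  have h3 := CL.neg_cl hP hG hGe hGo (by rw [b3]; exact hneg) b2
  rw [← b5]
  rcases Nat.eq_zero_or_pos (w' k) with h0 | h0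
  · left
    rw [h0]
    rfl
  · right
    rcases h3 with h3 | ⟨h3, j, h4, h5⟩
    · right
      exact_mod_cast h3 k (by omega)
    · rcases eq_or_ne k j with hkj | hkj
      · left
        refine ⟨?_, by rw [← b3]; exact h3⟩
        rw [hkj, h4]
        rfl
      · right
        exact_mod_cast h5 k hkj (by omega)

end Pool.Agent.X157.W
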