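import Pool.Agent.X157.W.Gcd

set_option autoImplicit false

/-!
# The fixed part of a uniform system: numbers
-/

namespace Pool.Agent.X157.W

open MvPolynomial Pool.Agent.W609 Pool.Agent.W609.CR Pool.Agent.TH167 Pool.Agent.TH167.SH
  Pool.Agent.TH167.TT

/-- A form with equal multiplicities. -/
structure Rg {n : ℕ} (P : Fin n → Fin 2 → ℂ) (f φ : ℕ) (A : MvPolynomial (Fin 3) ℂ) : Prop where
  ne : A ≠ 0
  hom : A.IsHomogeneous f
  ord : ∀ j, Ord (aff (P j)) φ A

theorem rg_dim {n : ℕ} {P : Fin n → Fin 2 → ℂ} {d m : ℕ}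
    {F : MvPolynomial (Fin 3) ℂ} (hF0 : F ≠ 0) (hF : F ∈ VS (fun j => aff (P j)) (fun _ => m) d)
    {f φ : ℕ} {A : MvPolynomial (Fin 3) ℂ} (hA : Rg P f φ A)
    (hdvd : ∀ F ∈ VS (fun j => aff (P j)) (fun _ => m) d, A ∣ F) :
    f ≤ d ∧ Module.finrank ℂ ↥(VS (fun j => aff (P j)) (fun _ => m) d) =
      Module.finrank ℂ ↥(VS (fun j => aff (P j)) (fun _ => m - φ) (d - f)) := by
  obtain ⟨H, hH⟩ := hdvd F hF
  obtain ⟨h1, -⟩ := mem_of_factor hF hF0 hA.hom hA.ord hH
  exact ⟨h1, fixed_dim hF0 hF hA.ne hA.hom hA.ord hdvd⟩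

/-- Common factors in one degree are common factors in all lower degrees. -/
theorem dvd_down' {n : ℕ} {P : Fin n → Fin 2 → ℂ} {d m f φ : ℕ} {A : MvPolynomial (Fin 3) ℂ}
    (hA : Rg P f φ A) (hAd : ∀ F ∈ VS (fun j => aff (P j)) (fun _ => m) d, A ∣ F) {j : ℕ}
    (hj : j ≤ d) : ∀ K ∈ VS (fun j => aff (P j)) (fun _ : Fin n => m) j, A ∣ K := by
  intro K hK
  have hK' := (mem_VS _ _ _ _).1 hK
  obtain ⟨k, hk⟩ : ∃ k, k = d - j := ⟨_, rfl⟩
  have hX : ∀ l : Fin 3, A ∣ X l ^ k * K := by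
    intro l
    apply hAd
    refine (mem_VS _ _ _ _).2 ⟨?_, fun i => ?_⟩
    · have h7 := ((isHomogeneous_X ℂ l).pow k).mul hK'.1
      have e : 1 * k + j = d := by omega
      rwa [e] at h7
    · have h7 := van_mul (van_zero (aff (P i)) (X l ^ k : MvPolynomial (Fin 3) ℂ)) (hK'.2 i)
      rwa [zero_add] at h7
  have hrp : IsRelPrime ((X 0 : MvPolynomial (Fin 3) ℂ) ^ k) (X 2 ^ k) := by
    refine IsRelPrime.pow ?_
    have hx : Prime (X 0 : MvPolynomial (Fin 3) ℂ) := MvPolynomial.X_prime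
    rw [hx.irreducible.isRelPrime_iff_not_dvd]
    intro hd
    have := (MvPolynomial.X_dvd_X (R := ℂ) (i := (0 : Fin 3)) (j := 2)).1 hd
    exact absurd this (by decide)
  obtain ⟨a, ha⟩ := hX 0
  obtain ⟨c, hc⟩ := hX 2
  have h7 : X 2 ^ k * a = X 0 ^ k * c := by
    have h8 : A * (X 2 ^ k * a) = A * (X 0 ^ k * c) := by
      calc A * (X 2 ^ k * a) = X 2 ^ k * (A * a) := by ring
        _ = X 2 ^ k * (X 0 ^ k * K) := by rw [ha]
        _ = X 0 ^ k * (X 2 ^ k * K) := by ring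
        _ = X 0 ^ k * (A * c) := by rw [hc]
        _ = A * (X 0 ^ k * c) := by ring
    exact mul_left_cancel₀ hA.ne h8
  obtain ⟨a', ha'⟩ := hrp.dvd_of_dvd_mul_left (Dvd.intro c h7.symm)
  refine ⟨a', mul_left_cancel₀ (pow_ne_zero k (X_ne_zero (0 : Fin 3))) ?_⟩
  rw [ha, ha']
  ring

/-- The multiplicities of a common factor are smaller than those of the system. -/
theorem phi_lt' {n : ℕ} (hn : 10 ≤ n) {P : Fin n → Fin 2 → ℂ} (hP : Gen P) {d m f φ : ℕ}
    {F A : MvPolynomial (Fin 3) ℂ} (hF0 : F ≠ 0)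
    (hF : F ∈ VS (fun j => aff (P j)) (fun _ => m) d) (hf : 0 < f)
    (hA : Rg P f φ A) (hAd : ∀ F ∈ VS (fun j => aff (P j)) (fun _ => m) d, A ∣ F)
    (hA1 : Module.finrank ℂ ↥(VS (fun j => aff (P j)) (fun _ : Fin n => φ) f) = 1)
    (hfd : f < d) : φ < m := by
  by_contra hcon
  push Not at hcon
  obtain ⟨n1, n2, n3⟩ := orb_num hn hP hf hA1
  have e0 : m - φ = 0 := by omega
  rcases Nat.eq_zero_or_pos m with hm0 | hm0
  · subst hm0
    obtain ⟨-, hdim⟩ := rg_dim hF0 hF hA hAd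
    rw [e0, vs_zero, vs_zero] at hdim
    have := choose_lt (a := d - f) (b := d) (by omega)
    omega
  have hfin : ∀ e, Module.Finite ℂ ↥(VS (fun j => aff (P j)) (fun _ : Fin n => m) e) :=
    fun e => vs_fin (fun j => aff (P j)) (fun _ : Fin n => m) e
  have hAm : A ∈ VS (fun j => aff (P j)) (fun _ : Fin n => m) f :=
    (mem_VS _ _ _ _).2 ⟨hA.hom, fun j => van_mono hcon (hA.ord j).1⟩
  have hAm1 : X 2 * A ∈ VS (fun j => aff (P j)) (fun _ : Fin n => m) (f + 1) := by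
    refine (mem_VS _ _ _ _).2 ⟨?_, fun j => ?_⟩
    · have h7 := (isHomogeneous_X ℂ (2 : Fin 3)).mul hA.hom
      rwa [add_comm] at h7
    · have h7 := van_mul (van_zero (aff (P j)) (X 2 : MvPolynomial (Fin 3) ℂ))
        (van_mono hcon (hA.ord j).1)
      rwa [zero_add] at h7
  have hA10 : X 2 * A ≠ 0 := mul_ne_zero (X_ne_zero 2) hA.ne
  have d0 : Module.finrank ℂ ↥(VS (fun j => aff (P j)) (fun _ : Fin n => m) f) = 1 := by
    obtain ⟨-, h1⟩ := rg_dim hA.ne hAm hA (dvd_down' hA hAd hfd.le)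
    rw [h1, e0, vs_zero, Nat.sub_self]
    decide
  have d1 : Module.finrank ℂ ↥(VS (fun j => aff (P j)) (fun _ : Fin n => m) (f + 1)) = 3 := by
    obtain ⟨-, h1⟩ := rg_dim hA10 hAm1 hA (dvd_down' hA hAd hfd)
    rw [h1, e0, vs_zero, Nat.add_sub_cancel_left]
    decide
  -- the degree `f` is special
  have hsf : Sp P f m := by
    refine ⟨by rw [d0]; exact one_pos, ?_⟩
    by_contra hc
    push Not at hc
    have h2 := chi_le_dim P f (fun _ : Fin n => m)
    have h3 := persist P (fun _ : Fin n => m) (le_antisymm hc h2) 1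
    have h4 := chi_succ f (fun _ : Fin n => m)
    rw [d1, h4, ← le_antisymm hc h2, d0] at h3
    push_cast at h3
    omega
  have hsf1 : (Module.finrank ℂ ↥(VS (fun j => aff (P j)) (fun _ : Fin n => m) (f + 1)) : ℤ) =
      chi (f + 1) (fun _ : Fin n => m) := by
    refine le_antisymm ?_ (chi_le_dim P (f + 1) _)
    by_contra hc
    push Not at hc
    have := sp_unique hn hP hm0 hsf ⟨by rw [d1]; decide, hc⟩
    omega
  rw [d1] at hsf1
  -- `f ^ 2 + 5 f = n m (m + 1)`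
  have h5 := two_chi (f + 1) (fun _ : Fin n => m)
  rw [ip_const, kk_const, ← hsf1] at h5
  push_cast at h5
  have h6 : (f : ℤ) ^ 2 + 5 * f = n * (m * m) + n * m := by linear_combination -h5
  have h6R : (f : ℝ) ^ 2 + 5 * f = n * (m * m) + n * m := by exact_mod_cast h6
  have k1 := nag hn hP (m := m) (d := f) (by rw [d0]; exact one_pos) hm0
  have hnR : (10 : ℝ) ≤ n := by exact_mod_cast hn
  have hmR : (1 : ℝ) ≤ m := by exact_mod_cast hm0
  obtain ⟨s, hs⟩ : ∃ s, s = √(n : ℝ) := ⟨_, rfl⟩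
  have hss : s * s = n := by rw [hs]; exact Real.mul_self_sqrt (by linarith)
  have hs3 : 3 ≤ s := by
    rw [hs]
    exact Real.le_sqrt_of_sq_le (by linarith)
  rw [← hs] at k1
  rcases le_or_gt n 25 with h25 | h25
  · -- `s ≤ 5`
    have hs5 : s ≤ 5 := by
      rw [hs]
      apply Real.sqrt_le_iff.2
      refine ⟨by norm_num, ?_⟩
      have : (n : ℝ) ≤ 25 := by exact_mod_cast h25
      linarith
    have h7 : (s * m) * (s * m) < f * f := mul_self_lt_mul_self (by positivity) k1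
    have h8 : (s * m) * (s * m) = n * (m * m) := by
      rw [← hss]
      ring
    have h9 : n * (m : ℝ) = s * (s * m) := by rw [← hss]; ring
    have h10 : s * (s * m) ≤ 5 * (s * m) := mul_le_mul_of_nonneg_right hs5 (by positivity)
    nlinarith
  · -- the window
    have h26 : (26 : ℝ) ≤ n := by exact_mod_cast h25
    have h7 := sp_win2 hn hP hm0 hsf
    rw [← hs] at h7
    have hs5 : 5 < s := by
      rw [hs]
      exact Real.lt_sqrt_of_sq_lt (by linarith)
    have h8 : 9 / (4 * s) ≤ 9 / 20 := by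
      apply div_le_div_of_nonneg_left (by norm_num) (by norm_num)
      linarith
    have h9 : (2 * (f : ℝ) + 5) ^ 2 < (s * (2 * m + 1)) ^ 2 := by
      have e1 : (s * (2 * m + 1)) ^ 2 = 4 * (n * (m * m) + n * m) + n := by
        rw [← hss]
        ring
      rw [e1, ← h6R]
      nlinarith
    have h10 : 2 * (f : ℝ) + 5 < s * (2 * m + 1) := lt_of_pow_lt_pow_left₀ 2 (by positivity) h9
    linarith

/-- **Common factors.** -/
theorem common' {n : ℕ} (hn : 10 ≤ n) {P : Fin n → Fin 2 → ℂ} (hP : Gen P) {d m f φ : ℕ}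
    {F A : MvPolynomial (Fin 3) ℂ} (hF0 : F ≠ 0)
    (hF : F ∈ VS (fun j => aff (P j)) (fun _ => m) d) (hf : 0 < f)
    (hA : Rg P f φ A) (hAd : ∀ F ∈ VS (fun j => aff (P j)) (fun _ => m) d, A ∣ F)
    (hA1 : Module.finrank ℂ ↥(VS (fun j => aff (P j)) (fun _ : Fin n => φ) f) = 1) :
    (f = d ∧ Module.finrank ℂ ↥(VS (fun j => aff (P j)) (fun _ : Fin n => m) d) = 1) ∨
      (f < d ∧ φ < m ∧ (Sp P f φ ∨ Sp P (d - f) (m - φ))) := by
  obtain ⟨hfd, hdim⟩ := rg_dim hF0 hF hA hAd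
  have hpos : 0 < Module.finrank ℂ ↥(VS (fun j => aff (P j)) (fun _ : Fin n => m) d) := by
    have hfin := vs_fin (fun j => aff (P j)) (fun _ : Fin n => m) d
    rw [Module.finrank_pos_iff]
    exact ⟨⟨F, hF⟩, 0, fun h => hF0 (congrArg Subtype.val h)⟩
  obtain ⟨n1, n2, n3⟩ := orb_num hn hP hf hA1
  rcases Nat.eq_or_lt_of_le hfd with hfd' | hfd'
  · -- the degree of the system
    left
    refine ⟨hfd', ?_⟩
    rw [hdim, hfd', Nat.sub_self]
    -- a form of degree zero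
    have hpos' := hpos
    rw [hdim, hfd', Nat.sub_self] at hpos'
    have h2 : m - φ = 0 := by
      by_contra hcon
      have h3 := nag hn hP hpos' (by omega)
      have h4 : (0 : ℝ) ≤ √(n : ℝ) * ((m - φ : ℕ) : ℝ) := by positivity
      push_cast at h3
      linarith
    rw [h2, vs_zero]
    decide
  · right
    have hφm := phi_lt' hn hP hF0 hF hf hA hAd hA1 hfd'
    refine ⟨hfd', hφm, ?_⟩
    by_contra hcon
    push Not at hcon
    obtain ⟨c1, c2⟩ := hcon
    have h3 : 0 < Module.finrank ℂ ↥(VS (fun j => aff (P j)) (fun _ : Fin n => m - φ) (d - f)) := by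
      rw [← hdim]
      exact hpos
    have h4 : (Module.finrank ℂ ↥(VS (fun j => aff (P j)) (fun _ : Fin n => m - φ) (d - f)) : ℤ) ≤
        chi (d - f) (fun _ : Fin n => m - φ) := by
      by_contra hc
      push Not at hc
      exact c2 ⟨h3, hc⟩
    have h4' : (1 : ℤ) ≤ chi f (fun _ : Fin n => φ) := by
      by_contra hc
      push Not at hc
      exact c1 ⟨by rw [hA1]; exact one_pos, by rw [hA1]; exact_mod_cast hc⟩
    have h5 := chi_add (n := n) f (d - f) φ (m - φ)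
    rw [Nat.add_sub_cancel' hfd, Nat.add_sub_cancel' hφm.le] at h5
    -- strict inequality
    have h6 : (0 : ℤ) < (f : ℤ) * (d - f : ℕ) - n * (φ * (m - φ : ℕ)) := by
      have k1 := nag hn hP (m := φ) (d := f) (by rw [hA1]; exact one_pos) n1
      have k2 := nag hn hP h3 (by omega)
      have hss : √(n : ℝ) * √(n : ℝ) = n := Real.mul_self_sqrt (Nat.cast_nonneg n)
      have hs0 := Real.sqrt_nonneg (n : ℝ)
      have k3 : (√(n : ℝ) * φ) * (√(n : ℝ) * (m - φ : ℕ)) < (f : ℝ) * (d - f : ℕ) :=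
        mul_lt_mul'' k1 k2 (by positivity) (by positivity)
      have k4 : (√(n : ℝ) * φ) * (√(n : ℝ) * (m - φ : ℕ)) = n * (φ * (m - φ : ℕ)) := by
        calc (√(n : ℝ) * φ) * (√(n : ℝ) * (m - φ : ℕ)) =
            (√(n : ℝ) * √(n : ℝ)) * (φ * (m - φ : ℕ)) := by ring
          _ = n * (φ * (m - φ : ℕ)) := by rw [hss]
      rw [k4] at k3
      have k5 : ((n * (φ * (m - φ)) : ℕ) : ℝ) < ((f * (d - f) : ℕ) : ℝ) := by
        push_cast
        exact k3
      have k6 : n * (φ * (m - φ)) < f * (d - f) := by exact_mod_cast k5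
      have k7 : ((n * (φ * (m - φ)) : ℕ) : ℤ) < ((f * (d - f) : ℕ) : ℤ) := by exact_mod_cast k6
      push_cast at k7 ⊢
      linarith
    have h7 := chi_le_dim P d (fun _ : Fin n => m)
    rw [hdim] at h7
    linarith


/-- The square identity. -/
theorem eight_chi {n : ℕ} (d m : ℕ) : (2 * (d : ℝ) + 3) ^ 2 - n * (2 * m + 1) ^ 2 =
    8 * ((chi d (fun _ : Fin n => m) : ℤ) : ℝ) + 1 - n := by
  have h3 := two_chi d (fun _ : Fin n => m)
  rw [ip_const, kk_const] at h3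
  have h4 : 2 * ((chi d (fun _ : Fin n => m) : ℤ) : ℝ) =
      ((d : ℝ) * d - n * (m * m)) + (3 * d - n * m) + 2 := by exact_mod_cast h3
  linear_combination (-4) * h4

theorem sqrt_facts {n : ℕ} (hn : 10 ≤ n) : ∃ s : ℝ, s = √(n : ℝ) ∧ s * s = n ∧ 3 < s := by
  have hnR : (10 : ℝ) ≤ n := by exact_mod_cast hn
  refine ⟨√(n : ℝ), rfl, Real.mul_self_sqrt (by linarith), ?_⟩
  exact Real.lt_sqrt_of_sq_lt (by linarith)

/-- One dimensional systems are close to the Nagata ray. -/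
theorem one_hi {n : ℕ} (hn : 10 ≤ n) {P : Fin n → Fin 2 → ℂ} {d m : ℕ}
    (h : Module.finrank ℂ ↥(VS (fun j => aff (P j)) (fun _ : Fin n => m) d) = 1) :
    (d : ℝ) < √(n : ℝ) * m + (√(n : ℝ) - 3) / 2 := by
  obtain ⟨s, hs, hss, hs3⟩ := sqrt_facts hn
  rw [← hs]
  have hnR : (10 : ℝ) ≤ n := by exact_mod_cast hn
  have h2 := chi_le_dim P d (fun _ : Fin n => m)
  rw [h] at h2
  have h2' : ((chi d (fun _ : Fin n => m) : ℤ) : ℝ) ≤ 1 := by exact_mod_cast h2
  have h3 := eight_chi (n := n) d m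
  have h4 : (2 * (d : ℝ) + 3) ^ 2 < (s * (2 * m + 1)) ^ 2 := by
    have e1 : (s * (2 * m + 1)) ^ 2 = n * (2 * (m : ℝ) + 1) ^ 2 := by
      rw [← hss]
      ring
    rw [e1]
    linarith
  have hm0 : (0 : ℝ) ≤ m := Nat.cast_nonneg m
  have h5 : 2 * (d : ℝ) + 3 < s * (2 * m + 1) := lt_of_pow_lt_pow_left₀ 2 (by positivity) h4
  linarith

/-- Special systems are close to the Nagata ray. -/
theorem sp_hi {n : ℕ} (hn : 10 ≤ n) {P : Fin n → Fin 2 → ℂ} (hP : Gen P) {m d : ℕ}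
    (hm : 1 ≤ m) (h : Sp P d m) : (d : ℝ) ≤ √(n : ℝ) * m + (√(n : ℝ) - 3) / 2 +
      min (√(n : ℝ) - 3) (2 / 3 + 1 / (4 * √(n : ℝ))) / 2 := by
  obtain ⟨F, hF, hF'⟩ := Pool.Agent.TH641.NW.expDim_uni_win2 (L := ℂ) hn hm
  have h0 : aeval (fun ij : Fin n × Fin 2 => P ij.1 ij.2) F ≠ 0 := fun h0 =>
    hF (hP.eq_zero_of_aeval_eq_zero F h0)
  by_contra hcon
  push Not at hcon
  refine (sp_iff P d m).1 h (hF' P h0 d (Or.inr ?_))
  have e : √(n : ℝ) * (2 * m + 1) = 2 * (√(n : ℝ) * m) + √(n : ℝ) := by ring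
  rw [e]
  linarith

/-- If there is a fixed part, then the system is close to the Nagata ray. -/
theorem fixed_hi {n : ℕ} (hn : 10 ≤ n) {P : Fin n → Fin 2 → ℂ} (hP : Gen P) {d m f φ : ℕ}
    {F A : MvPolynomial (Fin 3) ℂ} (hF0 : F ≠ 0)
    (hF : F ∈ VS (fun j => aff (P j)) (fun _ => m) d) (hf : 0 < f)
    (hA : Rg P f φ A) (hAd : ∀ F ∈ VS (fun j => aff (P j)) (fun _ => m) d, A ∣ F)
    (hA1 : Module.finrank ℂ ↥(VS (fun j => aff (P j)) (fun _ : Fin n => φ) f) = 1) :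
    (d : ℝ) < √(n : ℝ) * m + (√(n : ℝ) - 3) +
      min (√(n : ℝ) - 3) (2 / 3 + 1 / (4 * √(n : ℝ))) / 2 := by
  obtain ⟨s, hs, hss, hs3⟩ := sqrt_facts hn
  have hmin : 0 < min (√(n : ℝ) - 3) (2 / 3 + 1 / (4 * √(n : ℝ))) := by
    rw [← hs]
    refine lt_min (by linarith) (by positivity)
  obtain ⟨hfd, hdim⟩ := rg_dim hF0 hF hA hAd
  obtain ⟨n1, n2, n3⟩ := orb_num hn hP hf hA1
  have hAhi := one_hi hn hA1
  rcases common' hn hP hF0 hF hf hA hAd hA1 with ⟨h1, h2⟩ | ⟨h1, h2, -⟩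
  · have := one_hi hn h2
    rw [← hs] at this hmin ⊢
    linarith
  · have hpos : 0 < Module.finrank ℂ ↥(VS (fun j => aff (P j)) (fun _ : Fin n => m - φ) (d - f)) := by
      rw [← hdim]
      have hfin := vs_fin (fun j => aff (P j)) (fun _ : Fin n => m) d
      rw [Module.finrank_pos_iff]
      exact ⟨⟨F, hF⟩, 0, fun h => hF0 (congrArg Subtype.val h)⟩
    obtain ⟨d', hd'⟩ : ∃ d', d' = d - f := ⟨_, rfl⟩
    obtain ⟨m', hm'⟩ : ∃ m', m' = m - φ := ⟨_, rfl⟩
    have hd : d = f + d' := by omega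
    have hm : m = φ + m' := by omega
    have hm'0 : 0 < m' := by omega
    rw [← hd', ← hm'] at hpos hdim
    have hdR : (d : ℝ) = f + d' := by rw [hd]; push_cast; ring
    have hmR : (m : ℝ) = φ + m' := by rw [hm]; push_cast; ring
    by_cases hsp : Sp P d' m'
    · have h3 := sp_hi hn hP hm'0 hsp
      rw [← hs] at h3 hAhi ⊢
      rw [hdR, hmR]
      linarith
    · have h4 : (Module.finrank ℂ ↥(VS (fun j => aff (P j)) (fun _ : Fin n => m') d') : ℤ) ≤
          chi d' (fun _ : Fin n => m') := by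
        by_contra hc
        push Not at hc
        exact hsp ⟨hpos, hc⟩
      have h5 := chi_add (n := n) f d' φ m'
      have h6 := chi_le_dim P d (fun _ : Fin n => m)
      rw [hdim] at h6
      rw [← hd, ← hm] at h5
      have h7 : chi f (fun _ : Fin n => φ) - 1 + ((f : ℤ) * d' - n * (φ * m')) ≤ 0 := by linarith
      have h8 := two_chi f (fun _ : Fin n => φ)
      rw [ip_const, kk_const] at h8
      have h9 : ((f : ℤ) * f - n * (φ * φ)) + (3 * f - n * φ) + 2 * ((f : ℤ) * d' - n * (φ * m')) ≤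
          0 := by linarith
      have h9R : ((f : ℝ) * f - n * (φ * φ)) + (3 * f - n * φ) + 2 * ((f : ℝ) * d' - n * (φ * m')) ≤
          0 := by exact_mod_cast h9
      have k1 := nag hn hP (m := φ) (d := f) (by rw [hA1]; exact one_pos) n1
      have k2 := nag hn hP hpos hm'0
      rw [← hs] at k1 k2 hmin ⊢
      obtain ⟨a, ha⟩ : ∃ a, a = (f : ℝ) - s * φ := ⟨_, rfl⟩
      obtain ⟨c, hc⟩ : ∃ c, c = (d' : ℝ) - s * m' := ⟨_, rfl⟩
      have ha0 : 0 < a := by rw [ha]; linarith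
      have hc0 : 0 < c := by rw [hc]; linarith
      have hφR : (1 : ℝ) ≤ φ := by exact_mod_cast n1
      have hm'R : (1 : ℝ) ≤ m' := by exact_mod_cast hm'0
      have ef : (f : ℝ) = s * φ + a := by rw [ha]; ring
      have ed : (d' : ℝ) = s * m' + c := by rw [hc]; ring
      have key : s * φ * (2 * (a + c) - (s - 3)) + (a * a + 3 * a + 2 * (s * m' * a) + 2 * (a * c)) ≤
          0 := by
        have e1 : s * φ * (2 * (a + c) - (s - 3)) + (a * a + 3 * a + 2 * (s * m' * a) + 2 * (a * c)) =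
            ((f : ℝ) * f - n * (φ * φ)) + (3 * f - n * φ) + 2 * ((f : ℝ) * d' - n * (φ * m')) := by
          rw [ef, ed, ← hss]
          ring
        rw [e1]
        exact h9R
      have hpos2 : 0 < a * a + 3 * a + 2 * (s * m' * a) + 2 * (a * c) := by positivity
      have hneg : s * φ * (2 * (a + c) - (s - 3)) < 0 := by linarith
      have hsφ : 0 < s * φ := by positivity
      have h10 : 2 * (a + c) - (s - 3) < 0 := by
        by_contra hcon
        push Not at hcon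
        have := mul_nonneg hsφ.le hcon
        linarith
      have e2 : (d : ℝ) = s * m + (a + c) := by
        rw [hdR, hmR, ef, ed]
        ring
      rw [e2]
      linarith

end Pool.Agent.X157.W
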