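import Pool.Agent.X157.W.Fix

set_option autoImplicit false

/-!
# The multiplicities of a fixed component are a function of those of the system, except at one point
-/

namespace Pool.Agent.X157.W

open MvPolynomial Pool.Agent.W609 Pool.Agent.W609.CR Pool.Agent.TH167 Pool.Agent.TH167.SH
  Pool.Agent.TH167.TT

/-- Two families of fixed components with the same sum. -/
theorem fam_fix {ι κ : Type} {s : ℕ} {P : Fin s → Fin 2 → ℂ} {d : ℕ} {w : Fin s → ℕ}
    {F : MvPolynomial (Fin 3) ℂ} (hF0 : F ≠ 0) (hF : F ∈ VS (fun j => aff (P j)) w d)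
    (T : Finset ι) (U : Finset κ) (e : ι → ℕ) (u : ι → Fin s → ℕ) (e' : κ → ℕ)
    (u' : κ → Fin s → ℕ)
    (hT : ∀ t ∈ T, ∃ G, Fx P d w (e t) (u t) G)
    (hne : ∀ t ∈ T, ∀ t' ∈ T, t ≠ t' → ¬ (e t = e t' ∧ u t = u t'))
    (hU : ∀ t ∈ U, Ic P (e' t) (u' t))
    (h1 : ∑ t ∈ T, e t = ∑ t ∈ U, e' t)
    (h2 : ∀ j, ∑ t ∈ T, u t j = ∑ t ∈ U, u' t j) (t : ι) (ht : t ∈ T) :
    ∃ t' ∈ U, e t = e' t' ∧ u t = u' t' := by
  classical
  have hT' : ∀ t : ι, ∃ G, t ∈ T → Fx P d w (e t) (u t) G := by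
    intro t
    by_cases ht : t ∈ T
    · obtain ⟨G, hG⟩ := hT t ht
      exact ⟨G, fun _ => hG⟩
    · exact ⟨0, fun h => absurd h ht⟩
  have hU' : ∀ t : κ, ∃ G : MvPolynomial (Fin 3) ℂ, t ∈ U → Irreducible G ∧
      G.IsHomogeneous (e' t) ∧ ∀ j, Ord (aff (P j)) (u' t j) G := by
    intro t
    by_cases ht : t ∈ U
    · obtain ⟨G, hG⟩ := hU t ht
      exact ⟨G, fun _ => hG⟩
    · exact ⟨0, fun h => absurd h ht⟩
  choose G hG using hT'
  choose G' hG' using hU'
  have hB1 : (∏ t ∈ U, G' t).IsHomogeneous (∑ t ∈ U, e' t) :=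
    MvPolynomial.IsHomogeneous.prod U G' e' fun t ht => (hG' t ht).2.1
  have hB2 : ∀ j, Ord (aff (P j)) (∑ t ∈ U, u' t j) (∏ t ∈ U, G' t) := fun j =>
    ord_prod U G' (fun t => u' t j) fun t ht => (hG' t ht).2.2 j
  obtain ⟨c, hc⟩ := rigid hF0 hF T G e u (fun t ht => hG t ht) hne (A := ∏ t ∈ U, G' t) (by
      refine (mem_VS _ _ _ _).2 ⟨?_, fun j => ?_⟩
      · rw [h1]
        exact hB1
      · show Van _ (∑ t ∈ T, u t j) _
        rw [h2 j]
        exact (hB2 j).1)
  have h3 : G t ∣ ∏ t ∈ U, G' t := by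
    rw [hc]
    exact Dvd.dvd.mul_left (Finset.dvd_prod_of_mem G ht) _
  obtain ⟨t', ht', h4⟩ := (Prime.dvd_finsetProd_iff (hG t ht).1.prime _).1 h3
  exact ⟨t', ht', assoc_class (hG t ht).1 (hG' t' ht').1 (hG t ht).2.1 (hG' t' ht').2.1
    (hG t ht).2.2.1 (hG' t' ht').2.2 h4⟩

theorem Fx.ic {s : ℕ} {P : Fin s → Fin 2 → ℂ} {d e : ℕ} {w u : Fin s → ℕ}
    {G : MvPolynomial (Fin 3) ℂ} (h : Fx P d w e u G) : Ic P e u := ⟨G, h.1, h.2.1, h.2.2.1⟩

/-- A graph without two disjoint edges and without triangles, on the level sets of `w`. -/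
theorem const_off {s : ℕ} (w u : Fin s → ℕ)
    (k1 : ∀ i j k l : Fin s, i ≠ j → k ≠ l → i ≠ k → i ≠ l → j ≠ k → j ≠ l →
      w i = w j → w k = w l → u i = u j ∨ u k = u l)
    (k2 : ∀ i j k : Fin s, i ≠ j → j ≠ k → i ≠ k → w i = w j → w j = w k →
      u i = u j ∨ u j = u k ∨ u i = u k) :
    ∃ I : Finset (Fin s), I.card ≤ 1 ∧ ∀ i j, i ∉ I → j ∉ I → w i = w j → u i = u j := by
  classical
  by_cases hE : ∀ i j, w i = w j → u i = u j
  · exact ⟨∅, by simp, fun i j _ _ h1 => hE i j h1⟩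
  push Not at hE
  obtain ⟨i, j, hij1, hij2⟩ := hE
  have hij : i ≠ j := fun h => hij2 (by rw [h])
  by_cases hEi : ∀ k l, k ≠ i → l ≠ i → w k = w l → u k = u l
  · refine ⟨{i}, by simp, fun k l hk hl h1 => hEi k l ?_ ?_ h1⟩
    · exact fun h => hk (Finset.mem_singleton.2 h)
    · exact fun h => hl (Finset.mem_singleton.2 h)
  push Not at hEi
  obtain ⟨k, l, hki, hli, hkl1, hkl2⟩ := hEi
  have hkl : k ≠ l := fun h => hkl2 (by rw [h])
  -- one of `k`, `l` is `j`
  obtain ⟨m, hmi, hmj, hm1, hm2⟩ : ∃ m, m ≠ i ∧ m ≠ j ∧ w j = w m ∧ u j ≠ u m := by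
    by_cases h1 : k = j
    · subst h1
      exact ⟨l, hli, hkl.symm, hkl1, hkl2⟩
    · by_cases h2 : l = j
      · subst h2
        exact ⟨k, hki, h1, hkl1.symm, hkl2.symm⟩
      · exfalso
        have h3 := k1 i j k l hij hkl (Ne.symm hki) (Ne.symm hli) (Ne.symm h1) (Ne.symm h2)
          hij1 hkl1
        rcases h3 with h3 | h3
        · exact hij2 h3
        · exact hkl2 h3
  by_cases hEj : ∀ k l, k ≠ j → l ≠ j → w k = w l → u k = u l
  · refine ⟨{j}, by simp, fun k l hk hl h1 => hEj k l ?_ ?_ h1⟩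
    · exact fun h => hk (Finset.mem_singleton.2 h)
    · exact fun h => hl (Finset.mem_singleton.2 h)
  exfalso
  push Not at hEj
  obtain ⟨k', l', hkj, hlj, hkl1', hkl2'⟩ := hEj
  have hkl' : k' ≠ l' := fun h => hkl2' (by rw [h])
  -- the pair `k', l'` meets `i, j` and `j, m`, so it is `i, m`
  have h4 : k' = i ∨ l' = i := by
    by_contra hcon
    push Not at hcon
    have h3 := k1 i j k' l' hij hkl' (Ne.symm hcon.1) (Ne.symm hcon.2) (Ne.symm hkj)
      (Ne.symm hlj) hij1 hkl1'
    rcases h3 with h3 | h3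
    · exact hij2 h3
    · exact hkl2' h3
  have h5 : k' = m ∨ l' = m := by
    by_contra hcon
    push Not at hcon
    have h3 := k1 j m k' l' (Ne.symm hmj) hkl' (Ne.symm hkj) (Ne.symm hlj) (Ne.symm hcon.1)
      (Ne.symm hcon.2) hm1 hkl1'
    rcases h3 with h3 | h3
    · exact hm2 h3
    · exact hkl2' h3
  have h6 : w i = w m ∧ u i ≠ u m := by
    rcases h4 with h4 | h4 <;> rcases h5 with h5 | h5
    · exact absurd (h5.symm.trans h4) hmi
    · exact ⟨by rw [← h4, ← h5]; exact hkl1', by rw [← h4, ← h5]; exact hkl2'⟩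
    · exact ⟨by rw [← h4, ← h5]; exact hkl1'.symm, by rw [← h4, ← h5]; exact hkl2'.symm⟩
    · exact absurd (h5.symm.trans h4) hmi
  rcases k2 i j m hij (Ne.symm hmj) (Ne.symm hmi) hij1 hm1 with h7 | h7 | h7
  · exact hij2 h7
  · exact hm2 h7
  · exact h6.2 h7

theorem sw_w {s : ℕ} {w : Fin s → ℕ} {i j : Fin s} (h : w i = w j) (x : Fin s) :
    w (Equiv.swap i j x) = w x := by
  by_cases h1 : x = i
  · rw [h1, Equiv.swap_apply_left, h]
  · by_cases h2 : x = j
    · rw [h2, Equiv.swap_apply_right, h]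
    · rw [Equiv.swap_apply_of_ne_of_ne h1 h2]

/-- **Fixed components are almost constant on the level sets of the multiplicities.** -/
theorem fx_const {s : ℕ} {P : Fin s → Fin 2 → ℂ} (hP : Gen P) {d : ℕ} {w : Fin s → ℕ}
    {F : MvPolynomial (Fin 3) ℂ} (hF0 : F ≠ 0) (hF : F ∈ VS (fun j => aff (P j)) w d)
    {e : ℕ} {u : Fin s → ℕ} {G : MvPolynomial (Fin 3) ℂ} (hG : Fx P d w e u G) :
    ∃ I : Finset (Fin s), I.card ≤ 1 ∧ ∀ i j, i ∉ I → j ∉ I → w i = w j → u i = u j := by
  classical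
  refine const_off w u ?_ ?_
  · intro i j k l hij hkl hik hil hjk hjl h1 h2
    by_contra hcon
    push Not at hcon
    obtain ⟨c1, c2⟩ := hcon
    obtain ⟨σ, hσ⟩ : ∃ σ, σ = Equiv.swap i j := ⟨_, rfl⟩
    obtain ⟨τ, hτ⟩ : ∃ τ, τ = Equiv.swap k l := ⟨_, rfl⟩
    have σi : σ i = j := by rw [hσ]; exact Equiv.swap_apply_left _ _
    have σj : σ j = i := by rw [hσ]; exact Equiv.swap_apply_right _ _
    have σk : σ k = k := by rw [hσ]; exact Equiv.swap_apply_of_ne_of_ne hik.symm hjk.symm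
    have σl : σ l = l := by rw [hσ]; exact Equiv.swap_apply_of_ne_of_ne hil.symm hjl.symm
    have τi : τ i = i := by rw [hτ]; exact Equiv.swap_apply_of_ne_of_ne hik hil
    have τj : τ j = j := by rw [hτ]; exact Equiv.swap_apply_of_ne_of_ne hjk hjl
    have τk : τ k = l := by rw [hτ]; exact Equiv.swap_apply_left _ _
    have τl : τ l = k := by rw [hτ]; exact Equiv.swap_apply_right _ _
    have wσ : ∀ x, w (σ x) = w x := fun x => by rw [hσ]; exact sw_w h1 x
    have wτ : ∀ x, w (τ x) = w x := fun x => by rw [hτ]; exact sw_w h2 x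
    obtain ⟨G1, hG1⟩ := hG.perm hP σ wσ
    obtain ⟨G2, hG2⟩ := hG.perm hP τ wτ
    obtain ⟨G3, hG3⟩ := hG.perm hP (σ * τ) (fun x => by
      rw [Equiv.Perm.mul_apply, wσ, wτ])
    have hT : ∀ t ∈ (Finset.univ : Finset (Fin 2)), ∃ G, Fx P d w e
        ((![u, fun x => u ((σ * τ) x)] : Fin 2 → Fin s → ℕ) t) G := by
      intro t _
      fin_cases t
      · exact ⟨G, hG⟩
      · exact ⟨G3, hG3⟩
    have hU : ∀ t ∈ (Finset.univ : Finset (Fin 2)), Ic P e
        ((![fun x => u (σ x), fun x => u (τ x)] : Fin 2 → Fin s → ℕ) t) := by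
      intro t _
      fin_cases t
      · exact hG1.ic
      · exact hG2.ic
    have hu3 : u ≠ fun x => u ((σ * τ) x) := by
      intro h
      have := congrFun h i
      simp only [Equiv.Perm.mul_apply, τi, σi] at this
      exact c1 this
    obtain ⟨t', -, -, h3⟩ := fam_fix hF0 hF (Finset.univ : Finset (Fin 2))
      (Finset.univ : Finset (Fin 2)) (fun _ => e) ![u, fun x => u ((σ * τ) x)] (fun _ => e)
      ![fun x => u (σ x), fun x => u (τ x)] hT (by
        intro t _ t' _ htt h
        fin_cases t <;> fin_cases t'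
        · exact htt rfl
        · exact hu3 h.2
        · exact hu3 h.2.symm
        · exact htt rfl) hU rfl (by
        intro x
        simp only [Fin.sum_univ_two, Matrix.cons_val_zero, Matrix.cons_val_one,
          Equiv.Perm.mul_apply]
        by_cases x1 : x = i
        · rw [x1, τi, σi]; ring
        · by_cases x2 : x = j
          · rw [x2, τj, σj]; ring
          · have e1 : σ x = x := by rw [hσ]; exact Equiv.swap_apply_of_ne_of_ne x1 x2
            by_cases x3 : x = k
            · rw [x3, τk, σl, σk]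
            · by_cases x4 : x = l
              · rw [x4, τl, σk, σl]
              · have e2 : τ x = x := by rw [hτ]; exact Equiv.swap_apply_of_ne_of_ne x3 x4
                rw [e2, e1]) 0 (Finset.mem_univ _)
    fin_cases t'
    · have := congrFun h3 i
      simp only [Fin.zero_eta, Matrix.cons_val_zero, σi] at this
      exact c1 this
    · have := congrFun h3 k
      simp only [Fin.mk_one, Matrix.cons_val_zero, Matrix.cons_val_one, τk] at this
      exact c2 this
  · intro i j k hij hjk hik h1 h2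
    by_contra hcon
    push Not at hcon
    obtain ⟨c1, c2, c3⟩ := hcon
    obtain ⟨σ, hσ⟩ : ∃ σ, σ = Equiv.swap i j := ⟨_, rfl⟩
    obtain ⟨τ, hτ⟩ : ∃ τ, τ = Equiv.swap j k := ⟨_, rfl⟩
    obtain ⟨ρ, hρ⟩ : ∃ ρ, ρ = Equiv.swap i k := ⟨_, rfl⟩
    have σi : σ i = j := by rw [hσ]; exact Equiv.swap_apply_left _ _
    have σj : σ j = i := by rw [hσ]; exact Equiv.swap_apply_right _ _
    have σk : σ k = k := by rw [hσ]; exact Equiv.swap_apply_of_ne_of_ne hik.symm hjk.symm
    have τi : τ i = i := by rw [hτ]; exact Equiv.swap_apply_of_ne_of_ne hij hik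
    have τj : τ j = k := by rw [hτ]; exact Equiv.swap_apply_left _ _
    have τk : τ k = j := by rw [hτ]; exact Equiv.swap_apply_right _ _
    have ρi : ρ i = k := by rw [hρ]; exact Equiv.swap_apply_left _ _
    have ρj : ρ j = j := by rw [hρ]; exact Equiv.swap_apply_of_ne_of_ne hij.symm hjk
    have ρk : ρ k = i := by rw [hρ]; exact Equiv.swap_apply_right _ _
    have wσ : ∀ x, w (σ x) = w x := fun x => by rw [hσ]; exact sw_w h1 x
    have wτ : ∀ x, w (τ x) = w x := fun x => by rw [hτ]; exact sw_w h2 x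
    have wρ : ∀ x, w (ρ x) = w x := fun x => by rw [hρ]; exact sw_w (h1.trans h2) x
    obtain ⟨G1, hG1⟩ := hG.perm hP σ wσ
    obtain ⟨G2, hG2⟩ := hG.perm hP τ wτ
    obtain ⟨G3, hG3⟩ := hG.perm hP ρ wρ
    obtain ⟨G4, hG4⟩ := hG.perm hP (σ * τ) (fun x => by
      rw [Equiv.Perm.mul_apply, wσ, wτ])
    obtain ⟨G5, hG5⟩ := hG.perm hP (τ * σ) (fun x => by
      rw [Equiv.Perm.mul_apply, wτ, wσ])
    have hT : ∀ t ∈ (Finset.univ : Finset (Fin 3)), ∃ G, Fx P d w e
        ((![u, fun x => u ((σ * τ) x), fun x => u ((τ * σ) x)] : Fin 3 → Fin s → ℕ) t) G := by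
      intro t _
      fin_cases t
      · exact ⟨G, hG⟩
      · exact ⟨G4, hG4⟩
      · exact ⟨G5, hG5⟩
    have hU : ∀ t ∈ (Finset.univ : Finset (Fin 3)), Ic P e
        ((![fun x => u (σ x), fun x => u (τ x), fun x => u (ρ x)] : Fin 3 → Fin s → ℕ) t) := by
      intro t _
      fin_cases t
      · exact hG1.ic
      · exact hG2.ic
      · exact hG3.ic
    have n1 : u ≠ fun x => u ((σ * τ) x) := by
      intro h
      have := congrFun h i
      simp only [Equiv.Perm.mul_apply, τi, σi] at this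
      exact c1 this
    have n2 : u ≠ fun x => u ((τ * σ) x) := by
      intro h
      have := congrFun h i
      simp only [Equiv.Perm.mul_apply, σi, τj] at this
      exact c3 this
    have n3 : (fun x => u ((σ * τ) x)) ≠ fun x => u ((τ * σ) x) := by
      intro h
      have := congrFun h i
      simp only [Equiv.Perm.mul_apply, σi, τj, τi] at this
      exact c2 this
    obtain ⟨t', -, -, h3⟩ := fam_fix hF0 hF (Finset.univ : Finset (Fin 3))
      (Finset.univ : Finset (Fin 3)) (fun _ => e)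
      ![u, fun x => u ((σ * τ) x), fun x => u ((τ * σ) x)] (fun _ => e)
      ![fun x => u (σ x), fun x => u (τ x), fun x => u (ρ x)] hT (by
        intro t _ t' _ htt h
        fin_cases t <;> fin_cases t'
        · exact htt rfl
        · exact n1 h.2
        · exact n2 h.2
        · exact n1 h.2.symm
        · exact htt rfl
        · exact n3 h.2
        · exact n2 h.2.symm
        · exact n3 h.2.symm
        · exact htt rfl) hU rfl (by
        intro x
        simp only [Fin.sum_univ_three, Matrix.cons_val_zero, Matrix.cons_val_one,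
          Matrix.cons_val_two, Matrix.tail_cons, Matrix.head_cons, Matrix.cons_val,
          Equiv.Perm.mul_apply]
        by_cases x1 : x = i
        · rw [x1, τi, σi, ρi, τj]; ring
        · by_cases x2 : x = j
          · rw [x2, τj, σj, σk, ρj, τi]; ring
          · have e1 : σ x = x := by rw [hσ]; exact Equiv.swap_apply_of_ne_of_ne x1 x2
            by_cases x3 : x = k
            · rw [x3, τk, σj, σk, τk, ρk]; ring
            · have e2 : τ x = x := by rw [hτ]; exact Equiv.swap_apply_of_ne_of_ne x2 x3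
              have e3 : ρ x = x := by rw [hρ]; exact Equiv.swap_apply_of_ne_of_ne x1 x3
              rw [e2, e1, e2, e3]) 0 (Finset.mem_univ _)
    fin_cases t'
    · have := congrFun h3 i
      simp only [Fin.zero_eta, Matrix.cons_val_zero, σi] at this
      exact c1 this
    · have := congrFun h3 j
      simp only [Fin.mk_one, Matrix.cons_val_zero, Matrix.cons_val_one, τj] at this
      exact c2 this
    · have := congrFun h3 i
      simp only [Matrix.cons_val_zero, Fin.reduceFinMk, Matrix.cons_val, ρi] at this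
      exact c3 this

end Pool.Agent.X157.W
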