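import Pool.Agent.X157.W.Root

set_option autoImplicit false

/-!
# Reflections in real roots, and the affine roots of nine points
-/

namespace Pool.Agent.X157.W

open MvPolynomial Pool.Agent.W609 Pool.Agent.W609.CR Pool.Agent.TH167 Pool.Agent.TH167.SH

/-- The intersection form. -/
def bl {s : ℕ} (a : ℤ) (b : Fin s → ℤ) (a' : ℤ) (b' : Fin s → ℤ) : ℤ := a * a' - ∑ l, b l * b' l

theorem Root.perm {s : ℕ} {a : ℤ} {b : Fin s → ℤ} (h : Root a b) (σ : Equiv.Perm (Fin s)) :
    Root a (fun l => b (σ l)) := by
  have key : ∀ i l, σ l = i ↔ l = σ.symm i := fun i l =>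
    ⟨fun h => by rw [← h, σ.symm_apply_apply], fun h => by rw [h, σ.apply_symm_apply]⟩
  induction h with
  | pts i j hij =>
    have h1 := Root.pts (σ.symm i) (σ.symm j) fun h => hij (σ.symm.injective h)
    simp only [key]
    exact h1
  | line i j k hij hik hjk =>
    have h1 := Root.line (σ.symm i) (σ.symm j) (σ.symm k) (fun h => hij (σ.symm.injective h))
      (fun h => hik (σ.symm.injective h)) (fun h => hjk (σ.symm.injective h))
    simp only [key]
    exact h1
  | refl i j k hij hik hjk a b h ih =>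
    have h1 := Root.refl (σ.symm i) (σ.symm j) (σ.symm k) (fun h => hij (σ.symm.injective h))
      (fun h => hik (σ.symm.injective h)) (fun h => hjk (σ.symm.injective h)) a
      (fun l => b (σ l)) ih
    simp only [σ.apply_symm_apply] at h1
    simp only [key]
    exact h1

/-- The indicator of three indices. -/
def tri {s : ℕ} (i j k : Fin s) : Fin s → ℤ := fun l => if l = i ∨ l = j ∨ l = k then 1 else 0

theorem sum_tri {s : ℕ} {i j k : Fin s} (hij : i ≠ j) (hik : i ≠ k) (hjk : j ≠ k)
    (x : Fin s → ℤ) : ∑ l, tri i j k l * x l = x i + x j + x k :=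
  sum_ic (inj3 hij hik hjk) x

theorem bl_tri {s : ℕ} {i j k : Fin s} (hij : i ≠ j) (hik : i ≠ k) (hjk : j ≠ k)
    (a : ℤ) (b : Fin s → ℤ) : bl a b 1 (tri i j k) = a - b i - b j - b k := by
  unfold bl
  have h1 : ∀ l, b l * tri i j k l = tri i j k l * b l := fun l => mul_comm _ _
  rw [Finset.sum_congr rfl fun l _ => h1 l, sum_tri hij hik hjk]
  ring

theorem Root.step {s : ℕ} {i j k : Fin s} (hij : i ≠ j) (hik : i ≠ k) (hjk : j ≠ k)
    {a : ℤ} {b : Fin s → ℤ} (h : Root a b) :
    Root (a + bl a b 1 (tri i j k)) (fun l => b l + bl a b 1 (tri i j k) * tri i j k l) := by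
  have h1 := Root.refl i j k hij hik hjk a b h
  rw [bl_tri hij hik hjk]
  have h2 : (fun l => b l + (a - b i - b j - b k) * tri i j k l) =
      fun l => b l + if l = i ∨ l = j ∨ l = k then a - b i - b j - b k else 0 := by
    funext l
    unfold tri
    split_ifs <;> ring
  rw [h2]
  exact h1

theorem bl_comm {s : ℕ} (a : ℤ) (b : Fin s → ℤ) (a' : ℤ) (b' : Fin s → ℤ) :
    bl a b a' b' = bl a' b' a b := by
  unfold bl
  rw [mul_comm a a']
  congr 1
  exact Finset.sum_congr rfl fun l _ => mul_comm _ _

theorem bl_add {s : ℕ} (a : ℤ) (b : Fin s → ℤ) (a' : ℤ) (b' : Fin s → ℤ) (c e : ℤ)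
    (g : Fin s → ℤ) : bl (a + c * a') (fun l => b l + c * b' l) e g =
      bl a b e g + c * bl a' b' e g := by
  unfold bl
  have h1 : ∀ l, (b l + c * b' l) * g l = b l * g l + c * (b' l * g l) := fun l => by ring
  rw [Finset.sum_congr rfl fun l _ => h1 l, Finset.sum_add_distrib, ← Finset.mul_sum]
  ring

theorem bl_self_tri {s : ℕ} {i j k : Fin s} (hij : i ≠ j) (hik : i ≠ k) (hjk : j ≠ k) :
    bl 1 (tri i j k) 1 (tri i j k) = -2 := by
  rw [bl_tri hij hik hjk]
  unfold tri
  rw [if_pos (Or.inl rfl), if_pos (Or.inr (Or.inl rfl)), if_pos (Or.inr (Or.inr rfl))]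
  norm_num

/-- The roots are closed under the reflections in roots. -/
theorem Root.reflect {s : ℕ} {a' : ℤ} {b' : Fin s → ℤ} (h' : Root a' b') :
    ∀ {a : ℤ} {b : Fin s → ℤ}, Root a b →
      Root (a + bl a b a' b' * a') (fun l => b l + bl a b a' b' * b' l) := by
  classical
  induction h' with
  | pts i j hij =>
    intro a b h
    have e1 : bl a b 0 (fun l => (if l = i then (1 : ℤ) else 0) - (if l = j then 1 else 0)) =
        b j - b i := by
      unfold bl
      have h1 : ∀ l, b l * ((if l = i then (1 : ℤ) else 0) - (if l = j then 1 else 0)) =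
          (if l = i then b i else 0) - (if l = j then b j else 0) := by
        intro l
        by_cases c1 : l = i
        · subst c1
          by_cases c2 : l = j
          · exact absurd c2 hij
          · simp [c2]
        · by_cases c2 : l = j
          · subst c2
            simp [c1]
          · simp [c1, c2]
      rw [Finset.sum_congr rfl fun l _ => h1 l, Finset.sum_sub_distrib,
        Finset.sum_ite_eq' Finset.univ i, Finset.sum_ite_eq' Finset.univ j,
        if_pos (Finset.mem_univ _), if_pos (Finset.mem_univ _)]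
      ring
    rw [e1]
    have h2 := h.perm (Equiv.swap i j)
    have e2 : (fun l => b l + (b j - b i) *
        ((if l = i then (1 : ℤ) else 0) - (if l = j then 1 else 0))) =
        fun l => b (Equiv.swap i j l) := by
      funext l
      by_cases c1 : l = i
      · subst c1
        rw [Equiv.swap_apply_left, if_pos rfl, if_neg hij]
        ring
      · by_cases c2 : l = j
        · subst c2
          rw [Equiv.swap_apply_right, if_neg c1, if_pos rfl]
          ring
        · rw [Equiv.swap_apply_of_ne_of_ne c1 c2, if_neg c1, if_neg c2]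
          ring
    rw [e2, mul_zero, add_zero]
    exact h2
  | line i j k hij hik hjk =>
    intro a b h
    have h1 := h.step hij hik hjk
    rw [mul_one]
    exact h1
  | refl i j k hij hik hjk a' b' h' ih =>
    intro a b h
    have e0 : a' - b' i - b' j - b' k = bl a' b' 1 (tri i j k) := (bl_tri hij hik hjk a' b').symm
    have e1 : (fun l => b' l + if l = i ∨ l = j ∨ l = k then a' - b' i - b' j - b' k else 0) =
        fun l => b' l + bl a' b' 1 (tri i j k) * tri i j k l := by
      funext l
      rw [← e0]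
      unfold tri
      split_ifs <;> ring
    rw [e1, e0]
    obtain ⟨z, hz⟩ : ∃ z, z = tri i j k := ⟨_, rfl⟩
    have hzz : bl 1 z 1 z = -2 := by
      rw [hz]
      exact bl_self_tri hij hik hjk
    have h1 := h.step hij hik hjk
    have h2 := ih h1
    have h3 := h2.step hij hik hjk
    rw [← hz] at h1 h2 h3 ⊢
    obtain ⟨c, hc⟩ : ∃ c, c = bl a b 1 z := ⟨_, rfl⟩
    obtain ⟨c', hc'⟩ : ∃ c', c' = bl a' b' 1 z := ⟨_, rfl⟩
    obtain ⟨m, hm⟩ : ∃ m, m = bl a b a' b' := ⟨_, rfl⟩
    rw [← hc] at h2 h3
    rw [← hc']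
    have f1 : bl (a + c) (fun l => b l + c * z l) a' b' = m + c * c' := by
      have := bl_add a b 1 z c a' b'
      rw [mul_one] at this
      rw [this, ← hm, bl_comm 1 z, ← hc']
    have f2 : bl a b (a' + c') (fun l => b' l + c' * z l) = m + c' * c := by
      have := bl_add a' b' 1 z c' a b
      rw [mul_one] at this
      rw [bl_comm a b, this, bl_comm a' b', ← hm, bl_comm 1 z, ← hc]
    rw [f1] at h3
    obtain ⟨n, hn⟩ : ∃ n, n = m + c * c' := ⟨_, rfl⟩
    have f3 : bl (a + c + n * a') (fun l => b l + c * z l + n * b' l) 1 z = -c + n * c' := by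
      have g1 := bl_add (a + c) (fun l => b l + c * z l) a' b' n 1 z
      rw [g1, ← hc']
      have g2 := bl_add a b 1 z c 1 z
      rw [mul_one] at g2
      rw [g2, ← hc, hzz]
      ring
    rw [← hn] at h3
    rw [f3] at h3
    rw [f2]
    have f4 : m + c' * c = n := by
      rw [hn]
      ring
    rw [f4]
    have g3 : a + n * (a' + c') = a + c + n * a' + (-c + n * c') := by ring
    have g4 : (fun l => b l + n * (b' l + c' * z l)) =
        fun l => b l + c * z l + n * b' l + (-c + n * c') * z l := by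
      funext l
      ring
    rw [g3, g4]
    exact h3

/-- The reflection of the class of an irreducible curve. -/
theorem root_curve {s : ℕ} {P : Fin s → Fin 2 → ℂ} (hP : Gen P) {a : ℤ} {b : Fin s → ℤ}
    (h : Root a b) : ∀ (d : ℕ) (w : Fin s → ℕ), Ic P d w → NotExc d w →
      ∃ (d' : ℕ) (w' : Fin s → ℕ), Ic P d' w' ∧ NotExc d' w' ∧
        (d' : ℤ) = d + pr a b d w * a ∧ ∀ l, (w' l : ℤ) = w l + pr a b d w * b l := by
  classical
  induction h with
  | pts i j hij =>
    intro d w hC hne
    have e1 : pr 0 (fun l => (if l = i then (1 : ℤ) else 0) - (if l = j then 1 else 0)) d w =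
        (w j : ℤ) - w i := by
      unfold pr
      have h1 : ∀ l, ((if l = i then (1 : ℤ) else 0) - (if l = j then 1 else 0)) * (w l : ℤ) =
          (if l = i then (w i : ℤ) else 0) - (if l = j then (w j : ℤ) else 0) := by
        intro l
        by_cases c1 : l = i
        · subst c1
          by_cases c2 : l = j
          · exact absurd c2 hij
          · simp [c2]
        · by_cases c2 : l = j
          · subst c2
            simp [c1]
          · simp [c1, c2]
      rw [Finset.sum_congr rfl fun l _ => h1 l, Finset.sum_sub_distrib,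
        Finset.sum_ite_eq' Finset.univ i, Finset.sum_ite_eq' Finset.univ j,
        if_pos (Finset.mem_univ _), if_pos (Finset.mem_univ _)]
      ring
    rw [e1]
    refine ⟨d, fun l => w (Equiv.swap i j l), hC.perm hP _, ?_, by ring, fun l => ?_⟩
    · have h8 : ∑ l, (w (Equiv.swap i j l) : ℤ) * w (Equiv.swap i j l) =
          ∑ l, (w l : ℤ) * w l := Equiv.sum_comp (Equiv.swap i j) fun l => (w l : ℤ) * w l
      have h9 : ∑ l, (w (Equiv.swap i j l) : ℤ) = ∑ l, (w l : ℤ) :=
        Equiv.sum_comp (Equiv.swap i j) fun l => (w l : ℤ)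
      unfold NotExc ip kk at hne ⊢
      rw [h8, h9]
      exact hne
    · show (w (Equiv.swap i j l) : ℤ) = w l + ((w j : ℤ) - w i) *
        ((if l = i then 1 else 0) - (if l = j then 1 else 0))
      by_cases c1 : l = i
      · subst c1
        rw [Equiv.swap_apply_left, if_pos rfl, if_neg hij]
        ring
      · by_cases c2 : l = j
        · subst c2
          rw [Equiv.swap_apply_right, if_neg c1, if_pos rfl]
          ring
        · rw [Equiv.swap_apply_of_ne_of_ne c1 c2, if_neg c1, if_neg c2]
          ring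
  | line i j k hij hik hjk =>
    intro d w hC hne
    obtain ⟨p, h1, h2⟩ := hC.quad hP hne (inj3 hij hik hjk)
    have e0 : pr 1 (fun l => if l = i ∨ l = j ∨ l = k then 1 else 0) d w =
        dl ![i, j, k] d w := by
      have h3 : ∑ l, (if l = i ∨ l = j ∨ l = k then (1 : ℤ) else 0) * (w l : ℤ) =
          (w i : ℤ) + w j + w k := sum_tri hij hik hjk (fun l => (w l : ℤ))
      unfold pr dl
      rw [h3]
      show 1 * (d : ℤ) - (w i + w j + w k) = (d : ℤ) - w i - w j - w k
      ring
    rw [e0]
    refine ⟨_, _, h1, h2, ?_, fun l => ?_⟩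
    · rw [cd_cast p]
      ring
    · rw [wcr_cast (inj3 hij hik hjk) p]
      rfl
  | refl i j k hij hik hjk a b hroot ih =>
    intro d w hC hne
    obtain ⟨p, h1, h2⟩ := hC.quad hP hne (inj3 hij hik hjk)
    obtain ⟨d1, w1, a1, a2, a3, a4⟩ := ih _ _ h1 h2
    obtain ⟨q, b1, b2⟩ := a1.quad hP a2 (inj3 hij hik hjk)
    have h4 := pr_cr (inj3 hij hik hjk) p a b
    have h5 : (fun l => b l + if l = i ∨ l = j ∨ l = k then a - b i - b j - b k else 0) =
        (fun l => b l + (a - b (![i, j, k] 0) - b (![i, j, k] 1) - b (![i, j, k] 2)) *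
          ic ![i, j, k] l) := by
      funext l
      show b l + (if l = i ∨ l = j ∨ l = k then a - b i - b j - b k else 0) =
        b l + (a - b i - b j - b k) * (if l = i ∨ l = j ∨ l = k then 1 else 0)
      split_ifs <;> ring
    have h6 : a + (a - b i - b j - b k) =
        a + (a - b (![i, j, k] 0) - b (![i, j, k] 1) - b (![i, j, k] 2)) := rfl
    rw [h5, h6, h4]
    obtain ⟨c, hc⟩ : ∃ c, c = pr a b (cd ![i, j, k] d w) (wcr d ![i, j, k] w) := ⟨_, rfl⟩
    rw [← hc] at a3 a4 ⊢
    rw [cd_cast p] at a3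
    have a5 : ∀ l, (w1 l : ℤ) = w l + dl ![i, j, k] d w * ic ![i, j, k] l + c * b l := fun l => by
      rw [a4 l, wcr_cast (inj3 hij hik hjk) p]
    have i0 : ic ![i, j, k] i = 1 := if_pos (Or.inl rfl)
    have i1 : ic ![i, j, k] j = 1 := if_pos (Or.inr (Or.inl rfl))
    have i2 : ic ![i, j, k] k = 1 := if_pos (Or.inr (Or.inr rfl))
    have e1 : dl ![i, j, k] d1 w1 = - dl ![i, j, k] d w + c * (a - b i - b j - b k) := by
      have g1 : dl ![i, j, k] d1 w1 = (d1 : ℤ) - w1 i - w1 j - w1 k := rfl
      have g2 : dl ![i, j, k] d w = (d : ℤ) - w i - w j - w k := rfl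
      rw [g1, a3, a5 i, a5 j, a5 k, i0, i1, i2, g2]
      ring
    refine ⟨_, _, b1, b2, ?_, fun l => ?_⟩
    · rw [cd_cast q, e1, a3]
      show _ = (d : ℤ) + c * (a + (a - b i - b j - b k))
      ring
    · rw [wcr_cast (inj3 hij hik hjk) q, e1, a5 l]
      show _ = (w l : ℤ) + c * (b l + (a - b i - b j - b k) * ic ![i, j, k] l)
      ring

end Pool.Agent.X157.W
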