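import Mathlib

set_option autoImplicit false

/-!
# Automorphisms of the complex numbers moving algebraically independent numbers
-/

namespace Pool.Agent.X157.W

open Cardinal in
/-- Two finite families of algebraically independent complex numbers with the same index set are
conjugate. -/
theorem exists_aut_map {ι : Type} [Finite ι] {x y : ι → ℂ} (hx : AlgebraicIndependent ℚ x)
    (hy : AlgebraicIndependent ℚ y) : ∃ τ : ℂ ≃+* ℂ, ∀ i, τ (x i) = y i := by
  classical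
  obtain ⟨s, hxs, hs⟩ := exists_isTranscendenceBasis_superset hx.to_subtype_range
  obtain ⟨t, hyt, ht⟩ := exists_isTranscendenceBasis_superset hy.to_subtype_range
  have hC : ℵ₀ < #ℂ := by
    rw [Cardinal.mk_complex]
    exact aleph0_lt_continuum
  have hQ : #ℚ ≤ ℵ₀ := mk_le_aleph0
  have cs : #ℂ = #s := IsAlgClosed.cardinal_eq_cardinal_transcendence_basis_of_aleph0_lt' _ hs hQ hC
  have ct : #ℂ = #t := IsAlgClosed.cardinal_eq_cardinal_transcendence_basis_of_aleph0_lt' _ ht hQ hC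
  obtain ⟨A, hA⟩ : ∃ A : Set s, A = Set.range fun i => (⟨x i, hxs ⟨i, rfl⟩⟩ : s) := ⟨_, rfl⟩
  have hAf : A.Finite := by
    rw [hA]
    exact Set.finite_range _
  have hxi : Function.Injective fun i => (⟨x i, hxs ⟨i, rfl⟩⟩ : s) := fun i j h =>
    hx.injective (congrArg Subtype.val h)
  have hyi : Function.Injective fun i => (⟨y i, hyt ⟨i, rfl⟩⟩ : t) := fun i j h =>
    hy.injective (congrArg Subtype.val h)
  obtain ⟨e1, he1⟩ : ∃ e1 : ι ≃ A, ∀ i, ((e1 i : s) : ℂ) = x i := by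
    rw [hA]
    exact ⟨Equiv.ofInjective _ hxi, fun i => rfl⟩
  obtain ⟨g, hg⟩ := Cardinal.extend_function_of_lt
    (⟨fun a => ⟨y (e1.symm a), hyt ⟨_, rfl⟩⟩, fun a b h => e1.symm.injective (hyi h)⟩ : A ↪ t)
    (by
      rw [← cs]
      exact lt_trans (lt_aleph0_iff_set_finite.2 hAf) hC)
    (by
      rw [← Cardinal.eq, ← cs, ← ct])
  have hgx : ∀ i, g ⟨x i, hxs ⟨i, rfl⟩⟩ = ⟨y i, hyt ⟨i, rfl⟩⟩ := fun i => by
    have h1 := hg (e1 i)
    have h2 : ((e1 i : A) : s) = ⟨x i, hxs ⟨i, rfl⟩⟩ := Subtype.ext (he1 i)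
    rw [h2] at h1
    rw [h1]
    exact Subtype.ext (congrArg y (e1.symm_apply_apply i))
  have _ := IsAlgClosed.isAlgClosure_of_transcendence_basis _ hs
  have _ := IsAlgClosed.isAlgClosure_of_transcendence_basis _ ht
  let e : Algebra.adjoin ℚ (Set.range (Subtype.val : s → ℂ)) ≃+*
      Algebra.adjoin ℚ (Set.range (Subtype.val : t → ℂ)) :=
    hs.1.aevalEquiv.symm.toRingEquiv.trans
      ((MvPolynomial.renameEquiv ℚ g).toRingEquiv.trans ht.1.aevalEquiv.toRingEquiv)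
  refine ⟨IsAlgClosure.equivOfEquiv ℂ ℂ e, fun i => ?_⟩
  obtain ⟨a, ha⟩ : ∃ a : s, a = ⟨x i, hxs ⟨i, rfl⟩⟩ := ⟨_, rfl⟩
  have h1 : x i = algebraMap (Algebra.adjoin ℚ (Set.range (Subtype.val : s → ℂ))) ℂ
      (hs.1.aevalEquiv (MvPolynomial.X a)) := by
    rw [AlgebraicIndependent.algebraMap_aevalEquiv, MvPolynomial.aeval_X, ha]
  rw [h1, IsAlgClosure.equivOfEquiv_algebraMap]
  have h2 : e (hs.1.aevalEquiv (MvPolynomial.X a)) = ht.1.aevalEquiv (MvPolynomial.X (g a)) := by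
    change ht.1.aevalEquiv (MvPolynomial.rename g (hs.1.aevalEquiv.symm
      (hs.1.aevalEquiv (MvPolynomial.X a)))) = _
    rw [AlgEquiv.symm_apply_apply, MvPolynomial.rename_X]
  rw [h2, AlgebraicIndependent.algebraMap_aevalEquiv, MvPolynomial.aeval_X, ha, hgx]

end Pool.Agent.X157.W
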