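import Mathlib

set_option autoImplicit false

/-!
# Quadratic forms in the fundamental chambers of the root systems `A2 x A1, A4, D5, E6, E7, E8`
-/

namespace Pool.Agent.X157.W

theorem chamber3 (d x1 x2 x3 : ℤ) (h0 : x1 + x2 + x3 ≤ d) (h1 : x2 ≤ x1) (h2 : x3 ≤ x2) :
    3 * (d - x1 - x2 - x3) ^ 2 ≤ (3 * d - (x1 + x2 + x3)) ^ 2 - 6 * (d ^ 2 - (x1 ^ 2 + x2 ^ 2 + x3 ^ 2)) ∧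
    3 * (x1 - x2) ^ 2 ≤ (3 * d - (x1 + x2 + x3)) ^ 2 - 6 * (d ^ 2 - (x1 ^ 2 + x2 ^ 2 + x3 ^ 2)) ∧
    3 * (x2 - x3) ^ 2 ≤ (3 * d - (x1 + x2 + x3)) ^ 2 - 6 * (d ^ 2 - (x1 ^ 2 + x2 ^ 2 + x3 ^ 2)) := by
  obtain ⟨c0, hc0⟩ := Int.eq_ofNat_of_zero_le (sub_nonneg.2 h0)
  obtain ⟨c1, hc1⟩ := Int.eq_ofNat_of_zero_le (sub_nonneg.2 h1)
  obtain ⟨c2, hc2⟩ := Int.eq_ofNat_of_zero_le (sub_nonneg.2 h2)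
  obtain rfl : x1 = x2 + c1 := by omega
  obtain rfl : x2 = x3 + c2 := by omega
  obtain rfl : d = _ := eq_add_of_sub_eq hc0
  refine ⟨?_, ?_, ?_⟩
  · have h : 0 ≤ 4 * ((c1 : ℤ) * (c1 : ℤ)) + 4 * ((c1 : ℤ) * (c2 : ℤ)) + 4 * ((c2 : ℤ) * (c2 : ℤ)) := by positivity
    refine le_of_sub_nonneg (le_of_le_of_eq h ?_)
    ring
  · have h : 0 ≤ 3 * ((c0 : ℤ) * (c0 : ℤ)) + 1 * ((c1 : ℤ) * (c1 : ℤ)) + 4 * ((c1 : ℤ) * (c2 : ℤ)) + 4 * ((c2 : ℤ) * (c2 : ℤ)) := by positivity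
    refine le_of_sub_nonneg (le_of_le_of_eq h ?_)
    ring
  · have h : 0 ≤ 3 * ((c0 : ℤ) * (c0 : ℤ)) + 4 * ((c1 : ℤ) * (c1 : ℤ)) + 4 * ((c1 : ℤ) * (c2 : ℤ)) + 1 * ((c2 : ℤ) * (c2 : ℤ)) := by positivity
    refine le_of_sub_nonneg (le_of_le_of_eq h ?_)
    ring

theorem chamber4 (d x1 x2 x3 x4 : ℤ) (h0 : x1 + x2 + x3 ≤ d) (h1 : x2 ≤ x1) (h2 : x3 ≤ x2) (h3 : x4 ≤ x3) :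
    4 * (d - x1 - x2 - x3) ^ 2 ≤ (3 * d - (x1 + x2 + x3 + x4)) ^ 2 - 5 * (d ^ 2 - (x1 ^ 2 + x2 ^ 2 + x3 ^ 2 + x4 ^ 2)) ∧
    4 * (x1 - x2) ^ 2 ≤ (3 * d - (x1 + x2 + x3 + x4)) ^ 2 - 5 * (d ^ 2 - (x1 ^ 2 + x2 ^ 2 + x3 ^ 2 + x4 ^ 2)) ∧
    4 * (x2 - x3) ^ 2 ≤ (3 * d - (x1 + x2 + x3 + x4)) ^ 2 - 5 * (d ^ 2 - (x1 ^ 2 + x2 ^ 2 + x3 ^ 2 + x4 ^ 2)) ∧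
    4 * (x3 - x4) ^ 2 ≤ (3 * d - (x1 + x2 + x3 + x4)) ^ 2 - 5 * (d ^ 2 - (x1 ^ 2 + x2 ^ 2 + x3 ^ 2 + x4 ^ 2)) := by
  obtain ⟨c0, hc0⟩ := Int.eq_ofNat_of_zero_le (sub_nonneg.2 h0)
  obtain ⟨c1, hc1⟩ := Int.eq_ofNat_of_zero_le (sub_nonneg.2 h1)
  obtain ⟨c2, hc2⟩ := Int.eq_ofNat_of_zero_le (sub_nonneg.2 h2)
  obtain ⟨c3, hc3⟩ := Int.eq_ofNat_of_zero_le (sub_nonneg.2 h3)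
  obtain rfl : x1 = x2 + c1 := by omega
  obtain rfl : x2 = x3 + c2 := by omega
  obtain rfl : x3 = x4 + c3 := by omega
  obtain rfl : d = _ := eq_add_of_sub_eq hc0
  refine ⟨?_, ?_, ?_, ?_⟩
  · have h : 0 ≤ 2 * ((c0 : ℤ) * (c1 : ℤ)) + 4 * ((c0 : ℤ) * (c2 : ℤ)) + 6 * ((c0 : ℤ) * (c3 : ℤ)) + 4 * ((c1 : ℤ) * (c1 : ℤ)) + 6 * ((c1 : ℤ) * (c2 : ℤ)) + 4 * ((c1 : ℤ) * (c3 : ℤ)) + 6 * ((c2 : ℤ) * (c2 : ℤ)) + 8 * ((c2 : ℤ) * (c3 : ℤ)) + 6 * ((c3 : ℤ) * (c3 : ℤ)) := by positivity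
    refine le_of_sub_nonneg (le_of_le_of_eq h ?_)
    ring
  · have h : 0 ≤ 4 * ((c0 : ℤ) * (c0 : ℤ)) + 2 * ((c0 : ℤ) * (c1 : ℤ)) + 4 * ((c0 : ℤ) * (c2 : ℤ)) + 6 * ((c0 : ℤ) * (c3 : ℤ)) + 6 * ((c1 : ℤ) * (c2 : ℤ)) + 4 * ((c1 : ℤ) * (c3 : ℤ)) + 6 * ((c2 : ℤ) * (c2 : ℤ)) + 8 * ((c2 : ℤ) * (c3 : ℤ)) + 6 * ((c3 : ℤ) * (c3 : ℤ)) := by positivity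
    refine le_of_sub_nonneg (le_of_le_of_eq h ?_)
    ring
  · have h : 0 ≤ 4 * ((c0 : ℤ) * (c0 : ℤ)) + 2 * ((c0 : ℤ) * (c1 : ℤ)) + 4 * ((c0 : ℤ) * (c2 : ℤ)) + 6 * ((c0 : ℤ) * (c3 : ℤ)) + 4 * ((c1 : ℤ) * (c1 : ℤ)) + 6 * ((c1 : ℤ) * (c2 : ℤ)) + 4 * ((c1 : ℤ) * (c3 : ℤ)) + 2 * ((c2 : ℤ) * (c2 : ℤ)) + 8 * ((c2 : ℤ) * (c3 : ℤ)) + 6 * ((c3 : ℤ) * (c3 : ℤ)) := by positivity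
    refine le_of_sub_nonneg (le_of_le_of_eq h ?_)
    ring
  · have h : 0 ≤ 4 * ((c0 : ℤ) * (c0 : ℤ)) + 2 * ((c0 : ℤ) * (c1 : ℤ)) + 4 * ((c0 : ℤ) * (c2 : ℤ)) + 6 * ((c0 : ℤ) * (c3 : ℤ)) + 4 * ((c1 : ℤ) * (c1 : ℤ)) + 6 * ((c1 : ℤ) * (c2 : ℤ)) + 4 * ((c1 : ℤ) * (c3 : ℤ)) + 6 * ((c2 : ℤ) * (c2 : ℤ)) + 8 * ((c2 : ℤ) * (c3 : ℤ)) + 2 * ((c3 : ℤ) * (c3 : ℤ)) := by positivity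
    refine le_of_sub_nonneg (le_of_le_of_eq h ?_)
    ring

theorem chamber5 (d x1 x2 x3 x4 x5 : ℤ) (h0 : x1 + x2 + x3 ≤ d) (h1 : x2 ≤ x1) (h2 : x3 ≤ x2) (h3 : x4 ≤ x3) (h4 : x5 ≤ x4) :
    4 * (d - x1 - x2 - x3) ^ 2 ≤ (3 * d - (x1 + x2 + x3 + x4 + x5)) ^ 2 - 4 * (d ^ 2 - (x1 ^ 2 + x2 ^ 2 + x3 ^ 2 + x4 ^ 2 + x5 ^ 2)) ∧
    4 * (x1 - x2) ^ 2 ≤ (3 * d - (x1 + x2 + x3 + x4 + x5)) ^ 2 - 4 * (d ^ 2 - (x1 ^ 2 + x2 ^ 2 + x3 ^ 2 + x4 ^ 2 + x5 ^ 2)) ∧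
    4 * (x2 - x3) ^ 2 ≤ (3 * d - (x1 + x2 + x3 + x4 + x5)) ^ 2 - 4 * (d ^ 2 - (x1 ^ 2 + x2 ^ 2 + x3 ^ 2 + x4 ^ 2 + x5 ^ 2)) ∧
    4 * (x3 - x4) ^ 2 ≤ (3 * d - (x1 + x2 + x3 + x4 + x5)) ^ 2 - 4 * (d ^ 2 - (x1 ^ 2 + x2 ^ 2 + x3 ^ 2 + x4 ^ 2 + x5 ^ 2)) ∧
    4 * (x4 - x5) ^ 2 ≤ (3 * d - (x1 + x2 + x3 + x4 + x5)) ^ 2 - 4 * (d ^ 2 - (x1 ^ 2 + x2 ^ 2 + x3 ^ 2 + x4 ^ 2 + x5 ^ 2)) := by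
  obtain ⟨c0, hc0⟩ := Int.eq_ofNat_of_zero_le (sub_nonneg.2 h0)
  obtain ⟨c1, hc1⟩ := Int.eq_ofNat_of_zero_le (sub_nonneg.2 h1)
  obtain ⟨c2, hc2⟩ := Int.eq_ofNat_of_zero_le (sub_nonneg.2 h2)
  obtain ⟨c3, hc3⟩ := Int.eq_ofNat_of_zero_le (sub_nonneg.2 h3)
  obtain ⟨c4, hc4⟩ := Int.eq_ofNat_of_zero_le (sub_nonneg.2 h4)
  obtain rfl : x1 = x2 + c1 := by omega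
  obtain rfl : x2 = x3 + c2 := by omega
  obtain rfl : x3 = x4 + c3 := by omega
  obtain rfl : x4 = x5 + c4 := by omega
  obtain rfl : d = _ := eq_add_of_sub_eq hc0
  refine ⟨?_, ?_, ?_, ?_, ?_⟩
  · have h : 0 ≤ 1 * ((c0 : ℤ) * (c0 : ℤ)) + 4 * ((c0 : ℤ) * (c1 : ℤ)) + 8 * ((c0 : ℤ) * (c2 : ℤ)) + 12 * ((c0 : ℤ) * (c3 : ℤ)) + 6 * ((c0 : ℤ) * (c4 : ℤ)) + 4 * ((c1 : ℤ) * (c1 : ℤ)) + 8 * ((c1 : ℤ) * (c2 : ℤ)) + 8 * ((c1 : ℤ) * (c3 : ℤ)) + 4 * ((c1 : ℤ) * (c4 : ℤ)) + 8 * ((c2 : ℤ) * (c2 : ℤ)) + 16 * ((c2 : ℤ) * (c3 : ℤ)) + 8 * ((c2 : ℤ) * (c4 : ℤ)) + 12 * ((c3 : ℤ) * (c3 : ℤ)) + 12 * ((c3 : ℤ) * (c4 : ℤ)) + 5 * ((c4 : ℤ) * (c4 : ℤ)) := by positivity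
    refine le_of_sub_nonneg (le_of_le_of_eq h ?_)
    ring
  · have h : 0 ≤ 5 * ((c0 : ℤ) * (c0 : ℤ)) + 4 * ((c0 : ℤ) * (c1 : ℤ)) + 8 * ((c0 : ℤ) * (c2 : ℤ)) + 12 * ((c0 : ℤ) * (c3 : ℤ)) + 6 * ((c0 : ℤ) * (c4 : ℤ)) + 8 * ((c1 : ℤ) * (c2 : ℤ)) + 8 * ((c1 : ℤ) * (c3 : ℤ)) + 4 * ((c1 : ℤ) * (c4 : ℤ)) + 8 * ((c2 : ℤ) * (c2 : ℤ)) + 16 * ((c2 : ℤ) * (c3 : ℤ)) + 8 * ((c2 : ℤ) * (c4 : ℤ)) + 12 * ((c3 : ℤ) * (c3 : ℤ)) + 12 * ((c3 : ℤ) * (c4 : ℤ)) + 5 * ((c4 : ℤ) * (c4 : ℤ)) := by positivity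
    refine le_of_sub_nonneg (le_of_le_of_eq h ?_)
    ring
  · have h : 0 ≤ 5 * ((c0 : ℤ) * (c0 : ℤ)) + 4 * ((c0 : ℤ) * (c1 : ℤ)) + 8 * ((c0 : ℤ) * (c2 : ℤ)) + 12 * ((c0 : ℤ) * (c3 : ℤ)) + 6 * ((c0 : ℤ) * (c4 : ℤ)) + 4 * ((c1 : ℤ) * (c1 : ℤ)) + 8 * ((c1 : ℤ) * (c2 : ℤ)) + 8 * ((c1 : ℤ) * (c3 : ℤ)) + 4 * ((c1 : ℤ) * (c4 : ℤ)) + 4 * ((c2 : ℤ) * (c2 : ℤ)) + 16 * ((c2 : ℤ) * (c3 : ℤ)) + 8 * ((c2 : ℤ) * (c4 : ℤ)) + 12 * ((c3 : ℤ) * (c3 : ℤ)) + 12 * ((c3 : ℤ) * (c4 : ℤ)) + 5 * ((c4 : ℤ) * (c4 : ℤ)) := by positivity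
    refine le_of_sub_nonneg (le_of_le_of_eq h ?_)
    ring
  · have h : 0 ≤ 5 * ((c0 : ℤ) * (c0 : ℤ)) + 4 * ((c0 : ℤ) * (c1 : ℤ)) + 8 * ((c0 : ℤ) * (c2 : ℤ)) + 12 * ((c0 : ℤ) * (c3 : ℤ)) + 6 * ((c0 : ℤ) * (c4 : ℤ)) + 4 * ((c1 : ℤ) * (c1 : ℤ)) + 8 * ((c1 : ℤ) * (c2 : ℤ)) + 8 * ((c1 : ℤ) * (c3 : ℤ)) + 4 * ((c1 : ℤ) * (c4 : ℤ)) + 8 * ((c2 : ℤ) * (c2 : ℤ)) + 16 * ((c2 : ℤ) * (c3 : ℤ)) + 8 * ((c2 : ℤ) * (c4 : ℤ)) + 8 * ((c3 : ℤ) * (c3 : ℤ)) + 12 * ((c3 : ℤ) * (c4 : ℤ)) + 5 * ((c4 : ℤ) * (c4 : ℤ)) := by positivity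
    refine le_of_sub_nonneg (le_of_le_of_eq h ?_)
    ring
  · have h : 0 ≤ 5 * ((c0 : ℤ) * (c0 : ℤ)) + 4 * ((c0 : ℤ) * (c1 : ℤ)) + 8 * ((c0 : ℤ) * (c2 : ℤ)) + 12 * ((c0 : ℤ) * (c3 : ℤ)) + 6 * ((c0 : ℤ) * (c4 : ℤ)) + 4 * ((c1 : ℤ) * (c1 : ℤ)) + 8 * ((c1 : ℤ) * (c2 : ℤ)) + 8 * ((c1 : ℤ) * (c3 : ℤ)) + 4 * ((c1 : ℤ) * (c4 : ℤ)) + 8 * ((c2 : ℤ) * (c2 : ℤ)) + 16 * ((c2 : ℤ) * (c3 : ℤ)) + 8 * ((c2 : ℤ) * (c4 : ℤ)) + 12 * ((c3 : ℤ) * (c3 : ℤ)) + 12 * ((c3 : ℤ) * (c4 : ℤ)) + 1 * ((c4 : ℤ) * (c4 : ℤ)) := by positivity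
    refine le_of_sub_nonneg (le_of_le_of_eq h ?_)
    ring

theorem chamber6 (d x1 x2 x3 x4 x5 x6 : ℤ) (h0 : x1 + x2 + x3 ≤ d) (h1 : x2 ≤ x1) (h2 : x3 ≤ x2) (h3 : x4 ≤ x3) (h4 : x5 ≤ x4) (h5 : x6 ≤ x5) :
    4 * (d - x1 - x2 - x3) ^ 2 ≤ (3 * d - (x1 + x2 + x3 + x4 + x5 + x6)) ^ 2 - 3 * (d ^ 2 - (x1 ^ 2 + x2 ^ 2 + x3 ^ 2 + x4 ^ 2 + x5 ^ 2 + x6 ^ 2)) ∧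
    4 * (x1 - x2) ^ 2 ≤ (3 * d - (x1 + x2 + x3 + x4 + x5 + x6)) ^ 2 - 3 * (d ^ 2 - (x1 ^ 2 + x2 ^ 2 + x3 ^ 2 + x4 ^ 2 + x5 ^ 2 + x6 ^ 2)) ∧
    4 * (x2 - x3) ^ 2 ≤ (3 * d - (x1 + x2 + x3 + x4 + x5 + x6)) ^ 2 - 3 * (d ^ 2 - (x1 ^ 2 + x2 ^ 2 + x3 ^ 2 + x4 ^ 2 + x5 ^ 2 + x6 ^ 2)) ∧
    4 * (x3 - x4) ^ 2 ≤ (3 * d - (x1 + x2 + x3 + x4 + x5 + x6)) ^ 2 - 3 * (d ^ 2 - (x1 ^ 2 + x2 ^ 2 + x3 ^ 2 + x4 ^ 2 + x5 ^ 2 + x6 ^ 2)) ∧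
    4 * (x4 - x5) ^ 2 ≤ (3 * d - (x1 + x2 + x3 + x4 + x5 + x6)) ^ 2 - 3 * (d ^ 2 - (x1 ^ 2 + x2 ^ 2 + x3 ^ 2 + x4 ^ 2 + x5 ^ 2 + x6 ^ 2)) ∧
    4 * (x5 - x6) ^ 2 ≤ (3 * d - (x1 + x2 + x3 + x4 + x5 + x6)) ^ 2 - 3 * (d ^ 2 - (x1 ^ 2 + x2 ^ 2 + x3 ^ 2 + x4 ^ 2 + x5 ^ 2 + x6 ^ 2)) := by
  obtain ⟨c0, hc0⟩ := Int.eq_ofNat_of_zero_le (sub_nonneg.2 h0)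
  obtain ⟨c1, hc1⟩ := Int.eq_ofNat_of_zero_le (sub_nonneg.2 h1)
  obtain ⟨c2, hc2⟩ := Int.eq_ofNat_of_zero_le (sub_nonneg.2 h2)
  obtain ⟨c3, hc3⟩ := Int.eq_ofNat_of_zero_le (sub_nonneg.2 h3)
  obtain ⟨c4, hc4⟩ := Int.eq_ofNat_of_zero_le (sub_nonneg.2 h4)
  obtain ⟨c5, hc5⟩ := Int.eq_ofNat_of_zero_le (sub_nonneg.2 h5)
  obtain rfl : x1 = x2 + c1 := by omega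
  obtain rfl : x2 = x3 + c2 := by omega
  obtain rfl : x3 = x4 + c3 := by omega
  obtain rfl : x4 = x5 + c4 := by omega
  obtain rfl : x5 = x6 + c5 := by omega
  obtain rfl : d = _ := eq_add_of_sub_eq hc0
  refine ⟨?_, ?_, ?_, ?_, ?_, ?_⟩
  · have h : 0 ≤ 2 * ((c0 : ℤ) * (c0 : ℤ)) + 6 * ((c0 : ℤ) * (c1 : ℤ)) + 12 * ((c0 : ℤ) * (c2 : ℤ)) + 18 * ((c0 : ℤ) * (c3 : ℤ)) + 12 * ((c0 : ℤ) * (c4 : ℤ)) + 6 * ((c0 : ℤ) * (c5 : ℤ)) + 4 * ((c1 : ℤ) * (c1 : ℤ)) + 10 * ((c1 : ℤ) * (c2 : ℤ)) + 12 * ((c1 : ℤ) * (c3 : ℤ)) + 8 * ((c1 : ℤ) * (c4 : ℤ)) + 4 * ((c1 : ℤ) * (c5 : ℤ)) + 10 * ((c2 : ℤ) * (c2 : ℤ)) + 24 * ((c2 : ℤ) * (c3 : ℤ)) + 16 * ((c2 : ℤ) * (c4 : ℤ)) + 8 *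 ((c2 : ℤ) * (c5 : ℤ)) + 18 * ((c3 : ℤ) * (c3 : ℤ)) + 24 * ((c3 : ℤ) * (c4 : ℤ)) + 12 * ((c3 : ℤ) * (c5 : ℤ)) + 10 * ((c4 : ℤ) * (c4 : ℤ)) + 10 * ((c4 : ℤ) * (c5 : ℤ)) + 4 * ((c5 : ℤ) * (c5 : ℤ)) := by positivity
    refine le_of_sub_nonneg (le_of_le_of_eq h ?_)
    ring
  · have h : 0 ≤ 6 * ((c0 : ℤ) * (c0 : ℤ)) + 6 * ((c0 : ℤ) * (c1 : ℤ)) + 12 * ((c0 : ℤ) * (c2 : ℤ)) + 18 * ((c0 : ℤ) * (c3 : ℤ)) + 12 * ((c0 : ℤ) * (c4 : ℤ)) + 6 * ((c0 : ℤ) * (c5 : ℤ)) + 10 * ((c1 : ℤ) * (c2 : ℤ)) + 12 * ((c1 : ℤ) * (c3 : ℤ)) + 8 * ((c1 : ℤ) * (c4 : ℤ)) + 4 * ((c1 : ℤ) * (c5 : ℤ)) + 10 * ((c2 : ℤ) * (c2 : ℤ)) + 24 * ((c2 : ℤ) * (c3 : ℤ)) + 16 * ((c2 : ℤ) * (c4 : ℤ)) +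 8 * ((c2 : ℤ) * (c5 : ℤ)) + 18 * ((c3 : ℤ) * (c3 : ℤ)) + 24 * ((c3 : ℤ) * (c4 : ℤ)) + 12 * ((c3 : ℤ) * (c5 : ℤ)) + 10 * ((c4 : ℤ) * (c4 : ℤ)) + 10 * ((c4 : ℤ) * (c5 : ℤ)) + 4 * ((c5 : ℤ) * (c5 : ℤ)) := by positivity
    refine le_of_sub_nonneg (le_of_le_of_eq h ?_)
    ring
  · have h : 0 ≤ 6 * ((c0 : ℤ) * (c0 : ℤ)) + 6 * ((c0 : ℤ) * (c1 : ℤ)) + 12 * ((c0 : ℤ) * (c2 : ℤ)) + 18 * ((c0 : ℤ) * (c3 : ℤ)) + 12 * ((c0 : ℤ) * (c4 : ℤ)) + 6 * ((c0 : ℤ) * (c5 : ℤ)) + 4 * ((c1 : ℤ) * (c1 : ℤ)) + 10 * ((c1 : ℤ) * (c2 : ℤ)) + 12 * ((c1 : ℤ) * (c3 : ℤ)) + 8 * ((c1 : ℤ) * (c4 : ℤ)) + 4 * ((c1 : ℤ) * (c5 : ℤ)) + 6 * ((c2 : ℤ) * (c2 : ℤ)) + 24 * ((c2 : ℤ) * (c3 : ℤ))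 + 16 * ((c2 : ℤ) * (c4 : ℤ)) + 8 * ((c2 : ℤ) * (c5 : ℤ)) + 18 * ((c3 : ℤ) * (c3 : ℤ)) + 24 * ((c3 : ℤ) * (c4 : ℤ)) + 12 * ((c3 : ℤ) * (c5 : ℤ)) + 10 * ((c4 : ℤ) * (c4 : ℤ)) + 10 * ((c4 : ℤ) * (c5 : ℤ)) + 4 * ((c5 : ℤ) * (c5 : ℤ)) := by positivity
    refine le_of_sub_nonneg (le_of_le_of_eq h ?_)
    ring
  · have h : 0 ≤ 6 * ((c0 : ℤ) * (c0 : ℤ)) + 6 * ((c0 : ℤ) * (c1 : ℤ)) + 12 * ((c0 : ℤ) * (c2 : ℤ)) + 18 * ((c0 : ℤ) * (c3 : ℤ)) + 12 * ((c0 : ℤ) * (c4 : ℤ)) + 6 * ((c0 : ℤ) * (c5 : ℤ)) + 4 * ((c1 : ℤ) * (c1 : ℤ)) + 10 * ((c1 : ℤ) * (c2 : ℤ)) + 12 * ((c1 : ℤ) * (c3 : ℤ)) + 8 * ((c1 : ℤ) * (c4 : ℤ)) + 4 * ((c1 : ℤ) * (c5 : ℤ)) + 10 * ((c2 : ℤ) * (c2 :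 ℤ)) + 24 * ((c2 : ℤ) * (c3 : ℤ)) + 16 * ((c2 : ℤ) * (c4 : ℤ)) + 8 * ((c2 : ℤ) * (c5 : ℤ)) + 14 * ((c3 : ℤ) * (c3 : ℤ)) + 24 * ((c3 : ℤ) * (c4 : ℤ)) + 12 * ((c3 : ℤ) * (c5 : ℤ)) + 10 * ((c4 : ℤ) * (c4 : ℤ)) + 10 * ((c4 : ℤ) * (c5 : ℤ)) + 4 * ((c5 : ℤ) * (c5 : ℤ)) := by positivity
    refine le_of_sub_nonneg (le_of_le_of_eq h ?_)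
    ring
  · have h : 0 ≤ 6 * ((c0 : ℤ) * (c0 : ℤ)) + 6 * ((c0 : ℤ) * (c1 : ℤ)) + 12 * ((c0 : ℤ) * (c2 : ℤ)) + 18 * ((c0 : ℤ) * (c3 : ℤ)) + 12 * ((c0 : ℤ) * (c4 : ℤ)) + 6 * ((c0 : ℤ) * (c5 : ℤ)) + 4 * ((c1 : ℤ) * (c1 : ℤ)) + 10 * ((c1 : ℤ) * (c2 : ℤ)) + 12 * ((c1 : ℤ) * (c3 : ℤ)) + 8 * ((c1 : ℤ) * (c4 : ℤ)) + 4 * ((c1 : ℤ) * (c5 : ℤ)) + 10 * ((c2 : ℤ) * (c2 : ℤ)) + 24 * ((c2 : ℤ) * (c3 : ℤ)) + 16 * ((c2 : ℤ) * (c4 : ℤ)) + 8 * ((c2 : ℤ) * (c5 : ℤ)) + 18 * ((c3 : ℤ) * (c3 : ℤ)) + 24 * ((c3 : ℤ) * (c4 : ℤ)) + 12 * ((c3 : ℤ) * (c5 : ℤ)) + 6 * ((c4 : ℤ) * (c4 : ℤ)) + 10 * ((c4 : ℤ) * (c5 : ℤ)) + 4 * ((c5 : ℤ) * (c5 : ℤ)) := by positivity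
    refine le_of_sub_nonneg (le_of_le_of_eq h ?_)
    ring
  · have h : 0 ≤ 6 * ((c0 : ℤ) * (c0 : ℤ)) + 6 * ((c0 : ℤ) * (c1 : ℤ)) + 12 * ((c0 : ℤ) * (c2 : ℤ)) + 18 * ((c0 : ℤ) * (c3 : ℤ)) + 12 * ((c0 : ℤ) * (c4 : ℤ)) + 6 * ((c0 : ℤ) * (c5 : ℤ)) + 4 * ((c1 : ℤ) * (c1 : ℤ)) + 10 * ((c1 : ℤ) * (c2 : ℤ)) + 12 * ((c1 : ℤ) * (c3 : ℤ)) + 8 * ((c1 : ℤ) * (c4 : ℤ)) + 4 * ((c1 : ℤ) * (c5 : ℤ)) + 10 * ((c2 : ℤ) * (c2 : ℤ)) + 24 * ((c2 : ℤ) * (c3 : ℤ)) + 16 * ((c2 : ℤ) * (c4 : ℤ)) + 8 * ((c2 : ℤ) * (c5 : ℤ)) + 18 * ((c3 : ℤ) * (c3 : ℤ)) + 24 * ((c3 : ℤ) * (c4 : ℤ)) + 12 * ((c3 : ℤ) * (c5 : ℤ)) + 10 * ((c4 : ℤ) * (c4 : ℤ)) + 10 * ((c4 : ℤ) * (c5 : ℤ)) := by positivity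
    refine le_of_sub_nonneg (le_of_le_of_eq h ?_)
    ring

theorem chamber7 (d x1 x2 x3 x4 x5 x6 x7 : ℤ) (h0 : x1 + x2 + x3 ≤ d) (h1 : x2 ≤ x1) (h2 : x3 ≤ x2) (h3 : x4 ≤ x3) (h4 : x5 ≤ x4) (h5 : x6 ≤ x5) (h6 : x7 ≤ x6) :
    3 * (d - x1 - x2 - x3) ^ 2 ≤ (3 * d - (x1 + x2 + x3 + x4 + x5 + x6 + x7)) ^ 2 - 2 * (d ^ 2 - (x1 ^ 2 + x2 ^ 2 + x3 ^ 2 + x4 ^ 2 + x5 ^ 2 + x6 ^ 2 + x7 ^ 2)) ∧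
    3 * (x1 - x2) ^ 2 ≤ (3 * d - (x1 + x2 + x3 + x4 + x5 + x6 + x7)) ^ 2 - 2 * (d ^ 2 - (x1 ^ 2 + x2 ^ 2 + x3 ^ 2 + x4 ^ 2 + x5 ^ 2 + x6 ^ 2 + x7 ^ 2)) ∧
    3 * (x2 - x3) ^ 2 ≤ (3 * d - (x1 + x2 + x3 + x4 + x5 + x6 + x7)) ^ 2 - 2 * (d ^ 2 - (x1 ^ 2 + x2 ^ 2 + x3 ^ 2 + x4 ^ 2 + x5 ^ 2 + x6 ^ 2 + x7 ^ 2)) ∧
    3 * (x3 - x4) ^ 2 ≤ (3 * d - (x1 + x2 + x3 + x4 + x5 + x6 + x7)) ^ 2 - 2 * (d ^ 2 - (x1 ^ 2 + x2 ^ 2 + x3 ^ 2 + x4 ^ 2 + x5 ^ 2 + x6 ^ 2 + x7 ^ 2)) ∧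
    3 * (x4 - x5) ^ 2 ≤ (3 * d - (x1 + x2 + x3 + x4 + x5 + x6 + x7)) ^ 2 - 2 * (d ^ 2 - (x1 ^ 2 + x2 ^ 2 + x3 ^ 2 + x4 ^ 2 + x5 ^ 2 + x6 ^ 2 + x7 ^ 2)) ∧
    3 * (x5 - x6) ^ 2 ≤ (3 * d - (x1 + x2 + x3 + x4 + x5 + x6 + x7)) ^ 2 - 2 * (d ^ 2 - (x1 ^ 2 + x2 ^ 2 + x3 ^ 2 + x4 ^ 2 + x5 ^ 2 + x6 ^ 2 + x7 ^ 2)) ∧
    3 * (x6 - x7) ^ 2 ≤ (3 * d - (x1 + x2 + x3 + x4 + x5 + x6 + x7)) ^ 2 - 2 * (d ^ 2 - (x1 ^ 2 + x2 ^ 2 + x3 ^ 2 + x4 ^ 2 + x5 ^ 2 + x6 ^ 2 + x7 ^ 2)) := by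
  obtain ⟨c0, hc0⟩ := Int.eq_ofNat_of_zero_le (sub_nonneg.2 h0)
  obtain ⟨c1, hc1⟩ := Int.eq_ofNat_of_zero_le (sub_nonneg.2 h1)
  obtain ⟨c2, hc2⟩ := Int.eq_ofNat_of_zero_le (sub_nonneg.2 h2)
  obtain ⟨c3, hc3⟩ := Int.eq_ofNat_of_zero_le (sub_nonneg.2 h3)
  obtain ⟨c4, hc4⟩ := Int.eq_ofNat_of_zero_le (sub_nonneg.2 h4)
  obtain ⟨c5, hc5⟩ := Int.eq_ofNat_of_zero_le (sub_nonneg.2 h5)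
  obtain ⟨c6, hc6⟩ := Int.eq_ofNat_of_zero_le (sub_nonneg.2 h6)
  obtain rfl : x1 = x2 + c1 := by omega
  obtain rfl : x2 = x3 + c2 := by omega
  obtain rfl : x3 = x4 + c3 := by omega
  obtain rfl : x4 = x5 + c4 := by omega
  obtain rfl : x5 = x6 + c5 := by omega
  obtain rfl : x6 = x7 + c6 := by omega
  obtain rfl : d = _ := eq_add_of_sub_eq hc0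
  refine ⟨?_, ?_, ?_, ?_, ?_, ?_, ?_⟩
  · have h : 0 ≤ 4 * ((c0 : ℤ) * (c0 : ℤ)) + 8 * ((c0 : ℤ) * (c1 : ℤ)) + 16 * ((c0 : ℤ) * (c2 : ℤ)) + 24 * ((c0 : ℤ) * (c3 : ℤ)) + 18 * ((c0 : ℤ) * (c4 : ℤ)) + 12 * ((c0 : ℤ) * (c5 : ℤ)) + 6 * ((c0 : ℤ) * (c6 : ℤ)) + 4 * ((c1 : ℤ) * (c1 : ℤ)) + 12 * ((c1 : ℤ) * (c2 : ℤ)) + 16 * ((c1 : ℤ) * (c3 : ℤ)) + 12 * ((c1 : ℤ) * (c4 : ℤ)) + 8 * ((c1 : ℤ) * (c5 : ℤ)) + 4 * ((c1 : ℤ) * (c6 : ℤ)) + 12 * ((c2 : ℤ) * (c2 : ℤ)) + 32 * ((c2 : ℤ) * (c3 : ℤ)) + 24 * ((c2 : ℤ) * (c4 : ℤ)) + 16 * ((c2 : ℤ) * (c5 : ℤ)) + 8 * ((c2 : ℤ) * (c6 : ℤ)) + 24 * ((c3 : ℤ) * (c3 : ℤ)) + 36 * ((c3 : ℤ) * (c4 : ℤ)) + 24 * ((c3 : ℤ) * (c5 : ℤ)) + 12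 * ((c3 : ℤ) * (c6 : ℤ)) + 15 * ((c4 : ℤ) * (c4 : ℤ)) + 20 * ((c4 : ℤ) * (c5 : ℤ)) + 10 * ((c4 : ℤ) * (c6 : ℤ)) + 8 * ((c5 : ℤ) * (c5 : ℤ)) + 8 * ((c5 : ℤ) * (c6 : ℤ)) + 3 * ((c6 : ℤ) * (c6 : ℤ)) := by positivity
    refine le_of_sub_nonneg (le_of_le_of_eq h ?_)
    ring
  · have h : 0 ≤ 7 * ((c0 : ℤ) * (c0 : ℤ)) + 8 * ((c0 : ℤ) * (c1 : ℤ)) + 16 * ((c0 : ℤ) * (c2 : ℤ)) + 24 * ((c0 : ℤ) * (c3 : ℤ)) + 18 * ((c0 : ℤ) * (c4 : ℤ)) + 12 * ((c0 : ℤ) * (c5 : ℤ)) + 6 * ((c0 : ℤ) * (c6 : ℤ)) + 1 * ((c1 : ℤ) * (c1 : ℤ)) + 12 * ((c1 : ℤ) * (c2 : ℤ)) + 16 * ((c1 : ℤ) * (c3 : ℤ)) + 12 * ((c1 : ℤ) * (c4 : ℤ)) + 8 * ((c1 : ℤ) * (c5 : ℤ)) + 4 * ((c1 : ℤ) * (c6 : ℤ)) +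 12 * ((c2 : ℤ) * (c2 : ℤ)) + 32 * ((c2 : ℤ) * (c3 : ℤ)) + 24 * ((c2 : ℤ) * (c4 : ℤ)) + 16 * ((c2 : ℤ) * (c5 : ℤ)) + 8 * ((c2 : ℤ) * (c6 : ℤ)) + 24 * ((c3 : ℤ) * (c3 : ℤ)) + 36 * ((c3 : ℤ) * (c4 : ℤ)) + 24 * ((c3 : ℤ) * (c5 : ℤ)) + 12 * ((c3 : ℤ) * (c6 : ℤ)) + 15 * ((c4 : ℤ) * (c4 : ℤ)) + 20 * ((c4 : ℤ) * (c5 : ℤ)) + 10 * ((c4 : ℤ) * (c6 : ℤ)) + 8 * ((c5 : ℤ) * (c5 : ℤ)) + 8 * ((c5 : ℤ) * (c6 : ℤ)) + 3 * ((c6 : ℤ) * (c6 : ℤ)) := by positivity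
    refine le_of_sub_nonneg (le_of_le_of_eq h ?_)
    ring
  · have h : 0 ≤ 7 * ((c0 : ℤ) * (c0 : ℤ)) + 8 * ((c0 : ℤ) * (c1 : ℤ)) + 16 * ((c0 : ℤ) * (c2 : ℤ)) + 24 * ((c0 : ℤ) * (c3 : ℤ)) + 18 * ((c0 : ℤ) * (c4 : ℤ)) + 12 * ((c0 : ℤ) * (c5 : ℤ)) + 6 * ((c0 : ℤ) * (c6 : ℤ)) + 4 * ((c1 : ℤ) * (c1 : ℤ)) + 12 * ((c1 : ℤ) * (c2 : ℤ)) + 16 * ((c1 : ℤ) * (c3 : ℤ)) + 12 * ((c1 : ℤ) * (c4 : ℤ)) + 8 * ((c1 : ℤ) * (c5 : ℤ)) + 4 * ((c1 : ℤ) * (c6 : ℤ)) + 9 * ((c2 : ℤ) * (c2 : ℤ)) + 32 * ((c2 : ℤ) * (c3 : ℤ)) + 24 * ((c2 : ℤ) * (c4 : ℤ)) + 16 * ((c2 : ℤ) * (c5 : ℤ)) + 8 * ((c2 : ℤ) * (c6 : ℤ)) + 24 * ((c3 : ℤ) * (c3 : ℤ)) + 36 * ((c3 : ℤ) * (c4 : ℤ)) + 24 * ((c3 :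 ℤ) * (c5 : ℤ)) + 12 * ((c3 : ℤ) * (c6 : ℤ)) + 15 * ((c4 : ℤ) * (c4 : ℤ)) + 20 * ((c4 : ℤ) * (c5 : ℤ)) + 10 * ((c4 : ℤ) * (c6 : ℤ)) + 8 * ((c5 : ℤ) * (c5 : ℤ)) + 8 * ((c5 : ℤ) * (c6 : ℤ)) + 3 * ((c6 : ℤ) * (c6 : ℤ)) := by positivity
    refine le_of_sub_nonneg (le_of_le_of_eq h ?_)
    ring
  · have h : 0 ≤ 7 * ((c0 : ℤ) * (c0 : ℤ)) + 8 * ((c0 : ℤ) * (c1 : ℤ)) + 16 * ((c0 : ℤ) * (c2 : ℤ)) + 24 * ((c0 : ℤ) * (c3 : ℤ)) + 18 * ((c0 : ℤ) * (c4 : ℤ)) + 12 * ((c0 : ℤ) * (c5 : ℤ)) + 6 * ((c0 : ℤ) * (c6 : ℤ)) + 4 * ((c1 : ℤ) * (c1 : ℤ)) + 12 * ((c1 : ℤ) * (c2 : ℤ)) + 16 * ((c1 : ℤ) * (c3 : ℤ)) + 12 * ((c1 : ℤ) * (c4 : ℤ)) + 8 * ((c1 : ℤ) * (c5 : ℤ)) + 4 * ((c1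 : ℤ) * (c6 : ℤ)) + 12 * ((c2 : ℤ) * (c2 : ℤ)) + 32 * ((c2 : ℤ) * (c3 : ℤ)) + 24 * ((c2 : ℤ) * (c4 : ℤ)) + 16 * ((c2 : ℤ) * (c5 : ℤ)) + 8 * ((c2 : ℤ) * (c6 : ℤ)) + 21 * ((c3 : ℤ) * (c3 : ℤ)) + 36 * ((c3 : ℤ) * (c4 : ℤ)) + 24 * ((c3 : ℤ) * (c5 : ℤ)) + 12 * ((c3 : ℤ) * (c6 : ℤ)) + 15 * ((c4 : ℤ) * (c4 : ℤ)) + 20 * ((c4 : ℤ) * (c5 : ℤ)) + 10 * ((c4 : ℤ) * (c6 : ℤ)) + 8 * ((c5 : ℤ) * (c5 : ℤ)) + 8 * ((c5 : ℤ) * (c6 : ℤ)) + 3 * ((c6 : ℤ) * (c6 : ℤ)) := by positivity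
    refine le_of_sub_nonneg (le_of_le_of_eq h ?_)
    ring
  · have h : 0 ≤ 7 * ((c0 : ℤ) * (c0 : ℤ)) + 8 * ((c0 : ℤ) * (c1 : ℤ)) + 16 * ((c0 : ℤ) * (c2 : ℤ)) + 24 * ((c0 : ℤ) * (c3 : ℤ)) + 18 * ((c0 : ℤ) * (c4 : ℤ)) + 12 * ((c0 : ℤ) * (c5 : ℤ)) + 6 * ((c0 : ℤ) * (c6 : ℤ)) + 4 * ((c1 : ℤ) * (c1 : ℤ)) + 12 * ((c1 : ℤ) * (c2 : ℤ)) + 16 * ((c1 : ℤ) * (c3 : ℤ)) + 12 * ((c1 : ℤ) * (c4 : ℤ)) + 8 * ((c1 : ℤ) * (c5 : ℤ)) + 4 * ((c1 : ℤ) * (c6 : ℤ)) + 12 * ((c2 : ℤ) * (c2 : ℤ)) + 32 * ((c2 : ℤ) * (c3 : ℤ)) + 24 * ((c2 : ℤ) * (c4 : ℤ)) + 16 * ((c2 : ℤ) * (c5 : ℤ)) + 8 * ((c2 : ℤ) * (c6 : ℤ)) + 24 * ((c3 : ℤ) * (c3 : ℤ)) + 36 * ((c3 : ℤ) * (c4 : ℤ)) + 24 * ((c3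 : ℤ) * (c5 : ℤ)) + 12 * ((c3 : ℤ) * (c6 : ℤ)) + 12 * ((c4 : ℤ) * (c4 : ℤ)) + 20 * ((c4 : ℤ) * (c5 : ℤ)) + 10 * ((c4 : ℤ) * (c6 : ℤ)) + 8 * ((c5 : ℤ) * (c5 : ℤ)) + 8 * ((c5 : ℤ) * (c6 : ℤ)) + 3 * ((c6 : ℤ) * (c6 : ℤ)) := by positivity
    refine le_of_sub_nonneg (le_of_le_of_eq h ?_)
    ring
  · have h : 0 ≤ 7 * ((c0 : ℤ) * (c0 : ℤ)) + 8 * ((c0 : ℤ) * (c1 : ℤ)) + 16 * ((c0 : ℤ) * (c2 : ℤ)) + 24 * ((c0 : ℤ) * (c3 : ℤ)) + 18 * ((c0 : ℤ) * (c4 : ℤ)) + 12 * ((c0 : ℤ) * (c5 : ℤ)) + 6 * ((c0 : ℤ) * (c6 : ℤ)) + 4 * ((c1 : ℤ) * (c1 : ℤ)) + 12 * ((c1 : ℤ) * (c2 : ℤ)) + 16 * ((c1 : ℤ) * (c3 : ℤ)) + 12 * ((c1 : ℤ) * (c4 : ℤ)) + 8 * ((c1 : ℤ) * (c5 : ℤ)) + 4 * ((c1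 : ℤ) * (c6 : ℤ)) + 12 * ((c2 : ℤ) * (c2 : ℤ)) + 32 * ((c2 : ℤ) * (c3 : ℤ)) + 24 * ((c2 : ℤ) * (c4 : ℤ)) + 16 * ((c2 : ℤ) * (c5 : ℤ)) + 8 * ((c2 : ℤ) * (c6 : ℤ)) + 24 * ((c3 : ℤ) * (c3 : ℤ)) + 36 * ((c3 : ℤ) * (c4 : ℤ)) + 24 * ((c3 : ℤ) * (c5 : ℤ)) + 12 * ((c3 : ℤ) * (c6 : ℤ)) + 15 * ((c4 : ℤ) * (c4 : ℤ)) + 20 * ((c4 : ℤ) * (c5 : ℤ)) + 10 * ((c4 : ℤ) * (c6 : ℤ)) + 5 * ((c5 : ℤ) * (c5 : ℤ)) + 8 * ((c5 : ℤ) * (c6 : ℤ)) + 3 * ((c6 : ℤ) * (c6 : ℤ)) := by positivity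
    refine le_of_sub_nonneg (le_of_le_of_eq h ?_)
    ring
  · have h : 0 ≤ 7 * ((c0 : ℤ) * (c0 : ℤ)) + 8 * ((c0 : ℤ) * (c1 : ℤ)) + 16 * ((c0 : ℤ) * (c2 : ℤ)) + 24 * ((c0 : ℤ) * (c3 : ℤ)) + 18 * ((c0 : ℤ) * (c4 : ℤ)) + 12 * ((c0 : ℤ) * (c5 : ℤ)) + 6 * ((c0 : ℤ) * (c6 : ℤ)) + 4 * ((c1 : ℤ) * (c1 : ℤ)) + 12 * ((c1 : ℤ) * (c2 : ℤ)) + 16 * ((c1 : ℤ) * (c3 : ℤ)) + 12 * ((c1 : ℤ) * (c4 : ℤ)) + 8 * ((c1 : ℤ) * (c5 : ℤ)) + 4 * ((c1 : ℤ) * (c6 : ℤ)) + 12 * ((c2 : ℤ) * (c2 : ℤ)) + 32 * ((c2 : ℤ) * (c3 : ℤ)) + 24 * ((c2 : ℤ) * (c4 : ℤ)) + 16 * ((c2 : ℤ) * (c5 : ℤ)) + 8 * ((c2 : ℤ) * (c6 : ℤ)) + 24 * ((c3 : ℤ) * (c3 : ℤ)) + 36 * ((c3 : ℤ) * (c4 : ℤ)) + 24 * ((c3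 : ℤ) * (c5 : ℤ)) + 12 * ((c3 : ℤ) * (c6 : ℤ)) + 15 * ((c4 : ℤ) * (c4 : ℤ)) + 20 * ((c4 : ℤ) * (c5 : ℤ)) + 10 * ((c4 : ℤ) * (c6 : ℤ)) + 8 * ((c5 : ℤ) * (c5 : ℤ)) + 8 * ((c5 : ℤ) * (c6 : ℤ)) := by positivity
    refine le_of_sub_nonneg (le_of_le_of_eq h ?_)
    ring

theorem chamber8 (d x1 x2 x3 x4 x5 x6 x7 x8 : ℤ) (h0 : x1 + x2 + x3 ≤ d) (h1 : x2 ≤ x1) (h2 : x3 ≤ x2) (h3 : x4 ≤ x3) (h4 : x5 ≤ x4) (h5 : x6 ≤ x5) (h6 : x7 ≤ x6) (h7 : x8 ≤ x7) :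
    2 * (d - x1 - x2 - x3) ^ 2 ≤ (3 * d - (x1 + x2 + x3 + x4 + x5 + x6 + x7 + x8)) ^ 2 - 1 * (d ^ 2 - (x1 ^ 2 + x2 ^ 2 + x3 ^ 2 + x4 ^ 2 + x5 ^ 2 + x6 ^ 2 + x7 ^ 2 + x8 ^ 2)) ∧
    2 * (x1 - x2) ^ 2 ≤ (3 * d - (x1 + x2 + x3 + x4 + x5 + x6 + x7 + x8)) ^ 2 - 1 * (d ^ 2 - (x1 ^ 2 + x2 ^ 2 + x3 ^ 2 + x4 ^ 2 + x5 ^ 2 + x6 ^ 2 + x7 ^ 2 + x8 ^ 2)) ∧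
    2 * (x2 - x3) ^ 2 ≤ (3 * d - (x1 + x2 + x3 + x4 + x5 + x6 + x7 + x8)) ^ 2 - 1 * (d ^ 2 - (x1 ^ 2 + x2 ^ 2 + x3 ^ 2 + x4 ^ 2 + x5 ^ 2 + x6 ^ 2 + x7 ^ 2 + x8 ^ 2)) ∧
    2 * (x3 - x4) ^ 2 ≤ (3 * d - (x1 + x2 + x3 + x4 + x5 + x6 + x7 + x8)) ^ 2 - 1 * (d ^ 2 - (x1 ^ 2 + x2 ^ 2 + x3 ^ 2 + x4 ^ 2 + x5 ^ 2 + x6 ^ 2 + x7 ^ 2 + x8 ^ 2)) ∧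
    2 * (x4 - x5) ^ 2 ≤ (3 * d - (x1 + x2 + x3 + x4 + x5 + x6 + x7 + x8)) ^ 2 - 1 * (d ^ 2 - (x1 ^ 2 + x2 ^ 2 + x3 ^ 2 + x4 ^ 2 + x5 ^ 2 + x6 ^ 2 + x7 ^ 2 + x8 ^ 2)) ∧
    2 * (x5 - x6) ^ 2 ≤ (3 * d - (x1 + x2 + x3 + x4 + x5 + x6 + x7 + x8)) ^ 2 - 1 * (d ^ 2 - (x1 ^ 2 + x2 ^ 2 + x3 ^ 2 + x4 ^ 2 + x5 ^ 2 + x6 ^ 2 + x7 ^ 2 + x8 ^ 2)) ∧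
    2 * (x6 - x7) ^ 2 ≤ (3 * d - (x1 + x2 + x3 + x4 + x5 + x6 + x7 + x8)) ^ 2 - 1 * (d ^ 2 - (x1 ^ 2 + x2 ^ 2 + x3 ^ 2 + x4 ^ 2 + x5 ^ 2 + x6 ^ 2 + x7 ^ 2 + x8 ^ 2)) ∧
    2 * (x7 - x8) ^ 2 ≤ (3 * d - (x1 + x2 + x3 + x4 + x5 + x6 + x7 + x8)) ^ 2 - 1 * (d ^ 2 - (x1 ^ 2 + x2 ^ 2 + x3 ^ 2 + x4 ^ 2 + x5 ^ 2 + x6 ^ 2 + x7 ^ 2 + x8 ^ 2)) := by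
  obtain ⟨c0, hc0⟩ := Int.eq_ofNat_of_zero_le (sub_nonneg.2 h0)
  obtain ⟨c1, hc1⟩ := Int.eq_ofNat_of_zero_le (sub_nonneg.2 h1)
  obtain ⟨c2, hc2⟩ := Int.eq_ofNat_of_zero_le (sub_nonneg.2 h2)
  obtain ⟨c3, hc3⟩ := Int.eq_ofNat_of_zero_le (sub_nonneg.2 h3)
  obtain ⟨c4, hc4⟩ := Int.eq_ofNat_of_zero_le (sub_nonneg.2 h4)
  obtain ⟨c5, hc5⟩ := Int.eq_ofNat_of_zero_le (sub_nonneg.2 h5)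
  obtain ⟨c6, hc6⟩ := Int.eq_ofNat_of_zero_le (sub_nonneg.2 h6)
  obtain ⟨c7, hc7⟩ := Int.eq_ofNat_of_zero_le (sub_nonneg.2 h7)
  obtain rfl : x1 = x2 + c1 := by omega
  obtain rfl : x2 = x3 + c2 := by omega
  obtain rfl : x3 = x4 + c3 := by omega
  obtain rfl : x4 = x5 + c4 := by omega
  obtain rfl : x5 = x6 + c5 := by omega
  obtain rfl : x6 = x7 + c6 := by omega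
  obtain rfl : x7 = x8 + c7 := by omega
  obtain rfl : d = _ := eq_add_of_sub_eq hc0
  refine ⟨?_, ?_, ?_, ?_, ?_, ?_, ?_, ?_⟩
  · have h : 0 ≤ 6 * ((c0 : ℤ) * (c0 : ℤ)) + 10 * ((c0 : ℤ) * (c1 : ℤ)) + 20 * ((c0 : ℤ) * (c2 : ℤ)) + 30 * ((c0 : ℤ) * (c3 : ℤ)) + 24 * ((c0 : ℤ) * (c4 : ℤ)) + 18 * ((c0 : ℤ) * (c5 : ℤ)) + 12 * ((c0 : ℤ) * (c6 : ℤ)) + 6 * ((c0 : ℤ) * (c7 : ℤ)) + 4 * ((c1 : ℤ) * (c1 : ℤ)) + 14 * ((c1 : ℤ) * (c2 : ℤ)) + 20 * ((c1 : ℤ) * (c3 : ℤ)) + 16 * ((c1 : ℤ) * (c4 : ℤ)) + 12 * ((c1 : ℤ) * (c5 : ℤ)) + 8 * ((c1 : ℤ) * (c6 : ℤ)) + 4 * ((c1 : ℤ) * (c7 : ℤ)) + 14 * ((c2 : ℤ) * (c2 : ℤ)) + 40 * ((c2 : ℤ) * (c3 : ℤ)) + 32 * ((c2 : ℤ) * (c4 : ℤ))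 + 24 * ((c2 : ℤ) * (c5 : ℤ)) + 16 * ((c2 : ℤ) * (c6 : ℤ)) + 8 * ((c2 : ℤ) * (c7 : ℤ)) + 30 * ((c3 : ℤ) * (c3 : ℤ)) + 48 * ((c3 : ℤ) * (c4 : ℤ)) + 36 * ((c3 : ℤ) * (c5 : ℤ)) + 24 * ((c3 : ℤ) * (c6 : ℤ)) + 12 * ((c3 : ℤ) * (c7 : ℤ)) + 20 * ((c4 : ℤ) * (c4 : ℤ)) + 30 * ((c4 : ℤ) * (c5 : ℤ)) + 20 * ((c4 : ℤ) * (c6 : ℤ)) + 10 * ((c4 : ℤ) * (c7 : ℤ)) + 12 * ((c5 : ℤ) * (c5 : ℤ)) + 16 * ((c5 : ℤ) * (c6 : ℤ)) + 8 * ((c5 : ℤ) * (c7 : ℤ)) + 6 * ((c6 : ℤ) * (c6 : ℤ)) + 6 * ((c6 : ℤ) * (c7 : ℤ)) + 2 * ((c7 : ℤ) * (c7 : ℤ)) := by positivity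
    refine le_of_sub_nonneg (le_of_le_of_eq h ?_)
    ring
  · have h : 0 ≤ 8 * ((c0 : ℤ) * (c0 : ℤ)) + 10 * ((c0 : ℤ) * (c1 : ℤ)) + 20 * ((c0 : ℤ) * (c2 : ℤ)) + 30 * ((c0 : ℤ) * (c3 : ℤ)) + 24 * ((c0 : ℤ) * (c4 : ℤ)) + 18 * ((c0 : ℤ) * (c5 : ℤ)) + 12 * ((c0 : ℤ) * (c6 : ℤ)) + 6 * ((c0 : ℤ) * (c7 : ℤ)) + 2 * ((c1 : ℤ) * (c1 : ℤ)) + 14 * ((c1 : ℤ) * (c2 : ℤ)) + 20 * ((c1 : ℤ) * (c3 : ℤ)) + 16 * ((c1 : ℤ) * (c4 : ℤ)) + 12 * ((c1 : ℤ) * (c5 : ℤ)) + 8 * ((c1 : ℤ) * (c6 : ℤ)) + 4 * ((c1 : ℤ) * (c7 : ℤ)) + 14 * ((c2 : ℤ) * (c2 : ℤ)) + 40 * ((c2 : ℤ) * (c3 : ℤ)) + 32 * ((c2 : ℤ) * (c4 : ℤ)) + 24 * ((c2 : ℤ) * (c5 : ℤ)) + 16 * ((c2 : ℤ) * (c6 : ℤ)) + 8 * ((c2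 : ℤ) * (c7 : ℤ)) + 30 * ((c3 : ℤ) * (c3 : ℤ)) + 48 * ((c3 : ℤ) * (c4 : ℤ)) + 36 * ((c3 : ℤ) * (c5 : ℤ)) + 24 * ((c3 : ℤ) * (c6 : ℤ)) + 12 * ((c3 : ℤ) * (c7 : ℤ)) + 20 * ((c4 : ℤ) * (c4 : ℤ)) + 30 * ((c4 : ℤ) * (c5 : ℤ)) + 20 * ((c4 : ℤ) * (c6 : ℤ)) + 10 * ((c4 : ℤ) * (c7 : ℤ)) + 12 * ((c5 : ℤ) * (c5 : ℤ)) + 16 * ((c5 : ℤ) * (c6 : ℤ)) + 8 * ((c5 : ℤ) * (c7 : ℤ)) + 6 * ((c6 : ℤ) * (c6 : ℤ)) + 6 * ((c6 : ℤ) * (c7 : ℤ)) + 2 * ((c7 : ℤ) * (c7 : ℤ)) := by positivity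
    refine le_of_sub_nonneg (le_of_le_of_eq h ?_)
    ring
  · have h : 0 ≤ 8 * ((c0 : ℤ) * (c0 : ℤ)) + 10 * ((c0 : ℤ) * (c1 : ℤ)) + 20 * ((c0 : ℤ) * (c2 : ℤ)) + 30 * ((c0 : ℤ) * (c3 : ℤ)) + 24 * ((c0 : ℤ) * (c4 : ℤ)) + 18 * ((c0 : ℤ) * (c5 : ℤ)) + 12 * ((c0 : ℤ) * (c6 : ℤ)) + 6 * ((c0 : ℤ) * (c7 : ℤ)) + 4 * ((c1 : ℤ) * (c1 : ℤ)) + 14 * ((c1 : ℤ) * (c2 : ℤ)) + 20 * ((c1 : ℤ) * (c3 : ℤ)) + 16 * ((c1 : ℤ) * (c4 : ℤ)) + 12 * ((c1 : ℤ) * (c5 : ℤ)) + 8 * ((c1 : ℤ) * (c6 : ℤ)) + 4 * ((c1 : ℤ) * (c7 : ℤ)) + 12 * ((c2 : ℤ) * (c2 : ℤ)) + 40 * ((c2 : ℤ) * (c3 : ℤ)) + 32 * ((c2 : ℤ) * (c4 : ℤ)) + 24 * ((c2 : ℤ) * (c5 : ℤ)) + 16 * ((c2 : ℤ) * (c6 : ℤ)) + 8 * ((c2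 : ℤ) * (c7 : ℤ)) + 30 * ((c3 : ℤ) * (c3 : ℤ)) + 48 * ((c3 : ℤ) * (c4 : ℤ)) + 36 * ((c3 : ℤ) * (c5 : ℤ)) + 24 * ((c3 : ℤ) * (c6 : ℤ)) + 12 * ((c3 : ℤ) * (c7 : ℤ)) + 20 * ((c4 : ℤ) * (c4 : ℤ)) + 30 * ((c4 : ℤ) * (c5 : ℤ)) + 20 * ((c4 : ℤ) * (c6 : ℤ)) + 10 * ((c4 : ℤ) * (c7 : ℤ)) + 12 * ((c5 : ℤ) * (c5 : ℤ)) + 16 * ((c5 : ℤ) * (c6 : ℤ)) + 8 * ((c5 : ℤ) * (c7 : ℤ)) + 6 * ((c6 : ℤ) * (c6 : ℤ)) + 6 * ((c6 : ℤ) * (c7 : ℤ)) + 2 * ((c7 : ℤ) * (c7 : ℤ)) := by positivity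
    refine le_of_sub_nonneg (le_of_le_of_eq h ?_)
    ring
  · have h : 0 ≤ 8 * ((c0 : ℤ) * (c0 : ℤ)) + 10 * ((c0 : ℤ) * (c1 : ℤ)) + 20 * ((c0 : ℤ) * (c2 : ℤ)) + 30 * ((c0 : ℤ) * (c3 : ℤ)) + 24 * ((c0 : ℤ) * (c4 : ℤ)) + 18 * ((c0 : ℤ) * (c5 : ℤ)) + 12 * ((c0 : ℤ) * (c6 : ℤ)) + 6 * ((c0 : ℤ) * (c7 : ℤ)) + 4 * ((c1 : ℤ) * (c1 : ℤ)) + 14 * ((c1 : ℤ) * (c2 : ℤ)) + 20 * ((c1 : ℤ) * (c3 : ℤ)) + 16 * ((c1 : ℤ) * (c4 : ℤ)) + 12 * ((c1 : ℤ) * (c5 : ℤ)) + 8 * ((c1 : ℤ) * (c6 : ℤ)) + 4 * ((c1 : ℤ) * (c7 : ℤ)) + 14 * ((c2 : ℤ) * (c2 : ℤ)) + 40 * ((c2 : ℤ) * (c3 : ℤ)) + 32 * ((c2 : ℤ) * (c4 : ℤ)) + 24 * ((c2 : ℤ) * (c5 : ℤ)) + 16 * ((c2 : ℤ) * (c6 : ℤ)) + 8 * ((c2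 : ℤ) * (c7 : ℤ)) + 28 * ((c3 : ℤ) * (c3 : ℤ)) + 48 * ((c3 : ℤ) * (c4 : ℤ)) + 36 * ((c3 : ℤ) * (c5 : ℤ)) + 24 * ((c3 : ℤ) * (c6 : ℤ)) + 12 * ((c3 : ℤ) * (c7 : ℤ)) + 20 * ((c4 : ℤ) * (c4 : ℤ)) + 30 * ((c4 : ℤ) * (c5 : ℤ)) + 20 * ((c4 : ℤ) * (c6 : ℤ)) + 10 * ((c4 : ℤ) * (c7 : ℤ)) + 12 * ((c5 : ℤ) * (c5 : ℤ)) + 16 * ((c5 : ℤ) * (c6 : ℤ)) + 8 * ((c5 : ℤ) * (c7 : ℤ)) + 6 * ((c6 : ℤ) * (c6 : ℤ)) + 6 * ((c6 : ℤ) * (c7 : ℤ)) + 2 * ((c7 : ℤ) * (c7 : ℤ)) := by positivity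
    refine le_of_sub_nonneg (le_of_le_of_eq h ?_)
    ring
  · have h : 0 ≤ 8 * ((c0 : ℤ) * (c0 : ℤ)) + 10 * ((c0 : ℤ) * (c1 : ℤ)) + 20 * ((c0 : ℤ) * (c2 : ℤ)) + 30 * ((c0 : ℤ) * (c3 : ℤ)) + 24 * ((c0 : ℤ) * (c4 : ℤ)) + 18 * ((c0 : ℤ) * (c5 : ℤ)) + 12 * ((c0 : ℤ) * (c6 : ℤ)) + 6 * ((c0 : ℤ) * (c7 : ℤ)) + 4 * ((c1 : ℤ) * (c1 : ℤ)) + 14 * ((c1 : ℤ) * (c2 : ℤ)) + 20 * ((c1 : ℤ) * (c3 : ℤ)) + 16 * ((c1 : ℤ) * (c4 : ℤ)) + 12 * ((c1 : ℤ) * (c5 : ℤ)) + 8 * ((c1 : ℤ) * (c6 : ℤ)) + 4 * ((c1 : ℤ) * (c7 : ℤ)) + 14 * ((c2 : ℤ) * (c2 : ℤ)) + 40 * ((c2 : ℤ) * (c3 : ℤ)) + 32 * ((c2 : ℤ) * (c4 : ℤ)) + 24 * ((c2 : ℤ) * (c5 : ℤ)) + 16 * ((c2 : ℤ) * (c6 : ℤ)) + 8 * ((c2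 : ℤ) * (c7 : ℤ)) + 30 * ((c3 : ℤ) * (c3 : ℤ)) + 48 * ((c3 : ℤ) * (c4 : ℤ)) + 36 * ((c3 : ℤ) * (c5 : ℤ)) + 24 * ((c3 : ℤ) * (c6 : ℤ)) + 12 * ((c3 : ℤ) * (c7 : ℤ)) + 18 * ((c4 : ℤ) * (c4 : ℤ)) + 30 * ((c4 : ℤ) * (c5 : ℤ)) + 20 * ((c4 : ℤ) * (c6 : ℤ)) + 10 * ((c4 : ℤ) * (c7 : ℤ)) + 12 * ((c5 : ℤ) * (c5 : ℤ)) + 16 * ((c5 : ℤ) * (c6 : ℤ)) + 8 * ((c5 : ℤ) * (c7 : ℤ)) + 6 * ((c6 : ℤ) * (c6 : ℤ)) + 6 * ((c6 : ℤ) * (c7 : ℤ)) + 2 * ((c7 : ℤ) * (c7 : ℤ)) := by positivity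
    refine le_of_sub_nonneg (le_of_le_of_eq h ?_)
    ring
  · have h : 0 ≤ 8 * ((c0 : ℤ) * (c0 : ℤ)) + 10 * ((c0 : ℤ) * (c1 : ℤ)) + 20 * ((c0 : ℤ) * (c2 : ℤ)) + 30 * ((c0 : ℤ) * (c3 : ℤ)) + 24 * ((c0 : ℤ) * (c4 : ℤ)) + 18 * ((c0 : ℤ) * (c5 : ℤ)) + 12 * ((c0 : ℤ) * (c6 : ℤ)) + 6 * ((c0 : ℤ) * (c7 : ℤ)) + 4 * ((c1 : ℤ) * (c1 : ℤ)) + 14 * ((c1 : ℤ) * (c2 : ℤ)) + 20 * ((c1 : ℤ) * (c3 : ℤ)) + 16 * ((c1 : ℤ) * (c4 : ℤ)) + 12 * ((c1 : ℤ) * (c5 : ℤ)) + 8 * ((c1 : ℤ) * (c6 : ℤ)) + 4 * ((c1 : ℤ) * (c7 : ℤ)) + 14 * ((c2 : ℤ) * (c2 : ℤ)) + 40 * ((c2 : ℤ) * (c3 : ℤ)) + 32 * ((c2 : ℤ) * (c4 : ℤ)) + 24 * ((c2 : ℤ) * (c5 : ℤ)) + 16 * ((c2 : ℤ) * (c6 : ℤ)) + 8 * ((c2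 : ℤ) * (c7 : ℤ)) + 30 * ((c3 : ℤ) * (c3 : ℤ)) + 48 * ((c3 : ℤ) * (c4 : ℤ)) + 36 * ((c3 : ℤ) * (c5 : ℤ)) + 24 * ((c3 : ℤ) * (c6 : ℤ)) + 12 * ((c3 : ℤ) * (c7 : ℤ)) + 20 * ((c4 : ℤ) * (c4 : ℤ)) + 30 * ((c4 : ℤ) * (c5 : ℤ)) + 20 * ((c4 : ℤ) * (c6 : ℤ)) + 10 * ((c4 : ℤ) * (c7 : ℤ)) + 10 * ((c5 : ℤ) * (c5 : ℤ)) + 16 * ((c5 : ℤ) * (c6 : ℤ)) + 8 * ((c5 : ℤ) * (c7 : ℤ)) + 6 * ((c6 : ℤ) * (c6 : ℤ)) + 6 * ((c6 : ℤ) * (c7 : ℤ)) + 2 * ((c7 : ℤ) * (c7 : ℤ)) := by positivity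
    refine le_of_sub_nonneg (le_of_le_of_eq h ?_)
    ring
  · have h : 0 ≤ 8 * ((c0 : ℤ) * (c0 : ℤ)) + 10 * ((c0 : ℤ) * (c1 : ℤ)) + 20 * ((c0 : ℤ) * (c2 : ℤ)) + 30 * ((c0 : ℤ) * (c3 : ℤ)) + 24 * ((c0 : ℤ) * (c4 : ℤ)) + 18 * ((c0 : ℤ) * (c5 : ℤ)) + 12 * ((c0 : ℤ) * (c6 : ℤ)) + 6 * ((c0 : ℤ) * (c7 : ℤ)) + 4 * ((c1 : ℤ) * (c1 : ℤ)) + 14 * ((c1 : ℤ) * (c2 : ℤ)) + 20 * ((c1 : ℤ) * (c3 : ℤ)) + 16 * ((c1 : ℤ) * (c4 : ℤ)) + 12 * ((c1 : ℤ) * (c5 : ℤ)) + 8 * ((c1 : ℤ) * (c6 : ℤ)) + 4 * ((c1 : ℤ) * (c7 : ℤ)) + 14 * ((c2 : ℤ) * (c2 : ℤ)) + 40 * ((c2 : ℤ) * (c3 : ℤ)) + 32 * ((c2 : ℤ) * (c4 : ℤ)) + 24 * ((c2 : ℤ) * (c5 : ℤ)) + 16 * ((c2 : ℤ) * (c6 : ℤ)) + 8 * ((c2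 : ℤ) * (c7 : ℤ)) + 30 * ((c3 : ℤ) * (c3 : ℤ)) + 48 * ((c3 : ℤ) * (c4 : ℤ)) + 36 * ((c3 : ℤ) * (c5 : ℤ)) + 24 * ((c3 : ℤ) * (c6 : ℤ)) + 12 * ((c3 : ℤ) * (c7 : ℤ)) + 20 * ((c4 : ℤ) * (c4 : ℤ)) + 30 * ((c4 : ℤ) * (c5 : ℤ)) + 20 * ((c4 : ℤ) * (c6 : ℤ)) + 10 * ((c4 : ℤ) * (c7 : ℤ)) + 12 * ((c5 : ℤ) * (c5 : ℤ)) + 16 * ((c5 : ℤ) * (c6 : ℤ)) + 8 * ((c5 : ℤ) * (c7 : ℤ)) + 4 * ((c6 : ℤ) * (c6 : ℤ)) + 6 * ((c6 : ℤ) * (c7 : ℤ)) + 2 * ((c7 : ℤ) * (c7 : ℤ)) := by positivity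
    refine le_of_sub_nonneg (le_of_le_of_eq h ?_)
    ring
  · have h : 0 ≤ 8 * ((c0 : ℤ) * (c0 : ℤ)) + 10 * ((c0 : ℤ) * (c1 : ℤ)) + 20 * ((c0 : ℤ) * (c2 : ℤ)) + 30 * ((c0 : ℤ) * (c3 : ℤ)) + 24 * ((c0 : ℤ) * (c4 : ℤ)) + 18 * ((c0 : ℤ) * (c5 : ℤ)) + 12 * ((c0 : ℤ) * (c6 : ℤ)) + 6 * ((c0 : ℤ) * (c7 : ℤ)) + 4 * ((c1 : ℤ) * (c1 : ℤ)) + 14 * ((c1 : ℤ) * (c2 : ℤ)) + 20 * ((c1 : ℤ) * (c3 : ℤ)) + 16 * ((c1 : ℤ) * (c4 : ℤ)) + 12 * ((c1 : ℤ) * (c5 : ℤ)) + 8 * ((c1 : ℤ) * (c6 : ℤ)) + 4 * ((c1 : ℤ) * (c7 : ℤ)) + 14 * ((c2 : ℤ) * (c2 : ℤ)) + 40 * ((c2 : ℤ) * (c3 : ℤ)) + 32 * ((c2 : ℤ) * (c4 : ℤ)) + 24 * ((c2 : ℤ) * (c5 : ℤ)) + 16 * ((c2 : ℤ) * (c6 : ℤ)) + 8 * ((c2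 : ℤ) * (c7 : ℤ)) + 30 * ((c3 : ℤ) * (c3 : ℤ)) + 48 * ((c3 : ℤ) * (c4 : ℤ)) + 36 * ((c3 : ℤ) * (c5 : ℤ)) + 24 * ((c3 : ℤ) * (c6 : ℤ)) + 12 * ((c3 : ℤ) * (c7 : ℤ)) + 20 * ((c4 : ℤ) * (c4 : ℤ)) + 30 * ((c4 : ℤ) * (c5 : ℤ)) + 20 * ((c4 : ℤ) * (c6 : ℤ)) + 10 * ((c4 : ℤ) * (c7 : ℤ)) + 12 * ((c5 : ℤ) * (c5 : ℤ)) + 16 * ((c5 : ℤ) * (c6 : ℤ)) + 8 * ((c5 : ℤ) * (c7 : ℤ)) + 6 * ((c6 : ℤ) * (c6 : ℤ)) + 6 * ((c6 : ℤ) * (c7 : ℤ)) := by positivity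
    refine le_of_sub_nonneg (le_of_le_of_eq h ?_)
    ring

end Pool.Agent.X157.W
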