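import Pool.Agent.X157.W.Aut
import Pool.Agent.TH167.SH.Irr

set_option autoImplicit false

/-!
# Irreducible plane curves through generic points: conjugation, permutations, quadratic
transformations

For points with algebraically independent coordinates the set of the classes of irreducible curves
does not depend on the points, and the classes of the irreducible curves which are not
`(-1)`-curves are permuted by the Weyl group.
-/

namespace Pool.Agent.X157.W

open MvPolynomial Pool.Agent.W609 Pool.Agent.W609.CR Pool.Agent.TH167 Pool.Agent.TH167.SH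

/-- Orders of vanishing and automorphisms of the field. -/
theorem van_map (τ : ℂ ≃+* ℂ) (v : Fin 3 → ℂ) (m : ℕ) (f : MvPolynomial (Fin 3) ℂ) :
    Van (fun i => τ (v i)) m (mapEquiv (Fin 3) τ f) ↔ Van v m f := by
  unfold Van
  obtain ⟨φ, hφ⟩ : ∃ φ, φ = mapEquiv (Fin 3) τ := ⟨_, rfl⟩
  rw [← hφ]
  have h1 : RingHom.ker (eval fun i => τ (v i)) =
      Ideal.map (φ : MvPolynomial (Fin 3) ℂ →+* MvPolynomial (Fin 3) ℂ)
        (RingHom.ker (eval v)) := by
    rw [Ideal.map_comap_of_equiv]
    ext g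
    rw [Ideal.mem_comap, RingHom.mem_ker, RingHom.mem_ker]
    obtain ⟨h, rfl⟩ := φ.surjective g
    have h2 : eval (fun i => τ (v i)) (φ h) = τ (eval v h) := by
      rw [hφ]
      have e1 : (mapEquiv (Fin 3) τ) h = map (τ : ℂ →+* ℂ) h := rfl
      have e3 := eval₂_comp_left (τ : ℂ →+* ℂ) (RingHom.id ℂ) v h
      rw [eval₂_id, RingHom.comp_id] at e3
      rw [e1, eval_map]
      exact e3.symm
    rw [h2]
    simp
  rw [h1, ← Ideal.map_pow]
  constructor
  · intro h
    obtain ⟨g, hg, hgf⟩ := (Ideal.mem_map_of_equiv φ _).1 h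
    rwa [← φ.injective hgf]
  · exact fun h => Ideal.mem_map_of_mem _ h

/-- The coordinates of the points are algebraically independent. -/
def Gen {s : ℕ} (P : Fin s → Fin 2 → ℂ) : Prop :=
  AlgebraicIndependent ℚ (fun ij : Fin s × Fin 2 => P ij.1 ij.2)

/-- `(d, w)` is the class of an irreducible curve on the blow-up of the plane at the points. -/
def Ic {s : ℕ} (P : Fin s → Fin 2 → ℂ) (d : ℕ) (w : Fin s → ℕ) : Prop :=
  ∃ G : MvPolynomial (Fin 3) ℂ, Irreducible G ∧ G.IsHomogeneous d ∧
    ∀ j, Ord (aff (P j)) (w j) G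

/-- The classes of irreducible curves do not depend on the points. -/
theorem Ic.move {s : ℕ} {P P' : Fin s → Fin 2 → ℂ} (hP : Gen P) (hP' : Gen P') {d : ℕ}
    {w : Fin s → ℕ} (h : Ic P d w) : Ic P' d w := by
  obtain ⟨G, hG, hGd, hGo⟩ := h
  obtain ⟨τ, hτ⟩ := exists_aut_map hP hP'
  refine ⟨mapEquiv (Fin 3) τ G, (MulEquiv.irreducible_iff (mapEquiv (Fin 3) τ)).2 hG, ?_,
    fun j => ?_⟩
  · have e1 : (mapEquiv (Fin 3) τ) G = map (τ : ℂ →+* ℂ) G := rfl
    rw [e1]
    exact hGd.map _
  · have h1 : (fun i => τ (aff (P j) i)) = aff (P' j) := by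
      have h2 : ∀ b, τ (P j b) = P' j b := fun b => hτ (j, b)
      funext i
      fin_cases i
      · exact h2 0
      · exact h2 1
      · exact map_one τ
    unfold CR.Ord
    rw [← h1, van_map, van_map]
    exact hGo j

/-- Permutations. -/
theorem Ic.perm {s : ℕ} {P : Fin s → Fin 2 → ℂ} (hP : Gen P) {d : ℕ} {w : Fin s → ℕ}
    (h : Ic P d w) (σ : Equiv.Perm (Fin s)) : Ic P d (fun j => w (σ j)) := by
  have hP' : Gen (fun j => P (σ j)) := by
    unfold Gen at hP ⊢
    have h1 := hP.comp (Equiv.prodCongr σ (Equiv.refl (Fin 2)))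
      (Equiv.prodCongr σ (Equiv.refl (Fin 2))).injective
    exact h1
  have h2 : Ic (fun j => P (σ j)) d (fun j => w (σ j)) := by
    obtain ⟨G, hG, hGd, hGo⟩ := h
    exact ⟨G, hG, hGd, fun j => hGo (σ j)⟩
  exact h2.move hP' hP

/-- Two irreducible curves of different classes. -/
theorem Ic.ip_nonneg {s : ℕ} {P : Fin s → Fin 2 → ℂ} (hP : Gen P) {d e : ℕ} {w u : Fin s → ℕ}
    (h : Ic P d w) (h' : Ic P e u) (hne : ¬ (d = e ∧ w = u)) : 0 ≤ ip d w e u := by
  obtain ⟨C, hC, hCd, hCo⟩ := h
  obtain ⟨G, hG, hGe, hGo⟩ := h'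
  have hinj := inj_of_alg hP
  by_cases hdvd : G ∣ C
  · exfalso
    obtain ⟨H, hH⟩ := hdvd
    have hu : IsUnit H := by
      rcases hC.isUnit_or_isUnit hH with h | h
      · exact absurd h hG.not_isUnit
      · exact h
    obtain ⟨c, hc, rfl⟩ : ∃ c : ℂ, c ≠ 0 ∧ H = MvPolynomial.C c := by
      have h10 := MvPolynomial.isUnit_iff_eq_C_of_isReduced.1 hu
      obtain ⟨c, hc, rfl⟩ := h10
      exact ⟨c, hc.ne_zero, rfl⟩
    have hde : d = e := by
      have t1 : C.totalDegree = d := hCd.totalDegree hC.ne_zero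
      have t2 : G.totalDegree = e := hGe.totalDegree hG.ne_zero
      rw [hH, MvPolynomial.totalDegree_mul_of_isDomain hG.ne_zero hu.ne_zero,
        MvPolynomial.totalDegree_C, t2] at t1
      omega
    have hwu : w = u := by
      funext j
      have t1 : Ord (aff (P j)) (u j + 0) (G * MvPolynomial.C c) := by
        refine ord_mul (hGo j) ⟨van_zero _ _, fun h => ?_⟩
        rw [zero_add, van_one, MvPolynomial.eval_C] at h
        exact hc h
      rw [add_zero, ← hH] at t1
      exact ord_unique (hCo j) t1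
    exact hne ⟨hde, hwu⟩
  · have hbez := bez hinj hG hGe (fun j => (hGo j).1) hC.ne_zero hCd
      (fun j => (hCo j).1) hdvd
    have h3 : (∑ j, (w j : ℤ) * u j) = ((∑ j, u j * w j : ℕ) : ℤ) := by
      push_cast
      exact Finset.sum_congr rfl fun j _ => mul_comm _ _
    unfold ip
    rw [h3, mul_comm (d : ℤ)]
    have : ((∑ j, u j * w j : ℕ) : ℤ) ≤ ((e * d : ℕ) : ℤ) := by exact_mod_cast hbez
    push_cast at this ⊢
    linarith

/-- The class is not the class of a `(-1)`-curve. -/
def NotExc {s : ℕ} (d : ℕ) (w : Fin s → ℕ) : Prop := ¬ (ip d w d w = -1 ∧ kk d w = 1)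

/-- Pairs of multiplicities. -/
theorem Ic.pair {s : ℕ} {P : Fin s → Fin 2 → ℂ} (hP : Gen P) {d : ℕ} {w : Fin s → ℕ}
    (h : Ic P d w) (hne : NotExc d w) {a b : Fin s} (hab : a ≠ b) : w a + w b ≤ d := by
  classical
  obtain ⟨G, hG, hGe, hord⟩ := h
  have hwd : ∀ j, w j ≤ d := fun j => van_le hG.ne_zero hGe (hord j).1
  by_contra hlt
  rw [not_le] at hlt
  rcases pair_irr (inj_of_alg hP) hG hGe hord hab with h | ⟨he1, ha, hb⟩
  · omega
  · subst he1
    have ha1 : w a = 1 := le_antisymm (hwd a) ha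
    have hb1 : w b = 1 := le_antisymm (hwd b) hb
    have hz : ∀ l, l ≠ a → l ≠ b → w l = 0 := by
      intro l hla hlb
      by_contra hne
      have h1 : 1 ≤ w l := Nat.one_le_iff_ne_zero.2 hne
      refine line_two hP hG.ne_zero hGe ![a, b, l] (inj_cons hab hla.symm hlb.symm) ?_
      intro k
      fin_cases k
      · exact van_mono ha (hord a).1
      · exact van_mono hb (hord b).1
      · exact van_mono h1 (hord l).1
    have hwe : w = fun l => if l = a ∨ l = b then 1 else 0 := by
      funext l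
      by_cases h : l = a ∨ l = b
      · rw [if_pos h]
        rcases h with h | h
        · rw [h, ha1]
        · rw [h, hb1]
      · rw [if_neg h]
        push Not at h
        exact hz l h.1 h.2
    have hE := exc_line hP hab
    rw [← hwe] at hE
    exact hne ⟨self_iff.1 hE.self, can_iff.1 hE.can⟩

/-- Quadratic transformations of the class of an irreducible curve which is not a
`(-1)`-curve. -/
theorem Ic.quad {s : ℕ} {P : Fin s → Fin 2 → ℂ} (hP : Gen P) {d : ℕ} {w : Fin s → ℕ}
    (h : Ic P d w) (hne : NotExc d w) {i : Fin 3 → Fin s} (hi : Function.Injective i) :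
    PS i d w ∧ Ic P (cd i d w) (wcr d i w) ∧ NotExc (cd i d w) (wcr d i w) := by
  have p : PS i d w :=
    ⟨h.pair hP hne fun h0 => absurd (hi h0) (by decide),
      h.pair hP hne fun h0 => absurd (hi h0) (by decide),
      h.pair hP hne fun h0 => absurd (hi h0) (by decide)⟩
  refine ⟨p, ?_, ?_⟩
  · obtain ⟨P', hP', hr⟩ := exists_crel hP hi
    obtain ⟨G, hG, hGe, hGo⟩ := h
    obtain ⟨G', a1, a2, a3⟩ := hr.irr hG hGe hGo p.p01 p.p02 p.p12
    exact Ic.move (P := P') hP' hP ⟨G', a1, a2, a3⟩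
  · unfold NotExc at hne ⊢
    rw [ip_cr hi p p, kk_cr hi p]
    exact hne

end Pool.Agent.X157.W
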