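import Pool.Agent.X157.W.Conj

set_option autoImplicit false

/-!
# `(-1)`-curves are carried to exceptional curves of the blow-up
-/

namespace Pool.Agent.X157.W

open MvPolynomial Pool.Agent.W609 Pool.Agent.W609.CR Pool.Agent.TH167 Pool.Agent.TH167.SH

/-- `C` is an irreducible curve and `E` is a `(-1)`-curve. Quadratic transformations carry `C` to
an irreducible curve at the same points, one of whose multiplicities is the number `C E`. -/
theorem exc_pair {r : ℕ} {P : Fin (r + 4) → Fin 2 → ℂ} (hP : Gen P) :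
    ∀ (e : ℕ) (u : Fin (r + 4) → ℕ), Ic P e u → ip e u e u = -1 → kk e u = 1 →
    ∀ (d : ℕ) (w : Fin (r + 4) → ℕ), Ic P d w → NotExc d w →
      ∃ (d' : ℕ) (w' : Fin (r + 4) → ℕ) (k : Fin (r + 4)), Ic P d' w' ∧ NotExc d' w' ∧
        ip d' w' d' w' = ip d w d w ∧ kk d' w' = kk d w ∧ (w' k : ℤ) = ip d w e u ∧
        Relation.ReflTransGen Quad (d, w) (d', w') := by
  classical
  intro e
  induction e using Nat.strong_induction_on with
  | _ e ih =>
    intro u hE hs hk d w hC hne
    have hum : ∀ j, u j ≤ e := by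
      obtain ⟨G, hG, hGe, hGo⟩ := hE
      exact fun j => van_le hG.ne_zero hGe (hGo j).1
    have he0 : 0 < e := by
      obtain ⟨G, hG, hGe, hGo⟩ := hE
      exact deg_pos hG hGe
    have hself := self_iff.2 hs
    have hcan := can_iff.2 hk
    by_cases hpair : ∀ i j, i ≠ j → u i + u j ≤ e
    · obtain ⟨M, hM⟩ : ∃ M, ∀ j, u j ≤ M := ⟨∑ j, u j, fun j =>
        Finset.single_le_sum (fun _ _ => Nat.zero_le _) (Finset.mem_univ j)⟩
      have hfew : Few M e u := by
        left
        rw [Finset.filter_false_of_mem fun j _ => not_lt.2 (hM j)]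
        simp
      have hnr : ¬ Reduced e u := by
        intro hred
        have h1 := red_ip hred hum (by omega)
        omega
      obtain ⟨i, hinj, p, -, hlt, -⟩ := exists_step hfew hnr hpair
      obtain ⟨P', hP', hr⟩ := exists_crel hP hinj
      have hE' : Ic P (cd i e u) (wcr e i u) := by
        obtain ⟨G, hG, hGe, hGo⟩ := hE
        obtain ⟨G', a1, a2, a3⟩ := hr.irr hG hGe hGo p.p01 p.p02 p.p12
        exact Ic.move (P := P') hP' hP ⟨G', a1, a2, a3⟩
      obtain ⟨q, hC', hne'⟩ := hC.quad hP hne hinj
      obtain ⟨d', w', k, b1, b2, b3, b4, b5, b6⟩ := ih _ hlt _ hE'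
        (by rw [ip_cr hinj p p, hs]) (by rw [kk_cr hinj p, hk]) _ _ hC' hne'
      refine ⟨d', w', k, b1, b2, ?_, ?_, ?_, ?_⟩
      · rw [b3, ip_cr hinj q q]
      · rw [b4, kk_cr hinj q]
      · rw [b5, ip_cr hinj q p]
      · exact (Relation.ReflTransGen.single ⟨i, hinj, q, rfl⟩).trans b6
    · push Not at hpair
      obtain ⟨a, b, hab, hlt⟩ := hpair
      obtain ⟨G, hG, hGe, hGo⟩ := hE
      rcases pair_irr (inj_of_alg hP) hG hGe hGo hab with h | ⟨he1, ha, hb⟩
      · omega
      · subst he1
        obtain ⟨a1, b1, hz⟩ := two_of_sum hab (by omega) ha hb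
        obtain ⟨c, hca, hcb⟩ := exists_third a b
        have hinj := inj_cons hab hca.symm hcb.symm
        obtain ⟨q, hC', hne'⟩ := hC.quad hP hne hinj
        refine ⟨_, _, c, hC', hne', ip_cr hinj q q, kk_cr hinj q, ?_,
          Relation.ReflTransGen.single ⟨_, hinj, q, rfl⟩⟩
        rw [wcr_cast hinj q]
        have h1 : ic ![a, b, c] c = 1 := if_pos (Or.inr (Or.inr rfl))
        have hue : u = fun l => if l = a ∨ l = b then 1 else 0 := by
          funext l
          by_cases h : l = a ∨ l = b
          · rw [if_pos h]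
            rcases h with h | h
            · rw [h, a1]
            · rw [h, b1]
          · rw [if_neg h]
            push Not at h
            exact hz l h.1 h.2
        rw [h1, hue, ip_ind hab d w]
        unfold dl
        show (w c : ℤ) + ((d : ℤ) - w a - w b - w c) * 1 = _
        ring

end Pool.Agent.X157.W
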