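import Pool.Agent.X157.W.Root
import Pool.Agent.X157.W.Chamber

set_option autoImplicit false

/-!
# At most eight of the points
-/

namespace Pool.Agent.X157.W

open MvPolynomial Pool.Agent.W609 Pool.Agent.W609.CR Pool.Agent.TH167 Pool.Agent.TH167.SH

/-- The constants of the six root systems. -/
def cst (m : ℕ) : ℤ := if m = 3 then 3 else if m = 7 then 3 else if m = 8 then 2 else 4

theorem chamber_all {m : ℕ} (hm3 : 3 ≤ m) (hm8 : m ≤ 8) (d : ℤ) (x : Fin m → ℤ)
    (hx : Antitone x)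
    (h0 : x ⟨0, by omega⟩ + x ⟨1, by omega⟩ + x ⟨2, by omega⟩ ≤ d) :
    cst m * (d - x ⟨0, by omega⟩ - x ⟨1, by omega⟩ - x ⟨2, by omega⟩) ^ 2 ≤
        (3 * d - ∑ i, x i) ^ 2 - (9 - m) * (d ^ 2 - ∑ i, x i ^ 2) ∧
      ∀ (i : ℕ) (h : i + 1 < m), cst m * (x ⟨i, by omega⟩ - x ⟨i + 1, h⟩) ^ 2 ≤
        (3 * d - ∑ i, x i) ^ 2 - (9 - m) * (d ^ 2 - ∑ i, x i ^ 2) := by
  have hs : ∀ (i : ℕ) (h : i + 1 < m), x ⟨i + 1, h⟩ ≤ x ⟨i, by omega⟩ := fun i h =>
    hx (Fin.mk_le_mk.2 (by omega))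
  interval_cases m
  · have h := chamber3 d (x 0) (x 1) (x 2) h0 (hs 0 (by omega)) (hs 1 (by omega))
    obtain ⟨a0, a1, a2⟩ := h
    have e1 : (3 * d - ∑ i, x i) ^ 2 - (9 - ((3 : ℕ) : ℤ)) * (d ^ 2 - ∑ i, x i ^ 2) =
        (3 * d - (x 0 + x 1 + x 2)) ^ 2 - 6 * (d ^ 2 - (x 0 ^ 2 + x 1 ^ 2 + x 2 ^ 2)) := by
      rw [Fin.sum_univ_three, Fin.sum_univ_three]
      norm_num
    rw [e1]
    refine ⟨a0, fun i h => ?_⟩
    have hi : i < 2 := by omega
    interval_cases i
    · exact a1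
    · exact a2
  · have h := chamber4 d (x 0) (x 1) (x 2) (x 3) h0 (hs 0 (by omega)) (hs 1 (by omega))
      (hs 2 (by omega))
    obtain ⟨a0, a1, a2, a3⟩ := h
    have e1 : (3 * d - ∑ i, x i) ^ 2 - (9 - ((4 : ℕ) : ℤ)) * (d ^ 2 - ∑ i, x i ^ 2) =
        (3 * d - (x 0 + x 1 + x 2 + x 3)) ^ 2 -
          5 * (d ^ 2 - (x 0 ^ 2 + x 1 ^ 2 + x 2 ^ 2 + x 3 ^ 2)) := by
      rw [Fin.sum_univ_four, Fin.sum_univ_four]
      norm_num
    rw [e1]
    refine ⟨a0, fun i h => ?_⟩
    have hi : i < 3 := by omega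
    interval_cases i
    · exact a1
    · exact a2
    · exact a3
  · have h := chamber5 d (x 0) (x 1) (x 2) (x 3) (x 4) h0 (hs 0 (by omega)) (hs 1 (by omega))
      (hs 2 (by omega)) (hs 3 (by omega))
    obtain ⟨a0, a1, a2, a3, a4⟩ := h
    have e1 : (3 * d - ∑ i, x i) ^ 2 - (9 - ((5 : ℕ) : ℤ)) * (d ^ 2 - ∑ i, x i ^ 2) =
        (3 * d - (x 0 + x 1 + x 2 + x 3 + x 4)) ^ 2 -
          4 * (d ^ 2 - (x 0 ^ 2 + x 1 ^ 2 + x 2 ^ 2 + x 3 ^ 2 + x 4 ^ 2)) := by
      rw [Fin.sum_univ_five, Fin.sum_univ_five]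
      norm_num
    rw [e1]
    refine ⟨a0, fun i h => ?_⟩
    have hi : i < 4 := by omega
    interval_cases i
    · exact a1
    · exact a2
    · exact a3
    · exact a4
  · have h := chamber6 d (x 0) (x 1) (x 2) (x 3) (x 4) (x 5) h0 (hs 0 (by omega))
      (hs 1 (by omega)) (hs 2 (by omega)) (hs 3 (by omega)) (hs 4 (by omega))
    obtain ⟨a0, a1, a2, a3, a4, a5⟩ := h
    have e1 : (3 * d - ∑ i, x i) ^ 2 - (9 - ((6 : ℕ) : ℤ)) * (d ^ 2 - ∑ i, x i ^ 2) =
        (3 * d - (x 0 + x 1 + x 2 + x 3 + x 4 + x 5)) ^ 2 -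
          3 * (d ^ 2 - (x 0 ^ 2 + x 1 ^ 2 + x 2 ^ 2 + x 3 ^ 2 + x 4 ^ 2 + x 5 ^ 2)) := by
      rw [Fin.sum_univ_six, Fin.sum_univ_six]
      norm_num
    rw [e1]
    refine ⟨a0, fun i h => ?_⟩
    have hi : i < 5 := by omega
    interval_cases i
    · exact a1
    · exact a2
    · exact a3
    · exact a4
    · exact a5
  · have h := chamber7 d (x 0) (x 1) (x 2) (x 3) (x 4) (x 5) (x 6) h0 (hs 0 (by omega))
      (hs 1 (by omega)) (hs 2 (by omega)) (hs 3 (by omega)) (hs 4 (by omega)) (hs 5 (by omega))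
    obtain ⟨a0, a1, a2, a3, a4, a5, a6⟩ := h
    have e1 : (3 * d - ∑ i, x i) ^ 2 - (9 - ((7 : ℕ) : ℤ)) * (d ^ 2 - ∑ i, x i ^ 2) =
        (3 * d - (x 0 + x 1 + x 2 + x 3 + x 4 + x 5 + x 6)) ^ 2 -
          2 * (d ^ 2 - (x 0 ^ 2 + x 1 ^ 2 + x 2 ^ 2 + x 3 ^ 2 + x 4 ^ 2 + x 5 ^ 2 + x 6 ^ 2)) := by
      rw [Fin.sum_univ_seven, Fin.sum_univ_seven]
      norm_num
    rw [e1]
    refine ⟨a0, fun i h => ?_⟩
    have hi : i < 6 := by omega
    interval_cases i
    · exact a1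
    · exact a2
    · exact a3
    · exact a4
    · exact a5
    · exact a6
  · have h := chamber8 d (x 0) (x 1) (x 2) (x 3) (x 4) (x 5) (x 6) (x 7) h0 (hs 0 (by omega))
      (hs 1 (by omega)) (hs 2 (by omega)) (hs 3 (by omega)) (hs 4 (by omega)) (hs 5 (by omega))
      (hs 6 (by omega))
    obtain ⟨a0, a1, a2, a3, a4, a5, a6, a7⟩ := h
    have e1 : (3 * d - ∑ i, x i) ^ 2 - (9 - ((8 : ℕ) : ℤ)) * (d ^ 2 - ∑ i, x i ^ 2) =
        (3 * d - (x 0 + x 1 + x 2 + x 3 + x 4 + x 5 + x 6 + x 7)) ^ 2 -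
          1 * (d ^ 2 - (x 0 ^ 2 + x 1 ^ 2 + x 2 ^ 2 + x 3 ^ 2 + x 4 ^ 2 + x 5 ^ 2 + x 6 ^ 2 +
            x 7 ^ 2)) := by
      rw [Fin.sum_univ_eight, Fin.sum_univ_eight]
      norm_num
    rw [e1]
    refine ⟨a0, fun i h => ?_⟩
    have hi : i < 7 := by omega
    interval_cases i
    · exact a1
    · exact a2
    · exact a3
    · exact a4
    · exact a5
    · exact a6
    · exact a7

/-- The pairing with the difference of two points. -/
theorem pr_pts {s : ℕ} {i j : Fin s} (hij : i ≠ j) (d : ℕ) (w : Fin s → ℕ) :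
    pr 0 (fun l => (if l = i then (1 : ℤ) else 0) - (if l = j then 1 else 0)) d w =
      (w j : ℤ) - w i := by
  classical
  unfold pr
  have h1 : ∀ l, ((if l = i then (1 : ℤ) else 0) - (if l = j then 1 else 0)) * (w l : ℤ) =
      (if l = i then (w i : ℤ) else 0) - (if l = j then (w j : ℤ) else 0) := by
    intro l
    by_cases c1 : l = i
    · subst c1
      by_cases c2 : l = j
      · exact absurd c2 hij
      · simp [c2]
    · by_cases c2 : l = j
      · subst c2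
        simp [c1]
      · simp [c1, c2]
  rw [Finset.sum_congr rfl fun l _ => h1 l, Finset.sum_sub_distrib,
    Finset.sum_ite_eq' Finset.univ i, Finset.sum_ite_eq' Finset.univ j,
    if_pos (Finset.mem_univ _), if_pos (Finset.mem_univ _)]
  ring

theorem pr_line {s : ℕ} {i j k : Fin s} (hij : i ≠ j) (hik : i ≠ k) (hjk : j ≠ k) (d : ℕ)
    (w : Fin s → ℕ) : pr 1 (fun l => if l = i ∨ l = j ∨ l = k then 1 else 0) d w =
      (d : ℤ) - w i - w j - w k := by
  have h3 : ∑ l, (if l = i ∨ l = j ∨ l = k then (1 : ℤ) else 0) * (w l : ℤ) =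
      (w i : ℤ) + w j + w k := sum_ic (inj3 hij hik hjk) (fun l => (w l : ℤ))
  unfold pr
  rw [h3]
  ring

/-- **At most eight points.** -/
theorem few {s : ℕ} {P : Fin s → Fin 2 → ℂ} (hP : Gen P) {S : Finset (Fin s)}
    (hS3 : 3 ≤ S.card) (hS8 : S.card ≤ 8) :
    ∀ (d : ℕ) (w : Fin s → ℕ), Ic P d w → NotExc d w → ip d w d w < 0 →
      (∀ i ∈ S, (d : ℤ) = 3 * w i) ∨
      -cst S.card * ip d w d w + (9 - S.card) * (∑ i ∈ Sᶜ, (w i : ℤ) ^ 2 + ip d w d w) ≤
        (3 * d - ∑ i ∈ S, (w i : ℤ)) ^ 2 := by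
  classical
  intro d
  induction d using Nat.strong_induction_on with
  | _ d ih =>
    intro w hC hne hneg
    by_cases hst : ∀ i ∈ S, ∀ j ∈ S, ∀ l ∈ S, i ≠ j → i ≠ l → j ≠ l → w i + w j + w l ≤ d
    · -- the fundamental chamber
      obtain ⟨m, hm⟩ : ∃ m, m = S.card := ⟨_, rfl⟩
      rw [← hm] at hS3 hS8 ⊢
      let e : Fin m ≃ S := (finCongr hm).trans S.equivFin.symm
      obtain ⟨τ, hτ⟩ := exists_sort (fun t => w (e t))
      obtain ⟨σ, hσ⟩ : ∃ σ : Fin m → Fin s, σ = fun t => (e (τ t) : Fin s) := ⟨_, rfl⟩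
      have hσS : ∀ t, σ t ∈ S := fun t => by
        rw [hσ]
        exact (e (τ t)).2
      have hσi : Function.Injective σ := by
        rw [hσ]
        exact fun a b h => τ.injective (e.injective (Subtype.ext h))
      have hσs : ∀ i ∈ S, ∃ t, σ t = i := fun i hi =>
        ⟨τ.symm (e.symm ⟨i, hi⟩), by rw [hσ]; simp⟩
      have hsum : ∀ g : Fin s → ℤ, ∑ t, g (σ t) = ∑ i ∈ S, g i := by
        intro g
        rw [hσ, ← Finset.sum_coe_sort S g, ← Equiv.sum_comp e]
        exact Equiv.sum_comp τ fun t => g (e t)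
      have hanti : Antitone fun t => (w (σ t) : ℤ) := by
        intro a b hab
        have h1 : w (σ a) ≥ w (σ b) := by
          rw [hσ]
          exact hτ hab
        exact Int.ofNat_le.2 h1
      have h012 : (w (σ ⟨0, by omega⟩) : ℤ) + w (σ ⟨1, by omega⟩) + w (σ ⟨2, by omega⟩) ≤ d := by
        exact_mod_cast hst _ (hσS _) _ (hσS _) _ (hσS _)
          (hσi.ne (by rw [Ne, Fin.mk.injEq]; omega)) (hσi.ne (by rw [Ne, Fin.mk.injEq]; omega))
          (hσi.ne (by rw [Ne, Fin.mk.injEq]; omega))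
      obtain ⟨c1, c2⟩ := chamber_all hS3 hS8 d (fun t => (w (σ t) : ℤ)) hanti h012
      rw [hsum (fun i => (w i : ℤ)), hsum (fun i => (w i : ℤ) ^ 2)] at c1 c2
      have hcpos : 0 < cst m := by
        unfold cst
        split_ifs <;> norm_num
      -- the form in terms of the self-intersection
      have hself : (d : ℤ) ^ 2 - ∑ i ∈ S, (w i : ℤ) ^ 2 =
          ∑ i ∈ Sᶜ, (w i : ℤ) ^ 2 + ip d w d w := by
        unfold ip
        have h1 : ∑ j, (w j : ℤ) * w j = ∑ i ∈ S, (w i : ℤ) ^ 2 + ∑ i ∈ Sᶜ, (w i : ℤ) ^ 2 := by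
          rw [Finset.sum_add_sum_compl]
          exact Finset.sum_congr rfl fun j _ => by ring
        rw [h1]
        ring
      rw [hself] at c1 c2
      have hfin : ∀ z : ℤ, z ≠ 0 → (z = 0 ∨ 0 ≤ ip d w d w + z ^ 2) →
          cst m * z ^ 2 ≤ (3 * (d : ℤ) - ∑ i ∈ S, (w i : ℤ)) ^ 2 -
            (9 - m) * (∑ i ∈ Sᶜ, (w i : ℤ) ^ 2 + ip d w d w) →
          -cst m * ip d w d w + (9 - m) * (∑ i ∈ Sᶜ, (w i : ℤ) ^ 2 + ip d w d w) ≤
            (3 * d - ∑ i ∈ S, (w i : ℤ)) ^ 2 := by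
        intro z hz h1 h2
        rcases h1 with h1 | h1
        · exact absurd h1 hz
        · have h3 : cst m * (-ip d w d w) ≤ cst m * z ^ 2 :=
            mul_le_mul_of_nonneg_left (by linarith) hcpos.le
          linarith
      by_cases hz0 : (d : ℤ) - w (σ ⟨0, by omega⟩) - w (σ ⟨1, by omega⟩) - w (σ ⟨2, by omega⟩) = 0
      · by_cases hall : ∀ (i : ℕ) (h : i + 1 < m),
            (w (σ ⟨i, by omega⟩) : ℤ) - w (σ ⟨i + 1, h⟩) = 0
        · left
          have h1 : ∀ (i : ℕ) (h : i < m), (w (σ ⟨i, h⟩) : ℤ) = w (σ ⟨0, by omega⟩) := by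
            intro i
            induction i with
            | zero => intro h; rfl
            | succ i ih2 =>
              intro h
              have h2 := hall i h
              have h3 := ih2 (by omega)
              linarith
          intro i hi
          obtain ⟨t, rfl⟩ := hσs i hi
          have h2 := h1 t.1 t.2
          have h3 := h1 1 (by omega)
          have h4 := h1 2 (by omega)
          have h5 : (⟨t.1, t.2⟩ : Fin m) = t := rfl
          rw [h5] at h2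
          linarith
        · right
          push Not at hall
          obtain ⟨i, hi, hz⟩ := hall
          have hij : σ ⟨i + 1, hi⟩ ≠ σ ⟨i, by omega⟩ :=
            hσi.ne (by rw [Ne, Fin.mk.injEq]; omega)
          have hg := root_gap hP (Root.pts _ _ hij) d w hC hne
          rw [pr_pts hij] at hg
          exact hfin _ hz hg (c2 i hi)
      · right
        have n1 : σ ⟨0, by omega⟩ ≠ σ ⟨1, by omega⟩ := hσi.ne (by rw [Ne, Fin.mk.injEq]; omega)
        have n2 : σ ⟨0, by omega⟩ ≠ σ ⟨2, by omega⟩ := hσi.ne (by rw [Ne, Fin.mk.injEq]; omega)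
        have n3 : σ ⟨1, by omega⟩ ≠ σ ⟨2, by omega⟩ := hσi.ne (by rw [Ne, Fin.mk.injEq]; omega)
        have hg := root_gap hP (Root.line _ _ _ n1 n2 n3) d w hC hne
        rw [pr_line n1 n2 n3] at hg
        exact hfin _ hz0 hg c1
    · -- a quadratic transformation lowers the degree
      push Not at hst
      obtain ⟨i, hi, j, hj, l, hl, hij, hil, hjl, hlt⟩ := hst
      have hinj := inj3 hij hil hjl
      obtain ⟨p, h1, h2⟩ := hC.quad hP hne hinj
      have hcd := cd_cast p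
      have hdl : dl ![i, j, l] d w = (d : ℤ) - w i - w j - w l := rfl
      have hdneg : dl ![i, j, l] d w < 0 := by
        rw [hdl]
        omega
      have hlt' : cd ![i, j, l] d w < d := by omega
      have h3 := ih _ hlt' _ h1 h2 (by rw [ip_cr hinj p p]; exact hneg)
      have hw : ∀ t, (wcr d ![i, j, l] w t : ℤ) = w t + dl ![i, j, l] d w * ic ![i, j, l] t :=
        wcr_cast hinj p
      have icS : ∀ t, t ∉ S → ic ![i, j, l] t = 0 := by
        intro t ht
        refine if_neg ?_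
        rintro (h | h | h)
        · exact ht (by rw [h]; exact hi)
        · exact ht (by rw [h]; exact hj)
        · exact ht (by rw [h]; exact hl)
      have i0 : ic ![i, j, l] i = 1 := if_pos (Or.inl rfl)
      have i1 : ic ![i, j, l] j = 1 := if_pos (Or.inr (Or.inl rfl))
      have i2 : ic ![i, j, l] l = 1 := if_pos (Or.inr (Or.inr rfl))
      rcases h3 with h3 | h3
      · exfalso
        have a1 := h3 i hi
        have a2 := h3 j hj
        have a3 := h3 l hl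
        rw [hw, i0, hcd] at a1
        rw [hw, i1, hcd] at a2
        rw [hw, i2, hcd] at a3
        rw [hdl] at a1 a2 a3 hdneg
        linarith
      · right
        rw [ip_cr hinj p p] at h3
        have e1 : ∑ t ∈ Sᶜ, (wcr d ![i, j, l] w t : ℤ) ^ 2 = ∑ t ∈ Sᶜ, (w t : ℤ) ^ 2 := by
          refine Finset.sum_congr rfl fun t ht => ?_
          rw [hw, icS t (Finset.mem_compl.1 ht), mul_zero, add_zero]
        have e2 : ∑ t ∈ S, ic ![i, j, l] t = 3 := by
          have h4 := sum_ic hinj (fun _ => (1 : ℤ))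
          have h5 : ∑ t ∈ S, ic ![i, j, l] t = ∑ t, ic ![i, j, l] t := by
            rw [← Finset.sum_add_sum_compl S, Finset.sum_eq_zero (s := Sᶜ) fun t ht =>
              icS t (Finset.mem_compl.1 ht), add_zero]
          rw [h5]
          simpa using h4
        have e3 : 3 * (cd ![i, j, l] d w : ℤ) - ∑ t ∈ S, (wcr d ![i, j, l] w t : ℤ) =
            3 * d - ∑ t ∈ S, (w t : ℤ) := by
          rw [Finset.sum_congr rfl fun t _ => hw t, Finset.sum_add_distrib, ← Finset.mul_sum, e2,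
            hcd]
          ring
        rw [e1, e3] at h3
        exact h3

end Pool.Agent.X157.W
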