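import Pool.Agent.X157.W.Conj
import Pool.Agent.TH167.TT.Core2

set_option autoImplicit false

/-!
# Fixed components of linear systems at generic points
-/

namespace Pool.Agent.X157.W

open MvPolynomial Pool.Agent.W609 Pool.Agent.W609.CR Pool.Agent.TH167 Pool.Agent.TH167.SH
  Pool.Agent.TH167.TT

/-- The swap lemma. -/
theorem swap {S : Set (MvPolynomial (Fin 3) ℂ)} {F0 : MvPolynomial (Fin 3) ℂ} (hF0 : F0 ∈ S)
    (h0 : F0 ≠ 0) {G A A' : MvPolynomial (Fin 3) ℂ} (hG : Irreducible G) (hGA : G ∣ A)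
    (hA : ∀ F ∈ S, A ∣ F) (hsw : ∀ H, A * H ∈ S → A' * H ∈ S) : G ∣ A' := by
  by_contra hcon
  have hp : Prime G := hG.prime
  have h1 : ∀ k, ∀ F ∈ S, G ^ k ∣ F := by
    intro k
    induction k with
    | zero => intro F _; rw [pow_zero]; exact one_dvd _
    | succ k ih =>
      intro F hF
      obtain ⟨H, rfl⟩ := hA F hF
      have h2 := ih _ (hsw H hF)
      have h3 := hp.pow_dvd_of_dvd_mul_left k hcon h2
      rw [pow_succ, mul_comm]
      exact mul_dvd_mul hGA h3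
  obtain ⟨n, hn⟩ := FiniteMultiplicity.of_not_isUnit hG.not_isUnit h0
  exact hn (h1 _ F0 hF0)

/-- `(e; u)` is the class of a fixed component of the linear system of class `(d; w)`. -/
def Fx {s : ℕ} (P : Fin s → Fin 2 → ℂ) (d : ℕ) (w : Fin s → ℕ) (e : ℕ) (u : Fin s → ℕ)
    (G : MvPolynomial (Fin 3) ℂ) : Prop :=
  Irreducible G ∧ G.IsHomogeneous e ∧ (∀ j, Ord (aff (P j)) (u j) G) ∧
    ∀ F ∈ VS (fun j => aff (P j)) w d, G ∣ F

theorem ord_one {v : Fin 3 → ℂ} : Ord v 0 (1 : MvPolynomial (Fin 3) ℂ) := by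
  refine ⟨?_, ?_⟩
  · unfold Van
    rw [pow_zero, Ideal.one_eq_top]
    trivial
  · unfold Van
    rw [zero_add, pow_one, RingHom.mem_ker, map_one]
    exact one_ne_zero

theorem ord_prod {ι : Type} {v : Fin 3 → ℂ} (T : Finset ι) (G : ι → MvPolynomial (Fin 3) ℂ)
    (n : ι → ℕ) (h : ∀ t ∈ T, Ord v (n t) (G t)) : Ord v (∑ t ∈ T, n t) (∏ t ∈ T, G t) := by
  classical
  induction T using Finset.induction_on with
  | empty => exact ord_one
  | insert a T ha ih =>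
    rw [Finset.sum_insert ha, Finset.prod_insert ha]
    exact ord_mul (h a (Finset.mem_insert_self _ _))
      (ih fun t ht => h t (Finset.mem_insert_of_mem ht))

theorem assoc_class {s : ℕ} {P : Fin s → Fin 2 → ℂ} {e e' : ℕ} {u u' : Fin s → ℕ}
    {G G' : MvPolynomial (Fin 3) ℂ} (hG : Irreducible G) (hG' : Irreducible G')
    (he : G.IsHomogeneous e) (he' : G'.IsHomogeneous e') (hu : ∀ j, Ord (aff (P j)) (u j) G)
    (hu' : ∀ j, Ord (aff (P j)) (u' j) G') (h : G ∣ G') : e = e' ∧ u = u' := by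
  obtain ⟨x, hx⟩ := hG.associated_of_dvd hG' h
  have hxu : IsUnit (x : MvPolynomial (Fin 3) ℂ) := x.isUnit
  have h1 := (MvPolynomial.isUnit_iff_totalDegree_of_isReduced.1 hxu).2
  have h2 : (x : MvPolynomial (Fin 3) ℂ) = C (coeff 0 (x : MvPolynomial (Fin 3) ℂ)) :=
    MvPolynomial.totalDegree_eq_zero_iff_eq_C.1 h1
  have hc : coeff 0 (x : MvPolynomial (Fin 3) ℂ) ≠ 0 := by
    intro h0
    rw [h0, C_0] at h2
    exact x.ne_zero h2
  have hod : ∀ v, Ord v 0 (x : MvPolynomial (Fin 3) ℂ) := by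
    intro v
    refine ⟨?_, ?_⟩
    · unfold Van
      rw [pow_zero, Ideal.one_eq_top]
      trivial
    · unfold Van
      rw [zero_add, pow_one, RingHom.mem_ker, h2, eval_C]
      exact hc
  refine ⟨?_, ?_⟩
  · have h3 : (G * (x : MvPolynomial (Fin 3) ℂ)).IsHomogeneous (e + 0) := by
      rw [h2]
      exact he.mul (isHomogeneous_C _ _)
    rw [hx, add_zero] at h3
    have h4 := h3.totalDegree hG'.ne_zero
    have h5 := he'.totalDegree hG'.ne_zero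
    omega
  · funext j
    have h3 := ord_mul (hu j) (hod (aff (P j)))
    rw [hx, add_zero] at h3
    exact ord_unique h3 (hu' j)

theorem prod_dvd {ι : Type} {s : ℕ} {P : Fin s → Fin 2 → ℂ} (T : Finset ι)
    (G : ι → MvPolynomial (Fin 3) ℂ) (e : ι → ℕ) (u : ι → Fin s → ℕ)
    (hG : ∀ t ∈ T, Irreducible (G t) ∧ (G t).IsHomogeneous (e t) ∧
      ∀ j, Ord (aff (P j)) (u t j) (G t))
    (hne : ∀ t ∈ T, ∀ t' ∈ T, t ≠ t' → ¬ (e t = e t' ∧ u t = u t'))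
    {F : MvPolynomial (Fin 3) ℂ} (h : ∀ t ∈ T, G t ∣ F) : ∏ t ∈ T, G t ∣ F := by
  refine Finset.prod_dvd_of_isRelPrime ?_ h
  intro t ht t' ht' htt
  show IsRelPrime (G t) (G t')
  rw [(hG t ht).1.isRelPrime_iff_not_dvd]
  intro hd
  obtain ⟨a1, a2, a3⟩ := hG t ht
  obtain ⟨b1, b2, b3⟩ := hG t' ht'
  exact hne t ht t' ht' htt (assoc_class a1 b1 a2 b2 a3 b3 hd)

/-- Sums of different fixed components are rigid. -/
theorem rigid {ι : Type} {s : ℕ} {P : Fin s → Fin 2 → ℂ} {d : ℕ} {w : Fin s → ℕ}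
    {F0 : MvPolynomial (Fin 3) ℂ} (hF0 : F0 ≠ 0) (hF : F0 ∈ VS (fun j => aff (P j)) w d)
    (T : Finset ι) (G : ι → MvPolynomial (Fin 3) ℂ) (e : ι → ℕ) (u : ι → Fin s → ℕ)
    (hG : ∀ t ∈ T, Fx P d w (e t) (u t) (G t))
    (hne : ∀ t ∈ T, ∀ t' ∈ T, t ≠ t' → ¬ (e t = e t' ∧ u t = u t'))
    {A : MvPolynomial (Fin 3) ℂ}
    (hA : A ∈ VS (fun j => aff (P j)) (fun j => ∑ t ∈ T, u t j) (∑ t ∈ T, e t)) :
    ∃ c : ℂ, A = C c * ∏ t ∈ T, G t := by
  have hA' := (mem_VS _ _ _ _).1 hA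
  have hB1 : (∏ t ∈ T, G t).IsHomogeneous (∑ t ∈ T, e t) :=
    MvPolynomial.IsHomogeneous.prod T G e fun t ht => (hG t ht).2.1
  have hB2 : ∀ j, Ord (aff (P j)) (∑ t ∈ T, u t j) (∏ t ∈ T, G t) := fun j =>
    ord_prod T G (fun t => u t j) fun t ht => (hG t ht).2.2.1 j
  have hBd : ∀ F ∈ VS (fun j => aff (P j)) w d, ∏ t ∈ T, G t ∣ F := fun F hF' =>
    prod_dvd T G e u (fun t ht => ⟨(hG t ht).1, (hG t ht).2.1, (hG t ht).2.2.1⟩) hne
      fun t ht => (hG t ht).2.2.2 F hF'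
  by_cases hA0 : A = 0
  · exact ⟨0, by rw [hA0, C_0, zero_mul]⟩
  have hd : ∏ t ∈ T, G t ∣ A := by
    refine prod_dvd T G e u (fun t ht => ⟨(hG t ht).1, (hG t ht).2.1, (hG t ht).2.2.1⟩) hne
      fun t ht => ?_
    refine swap (S := (VS (fun j => aff (P j)) w d : Set (MvPolynomial (Fin 3) ℂ))) hF hF0
      (hG t ht).1 (Finset.dvd_prod_of_mem G ht) hBd fun H hH => ?_
    by_cases hH0 : H = 0
    · rw [hH0, mul_zero]
      exact Submodule.zero_mem _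
    have hB0 : ∏ t ∈ T, G t ≠ 0 := Finset.prod_ne_zero_iff.2 fun t ht => (hG t ht).1.ne_zero
    obtain ⟨h1, h2⟩ := mem_of_factor hH (mul_ne_zero hB0 hH0) hB1 hB2 rfl
    have h3 := (mem_VS _ _ _ _).1 h2
    refine (mem_VS _ _ _ _).2 ⟨?_, fun j => ?_⟩
    · have h4 := hA'.1.mul h3.1
      rwa [Nat.add_sub_cancel' h1] at h4
    · exact van_mono (by omega) (van_mul (hA'.2 j) (h3.2 j))
  obtain ⟨H, hH⟩ := hd
  have hB0 : ∏ t ∈ T, G t ≠ 0 := Finset.prod_ne_zero_iff.2 fun t ht => (hG t ht).1.ne_zero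
  have hH0 : H ≠ 0 := fun h0 => hA0 (by rw [hH, h0, mul_zero])
  have hHh := Pool.Agent.Chud.homog_of_dvd hA'.1 hA0 (Dvd.intro_left _ hH.symm)
  have h6 := hB1.mul hHh
  rw [← hH] at h6
  have h7 := h6.totalDegree hA0
  have h8 := hA'.1.totalDegree hA0
  have h9 : H.totalDegree = 0 := by omega
  refine ⟨coeff 0 H, ?_⟩
  rw [hH, mul_comm, ← MvPolynomial.totalDegree_eq_zero_iff_eq_C.1 h9]

/-- Fixed components do not depend on the points. -/
theorem Fx.move {s : ℕ} {P P' : Fin s → Fin 2 → ℂ} (hP : Gen P) (hP' : Gen P') {d e : ℕ}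
    {w u : Fin s → ℕ} {G : MvPolynomial (Fin 3) ℂ} (h : Fx P d w e u G) :
    ∃ G', Fx P' d w e u G' := by
  obtain ⟨hG, hGd, hGo, hGF⟩ := h
  obtain ⟨τ, hτ⟩ := exists_aut_map hP hP'
  have h1 : ∀ j, (fun i => τ (aff (P j) i)) = aff (P' j) := by
    intro j
    have h2 : ∀ b, τ (P j b) = P' j b := fun b => hτ (j, b)
    funext i
    fin_cases i
    · exact h2 0
    · exact h2 1
    · exact map_one τ
  refine ⟨mapEquiv (Fin 3) τ G, (MulEquiv.irreducible_iff (mapEquiv (Fin 3) τ)).2 hG, ?_,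
    fun j => ?_, fun F hF => ?_⟩
  · have e1 : (mapEquiv (Fin 3) τ) G = map (τ : ℂ →+* ℂ) G := rfl
    rw [e1]
    exact hGd.map _
  · unfold CR.Ord
    rw [← h1, van_map, van_map]
    exact hGo j
  · obtain ⟨H, hH⟩ : ∃ H, mapEquiv (Fin 3) τ H = F := (mapEquiv (Fin 3) τ).surjective F
    have hHF := (mem_VS _ _ _ _).1 hF
    have h2 : H ∈ VS (fun j => aff (P j)) w d := by
      refine (mem_VS _ _ _ _).2 ⟨?_, fun j => ?_⟩
      · have e1 : (mapEquiv (Fin 3) τ) H = map (τ : ℂ →+* ℂ) H := rfl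
        have h3 := hHF.1
        rw [← hH, e1] at h3
        exact (MvPolynomial.IsHomogeneous.of_map τ.injective h3)
      · have h3 := hHF.2 j
        rw [← h1 j, ← hH, van_map] at h3
        exact h3
    obtain ⟨K, hK⟩ := hGF H h2
    rw [← hH, hK, map_mul]
    exact Dvd.intro _ rfl

/-- Fixed components and permutations. -/
theorem Fx.perm {s : ℕ} {P : Fin s → Fin 2 → ℂ} (hP : Gen P) {d e : ℕ}
    {w u : Fin s → ℕ} {G : MvPolynomial (Fin 3) ℂ} (h : Fx P d w e u G)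
    (σ : Equiv.Perm (Fin s)) (hσ : ∀ j, w (σ j) = w j) :
    ∃ G', Fx P d w e (fun j => u (σ j)) G' := by
  have hP' : Gen (fun j => P (σ j)) := by
    unfold Gen at hP ⊢
    have h1 := hP.comp (Equiv.prodCongr σ (Equiv.refl (Fin 2)))
      (Equiv.prodCongr σ (Equiv.refl (Fin 2))).injective
    exact h1
  have h2 : Fx (fun j => P (σ j)) d w e (fun j => u (σ j)) G := by
    obtain ⟨hG, hGd, hGo, hGF⟩ := h
    refine ⟨hG, hGd, fun j => hGo (σ j), fun F hF => hGF F ?_⟩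
    have hF' := (mem_VS _ _ _ _).1 hF
    refine (mem_VS _ _ _ _).2 ⟨hF'.1, fun j => ?_⟩
    have h3 := hF'.2 (σ.symm j)
    have h4 := hσ (σ.symm j)
    rw [Equiv.apply_symm_apply] at h4
    rw [← h4] at h3
    simpa using h3
  exact h2.move hP' hP

/-- Two disjoint sets of fixed components with the same sum. -/
theorem disj_fix {s : ℕ} {P : Fin s → Fin 2 → ℂ} {d : ℕ} {w : Fin s → ℕ}
    {F : MvPolynomial (Fin 3) ℂ} (hF0 : F ≠ 0) (hF : F ∈ VS (fun j => aff (P j)) w d)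
    (T U : Finset (ℕ × (Fin s → ℕ))) (hTU : Disjoint T U) (hT0 : T.Nonempty)
    (hT : ∀ t ∈ T, ∃ G, Fx P d w t.1 t.2 G)
    (hU : ∀ t ∈ U, ∃ G, Fx P d w t.1 t.2 G)
    (h1 : ∑ t ∈ T, t.1 = ∑ t ∈ U, t.1)
    (h2 : ∀ j, ∑ t ∈ T, t.2 j = ∑ t ∈ U, t.2 j) : False := by
  classical
  have hT' : ∀ t : ℕ × (Fin s → ℕ), ∃ G, t ∈ T → Fx P d w t.1 t.2 G := by
    intro t
    by_cases ht : t ∈ T
    · obtain ⟨G, hG⟩ := hT t ht
      exact ⟨G, fun _ => hG⟩
    · exact ⟨0, fun h => absurd h ht⟩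
  have hU' : ∀ t : ℕ × (Fin s → ℕ), ∃ G, t ∈ U → Fx P d w t.1 t.2 G := by
    intro t
    by_cases ht : t ∈ U
    · obtain ⟨G, hG⟩ := hU t ht
      exact ⟨G, fun _ => hG⟩
    · exact ⟨0, fun h => absurd h ht⟩
  choose G hG using hT'
  choose G' hG' using hU'
  have hB1 : (∏ t ∈ U, G' t).IsHomogeneous (∑ t ∈ U, t.1) :=
    MvPolynomial.IsHomogeneous.prod U G' (fun t => t.1) fun t ht => (hG' t ht).2.1
  have hB2 : ∀ j, Ord (aff (P j)) (∑ t ∈ U, t.2 j) (∏ t ∈ U, G' t) := fun j =>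
    ord_prod U G' (fun t => t.2 j) fun t ht => (hG' t ht).2.2.1 j
  obtain ⟨c, hc⟩ := rigid hF0 hF T G (fun t => t.1) (fun t => t.2) (fun t ht => hG t ht)
    (fun t _ t' _ htt h => htt (Prod.ext h.1 h.2)) (A := ∏ t ∈ U, G' t) (by
      refine (mem_VS _ _ _ _).2 ⟨?_, fun j => ?_⟩
      · rw [h1]
        exact hB1
      · rw [h2 j]
        exact (hB2 j).1)
  obtain ⟨t, ht⟩ := hT0
  have h3 : G t ∣ ∏ t ∈ U, G' t := by
    rw [hc]
    exact Dvd.dvd.mul_left (Finset.dvd_prod_of_mem G ht) _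
  obtain ⟨t', ht', h4⟩ := (Prime.dvd_finsetProd_iff (hG t ht).1.prime _).1 h3
  have h5 := assoc_class (hG t ht).1 (hG' t' ht').1 (hG t ht).2.1 (hG' t' ht').2.1
    (hG t ht).2.2.1 (hG' t' ht').2.2.1 h4
  have h6 : t = t' := Prod.ext h5.1 h5.2
  exact Finset.disjoint_left.1 hTU ht (h6 ▸ ht')

end Pool.Agent.X157.W
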