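import Pool.Agent.X157.W.Uni3

set_option autoImplicit false

/-!
# The fixed part of a uniform system
-/

namespace Pool.Agent.X157.W

open MvPolynomial Pool.Agent.W609 Pool.Agent.W609.CR Pool.Agent.TH167 Pool.Agent.TH167.SH
  Pool.Agent.TH167.TT

/-- Divisibility is detected by prime powers. -/
theorem dvd_of_pow {R : Type} [CommRing R] [IsDomain R] [UniqueFactorizationMonoid R] {a b : R}
    (ha : a ≠ 0) (h : ∀ (p : R) (k : ℕ), Irreducible p → p ^ k ∣ a → p ^ k ∣ b) : a ∣ b := by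
  have key : ∀ a : R, a ≠ 0 → (∀ (p : R) (k : ℕ), Irreducible p → p ^ k ∣ a → p ^ k ∣ b) → a ∣ b := by
    intro a
    refine UniqueFactorizationMonoid.induction_on_coprime
      (P := fun a : R => a ≠ 0 → (∀ (p : R) (k : ℕ), Irreducible p → p ^ k ∣ a → p ^ k ∣ b) →
        a ∣ b) a ?_ ?_ ?_ ?_
    · intro h0 _
      exact absurd rfl h0
    · intro x hx _ _
      exact hx.dvd
    · intro p i hp _ h1
      exact h1 p i hp.irreducible dvd_rfl
    · intro x y hxy hx hy hne h1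
      have hx0 : x ≠ 0 := left_ne_zero_of_mul hne
      have hy0 : y ≠ 0 := right_ne_zero_of_mul hne
      exact hxy.mul_dvd (hx hx0 fun p k hp hd => h1 p k hp (hd.mul_right y))
        (hy hy0 fun p k hp hd => h1 p k hp (hd.mul_left x))
  exact key a ha h

/-- The fixed part. -/
theorem exists_fixed {n : ℕ} {P : Fin n → Fin 2 → ℂ} (hP : Gen P) : ∀ (d m : ℕ),
    (∃ F ∈ VS (fun j => aff (P j)) (fun _ : Fin n => m) d, F ≠ 0) →
    ∃ (β b : ℕ) (B : MvPolynomial (Fin 3) ℂ), β ≤ d ∧ B ≠ 0 ∧ B.IsHomogeneous β ∧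
      (∀ j, Ord (aff (P j)) b B) ∧ (∀ F ∈ VS (fun j => aff (P j)) (fun _ => m) d, B ∣ F) ∧
      ∀ G : MvPolynomial (Fin 3) ℂ, Irreducible G →
        ∃ F ∈ VS (fun j => aff (P j)) (fun _ => m - b) (d - β), ¬ G ∣ F := by
  intro d
  induction d using Nat.strong_induction_on with
  | _ d ih =>
    rintro m ⟨F, hF, hF0⟩
    by_cases hG : ∀ G : MvPolynomial (Fin 3) ℂ, Irreducible G →
        ∃ F ∈ VS (fun j => aff (P j)) (fun _ => m) d, ¬ G ∣ F
    · exact ⟨0, 0, 1, Nat.zero_le _, one_ne_zero, isHomogeneous_one _ _, fun j => ord_one,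
        fun F _ => one_dvd F, hG⟩
    push Not at hG
    obtain ⟨G, hG, hGF⟩ := hG
    have hGe := Pool.Agent.Chud.homog_of_dvd ((mem_VS _ _ _ _).1 hF).1 hF0 (hGF F hF)
    choose u hu using fun j => exists_ord (p := P j) hG.ne_zero hGe
    obtain ⟨f, φ, A, hf, hA, hAd, -, -⟩ := exists_orb2 hP hF0 hF ⟨hG, hGe, hu, hGF⟩
    obtain ⟨H, hH⟩ := hAd F hF
    obtain ⟨hfd, hH1⟩ := mem_of_factor hF hF0 hA.hom hA.ord hH
    have hH0 : H ≠ 0 := fun h0 => hF0 (by rw [hH, h0, mul_zero])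
    obtain ⟨β, b, B, h1, h2, h3, h4, h5, h6⟩ := ih (d - f) (by omega) (m - φ) ⟨H, hH1, hH0⟩
    refine ⟨f + β, φ + b, A * B, by omega, mul_ne_zero hA.ne h2, hA.hom.mul h3,
      fun j => ord_mul (hA.ord j) (h4 j), fun F' hF' => ?_, fun G' hG' => ?_⟩
    · by_cases hF0' : F' = 0
      · rw [hF0']
        exact dvd_zero _
      obtain ⟨H', hH'⟩ := hAd F' hF'
      obtain ⟨-, hH1'⟩ := mem_of_factor hF' hF0' hA.hom hA.ord hH'
      rw [hH']
      exact mul_dvd_mul dvd_rfl (h5 H' hH1')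
    · have := h6 G' hG'
      rw [Nat.sub_sub, Nat.sub_sub] at this
      exact this

/-- The fixed part is rigid. -/
theorem fixed_rigid {s : ℕ} {P : Fin s → Fin 2 → ℂ} {d : ℕ} {w : Fin s → ℕ}
    {F0 : MvPolynomial (Fin 3) ℂ} (hF0 : F0 ≠ 0) (hF : F0 ∈ VS (fun j => aff (P j)) w d)
    {β : ℕ} {b : Fin s → ℕ} {B : MvPolynomial (Fin 3) ℂ} (hB0 : B ≠ 0) (hB1 : B.IsHomogeneous β)
    (hB2 : ∀ j, Ord (aff (P j)) (b j) B)
    (hB : ∀ F ∈ VS (fun j => aff (P j)) w d, B ∣ F) :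
    Module.finrank ℂ ↥(VS (fun j => aff (P j)) b β) = 1 := by
  have hBm : B ∈ VS (fun j => aff (P j)) b β := (mem_VS _ _ _ _).2 ⟨hB1, fun j => (hB2 j).1⟩
  refine _root_.finrank_eq_one (⟨B, hBm⟩ : VS (fun j => aff (P j)) b β) ?_ ?_
  · intro h
    exact hB0 (congrArg Subtype.val h)
  · rintro ⟨A, hA⟩
    by_cases hA0 : A = 0
    · refine ⟨0, Subtype.ext ?_⟩
      show (0 : ℂ) • B = A
      rw [hA0, zero_smul]
    have hA' := (mem_VS _ _ _ _).1 hA
    have hd : B ∣ A := by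
      refine dvd_of_pow hB0 fun G k hG hGB => ?_
      refine swapK (S := (VS (fun j => aff (P j)) w d : Set (MvPolynomial (Fin 3) ℂ))) hF hF0
        hG hGB hB fun H hH => ?_
      by_cases hH0 : H = 0
      · rw [hH0, mul_zero]
        exact Submodule.zero_mem _
      obtain ⟨h1, h2⟩ := mem_of_factor hH (mul_ne_zero hB0 hH0) hB1 hB2 rfl
      have h3 := (mem_VS _ _ _ _).1 h2
      refine (mem_VS _ _ _ _).2 ⟨?_, fun j => ?_⟩
      · have h4 := hA'.1.mul h3.1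
        rwa [Nat.add_sub_cancel' h1] at h4
      · exact van_mono (by omega) (van_mul (hA'.2 j) (h3.2 j))
    obtain ⟨H, hH⟩ := hd
    have hH0 : H ≠ 0 := fun h0 => hA0 (by rw [hH, h0, mul_zero])
    have hHh := Pool.Agent.Chud.homog_of_dvd hA'.1 hA0 (Dvd.intro_left _ hH.symm)
    have h6 := hB1.mul hHh
    rw [← hH] at h6
    have h7 := h6.totalDegree hA0
    have h8 := hA'.1.totalDegree hA0
    have h9 : H.totalDegree = 0 := by omega
    refine ⟨coeff 0 H, Subtype.ext ?_⟩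
    show coeff 0 H • B = A
    rw [hH, mul_comm B H, MvPolynomial.smul_eq_C_mul, ← MvPolynomial.totalDegree_eq_zero_iff_eq_C.1 h9]

/-- Dividing by a common factor. -/
theorem fixed_dim {n : ℕ} {P : Fin n → Fin 2 → ℂ} {d m : ℕ}
    {F : MvPolynomial (Fin 3) ℂ} (hF0 : F ≠ 0) (hF : F ∈ VS (fun j => aff (P j)) (fun _ => m) d)
    {f φ : ℕ} {A : MvPolynomial (Fin 3) ℂ} (hA0 : A ≠ 0) (hA1 : A.IsHomogeneous f)
    (hA2 : ∀ j, Ord (aff (P j)) φ A)
    (hdvd : ∀ F ∈ VS (fun j => aff (P j)) (fun _ => m) d, A ∣ F) :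
    Module.finrank ℂ ↥(VS (fun j => aff (P j)) (fun _ => m) d) =
      Module.finrank ℂ ↥(VS (fun j => aff (P j)) (fun _ : Fin n => m - φ) (d - f)) := by
  obtain ⟨H, hH⟩ := hdvd F hF
  obtain ⟨h1, -⟩ := mem_of_factor hF hF0 hA1 hA2 hH
  have hmul : ∀ K ∈ VS (fun j => aff (P j)) (fun _ : Fin n => m - φ) (d - f),
      A * K ∈ VS (fun j => aff (P j)) (fun _ : Fin n => m) d := by
    intro K hK
    have hK' := (mem_VS _ _ _ _).1 hK
    refine (mem_VS _ _ _ _).2 ⟨?_, fun j => ?_⟩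
    · have h4 := hA1.mul hK'.1
      rwa [Nat.add_sub_cancel' h1] at h4
    · exact van_mono (by omega) (van_mul (hA2 j).1 (hK'.2 j))
  let T : ↥(VS (fun j => aff (P j)) (fun _ : Fin n => m - φ) (d - f)) →ₗ[ℂ]
      ↥(VS (fun j => aff (P j)) (fun _ : Fin n => m) d) :=
    { toFun := fun K => ⟨A * K.1, hmul K.1 K.2⟩
      map_add' := fun x y => Subtype.ext (mul_add _ _ _)
      map_smul' := fun c x => Subtype.ext (by
        show A * (c • x.1) = c • (A * x.1)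
        rw [mul_smul_comm]) }
  have hT : Function.Bijective T := by
    constructor
    · intro x y hxy
      have h2 : A * x.1 = A * y.1 := congrArg Subtype.val hxy
      exact Subtype.ext (mul_left_cancel₀ hA0 h2)
    · rintro ⟨G, hG⟩
      by_cases hG0 : G = 0
      · exact ⟨0, by rw [map_zero]; exact Subtype.ext hG0.symm⟩
      obtain ⟨K, hK⟩ := hdvd G hG
      obtain ⟨-, h2⟩ := mem_of_factor hG hG0 hA1 hA2 hK
      exact ⟨⟨K, h2⟩, Subtype.ext hK.symm⟩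
  exact (LinearEquiv.ofBijective T hT).finrank_eq.symm

end Pool.Agent.X157.W
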