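import Pool.Agent.X157.W.GcdNum
import Pool.Agent.X157.D.Final
import Pool.Agent.TH760.EN.Asm
import Pool.Agent.TH864.SX.Final13
import Pool.Agent.TH469.SX.TwentyOne
import Pool.Agent.H932R3.NearFinal

set_option autoImplicit false

/-!
# The fixed part of a uniform system: the numbers of points for which everything is known
-/

namespace Pool.Agent.X157.W

open MvPolynomial Pool.Agent.W609 Pool.Agent.W609.CR Pool.Agent.TH167 Pool.Agent.TH167.SH
  Pool.Agent.TH167.TT

/-- If the residual system is not special, then the system is below the threshold. -/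
theorem fixed_lo {n : ℕ} (hn : 10 ≤ n) {P : Fin n → Fin 2 → ℂ} (hP : Gen P) {d m f φ : ℕ}
    {F A : MvPolynomial (Fin 3) ℂ} (hF0 : F ≠ 0)
    (hF : F ∈ VS (fun j => aff (P j)) (fun _ => m) d) (hf : 0 < f)
    (hA : Rg P f φ A) (hAd : ∀ F ∈ VS (fun j => aff (P j)) (fun _ => m) d, A ∣ F)
    (hA1 : Module.finrank ℂ ↥(VS (fun j => aff (P j)) (fun _ : Fin n => φ) f) = 1)
    (hsp : ¬ Sp P (d - f) (m - φ)) :
    (d : ℝ) < √(n : ℝ) * m + (√(n : ℝ) - 3) / 2 := by
  obtain ⟨s, hs, hss, hs3⟩ := sqrt_facts hn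
  obtain ⟨hfd, hdim⟩ := rg_dim hF0 hF hA hAd
  obtain ⟨n1, n2, n3⟩ := orb_num hn hP hf hA1
  rcases common' hn hP hF0 hF hf hA hAd hA1 with ⟨h1, h2⟩ | ⟨h1, h2, -⟩
  · exact one_hi hn h2
  · have hpos : 0 < Module.finrank ℂ ↥(VS (fun j => aff (P j)) (fun _ : Fin n => m - φ) (d - f)) := by
      rw [← hdim]
      have hfin := vs_fin (fun j => aff (P j)) (fun _ : Fin n => m) d
      rw [Module.finrank_pos_iff]
      exact ⟨⟨F, hF⟩, 0, fun h => hF0 (congrArg Subtype.val h)⟩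
    obtain ⟨d', hd'⟩ : ∃ d', d' = d - f := ⟨_, rfl⟩
    obtain ⟨m', hm'⟩ : ∃ m', m' = m - φ := ⟨_, rfl⟩
    have hd : d = f + d' := by omega
    have hm : m = φ + m' := by omega
    have hm'0 : 0 < m' := by omega
    rw [← hd', ← hm'] at hpos hdim hsp
    have hdR : (d : ℝ) = f + d' := by rw [hd]; push_cast; ring
    have hmR : (m : ℝ) = φ + m' := by rw [hm]; push_cast; ring
    have h4 : (Module.finrank ℂ ↥(VS (fun j => aff (P j)) (fun _ : Fin n => m') d') : ℤ) ≤
        chi d' (fun _ : Fin n => m') := by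
      by_contra hc
      push Not at hc
      exact hsp ⟨hpos, hc⟩
    have h5 := chi_add (n := n) f d' φ m'
    have h6 := chi_le_dim P d (fun _ : Fin n => m)
    rw [hdim] at h6
    rw [← hd, ← hm] at h5
    have h8 := two_chi f (fun _ : Fin n => φ)
    rw [ip_const, kk_const] at h8
    have h9 : ((f : ℤ) * f - n * (φ * φ)) + (3 * f - n * φ) + 2 * ((f : ℤ) * d' - n * (φ * m')) ≤
        0 := by linarith
    have h9R : ((f : ℝ) * f - n * (φ * φ)) + (3 * f - n * φ) + 2 * ((f : ℝ) * d' - n * (φ * m')) ≤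
        0 := by exact_mod_cast h9
    have k1 := nag hn hP (m := φ) (d := f) (by rw [hA1]; exact one_pos) n1
    have k2 := nag hn hP hpos hm'0
    rw [← hs] at k1 k2 ⊢
    obtain ⟨a, ha⟩ : ∃ a, a = (f : ℝ) - s * φ := ⟨_, rfl⟩
    obtain ⟨c, hc⟩ : ∃ c, c = (d' : ℝ) - s * m' := ⟨_, rfl⟩
    have ha0 : 0 < a := by rw [ha]; linarith
    have hc0 : 0 < c := by rw [hc]; linarith
    have hφR : (1 : ℝ) ≤ φ := by exact_mod_cast n1
    have hm'R : (1 : ℝ) ≤ m' := by exact_mod_cast hm'0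
    have ef : (f : ℝ) = s * φ + a := by rw [ha]; ring
    have ed : (d' : ℝ) = s * m' + c := by rw [hc]; ring
    have key : s * φ * (2 * (a + c) - (s - 3)) + (a * a + 3 * a + 2 * (s * m' * a) + 2 * (a * c)) ≤
        0 := by
      have e1 : s * φ * (2 * (a + c) - (s - 3)) + (a * a + 3 * a + 2 * (s * m' * a) + 2 * (a * c)) =
          ((f : ℝ) * f - n * (φ * φ)) + (3 * f - n * φ) + 2 * ((f : ℝ) * d' - n * (φ * m')) := by
        rw [ef, ed, ← hss]
        ring
      rw [e1]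
      exact h9R
    have hpos2 : 0 < a * a + 3 * a + 2 * (s * m' * a) + 2 * (a * c) := by positivity
    have hneg : s * φ * (2 * (a + c) - (s - 3)) < 0 := by linarith
    have hsφ : 0 < s * φ := by positivity
    have h10 : 2 * (a + c) - (s - 3) < 0 := by
      by_contra hcon
      push Not at hcon
      have := mul_nonneg hsφ.le hcon
      linarith
    have e2 : (d : ℝ) = s * m + (a + c) := by
      rw [hdR, hmR, ef, ed]
      ring
    rw [e2]
    linarith

/-- nothing is special -/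
theorem not_sp {r : ℕ} (hr : 10 ≤ r) (hC : 37 ≤ r ∨ r = 13 ∨ r = 21 ∨ IsSquare r)
    {P : Fin r → Fin 2 → ℂ} (hP : Gen P) (m d : ℕ) : ¬ Sp P d m := by
  rw [sp_iff, not_not]
  rcases Nat.eq_zero_or_pos m with hm | hm
  · subst hm
    have h1 : Module.finrank ℂ ↥(VS (fun j => aff (P j)) (fun _ : Fin r => 0) d) =
        (d + 2).choose 2 := by
      rw [vs_zero]
    unfold H932R3.ExpDim
    simp only [zero_add, show Nat.choose 1 2 = 0 from rfl, Finset.sum_const_zero, Nat.sub_zero]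
    exact (congrArg (fun S : Submodule ℂ (MvPolynomial (Fin 3) ℂ) => Module.finrank ℂ ↥S)
      (sys_eq P d (fun _ => 0))).trans h1
  have h : ∃ F : MvPolynomial (Fin r × Fin 2) ℚ, F ≠ 0 ∧ ∀ P : Fin r → Fin 2 → ℂ,
      MvPolynomial.aeval (fun ij : Fin r × Fin 2 => P ij.1 ij.2) F ≠ 0 →
      ∀ d : ℕ, H932R3.ExpDim ℂ (fun _ => m) P d := by
    rcases hC with hr | rfl | rfl | ⟨s, rfl⟩
    · exact TH760.EN.expDim37 (L := ℂ) hr hm
    · obtain ⟨F, hF, hF'⟩ := TH864.SX.uniform13 m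
      exact ⟨F, hF, fun P hP d => hF' P hP d⟩
    · obtain ⟨F, hF, hF'⟩ := TH469.SX.twentyone m
      exact ⟨F, hF, fun P hP d => hF' P hP d⟩
    · have hs2 : 2 ≤ s := by
        by_contra hcon
        have : s ≤ 1 := by omega
        have := Nat.mul_le_mul this this
        omega
      exact H932R3.near_points (L := ℂ) (w := fun _ => m) hr hm (fun _ => Or.inl rfl)
        (H932R3.near_cond (by omega) (fun _ => Or.inl rfl)
          (Or.inr ⟨s, 0, hs2, by ring, Or.inl rfl⟩))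
  obtain ⟨F, hF, hF'⟩ := h
  exact hF' P (fun h0 => hF (hP.eq_zero_of_aeval_eq_zero F h0)) d

/-- below the threshold, 11 and 15 points -/
theorem le_one {r : ℕ} (hr : r = 11 ∨ r = 15) {P : Fin r → Fin 2 → ℂ} (hP : Gen P) {m d : ℕ}
    (hm : 1 ≤ m) (h : (d : ℝ) < √(r : ℝ) * m + (√(r : ℝ) - 3) / 2) :
    Module.finrank ℂ ↥(VS (fun j => aff (P j)) (fun _ : Fin r => m) d) ≤ 1 := by
  obtain ⟨F, hF, hF'⟩ := Pool.Agent.X157.D.main hr hm
  have h0 : aeval (fun ij : Fin r × Fin 2 => P ij.1 ij.2) F ≠ 0 := fun h0 =>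
    hF (hP.eq_zero_of_aeval_eq_zero F h0)
  have hX : √(r : ℝ) * (2 * m + 1) > 2 * d + 3 := by
    have e : √(r : ℝ) * (2 * m + 1) = 2 * (√(r : ℝ) * m) + √(r : ℝ) := by ring
    rw [e]
    linarith
  have h1 := Pool.Agent.X157.D.count_le hr hX
  rw [← sys_eq]
  rcases (hF' P h0).2 d with h2 | h2
  · unfold H932R3.ExpDim at h2
    rw [Finset.sum_const, Finset.card_univ, Fintype.card_fin, smul_eq_mul] at h2
    have h3 : Module.finrank ℂ ↥(SHDefs.sys P d (fun _ => m)) =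
        (d + 2).choose 2 - r * (m + 1).choose 2 := h2
    omega
  · exact h2.2.2.2.2.le

/-- special systems for 11 and 15 points -/
theorem sp_one {r : ℕ} (hr : r = 11 ∨ r = 15) {P : Fin r → Fin 2 → ℂ} (hP : Gen P) {m d : ℕ}
    (hm : 1 ≤ m) (h : Sp P d m) :
    Module.finrank ℂ ↥(VS (fun j => aff (P j)) (fun _ : Fin r => m) d) = 1 := by
  obtain ⟨F, hF, hF'⟩ := Pool.Agent.X157.D.main hr hm
  have h0 : aeval (fun ij : Fin r × Fin 2 => P ij.1 ij.2) F ≠ 0 := fun h0 =>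
    hF (hP.eq_zero_of_aeval_eq_zero F h0)
  rw [← sys_eq]
  rcases (hF' P h0).2 d with h2 | h2
  · exact absurd h2 ((sp_iff P d m).1 h)
  · exact h2.2.2.2.2

/-- **No fixed part in dimension at least two.** -/
theorem no_fixed {r : ℕ} (hr : 10 ≤ r)
    (hC : 37 ≤ r ∨ r = 11 ∨ r = 13 ∨ r = 15 ∨ r = 21 ∨ IsSquare r)
    {P : Fin r → Fin 2 → ℂ} (hP : Gen P) {m d : ℕ}
    (hdim : 2 ≤ Module.finrank ℂ ↥(VS (fun j => aff (P j)) (fun _ : Fin r => m) d))
    {f φ : ℕ} {A : MvPolynomial (Fin 3) ℂ} (hf : 0 < f) (hA : Rg P f φ A)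
    (hAd : ∀ F ∈ VS (fun j => aff (P j)) (fun _ => m) d, A ∣ F)
    (hA1 : Module.finrank ℂ ↥(VS (fun j => aff (P j)) (fun _ : Fin r => φ) f) = 1) : False := by
  have hfin := vs_fin (fun j => aff (P j)) (fun _ : Fin r => m) d
  obtain ⟨⟨F, hF⟩, hF0⟩ : ∃ F : ↥(VS (fun j => aff (P j)) (fun _ : Fin r => m) d), F ≠ 0 := by
    have h0 : 0 < Module.finrank ℂ ↥(VS (fun j => aff (P j)) (fun _ : Fin r => m) d) := by omega
    have : Nontrivial ↥(VS (fun j => aff (P j)) (fun _ : Fin r => m) d) :=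
      Module.finrank_pos_iff.1 h0
    exact exists_ne 0
  have hF0' : F ≠ 0 := fun h => hF0 (Subtype.ext h)
  obtain ⟨hfd, hdim'⟩ := rg_dim hF0' hF hA hAd
  rcases common' hr hP hF0' hF hf hA hAd hA1 with ⟨-, h2⟩ | ⟨h1, h2, h3⟩
  · omega
  · by_cases h11 : r = 11 ∨ r = 15
    · have hM : ¬ Sp P (d - f) (m - φ) := by
        intro hM
        have := sp_one h11 hP (by omega) hM
        omega
      have := le_one h11 hP (by omega) (fixed_lo hr hP hF0' hF hf hA hAd hA1 hM)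
      omega
    · have hC' : 37 ≤ r ∨ r = 13 ∨ r = 21 ∨ IsSquare r := by
        rcases hC with h | h | h | h | h | h
        · exact Or.inl h
        · exact absurd (Or.inl h) h11
        · exact Or.inr (Or.inl h)
        · exact absurd (Or.inr h) h11
        · exact Or.inr (Or.inr (Or.inl h))
        · exact Or.inr (Or.inr (Or.inr h))
      rcases h3 with h3 | h3
      · exact not_sp hr hC' hP _ _ h3
      · exact not_sp hr hC' hP _ _ h3

end Pool.Agent.X157.W
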