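import Pool.Agent.X157.W.Aff

set_option autoImplicit false

/-!
# Nine points
-/

namespace Pool.Agent.X157.W

open MvPolynomial Pool.Agent.W609 Pool.Agent.W609.CR Pool.Agent.TH167 Pool.Agent.TH167.SH

/-- Extension by zero. -/
noncomputable def push {r s : ℕ} (σ : Fin r → Fin s) (v : Fin r → ℤ) : Fin s → ℤ :=
  Function.extend σ v 0

theorem push_app {r s : ℕ} {σ : Fin r → Fin s} (hσ : Function.Injective σ) (v : Fin r → ℤ)
    (t : Fin r) : push σ v (σ t) = v t := hσ.extend_apply v 0 t

theorem push_out {r s : ℕ} {σ : Fin r → Fin s} (v : Fin r → ℤ) {l : Fin s}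
    (hl : ¬ ∃ t, σ t = l) : push σ v l = 0 := by
  unfold push
  rw [Function.extend_apply' _ _ _ hl]
  rfl

theorem push_ext {r s : ℕ} {σ : Fin r → Fin s} (hσ : Function.Injective σ) {v : Fin r → ℤ}
    {f : Fin s → ℤ} (h1 : ∀ t, f (σ t) = v t) (h2 : ∀ l, (¬ ∃ t, σ t = l) → f l = 0) :
    f = push σ v := by
  funext l
  by_cases hl : ∃ t, σ t = l
  · obtain ⟨t, rfl⟩ := hl
    rw [h1, push_app hσ]
  · rw [h2 l hl, push_out v hl]

theorem Root.push {r s : ℕ} {σ : Fin r → Fin s} (hσ : Function.Injective σ) {a : ℤ}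
    {v : Fin r → ℤ} (h : Root a v) : Root a (push σ v) := by
  induction h with
  | pts i j hij =>
    have h1 := Root.pts (σ i) (σ j) (hσ.ne hij)
    have e : (fun l => (if l = σ i then (1 : ℤ) else 0) - (if l = σ j then 1 else 0)) =
        W.push σ (fun l => (if l = i then (1 : ℤ) else 0) - (if l = j then 1 else 0)) :=
      push_ext hσ (fun t => by simp only [hσ.eq_iff]) fun l hl => by
        rw [if_neg fun h => hl ⟨i, h.symm⟩, if_neg fun h => hl ⟨j, h.symm⟩]
        rfl
    rw [← e]
    exact h1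
  | line i j k hij hik hjk =>
    have h1 := Root.line (σ i) (σ j) (σ k) (hσ.ne hij) (hσ.ne hik) (hσ.ne hjk)
    have e : (fun l => if l = σ i ∨ l = σ j ∨ l = σ k then (1 : ℤ) else 0) =
        W.push σ (fun l => if l = i ∨ l = j ∨ l = k then (1 : ℤ) else 0) :=
      push_ext hσ (fun t => by simp only [hσ.eq_iff]) fun l hl => by
        rw [if_neg]
        rintro (h | h | h)
        · exact hl ⟨i, h.symm⟩
        · exact hl ⟨j, h.symm⟩
        · exact hl ⟨k, h.symm⟩
    rw [← e]
    exact h1
  | refl i j k hij hik hjk a b h ih =>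
    have h1 := Root.refl (σ i) (σ j) (σ k) (hσ.ne hij) (hσ.ne hik) (hσ.ne hjk) _ _ ih
    rw [push_app hσ, push_app hσ, push_app hσ] at h1
    have e : (fun l => W.push σ b l +
        if l = σ i ∨ l = σ j ∨ l = σ k then a - b i - b j - b k else 0) =
        W.push σ (fun l => b l + if l = i ∨ l = j ∨ l = k then a - b i - b j - b k else 0) :=
      push_ext hσ (fun t => by simp only [hσ.eq_iff, push_app hσ]) fun l hl => by
        rw [push_out b hl, if_neg]
        · rfl
        · rintro (h | h | h)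
          · exact hl ⟨i, h.symm⟩
          · exact hl ⟨j, h.symm⟩
          · exact hl ⟨k, h.symm⟩
    rw [← e]
    exact h1

theorem pr_push {r s : ℕ} {σ : Fin r → Fin s} (hσ : Function.Injective σ) (a : ℤ)
    (v : Fin r → ℤ) (d : ℕ) (w : Fin s → ℕ) :
    pr a (push σ v) d w = a * d - ∑ t, v t * w (σ t) := by
  unfold pr
  rw [Fintype.sum_of_injective σ hσ (fun t => v t * (w (σ t) : ℤ)) (fun l => push σ v l * w l)
    (fun l hl => by rw [push_out v fun h => hl h, zero_mul])
    (fun t => by rw [push_app hσ])]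

theorem bl_push {r s : ℕ} {σ : Fin r → Fin s} (hσ : Function.Injective σ) (a : ℤ)
    (v : Fin r → ℤ) (a' : ℤ) (v' : Fin r → ℤ) :
    bl a (push σ v) a' (push σ v') = bl a v a' v' := by
  unfold bl
  rw [Fintype.sum_of_injective σ hσ (fun t => v t * v' t) (fun l => push σ v l * push σ v' l)
    (fun l hl => by rw [push_out v fun h => hl h, zero_mul])
    (fun t => by rw [push_app hσ, push_app hσ])]

/-- Two mirror images. -/
theorem two_roots {s : ℕ} {P : Fin s → Fin 2 → ℂ} (hP : Gen P) {a a' : ℤ} {b b' : Fin s → ℤ}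
    (h : Root a b) (h' : Root a' b') {d : ℕ} {w : Fin s → ℕ} (hC : Ic P d w)
    (hne : NotExc d w) (hdif : pr a b d w * a ≠ pr a' b' d w * a') :
    0 ≤ ip d w d w + pr a b d w ^ 2 + pr a' b' d w ^ 2 +
      pr a b d w * pr a' b' d w * bl a b a' b' := by
  obtain ⟨d1, w1, x1, x2, x3, x4⟩ := root_curve hP h d w hC hne
  obtain ⟨d2, w2, y1, y2, y3, y4⟩ := root_curve hP h' d w hC hne
  have h3 := x1.ip_nonneg hP y1 (by
    rintro ⟨h4, -⟩
    apply hdif
    rw [h4] at x3
    linarith)
  obtain ⟨c, hc⟩ : ∃ c, c = pr a b d w := ⟨_, rfl⟩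
  obtain ⟨c', hc'⟩ : ∃ c', c' = pr a' b' d w := ⟨_, rfl⟩
  rw [← hc] at x3 x4 ⊢
  rw [← hc'] at y3 y4 ⊢
  unfold ip at h3 ⊢
  unfold bl
  rw [x3, y3] at h3
  have h5 : ∀ l, (w1 l : ℤ) * w2 l = (w l : ℤ) * w l + c' * (b' l * w l) + c * (b l * w l) +
      c * c' * (b l * b' l) := fun l => by
    rw [x4, y4]
    ring
  rw [Finset.sum_congr rfl fun l _ => h5 l, Finset.sum_add_distrib, Finset.sum_add_distrib,
    Finset.sum_add_distrib, ← Finset.mul_sum, ← Finset.mul_sum, ← Finset.mul_sum] at h3
  have e1 : ∑ l, b l * (w l : ℤ) = a * d - c := by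
    rw [hc]
    unfold pr
    ring
  have e2 : ∑ l, b' l * (w l : ℤ) = a' * d - c' := by
    rw [hc']
    unfold pr
    ring
  rw [e1, e2] at h3
  linarith

/-- Translations. -/
theorem trans_step {a a1 : ℤ} {b b1 : Fin 9 → ℤ} (hx : Root a b) (h1 : Root a1 b1)
    (h2 : Root (3 - a1) (fun l => 1 - b1 l)) (c1 : bl a b a1 b1 = 1)
    (c2 : bl a b 3 (fun _ => 1) = 0) (c3 : bl a1 b1 3 (fun _ => 1) = 0)
    (c4 : bl a1 b1 a1 b1 = -2) :
    Root (a + 3) (fun l => b l + 1) ∧ Root (a - 3) (fun l => b l - 1) := by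
  have e1 : ∀ (p : ℤ) (q : Fin 9 → ℤ), bl p q (3 - a1) (fun l => 1 - b1 l) =
      bl p q 3 (fun _ => 1) - bl p q a1 b1 := by
    intro p q
    unfold bl
    have h3 : ∀ l, q l * (1 - b1 l) = q l * 1 - q l * b1 l := fun l => by ring
    rw [Finset.sum_congr rfl fun l _ => h3 l, Finset.sum_sub_distrib]
    ring
  constructor
  · have h3 := h1.reflect hx
    rw [c1] at h3
    have h4 := h2.reflect h3
    have e2 : bl (a + 1 * a1) (fun l => b l + 1 * b1 l) (3 - a1) (fun l => 1 - b1 l) = 1 := by
      rw [bl_add, e1, e1, c1, c2, c3, c4]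
      norm_num
    rw [e2] at h4
    have e3 : a + 3 = a + 1 * a1 + 1 * (3 - a1) := by ring
    have e4 : (fun l => b l + 1) = fun l => b l + 1 * b1 l + 1 * (1 - b1 l) := by
      funext l
      ring
    rw [e3, e4]
    exact h4
  · have h3 := h2.reflect hx
    have e0 : bl a b (3 - a1) (fun l => 1 - b1 l) = -1 := by
      rw [e1, c1, c2]
      norm_num
    rw [e0] at h3
    have h4 := h1.reflect h3
    have e2 : bl (a + -1 * (3 - a1)) (fun l => b l + -1 * (1 - b1 l)) a1 b1 = -1 := by
      rw [bl_add, c1, bl_comm (3 - a1), e1, c3, c4]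
      norm_num
    rw [e2] at h4
    have e3 : a - 3 = a + -1 * (3 - a1) + -1 * a1 := by ring
    have e4 : (fun l => b l - 1) = fun l => b l + -1 * (1 - b1 l) + -1 * b1 l := by
      funext l
      ring
    rw [e3, e4]
    exact h4

theorem trans_all {a a1 : ℤ} {b b1 : Fin 9 → ℤ} (hx : Root a b) (h1 : Root a1 b1)
    (h2 : Root (3 - a1) (fun l => 1 - b1 l)) (c1 : bl a b a1 b1 = 1)
    (c2 : bl a b 3 (fun _ => 1) = 0) (c3 : bl a1 b1 3 (fun _ => 1) = 0)
    (c4 : bl a1 b1 a1 b1 = -2) (m : ℤ) :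
    Root (a + 3 * m) (fun l => b l + m) := by
  have key : ∀ m : ℤ, bl (a + 3 * m) (fun l => b l + m) a1 b1 = 1 ∧
      bl (a + 3 * m) (fun l => b l + m) 3 (fun _ => 1) = 0 := by
    intro m
    have e0 : (fun l => b l + m) = fun l => b l + m * (fun _ : Fin 9 => (1 : ℤ)) l := by
      funext l
      ring
    have e1 : a + 3 * m = a + m * 3 := by ring
    rw [e0, e1, bl_add, bl_add, c1, c2, bl_comm 3, c3]
    refine ⟨by ring, ?_⟩
    have : bl 3 (fun _ : Fin 9 => (1 : ℤ)) 3 (fun _ => 1) = 0 := by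
      unfold bl
      simp
    rw [this]
    ring
  induction m using Int.induction_on with
  | zero =>
    have e1 : a + 3 * 0 = a := by ring
    have e2 : (fun l => b l + 0) = b := by
      funext l
      ring
    rw [e1, e2]
    exact hx
  | succ i ih =>
    have h3 := (trans_step ih h1 h2 (key _).1 (key _).2 c3 c4).1
    have e1 : a + 3 * ((i : ℤ) + 1) = a + 3 * i + 3 := by ring
    have e2 : (fun l => b l + ((i : ℤ) + 1)) = fun l => b l + i + 1 := by
      funext l
      ring
    rw [e1, e2]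
    exact h3
  | pred i ih =>
    have h3 := (trans_step ih h1 h2 (key _).1 (key _).2 c3 c4).2
    have e1 : a + 3 * (-(i : ℤ) - 1) = a + 3 * (-i) - 3 := by ring
    have e2 : (fun l => b l + (-(i : ℤ) - 1)) = fun l => b l + -i - 1 := by
      funext l
      ring
    rw [e1, e2]
    exact h3

theorem r3a : Root (s := 9) (3 - 0)
    (fun l => 1 - ((if l = 1 then 1 else 0) - (if l = 2 then 1 else 0))) := by
  have h3 := Root.refl 2 7 8 (by decide) (by decide) (by decide) _ _
    (Root.refl 4 5 6 (by decide) (by decide) (by decide) _ _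
      (Root.line (s := 9) 2 0 3 (by decide) (by decide) (by decide)))
  exact (congrArg₂ Root (by decide) (by decide) : Root _ _ = Root _ _).mpr h3

theorem r3b : Root (s := 9) (3 - 0)
    (fun l => 1 - ((if l = 3 then 1 else 0) - (if l = 0 then 1 else 0))) := by
  have h3 := Root.refl 0 7 8 (by decide) (by decide) (by decide) _ _
    (Root.refl 4 5 6 (by decide) (by decide) (by decide) _ _
      (Root.line (s := 9) 0 1 2 (by decide) (by decide) (by decide)))
  exact (congrArg₂ Root (by decide) (by decide) : Root _ _ = Root _ _).mpr h3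

/-- The affine roots `m F + (E 1 - E 0)`. -/
theorem aff_pts (m : ℤ) : Root (s := 9) (3 * m)
    (fun l => ((if l = 0 then 1 else 0) - (if l = 1 then 1 else 0)) + m) := by
  have h := trans_all (Root.pts (s := 9) 0 1 (by decide)) (Root.pts (s := 9) 1 2 (by decide)) r3a
    (by decide) (by decide) (by decide) (by decide) m
  rw [zero_add] at h
  exact h

/-- The affine roots `m F + (H - E 0 - E 1 - E 2)`. -/
theorem aff_line (m : ℤ) : Root (s := 9) (1 + 3 * m)
    (fun l => (if l = 0 ∨ l = 1 ∨ l = 2 then 1 else 0) + m) :=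
  trans_all (Root.line (s := 9) 0 1 2 (by decide) (by decide) (by decide))
    (Root.pts (s := 9) 3 0 (by decide)) r3b (by decide) (by decide) (by decide) (by decide) m

/-- An arithmetic progression which avoids the numbers of small absolute value, except zero. -/
theorem prog {k f c : ℤ} (hf : f ≠ 0) (h : ∀ m : ℤ, c + m * f = 0 ∨ k ≤ (c + m * f) ^ 2) :
    k ≤ f ^ 2 ∧ (4 * k ≤ f ^ 2 ∨ f ∣ c) := by
  by_cases hd : f ∣ c
  · obtain ⟨q, rfl⟩ := hd
    refine ⟨?_, Or.inr ⟨q, rfl⟩⟩
    rcases h (1 - q) with h1 | h1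
    · exfalso
      apply hf
      linear_combination h1
    · have e : f * q + (1 - q) * f = f := by ring
      rwa [e] at h1
  · obtain ⟨r, hr⟩ : ∃ r, r = c % f := ⟨_, rfl⟩
    have h1 := Int.emod_add_mul_ediv c f
    have h2 := Int.emod_nonneg c hf
    have h3 := Int.emod_lt_abs c hf
    rw [← hr] at h1 h2 h3
    have h4 : r ≠ 0 := fun h0 => hd ⟨c / f, by rw [h0] at h1; linarith⟩
    have h5 : k ≤ r ^ 2 := by
      rcases h (-(c / f)) with h6 | h6
      · exfalso
        apply h4
        linear_combination h1 + h6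
      · have e : c + -(c / f) * f = r := by linear_combination -h1
        rwa [e] at h6
    have h6 : k ≤ (r - |f|) ^ 2 := by
      rcases abs_choice f with h7 | h7
      · rcases h (-(c / f) - 1) with h8 | h8
        · exfalso
          have : r = f := by linear_combination h1 + h8
          rw [h7] at h3
          omega
        · have e : c + (-(c / f) - 1) * f = r - f := by linear_combination -h1
          rw [e] at h8
          rw [h7]
          exact h8
      · rcases h (-(c / f) + 1) with h8 | h8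
        · exfalso
          have : r = -f := by linear_combination h1 + h8
          rw [h7] at h3
          omega
        · have e : c + (-(c / f) + 1) * f = r - -f := by linear_combination -h1
          rw [e] at h8
          rw [h7]
          exact h8
    have h9 : 4 * k ≤ f ^ 2 := by
      rw [← sq_abs f]
      obtain ⟨g, hg⟩ : ∃ g, g = |f| := ⟨_, rfl⟩
      rw [← hg] at h3 h6 ⊢
      rcases le_total (2 * r) g with h10 | h10
      · nlinarith
      · nlinarith
    refine ⟨?_, Or.inl h9⟩
    rcases le_or_gt k 0 with h10 | h10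
    · exact h10.trans (sq_nonneg f)
    · linarith

/-- **Nine points.** -/
theorem nine {s : ℕ} {P : Fin s → Fin 2 → ℂ} (hP : Gen P) {d : ℕ} {w : Fin s → ℕ}
    (hC : Ic P d w) (hne : NotExc d w) (hneg : ip d w d w < 0) {σ : Fin 9 → Fin s}
    (hσ : Function.Injective σ) {a : ℤ} {v : Fin 9 → ℤ} (hav : bl a v a v = -2)
    (hF : bl a v 3 (fun _ => 1) = 0)
    (hR : ∀ m : ℤ, Root (s := 9) (a + 3 * m) (fun l => v l + m)) {c f : ℤ}
    (hc : c = a * d - ∑ t, v t * w (σ t)) (hf : f = 3 * d - ∑ t, (w (σ t) : ℤ)) :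
    (f = 0 ∧ c = 0) ∨ (f ≠ 0 ∧ -ip d w d w ≤ f ^ 2 ∧ (-4 * ip d w d w ≤ f ^ 2 ∨ f ∣ c)) := by
  have hpr : ∀ m : ℤ, pr (a + 3 * m) (push σ fun l => v l + m) d w = c + m * f := by
    intro m
    rw [pr_push hσ, hc, hf]
    have h1 : ∀ t, (v t + m) * (w (σ t) : ℤ) = v t * w (σ t) + m * w (σ t) := fun t => by ring
    rw [Finset.sum_congr rfl fun t _ => h1 t, Finset.sum_add_distrib, ← Finset.mul_sum]
    ring
  by_cases hf0 : f = 0
  · left
    refine ⟨hf0, ?_⟩
    by_contra hc0
    have h1 := two_roots hP ((hR 0).push hσ) ((hR 1).push hσ) hC hne (by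
      rw [hpr, hpr, hf0]
      intro h
      apply hc0
      have h2 : c * 3 = 0 := by linear_combination -h
      omega)
    rw [hpr, hpr, hf0, bl_push hσ] at h1
    have e1 : bl (a + 3 * 0) (fun l => v l + 0) (a + 3 * 1) (fun l => v l + 1) = -2 := by
      have e2 : bl (a + 3 * 0) (fun l => v l + 0) (a + 3 * 1) (fun l => v l + 1) =
          bl a v a v + bl a v 3 (fun _ => 1) := by
        unfold bl
        have h3 : ∀ l, (v l + 0) * (v l + 1) = v l * v l + v l * 1 := fun l => by ring
        rw [Finset.sum_congr rfl fun l _ => h3 l, Finset.sum_add_distrib]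
        ring
      rw [e2, hav, hF]
      norm_num
    rw [e1] at h1
    have e3 : ip d w d w + (c + 0 * 0) ^ 2 + (c + 1 * 0) ^ 2 + (c + 0 * 0) * (c + 1 * 0) * -2 =
        ip d w d w := by ring
    rw [e3] at h1
    linarith
  · right
    refine ⟨hf0, ?_⟩
    have h1 := prog (k := -ip d w d w) hf0 (c := c) (fun m => by
      have h2 := root_gap hP ((hR m).push hσ) d w hC hne
      rw [hpr] at h2
      rcases h2 with h2 | h2
      · exact Or.inl h2
      · right
        linarith)
    refine ⟨h1.1, ?_⟩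
    rcases h1.2 with h2 | h2
    · left
      linarith
    · exact Or.inr h2

end Pool.Agent.X157.W
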