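import Pool.Agent.X157.W.Rigid

set_option autoImplicit false

/-!
# Roots orthogonal to a linear system
-/

namespace Pool.Agent.X157.W

open MvPolynomial Pool.Agent.W609 Pool.Agent.W609.CR Pool.Agent.TH167 Pool.Agent.TH167.SH
  Pool.Agent.TH167.TT

theorem bl_self_step {s : ℕ} {i j k : Fin s} (hij : i ≠ j) (hik : i ≠ k) (hjk : j ≠ k)
    (a : ℤ) (b : Fin s → ℤ) :
    bl (a + bl a b 1 (tri i j k) * 1) (fun l => b l + bl a b 1 (tri i j k) * tri i j k l)
      (a + bl a b 1 (tri i j k) * 1) (fun l => b l + bl a b 1 (tri i j k) * tri i j k l) =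
      bl a b a b := by
  obtain ⟨c, hc⟩ : ∃ c, c = bl a b 1 (tri i j k) := ⟨_, rfl⟩
  rw [← hc]
  rw [bl_add, bl_comm a b, bl_add, bl_comm 1 (tri i j k) (a + c * 1), bl_add,
    bl_self_tri hij hik hjk, bl_comm 1 (tri i j k) a b, ← hc]
  ring

/-- Roots have self-intersection `-2`. -/
theorem Root.self {s : ℕ} {a : ℤ} {b : Fin s → ℤ} (h : Root a b) : bl a b a b = -2 := by
  classical
  induction h with
  | pts i j hij =>
    unfold bl
    have h1 : ∀ l, ((if l = i then (1 : ℤ) else 0) - (if l = j then 1 else 0)) *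
        ((if l = i then (1 : ℤ) else 0) - (if l = j then 1 else 0)) =
        (if l = i then (1 : ℤ) else 0) + (if l = j then 1 else 0) := by
      intro l
      by_cases c1 : l = i
      · subst c1
        rw [if_pos rfl, if_neg hij]
        norm_num
      · rw [if_neg c1]
        split_ifs <;> norm_num
    rw [Finset.sum_congr rfl fun l _ => h1 l, Finset.sum_add_distrib,
      Finset.sum_ite_eq' Finset.univ i, Finset.sum_ite_eq' Finset.univ j,
      if_pos (Finset.mem_univ _), if_pos (Finset.mem_univ _)]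
    norm_num
  | line i j k hij hik hjk => exact bl_self_tri hij hik hjk
  | refl i j k hij hik hjk a b hroot ih =>
    have h1 := bl_self_step hij hik hjk a b
    rw [ih, bl_tri hij hik hjk, mul_one] at h1
    have h2 : (fun l => b l + (a - b i - b j - b k) * tri i j k l) =
        fun l => b l + if l = i ∨ l = j ∨ l = k then a - b i - b j - b k else 0 := by
      funext l
      unfold tri
      split_ifs <;> ring
    rw [h2] at h1
    exact h1

theorem pr_add {s : ℕ} {a : ℤ} {b : Fin s → ℤ} {a' : ℤ} {b' : Fin s → ℤ} {e e' : ℕ}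
    {u u' : Fin s → ℕ} {c : ℤ} (h1 : (e' : ℤ) = e + c * a') (h2 : ∀ l, (u' l : ℤ) = u l + c * b' l) :
    pr a b e' u' = pr a b e u + c * bl a b a' b' := by
  unfold pr bl
  rw [h1, Finset.sum_congr rfl fun l _ => by rw [h2 l]]
  have h3 : ∀ l, b l * ((u l : ℤ) + c * b' l) = b l * u l + c * (b l * b' l) := fun l => by ring
  rw [Finset.sum_congr rfl fun l _ => h3 l, Finset.sum_add_distrib, ← Finset.mul_sum]
  ring

theorem ip_add {s : ℕ} {d : ℕ} {w : Fin s → ℕ} {a' : ℤ} {b' : Fin s → ℤ} {e e' : ℕ}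
    {u u' : Fin s → ℕ} {c : ℤ} (h1 : (e' : ℤ) = e + c * a') (h2 : ∀ l, (u' l : ℤ) = u l + c * b' l) :
    ip d w e' u' = ip d w e u + c * pr a' b' d w := by
  unfold pr ip
  rw [h1, Finset.sum_congr rfl fun l _ => by rw [h2 l]]
  have h3 : ∀ l, (w l : ℤ) * ((u l : ℤ) + c * b' l) = w l * u l + c * (b' l * w l) :=
    fun l => by ring
  rw [Finset.sum_congr rfl fun l _ => h3 l, Finset.sum_add_distrib, ← Finset.mul_sum]
  ring

/-- **Orthogonal roots.** -/
theorem orth {s : ℕ} {P : Fin s → Fin 2 → ℂ} (hP : Gen P) {d : ℕ} {w : Fin s → ℕ}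
    {F : MvPolynomial (Fin 3) ℂ} (hF0 : F ≠ 0) (hF : F ∈ VS (fun j => aff (P j)) w d)
    {e : ℕ} {u : Fin s → ℕ} (hC : Ic P e u) (hne : NotExc e u) (hneg : ip d w e u < 0)
    {a : ℤ} {b : Fin s → ℤ} {a' : ℤ} {b' : Fin s → ℤ} (hα : Root a b) (hβ : Root a' b')
    (h0 : pr a b d w = 0) (h0' : pr a' b' d w = 0) (hab : bl a b a' b' = 0) :
    pr a b e u = 0 ∨ pr a' b' e u = 0 := by
  classical
  by_contra hcon
  push Not at hcon
  obtain ⟨hp, hq⟩ := hcon
  have sα := hα.self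
  have sβ := hβ.self
  have hba : bl a' b' a b = 0 := by rw [bl_comm, hab]
  obtain ⟨e1, u1, c1, n1, x1, y1⟩ := root_curve hP hα e u hC hne
  obtain ⟨e2, u2, c2, n2, x2, y2⟩ := root_curve hP hβ e u hC hne
  obtain ⟨e3, u3, c3, n3, x3, y3⟩ := root_curve hP hβ e1 u1 c1 n1
  have q1 : pr a' b' e1 u1 = pr a' b' e u := by
    rw [pr_add x1 y1, hba]
    ring
  rw [q1] at x3 y3
  have p1 : pr a b e1 u1 = -pr a b e u := by
    rw [pr_add x1 y1, sα]
    ring
  have p2 : pr a b e2 u2 = pr a b e u := by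
    rw [pr_add x2 y2, hab]
    ring
  have q2 : pr a' b' e2 u2 = -pr a' b' e u := by
    rw [pr_add x2 y2, sβ]
    ring
  have p3 : pr a b e3 u3 = -pr a b e u := by
    rw [pr_add x3 y3, hab, p1]
    ring
  have q3 : pr a' b' e3 u3 = -pr a' b' e u := by
    rw [pr_add x3 y3, sβ, q1]
    ring
  have d1 : ip d w e1 u1 < 0 := by rw [ip_add x1 y1, h0]; linarith
  have d2 : ip d w e2 u2 < 0 := by rw [ip_add x2 y2, h0']; linarith
  have d3 : ip d w e3 u3 < 0 := by rw [ip_add x3 y3, h0']; linarith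
  have ne : ∀ (z z' : ℕ × (Fin s → ℕ)) (f : ℕ → (Fin s → ℕ) → ℤ), f z.1 z.2 ≠ f z'.1 z'.2 →
      z ≠ z' := fun z z' f h h1 => h (by rw [h1])
  have ne03 : ((e, u) : ℕ × (Fin s → ℕ)) ≠ (e3, u3) := ne _ _ (pr a b) (by
    show pr a b e u ≠ pr a b e3 u3
    rw [p3]
    omega)
  have ne12 : ((e1, u1) : ℕ × (Fin s → ℕ)) ≠ (e2, u2) := ne _ _ (pr a b) (by
    show pr a b e1 u1 ≠ pr a b e2 u2
    rw [p1, p2]
    omega)
  have ne01 : ((e, u) : ℕ × (Fin s → ℕ)) ≠ (e1, u1) := ne _ _ (pr a b) (by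
    show pr a b e u ≠ pr a b e1 u1
    rw [p1]
    omega)
  have ne02 : ((e, u) : ℕ × (Fin s → ℕ)) ≠ (e2, u2) := ne _ _ (pr a' b') (by
    show pr a' b' e u ≠ pr a' b' e2 u2
    rw [q2]
    omega)
  have ne31 : ((e3, u3) : ℕ × (Fin s → ℕ)) ≠ (e1, u1) := ne _ _ (pr a' b') (by
    show pr a' b' e3 u3 ≠ pr a' b' e1 u1
    rw [q3, q1]
    omega)
  have ne32 : ((e3, u3) : ℕ × (Fin s → ℕ)) ≠ (e2, u2) := ne _ _ (pr a b) (by
    show pr a b e3 u3 ≠ pr a b e2 u2
    rw [p3, p2]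
    omega)
  refine disj hP hF0 hF {(e, u), (e3, u3)} {(e1, u1), (e2, u2)} ?_ ⟨(e, u), by simp⟩ ?_ ?_ ?_ ?_
  · rw [Finset.disjoint_left]
    intro z hz hz'
    rw [Finset.mem_insert, Finset.mem_singleton] at hz hz'
    rcases hz with rfl | rfl <;> rcases hz' with h | h
    · exact ne01 h
    · exact ne02 h
    · exact ne31 h
    · exact ne32 h
  · intro t ht
    rw [Finset.mem_insert, Finset.mem_singleton] at ht
    rcases ht with rfl | rfl
    · exact ⟨hC, hneg⟩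
    · exact ⟨c3, d3⟩
  · intro t ht
    rw [Finset.mem_insert, Finset.mem_singleton] at ht
    rcases ht with rfl | rfl
    · exact ⟨c1, d1⟩
    · exact ⟨c2, d2⟩
  · rw [Finset.sum_pair ne03, Finset.sum_pair ne12]
    show (e : ℤ) + e3 = e1 + e2
    rw [x3, x1, x2]
    ring
  · intro l
    rw [Finset.sum_pair ne03, Finset.sum_pair ne12]
    show (u l : ℤ) + u3 l = u1 l + u2 l
    rw [y3, y1, y2]
    ring

/-- **Roots which generate a system of type `A₂`.** -/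
theorem orth2 {s : ℕ} {P : Fin s → Fin 2 → ℂ} (hP : Gen P) {d : ℕ} {w : Fin s → ℕ}
    {F : MvPolynomial (Fin 3) ℂ} (hF0 : F ≠ 0) (hF : F ∈ VS (fun j => aff (P j)) w d)
    {e : ℕ} {u : Fin s → ℕ} (hC : Ic P e u) (hne : NotExc e u) (hneg : ip d w e u < 0)
    {a : ℤ} {b : Fin s → ℤ} {a' : ℤ} {b' : Fin s → ℤ} (hα : Root a b) (hβ : Root a' b')
    (h0 : pr a b d w = 0) (h0' : pr a' b' d w = 0) (hab : bl a b a' b' = 1) :
    pr a b e u = 0 ∨ pr a' b' e u = 0 ∨ pr a b e u + pr a' b' e u = 0 := by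
  classical
  by_contra hcon
  push Not at hcon
  obtain ⟨hp, hq, hpq⟩ := hcon
  have sα := hα.self
  have sβ := hβ.self
  have hba : bl a' b' a b = 1 := by rw [bl_comm, hab]
  obtain ⟨p, hp'⟩ : ∃ p, p = pr a b e u := ⟨_, rfl⟩
  obtain ⟨q, hq'⟩ : ∃ q, q = pr a' b' e u := ⟨_, rfl⟩
  rw [← hp'] at hp hpq
  rw [← hq'] at hq hpq
  -- `(x, y)` stands for the class `C + x α + y β`
  obtain ⟨e1, u1, c1, n1, x1, y1⟩ := root_curve hP hα e u hC hne
  obtain ⟨e2, u2, c2, n2, x2, y2⟩ := root_curve hP hβ e u hC hne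
  rw [← hp'] at x1 y1
  rw [← hq'] at x2 y2
  have q1 : pr a' b' e1 u1 = q + p := by rw [pr_add x1 y1, hba, ← hq']; ring
  have p1 : pr a b e1 u1 = -p := by rw [pr_add x1 y1, sα, ← hp']; ring
  have p2 : pr a b e2 u2 = p + q := by rw [pr_add x2 y2, hab, ← hp']; ring
  have q2 : pr a' b' e2 u2 = -q := by rw [pr_add x2 y2, sβ, ← hq']; ring
  obtain ⟨e3, u3, c3, n3, x3, y3⟩ := root_curve hP hβ e1 u1 c1 n1
  obtain ⟨e4, u4, c4, n4, x4, y4⟩ := root_curve hP hα e2 u2 c2 n2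
  rw [q1] at x3 y3
  rw [p2] at x4 y4
  have p3 : pr a b e3 u3 = q := by rw [pr_add x3 y3, hab, p1]; ring
  have q3 : pr a' b' e3 u3 = -(q + p) := by rw [pr_add x3 y3, sβ, q1]; ring
  have p4 : pr a b e4 u4 = -(p + q) := by rw [pr_add x4 y4, sα, p2]; ring
  have q4 : pr a' b' e4 u4 = p := by rw [pr_add x4 y4, hba, q2]; ring
  obtain ⟨e5, u5, c5, n5, x5, y5⟩ := root_curve hP hα e3 u3 c3 n3
  rw [p3] at x5 y5
  have p5 : pr a b e5 u5 = -q := by rw [pr_add x5 y5, sα, p3]; ring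
  have q5 : pr a' b' e5 u5 = -p := by rw [pr_add x5 y5, hba, q3]; ring
  have d1 : ip d w e1 u1 < 0 := by rw [ip_add x1 y1, h0]; linarith
  have d2 : ip d w e2 u2 < 0 := by rw [ip_add x2 y2, h0']; linarith
  have d3 : ip d w e3 u3 < 0 := by rw [ip_add x3 y3, h0']; linarith
  have d4 : ip d w e4 u4 < 0 := by rw [ip_add x4 y4, h0]; linarith
  have d5 : ip d w e5 u5 < 0 := by rw [ip_add x5 y5, h0]; linarith
  have ne : ∀ (z z' : ℕ × (Fin s → ℕ)), z = z' →
      pr a b z.1 z.2 = pr a b z'.1 z'.2 ∧ pr a' b' z.1 z.2 = pr a' b' z'.1 z'.2 :=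
    fun z z' h => by rw [h]; exact ⟨rfl, rfl⟩
  have r0 : pr a b e u = p := hp'.symm
  have t0 : pr a' b' e u = q := hq'.symm
  have ne03 : ((e, u) : ℕ × (Fin s → ℕ)) ≠ (e3, u3) := fun h => by
    obtain ⟨g1, g2⟩ := ne _ _ h
    simp only at g1 g2
    rw [r0, p3] at g1
    rw [t0, q3] at g2
    omega
  have ne04 : ((e, u) : ℕ × (Fin s → ℕ)) ≠ (e4, u4) := fun h => by
    obtain ⟨g1, g2⟩ := ne _ _ h
    simp only at g1 g2
    rw [r0, p4] at g1
    rw [t0, q4] at g2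
    omega
  have ne34 : ((e3, u3) : ℕ × (Fin s → ℕ)) ≠ (e4, u4) := fun h => by
    obtain ⟨g1, g2⟩ := ne _ _ h
    simp only at g1 g2
    rw [p3, p4] at g1
    rw [q3, q4] at g2
    omega
  have ne12 : ((e1, u1) : ℕ × (Fin s → ℕ)) ≠ (e2, u2) := fun h => by
    obtain ⟨g1, g2⟩ := ne _ _ h
    simp only at g1 g2
    rw [p1, p2] at g1
    rw [q1, q2] at g2
    omega
  have ne15 : ((e1, u1) : ℕ × (Fin s → ℕ)) ≠ (e5, u5) := fun h => by
    obtain ⟨g1, g2⟩ := ne _ _ h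
    simp only at g1 g2
    rw [p1, p5] at g1
    rw [q1, q5] at g2
    omega
  have ne25 : ((e2, u2) : ℕ × (Fin s → ℕ)) ≠ (e5, u5) := fun h => by
    obtain ⟨g1, g2⟩ := ne _ _ h
    simp only at g1 g2
    rw [p2, p5] at g1
    rw [q2, q5] at g2
    omega
  refine disj hP hF0 hF {(e, u), (e3, u3), (e4, u4)} {(e1, u1), (e2, u2), (e5, u5)} ?_
    ⟨(e, u), by simp⟩ ?_ ?_ ?_ ?_
  · rw [Finset.disjoint_left]
    intro z hz hz'
    rw [Finset.mem_insert, Finset.mem_insert, Finset.mem_singleton] at hz hz'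
    rcases hz with rfl | rfl | rfl <;> rcases hz' with h | h | h <;>
    · obtain ⟨g1, g2⟩ := ne _ _ h
      simp only [r0, t0, p1, p2, p3, p4, p5, q1, q2, q3, q4, q5] at g1 g2
      omega
  · intro t ht
    rw [Finset.mem_insert, Finset.mem_insert, Finset.mem_singleton] at ht
    rcases ht with rfl | rfl | rfl
    · exact ⟨hC, hneg⟩
    · exact ⟨c3, d3⟩
    · exact ⟨c4, d4⟩
  · intro t ht
    rw [Finset.mem_insert, Finset.mem_insert, Finset.mem_singleton] at ht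
    rcases ht with rfl | rfl | rfl
    · exact ⟨c1, d1⟩
    · exact ⟨c2, d2⟩
    · exact ⟨c5, d5⟩
  · rw [Finset.sum_insert (by simp [ne03, ne04]), Finset.sum_pair ne34,
      Finset.sum_insert (by simp [ne12, ne15]), Finset.sum_pair ne25]
    show (e : ℤ) + (e3 + e4) = e1 + (e2 + e5)
    rw [x5, x4, x3, x2, x1]
    ring
  · intro l
    rw [Finset.sum_insert (by simp [ne03, ne04]), Finset.sum_pair ne34,
      Finset.sum_insert (by simp [ne12, ne15]), Finset.sum_pair ne25]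
    show (u l : ℤ) + (u3 l + u4 l) = u1 l + (u2 l + u5 l)
    rw [y5, y4, y3, y2, y1]
    ring

end Pool.Agent.X157.W
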