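import Pool.Agent.X157.W.Std
import Pool.Agent.X157.W.Aff

set_option autoImplicit false

/-!
# The components of a linear system which meet it negatively
-/

namespace Pool.Agent.X157.W

open MvPolynomial Pool.Agent.W609 Pool.Agent.W609.CR Pool.Agent.TH167 Pool.Agent.TH167.SH
  Pool.Agent.TH167.TT

/-- A form on which a real class is negative has an irreducible factor of the same kind. -/
theorem exists_negR {s : ℕ} {P : Fin s → Fin 2 → ℂ} {a : ℝ} {x : Fin s → ℝ} :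
    ∀ (m : ℕ) (F : MvPolynomial (Fin 3) ℂ) (n : Fin s → ℕ), F ≠ 0 → F.IsHomogeneous m →
      (∀ j, Ord (aff (P j)) (n j) F) → a * m - ∑ j, x j * n j < 0 →
      ∃ (e : ℕ) (u : Fin s → ℕ), Ic P e u ∧ a * e - ∑ j, x j * u j < 0 := by
  intro m
  induction m using Nat.strong_induction_on with
  | _ m ih =>
    intro F n hF0 hFm hFo hneg
    have hnu : ¬ IsUnit F := by
      intro hu
      have h1 : F.totalDegree = 0 := (MvPolynomial.isUnit_iff_totalDegree_of_isReduced.1 hu).2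
      have h2 : F.totalDegree = m := hFm.totalDegree hF0
      have h3 : m = 0 := by omega
      have h4 : ∀ j, n j = 0 := fun j => by
        have := van_le hF0 hFm (hFo j).1
        omega
      rw [h3, Finset.sum_eq_zero fun j _ => by rw [h4 j]; simp] at hneg
      simp at hneg
    obtain ⟨G, hG, H, hH⟩ := WfDvdMonoid.exists_irreducible_factor hnu hF0
    have hGe := Pool.Agent.Chud.homog_of_dvd hFm hF0 (Dvd.intro _ hH.symm)
    obtain ⟨e, he⟩ : ∃ e, e = G.totalDegree := ⟨_, rfl⟩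
    rw [← he] at hGe
    have he0 := deg_pos hG hGe
    choose u hu using fun j => exists_ord (p := P j) hG.ne_zero hGe
    have hFv : F ∈ VS (fun j => aff (P j)) n m := (mem_VS _ _ _ _).2 ⟨hFm, fun j => (hFo j).1⟩
    obtain ⟨hem, hHm⟩ := mem_of_factor hFv hF0 hGe hu hH
    have hH0 : H ≠ 0 := fun h0 => hF0 (by rw [hH, h0, mul_zero])
    have hHh := ((mem_VS _ _ _ _).1 hHm).1
    choose n' hn' using fun j => exists_ord (p := P j) hH0 hHh
    have hnn : ∀ j, n j = u j + n' j := by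
      intro j
      have h2 := ord_mul (hu j) (hn' j)
      rw [← hH] at h2
      exact ord_unique (hFo j) h2
    by_cases hc : a * e - ∑ j, x j * u j < 0
    · exact ⟨e, u, ⟨G, hG, hGe, hu⟩, hc⟩
    · refine ih (m - e) (by omega) H n' hH0 hHh hn' ?_
      have h6 : ∑ j, x j * n j = ∑ j, x j * u j + ∑ j, x j * n' j := by
        rw [← Finset.sum_add_distrib]
        refine Finset.sum_congr rfl fun j _ => ?_
        rw [hnn j]
        push_cast
        ring
      rw [h6] at hneg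
      rw [Nat.cast_sub hem]
      linarith

/-- A real class with nonnegative multiplicities which is nonnegative on the irreducible curves is
nonnegative on the classes with nonzero sections. -/
theorem nef_eff {s : ℕ} {P : Fin s → Fin 2 → ℂ} {a : ℝ} {x : Fin s → ℝ} (hx : ∀ j, 0 ≤ x j)
    (hnef : ∀ (e : ℕ) (u : Fin s → ℕ), Ic P e u → 0 ≤ a * e - ∑ j, x j * u j)
    {d : ℕ} {w : Fin s → ℕ} {F : MvPolynomial (Fin 3) ℂ} (hF0 : F ≠ 0)
    (hF : F ∈ VS (fun j => aff (P j)) w d) : 0 ≤ a * d - ∑ j, x j * w j := by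
  have hFm := (mem_VS _ _ _ _).1 hF
  choose n hn using fun j => exists_ord (p := P j) hF0 hFm.1
  have hwn : ∀ j, w j ≤ n j := by
    intro j
    by_contra hcon
    push Not at hcon
    exact (hn j).2 (van_mono (by omega) (hFm.2 j))
  have h1 : ∑ j, x j * (w j : ℝ) ≤ ∑ j, x j * (n j : ℝ) :=
    Finset.sum_le_sum fun j _ => mul_le_mul_of_nonneg_left (by exact_mod_cast hwn j) (hx j)
  have h2 : 0 ≤ a * d - ∑ j, x j * n j := by
    by_contra hcon
    push Not at hcon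
    obtain ⟨e, u, h3, h4⟩ := exists_negR d F n hF0 hFm.1 hn hcon
    have := hnef e u h3
    linarith
  linarith

theorem ip_real {s : ℕ} (d : ℕ) (w : Fin s → ℕ) (e : ℕ) (u : Fin s → ℕ) :
    ((ip d w e u : ℤ) : ℝ) = (d : ℝ) * e - ∑ j, (w j : ℝ) * u j := by
  unfold ip
  push_cast
  rfl

/-- The classes of the irreducible curves which meet a linear system negatively are linearly
independent, also together with the class of a line: nonnegative part. -/
theorem indep_aux {s : ℕ} {P : Fin s → Fin 2 → ℂ} (hP : Gen P) {d : ℕ} {w : Fin s → ℕ}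
    {F : MvPolynomial (Fin 3) ℂ} (hF0 : F ≠ 0) (hF : F ∈ VS (fun j => aff (P j)) w d)
    (T : Finset (ℕ × (Fin s → ℕ))) (hT : ∀ t ∈ T, Ic P t.1 t.2 ∧ ip d w t.1 t.2 < 0)
    (g : ℕ × (Fin s → ℕ) → ℝ) {c : ℝ} (hc : 0 ≤ c) (h1 : c + ∑ t ∈ T, g t * (t.1 : ℝ) = 0)
    (h2 : ∀ j, ∑ t ∈ T, g t * (t.2 j : ℝ) = 0) : c = 0 ∧ ∀ t ∈ T, g t = 0 := by
  classical
  obtain ⟨p, hp⟩ : ∃ p : ℕ × (Fin s → ℕ) → ℝ, p = fun t => max (g t) 0 := ⟨_, rfl⟩
  obtain ⟨q, hq⟩ : ∃ q : ℕ × (Fin s → ℕ) → ℝ, q = fun t => max (-g t) 0 := ⟨_, rfl⟩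
  have hp0 : ∀ t, 0 ≤ p t := fun t => by rw [hp]; exact le_max_right _ _
  have hq0 : ∀ t, 0 ≤ q t := fun t => by rw [hq]; exact le_max_right _ _
  have hpq : ∀ t, g t = p t - q t := by
    intro t
    rw [hp, hq]
    show g t = max (g t) 0 - max (-g t) 0
    rcases le_total 0 (g t) with h | h
    · rw [max_eq_left h, max_eq_right (by linarith)]
      ring
    · rw [max_eq_right h, max_eq_left (by linarith)]
      ring
  have hpq0 : ∀ t, p t = 0 ∨ q t = 0 := by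
    intro t
    rw [hp, hq]
    rcases le_total 0 (g t) with h | h
    · right
      exact max_eq_right (by linarith)
    · left
      exact max_eq_right h
  obtain ⟨a, ha⟩ : ∃ a, a = ∑ t ∈ T, q t * (t.1 : ℝ) := ⟨_, rfl⟩
  obtain ⟨x, hx⟩ : ∃ x : Fin s → ℝ, x = fun j => ∑ t ∈ T, q t * (t.2 j : ℝ) := ⟨_, rfl⟩
  have ha' : a = c + ∑ t ∈ T, p t * (t.1 : ℝ) := by
    have h3 : ∑ t ∈ T, g t * (t.1 : ℝ) = ∑ t ∈ T, p t * (t.1 : ℝ) - ∑ t ∈ T, q t * (t.1 : ℝ) := by
      rw [← Finset.sum_sub_distrib]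
      exact Finset.sum_congr rfl fun t _ => by rw [hpq t]; ring
    rw [h3] at h1
    rw [ha]
    linarith
  have hx' : ∀ j, x j = ∑ t ∈ T, p t * (t.2 j : ℝ) := by
    intro j
    have h3 : ∑ t ∈ T, g t * (t.2 j : ℝ) =
        ∑ t ∈ T, p t * (t.2 j : ℝ) - ∑ t ∈ T, q t * (t.2 j : ℝ) := by
      rw [← Finset.sum_sub_distrib]
      exact Finset.sum_congr rfl fun t _ => by rw [hpq t]; ring
    have h4 := h2 j
    rw [h3] at h4
    rw [hx]
    show ∑ t ∈ T, q t * (t.2 j : ℝ) = _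
    linarith
  have hx0 : ∀ j, 0 ≤ x j := fun j => by
    rw [hx]
    exact Finset.sum_nonneg fun t _ => mul_nonneg (hq0 t) (Nat.cast_nonneg _)
  -- pairings
  have pair : ∀ (z : ℕ × (Fin s → ℕ) → ℝ) (e : ℕ) (u : Fin s → ℕ),
      (∑ t ∈ T, z t * (t.1 : ℝ)) * e - ∑ j, (∑ t ∈ T, z t * (t.2 j : ℝ)) * u j =
        ∑ t ∈ T, z t * ((ip t.1 t.2 e u : ℤ) : ℝ) := by
    intro z e u
    have h3 : ∑ j, (∑ t ∈ T, z t * (t.2 j : ℝ)) * u j =
        ∑ t ∈ T, z t * ∑ j, (t.2 j : ℝ) * u j := by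
      rw [Finset.sum_congr rfl fun j _ => Finset.sum_mul _ _ _, Finset.sum_comm]
      refine Finset.sum_congr rfl fun t _ => ?_
      rw [Finset.mul_sum]
      exact Finset.sum_congr rfl fun j _ => by ring
    rw [h3, Finset.sum_mul, ← Finset.sum_sub_distrib]
    refine Finset.sum_congr rfl fun t _ => ?_
    rw [ip_real]
    ring
  have hnn : ∀ (z : ℕ × (Fin s → ℕ) → ℝ), (∀ t, 0 ≤ z t) → ∀ (e : ℕ) (u : Fin s → ℕ),
      Ic P e u → z (e, u) = 0 → 0 ≤ ∑ t ∈ T, z t * ((ip t.1 t.2 e u : ℤ) : ℝ) := by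
    intro z hz e u hu h0
    refine Finset.sum_nonneg fun t ht => ?_
    by_cases h3 : t = (e, u)
    · rw [h3, h0, zero_mul]
    · refine mul_nonneg (hz t) ?_
      have h4 := Ic.ip_nonneg hP (hT t ht).1 hu (by
        rintro ⟨h5, h6⟩
        exact h3 (Prod.ext h5 h6))
      exact_mod_cast h4
  have hnef : ∀ (e : ℕ) (u : Fin s → ℕ), Ic P e u → 0 ≤ a * e - ∑ j, x j * u j := by
    intro e u hu
    rcases hpq0 (e, u) with h0 | h0
    · have h3 := hnn p hp0 e u hu h0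
      rw [← pair] at h3
      have h4 : 0 ≤ c * (e : ℝ) := mul_nonneg hc (Nat.cast_nonneg _)
      have hxf : ∑ j, x j * (u j : ℝ) = ∑ j, (∑ t ∈ T, p t * (t.2 j : ℝ)) * (u j : ℝ) :=
        Finset.sum_congr rfl fun j _ => by rw [hx' j]
      rw [ha', hxf]
      linarith
    · have h3 := hnn q hq0 e u hu h0
      rw [← pair] at h3
      rw [ha, hx]
      exact h3
  have hD := nef_eff hx0 hnef hF0 hF
  have hD' : a * d - ∑ j, x j * w j = ∑ t ∈ T, q t * ((ip d w t.1 t.2 : ℤ) : ℝ) := by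
    rw [ha, hx]
    rw [pair q d w]
    refine Finset.sum_congr rfl fun t _ => ?_
    have h3 : ip t.1 t.2 d w = ip d w t.1 t.2 := by
      unfold ip
      rw [mul_comm (t.1 : ℤ)]
      congr 1
      exact Finset.sum_congr rfl fun j _ => mul_comm _ _
    rw [h3]
  have hq00 : ∀ t ∈ T, q t = 0 := by
    rw [hD'] at hD
    have h3 : ∀ t ∈ T, q t * ((ip d w t.1 t.2 : ℤ) : ℝ) ≤ 0 := by
      intro t ht
      have h4 : ((ip d w t.1 t.2 : ℤ) : ℝ) < 0 := by exact_mod_cast (hT t ht).2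
      exact mul_nonpos_of_nonneg_of_nonpos (hq0 t) h4.le
    have h5 : ∑ t ∈ T, q t * ((ip d w t.1 t.2 : ℤ) : ℝ) = 0 :=
      le_antisymm (Finset.sum_nonpos h3) hD
    intro t ht
    have h6 := (Finset.sum_eq_zero_iff_of_nonpos h3).1 h5 t ht
    rcases mul_eq_zero.1 h6 with h7 | h7
    · exact h7
    · have h4 : ((ip d w t.1 t.2 : ℤ) : ℝ) < 0 := by exact_mod_cast (hT t ht).2
      linarith
  have ha0 : a = 0 := by
    rw [ha]
    exact Finset.sum_eq_zero fun t ht => by rw [hq00 t ht, zero_mul]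
  rw [ha0] at ha'
  have hps : 0 ≤ ∑ t ∈ T, p t * (t.1 : ℝ) :=
    Finset.sum_nonneg fun t _ => mul_nonneg (hp0 t) (Nat.cast_nonneg _)
  have hps0 : ∑ t ∈ T, p t * (t.1 : ℝ) = 0 := by linarith
  refine ⟨by linarith, fun t ht => ?_⟩
  have h6 := (Finset.sum_eq_zero_iff_of_nonneg fun t _ =>
    mul_nonneg (hp0 t) (Nat.cast_nonneg _)).1 hps0 t ht
  have h7 : p t = 0 := by
    rcases mul_eq_zero.1 h6 with h7 | h7
    · exact h7
    · exfalso
      obtain ⟨G, hG, hGe, -⟩ := (hT t ht).1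
      have h8 := deg_pos hG hGe
      have h9 : t.1 = 0 := by exact_mod_cast h7
      omega
  rw [hpq t, h7, hq00 t ht]
  ring

/-- **Linear independence.** -/
theorem indep {s : ℕ} {P : Fin s → Fin 2 → ℂ} (hP : Gen P) {d : ℕ} {w : Fin s → ℕ}
    {F : MvPolynomial (Fin 3) ℂ} (hF0 : F ≠ 0) (hF : F ∈ VS (fun j => aff (P j)) w d)
    (T : Finset (ℕ × (Fin s → ℕ))) (hT : ∀ t ∈ T, Ic P t.1 t.2 ∧ ip d w t.1 t.2 < 0)
    (g : ℕ × (Fin s → ℕ) → ℝ) {c : ℝ} (h1 : c + ∑ t ∈ T, g t * (t.1 : ℝ) = 0)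
    (h2 : ∀ j, ∑ t ∈ T, g t * (t.2 j : ℝ) = 0) : c = 0 ∧ ∀ t ∈ T, g t = 0 := by
  rcases le_total 0 c with hc | hc
  · exact indep_aux hP hF0 hF T hT g hc h1 h2
  · obtain ⟨h3, h4⟩ := indep_aux hP hF0 hF T hT (fun t => -g t) (c := -c) (by linarith) (by
      rw [Finset.sum_congr rfl fun t _ => neg_mul _ _, Finset.sum_neg_distrib]
      linarith) (fun j => by
      rw [Finset.sum_congr rfl fun t _ => neg_mul _ _, Finset.sum_neg_distrib, h2 j, neg_zero])
    refine ⟨by linarith, fun t ht => ?_⟩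
    have := h4 t ht
    linarith

/-- At most `s` irreducible curves meet a linear system negatively. -/
theorem card_le {s : ℕ} {P : Fin s → Fin 2 → ℂ} (hP : Gen P) {d : ℕ} {w : Fin s → ℕ}
    {F : MvPolynomial (Fin 3) ℂ} (hF0 : F ≠ 0) (hF : F ∈ VS (fun j => aff (P j)) w d)
    (T : Finset (ℕ × (Fin s → ℕ))) (hT : ∀ t ∈ T, Ic P t.1 t.2 ∧ ip d w t.1 t.2 < 0) :
    T.card ≤ s := by
  classical
  let v : Option T → ℝ × (Fin s → ℝ) := fun o =>
    match o with
    | none => (1, 0)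
    | some t => ((t.1.1 : ℝ), fun j => (t.1.2 j : ℝ))
  have hli : LinearIndependent ℝ v := by
    rw [Fintype.linearIndependent_iff]
    intro g hg
    rw [Fintype.sum_option] at hg
    obtain ⟨g', hg'⟩ : ∃ g' : ℕ × (Fin s → ℕ) → ℝ, g' = fun t =>
      if h : t ∈ T then g (some ⟨t, h⟩) else 0 := ⟨_, rfl⟩
    have hg2 : ∀ t : T, g (some t) = g' t.1 := by
      intro t
      rw [hg']
      simp
    have h1 := congrArg Prod.fst hg
    have h2 := congrArg Prod.snd hg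
    have e1 : g none + ∑ t ∈ T, g' t * (t.1 : ℝ) = 0 := by
      rw [← Finset.sum_coe_sort T]
      have h3 : (g none • v none + ∑ t : T, g (some t) • v (some t)).1 =
          g none * 1 + ∑ t : T, g' t.1 * (t.1.1 : ℝ) := by
        rw [Prod.fst_add, Prod.fst_sum]
        simp only [Prod.smul_fst, smul_eq_mul, hg2]
        rfl
      rw [h3] at h1
      simpa using h1
    have e2 : ∀ j, ∑ t ∈ T, g' t * (t.2 j : ℝ) = 0 := by
      intro j
      rw [← Finset.sum_coe_sort T]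
      have h3 : (g none • v none + ∑ t : T, g (some t) • v (some t)).2 j =
          ∑ t : T, g' t.1 * (t.1.2 j : ℝ) := by
        rw [Prod.snd_add, Prod.snd_sum, Pi.add_apply, Finset.sum_apply]
        simp only [Prod.smul_snd, Pi.smul_apply, smul_eq_mul, hg2]
        show g none * (0 : ℝ) + _ = _
        rw [mul_zero, zero_add]
      have h4 := congrFun h2 j
      rw [h3] at h4
      exact h4
    obtain ⟨h3, h4⟩ := indep hP hF0 hF T hT g' e1 e2
    intro o
    rcases o with _ | t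
    · exact h3
    · rw [hg2]
      exact h4 t.1 t.2
  have h1 := hli.fintype_card_le_finrank
  rw [Fintype.card_option, Module.finrank_prod, Module.finrank_self,
    Module.finrank_fin_fun, Fintype.card_coe] at h1
  omega

/-- Two disjoint sets of irreducible curves with the same sum. -/
theorem disj {s : ℕ} {P : Fin s → Fin 2 → ℂ} (hP : Gen P) {d : ℕ} {w : Fin s → ℕ}
    {F : MvPolynomial (Fin 3) ℂ} (hF0 : F ≠ 0) (hF : F ∈ VS (fun j => aff (P j)) w d)
    (T U : Finset (ℕ × (Fin s → ℕ))) (hTU : Disjoint T U) (hT0 : T.Nonempty)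
    (hT : ∀ t ∈ T, Ic P t.1 t.2 ∧ ip d w t.1 t.2 < 0)
    (hU : ∀ t ∈ U, Ic P t.1 t.2 ∧ ip d w t.1 t.2 < 0)
    (h1 : ∑ t ∈ T, (t.1 : ℤ) = ∑ t ∈ U, (t.1 : ℤ))
    (h2 : ∀ j, ∑ t ∈ T, (t.2 j : ℤ) = ∑ t ∈ U, (t.2 j : ℤ)) : False := by
  classical
  have hh : ∀ f : ℕ × (Fin s → ℕ) → ℕ, ∑ t ∈ T, (f t : ℤ) = ∑ t ∈ U, (f t : ℤ) →
      ∑ t ∈ T ∪ U, (if t ∈ T then (1 : ℝ) else -1) * (f t : ℝ) = 0 := by
    intro f hf
    rw [Finset.sum_union hTU]
    have a1 : ∑ t ∈ T, (if t ∈ T then (1 : ℝ) else -1) * (f t : ℝ) = ∑ t ∈ T, (f t : ℝ) :=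
      Finset.sum_congr rfl fun t ht => by rw [if_pos ht, one_mul]
    have a2 : ∑ t ∈ U, (if t ∈ T then (1 : ℝ) else -1) * (f t : ℝ) = -∑ t ∈ U, (f t : ℝ) := by
      rw [← Finset.sum_neg_distrib]
      refine Finset.sum_congr rfl fun t ht => ?_
      rw [if_neg fun h => Finset.disjoint_left.1 hTU h ht]
      ring
    rw [a1, a2]
    have a3 : ∑ t ∈ T, (f t : ℝ) = ∑ t ∈ U, (f t : ℝ) := by exact_mod_cast hf
    rw [a3]
    ring
  obtain ⟨-, h3⟩ := indep hP hF0 hF (T ∪ U) (fun t ht => by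
    rcases Finset.mem_union.1 ht with h | h
    · exact hT t h
    · exact hU t h) (fun t => if t ∈ T then (1 : ℝ) else -1) (c := 0) (by
      rw [zero_add]
      exact hh (fun t => t.1) h1) (fun j => hh (fun t => t.2 j) (h2 j))
  obtain ⟨t, ht⟩ := hT0
  have h4 := h3 t (Finset.mem_union_left _ ht)
  simp only [if_pos ht] at h4
  exact one_ne_zero h4

end Pool.Agent.X157.W
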