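import Pool.Agent.X157.W.Conj

set_option autoImplicit false

/-!
# Real roots, orbits and `(-1)`-curves

A class `a H - ∑ b i E i` is given by the pair `(a, b)`.
-/

namespace Pool.Agent.X157.W

open MvPolynomial Pool.Agent.W609 Pool.Agent.W609.CR Pool.Agent.TH167 Pool.Agent.TH167.SH

/-- The real roots `a H - ∑ b l E l` of the blow-up of the plane at `s` points: the classes
`E j - E i` and `H - E i - E j - E k` for different indices, and all classes obtained from them by
the reflections in the classes `H - E i - E j - E k`. -/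
inductive Root {s : ℕ} : ℤ → (Fin s → ℤ) → Prop
  | pts (i j : Fin s) (h : i ≠ j) :
      Root 0 (fun l => (if l = i then 1 else 0) - (if l = j then 1 else 0))
  | line (i j k : Fin s) (hij : i ≠ j) (hik : i ≠ k) (hjk : j ≠ k) :
      Root 1 (fun l => if l = i ∨ l = j ∨ l = k then 1 else 0)
  | refl (i j k : Fin s) (hij : i ≠ j) (hik : i ≠ k) (hjk : j ≠ k) (a : ℤ) (b : Fin s → ℤ)
      (h : Root a b) :
      Root (a + (a - b i - b j - b k))
        (fun l => b l + if l = i ∨ l = j ∨ l = k then a - b i - b j - b k else 0)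

/-- The intersection number of the class `(a, b)` with the class of a curve. -/
def pr {s : ℕ} (a : ℤ) (b : Fin s → ℤ) (d : ℕ) (w : Fin s → ℕ) : ℤ :=
  a * d - ∑ l, b l * w l

theorem inj3 {s : ℕ} {i j k : Fin s} (hij : i ≠ j) (hik : i ≠ k) (hjk : j ≠ k) :
    Function.Injective ![i, j, k] := inj_cons hij hik hjk

theorem pr_cr {s : ℕ} {i : Fin 3 → Fin s} (hi : Function.Injective i) {d : ℕ} {w : Fin s → ℕ}
    (p : PS i d w) (a : ℤ) (b : Fin s → ℤ) :
    pr (a + (a - b (i 0) - b (i 1) - b (i 2)))
      (fun l => b l + (a - b (i 0) - b (i 1) - b (i 2)) * ic i l) d w =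
      pr a b (cd i d w) (wcr d i w) := by
  unfold pr
  rw [cd_cast p]
  have h1 : ∀ l, (b l + (a - b (i 0) - b (i 1) - b (i 2)) * ic i l) * (w l : ℤ) =
      b l * (w l : ℤ) + (a - b (i 0) - b (i 1) - b (i 2)) * (ic i l * (w l : ℤ)) := fun l => by
    ring
  have h2 : ∀ l, b l * (wcr d i w l : ℤ) = b l * (w l : ℤ) + dl i d w * (ic i l * b l) :=
    fun l => by
      rw [wcr_cast hi p]
      ring
  rw [Finset.sum_congr rfl fun l _ => h1 l, Finset.sum_congr rfl fun l _ => h2 l,
    Finset.sum_add_distrib, Finset.sum_add_distrib, ← Finset.mul_sum, ← Finset.mul_sum,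
    sum_ic hi (fun l => (w l : ℤ)), sum_ic hi b]
  unfold dl
  ring

/-- **Gaps.** The intersection number of an irreducible curve `C`, which is not a `(-1)`-curve,
with a real root is zero, or its square is at least `- C ^ 2`. -/
theorem root_gap {s : ℕ} {P : Fin s → Fin 2 → ℂ} (hP : Gen P) {a : ℤ} {b : Fin s → ℤ}
    (h : Root a b) : ∀ (d : ℕ) (w : Fin s → ℕ), Ic P d w → NotExc d w →
      pr a b d w = 0 ∨ 0 ≤ ip d w d w + pr a b d w ^ 2 := by
  classical
  induction h with
  | pts i j hij =>
    intro d w hC hne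
    have e1 : pr 0 (fun l => (if l = i then (1 : ℤ) else 0) - (if l = j then 1 else 0)) d w =
        (w j : ℤ) - w i := by
      unfold pr
      have h1 : ∀ l, ((if l = i then (1 : ℤ) else 0) - (if l = j then 1 else 0)) * (w l : ℤ) =
          (if l = i then (w i : ℤ) else 0) - (if l = j then (w j : ℤ) else 0) := by
        intro l
        by_cases c1 : l = i
        · subst c1
          by_cases c2 : l = j
          · exact absurd c2 hij
          · simp [c2]
        · by_cases c2 : l = j
          · subst c2
            simp [c1]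
          · simp [c1, c2]
      rw [Finset.sum_congr rfl fun l _ => h1 l, Finset.sum_sub_distrib,
        Finset.sum_ite_eq' Finset.univ i, Finset.sum_ite_eq' Finset.univ j,
        if_pos (Finset.mem_univ _), if_pos (Finset.mem_univ _)]
      ring
    rw [e1]
    by_cases hw : w i = w j
    · left
      rw [hw]
      ring
    · right
      have h2 := hC.perm hP (Equiv.swap i j)
      have h3 := hC.ip_nonneg hP h2 (by
        rintro ⟨-, h4⟩
        have h5 := congrFun h4 i
        rw [Equiv.swap_apply_left] at h5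
        exact hw h5)
      have h6 : ∑ l, ((w l : ℤ) - w (Equiv.swap i j l)) ^ 2 = 2 * ((w i : ℤ) - w j) ^ 2 := by
        rw [Fintype.sum_eq_add i j hij]
        · rw [Equiv.swap_apply_left, Equiv.swap_apply_right]
          ring
        · rintro l ⟨h2, h3⟩
          rw [Equiv.swap_apply_of_ne_of_ne h2 h3]
          ring
      have h7 : ∑ l, ((w l : ℤ) - w (Equiv.swap i j l)) ^ 2 =
          ∑ l, (w l : ℤ) * w l + ∑ l, (w (Equiv.swap i j l) : ℤ) * w (Equiv.swap i j l) -
            2 * ∑ l, (w l : ℤ) * w (Equiv.swap i j l) := by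
        rw [Finset.mul_sum, ← Finset.sum_add_distrib, ← Finset.sum_sub_distrib]
        exact Finset.sum_congr rfl fun l _ => by ring
      have h8 : ∑ l, (w (Equiv.swap i j l) : ℤ) * w (Equiv.swap i j l) =
          ∑ l, (w l : ℤ) * w l := Equiv.sum_comp (Equiv.swap i j) fun l => (w l : ℤ) * w l
      rw [h8, h6] at h7
      unfold ip at h3 ⊢
      have h9 : ((w j : ℤ) - w i) ^ 2 = ((w i : ℤ) - w j) ^ 2 := by ring
      rw [h9]
      linarith
  | line i j k hij hik hjk =>
    intro d w hC hne
    obtain ⟨p, h1, -⟩ := hC.quad hP hne (inj3 hij hik hjk)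
    have e0 : pr 1 (fun l => if l = i ∨ l = j ∨ l = k then 1 else 0) d w =
        dl ![i, j, k] d w := by
      have h2 := sum_ic (inj3 hij hik hjk) (fun l => (w l : ℤ))
      unfold ic at h2
      unfold pr dl
      have h3 : ∑ l, (if l = i ∨ l = j ∨ l = k then (1 : ℤ) else 0) * (w l : ℤ) =
          (w i : ℤ) + w j + w k := h2
      rw [h3]
      show 1 * (d : ℤ) - (w i + w j + w k) = (d : ℤ) - w i - w j - w k
      ring
    rw [e0]
    by_cases h0 : dl ![i, j, k] d w = 0
    · exact Or.inl h0
    · right
      have h2 := hC.ip_nonneg hP h1 (by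
        rintro ⟨h3, -⟩
        have h4 := cd_cast p
        rw [← h3] at h4
        apply h0
        linarith)
      have h5 : ip d w (cd ![i, j, k] d w) (wcr d ![i, j, k] w) =
          ip d w d w + dl ![i, j, k] d w ^ 2 := by
        unfold ip
        rw [cd_cast p]
        have h6 : ∀ l, (w l : ℤ) * (wcr d ![i, j, k] w l : ℤ) =
            (w l : ℤ) * w l + dl ![i, j, k] d w * (ic ![i, j, k] l * (w l : ℤ)) := fun l => by
          rw [wcr_cast (inj3 hij hik hjk) p]
          ring
        rw [Finset.sum_congr rfl fun l _ => h6 l, Finset.sum_add_distrib, ← Finset.mul_sum,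
          sum_ic (inj3 hij hik hjk) (fun l => (w l : ℤ))]
        unfold dl
        ring
      rw [h5] at h2
      exact h2
  | refl i j k hij hik hjk a b hroot ih =>
    intro d w hC hne
    obtain ⟨p, h1, h2⟩ := hC.quad hP hne (inj3 hij hik hjk)
    have h3 := ih _ _ h1 h2
    have h4 := pr_cr (inj3 hij hik hjk) p a b
    have h5 : (fun l => b l + if l = i ∨ l = j ∨ l = k then a - b i - b j - b k else 0) =
        (fun l => b l + (a - b (![i, j, k] 0) - b (![i, j, k] 1) - b (![i, j, k] 2)) *
          ic ![i, j, k] l) := by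
      funext l
      show b l + (if l = i ∨ l = j ∨ l = k then a - b i - b j - b k else 0) =
        b l + (a - b i - b j - b k) * (if l = i ∨ l = j ∨ l = k then 1 else 0)
      split_ifs <;> ring
    rw [h5]
    have h6 : a + (a - b i - b j - b k) =
        a + (a - b (![i, j, k] 0) - b (![i, j, k] 1) - b (![i, j, k] 2)) := rfl
    rw [h6, h4]
    rw [ip_cr (inj3 hij hik hjk) p p] at h3
    exact h3

end Pool.Agent.X157.W
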