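import Pool.Agent.X157.W.Exc
import Pool.Agent.X157.W.Root
import Pool.Agent.TH167.TT.Core2

set_option autoImplicit false

/-!
# Classes in standard form: the curves with negative intersection number
-/

namespace Pool.Agent.X157.W

open MvPolynomial Pool.Agent.W609 Pool.Agent.W609.CR Pool.Agent.TH167 Pool.Agent.TH167.SH
  Pool.Agent.TH167.TT

theorem ip_right {s : ℕ} {i : Fin 3 → Fin s} (hi : Function.Injective i) {d e : ℕ}
    {w u : Fin s → ℕ} (p : PS i e u) :
    ip d w (cd i e u) (wcr e i u) = ip d w e u + dl i e u * dl i d w := by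
  unfold ip
  rw [cd_cast p]
  have h1 : ∀ j, (w j : ℤ) * (wcr e i u j : ℤ) =
      (w j : ℤ) * u j + dl i e u * (ic i j * (w j : ℤ)) := by
    intro j
    rw [wcr_cast hi p]
    ring
  rw [Finset.sum_congr rfl fun j _ => h1 j, Finset.sum_add_distrib, ← Finset.mul_sum,
    sum_ic hi (fun j => (w j : ℤ))]
  unfold dl
  ring

/-- A curve which meets the class of a curve negatively is a component, and it has negative
self-intersection. -/
theorem neg_comp {s : ℕ} {P : Fin s → Fin 2 → ℂ} (hP : Function.Injective P) {e : ℕ}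
    {u : Fin s → ℕ} {G : MvPolynomial (Fin 3) ℂ} (hG : Irreducible G) (hGe : G.IsHomogeneous e)
    (hGo : ∀ j, Ord (aff (P j)) (u j) G) :
    ∀ (d : ℕ) (w : Fin s → ℕ) (F : MvPolynomial (Fin 3) ℂ), F ≠ 0 →
      F ∈ VS (fun j => aff (P j)) w d → ip d w e u < 0 → G ∣ F ∧ ip e u e u < 0 := by
  intro d
  induction d using Nat.strong_induction_on with
  | _ d ih =>
    intro w F hF0 hF hneg
    have hFm := (mem_VS _ _ _ _).1 hF
    have hdvd : G ∣ F := by
      by_contra hnd
      have h1 := bez hP hG hGe (fun j => (hGo j).1) hF0 hFm.1 hFm.2 hnd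
      have h2 : ((∑ j, u j * w j : ℕ) : ℤ) ≤ ((e * d : ℕ) : ℤ) := by exact_mod_cast h1
      push_cast at h2
      unfold ip at hneg
      have h3 : ∑ j, (w j : ℤ) * u j = ∑ j, (u j : ℤ) * w j :=
        Finset.sum_congr rfl fun j _ => mul_comm _ _
      rw [h3] at hneg
      linarith [mul_comm (d : ℤ) e]
    refine ⟨hdvd, ?_⟩
    by_contra hself
    push Not at hself
    obtain ⟨H, hH⟩ := hdvd
    obtain ⟨hed, hHm⟩ := mem_of_factor hF hF0 hGe hGo hH
    have he0 := deg_pos hG hGe
    have hH0 : H ≠ 0 := fun h0 => hF0 (by rw [hH, h0, mul_zero])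
    refine absurd (ih (d - e) (by omega) _ H hH0 hHm ?_).2 (not_lt.2 hself)
    have h4 : ip (d - e) (fun j => w j - u j) e u ≤ ip d w e u - ip e u e u := by
      unfold ip
      have h5 : ∑ j, ((w j : ℤ) - u j) * u j ≤ ∑ j, (((w j - u j : ℕ)) : ℤ) * u j := by
        refine Finset.sum_le_sum fun j _ => mul_le_mul_of_nonneg_right ?_ (Int.natCast_nonneg _)
        omega
      have h6 : ∑ j, ((w j : ℤ) - u j) * u j = ∑ j, (w j : ℤ) * u j - ∑ j, (u j : ℤ) * u j := by
        rw [← Finset.sum_sub_distrib]
        exact Finset.sum_congr rfl fun j _ => by ring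
      rw [Nat.cast_sub hed]
      rw [h6] at h5
      linarith
    linarith

/-- A form of negative degree with respect to a class has an irreducible factor of negative
degree. -/
theorem exists_neg {s : ℕ} {P : Fin s → Fin 2 → ℂ} {D : ℕ} {v : Fin s → ℕ} :
    ∀ (m : ℕ) (F : MvPolynomial (Fin 3) ℂ) (n : Fin s → ℕ), F ≠ 0 → F.IsHomogeneous m →
      (∀ j, Ord (aff (P j)) (n j) F) → ip D v m n < 0 →
      ∃ (e : ℕ) (u : Fin s → ℕ) (G : MvPolynomial (Fin 3) ℂ), Irreducible G ∧
        G.IsHomogeneous e ∧ (∀ j, Ord (aff (P j)) (u j) G) ∧ ip D v e u < 0 := by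
  intro m
  induction m using Nat.strong_induction_on with
  | _ m ih =>
    intro F n hF0 hFm hFo hneg
    have hnu : ¬ IsUnit F := by
      intro hu
      have h1 : F.totalDegree = 0 := (MvPolynomial.isUnit_iff_totalDegree_of_isReduced.1 hu).2
      have h2 : F.totalDegree = m := hFm.totalDegree hF0
      have h3 : m = 0 := by omega
      have h4 : ∀ j, n j = 0 := fun j => by
        have := van_le hF0 hFm (hFo j).1
        omega
      unfold ip at hneg
      rw [h3, Finset.sum_eq_zero fun j _ => by rw [h4 j]; simp] at hneg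
      simp at hneg
    obtain ⟨G, hG, H, hH⟩ := WfDvdMonoid.exists_irreducible_factor hnu hF0
    have hGe := Pool.Agent.Chud.homog_of_dvd hFm hF0 (Dvd.intro _ hH.symm)
    obtain ⟨e, he⟩ : ∃ e, e = G.totalDegree := ⟨_, rfl⟩
    rw [← he] at hGe
    have he0 := deg_pos hG hGe
    choose u hu using fun j => exists_ord (p := P j) hG.ne_zero hGe
    have hFv : F ∈ VS (fun j => aff (P j)) n m := (mem_VS _ _ _ _).2 ⟨hFm, fun j => (hFo j).1⟩
    obtain ⟨hem, hHm⟩ := mem_of_factor hFv hF0 hGe hu hH
    have hH0 : H ≠ 0 := fun h0 => hF0 (by rw [hH, h0, mul_zero])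
    have hHh := ((mem_VS _ _ _ _).1 hHm).1
    choose n' hn' using fun j => exists_ord (p := P j) hH0 hHh
    have hnn : ∀ j, n j = u j + n' j := by
      intro j
      have h2 := ord_mul (hu j) (hn' j)
      rw [← hH] at h2
      exact ord_unique (hFo j) h2
    by_cases hc : ip D v e u < 0
    · exact ⟨e, u, G, hG, hGe, hu, hc⟩
    · refine ih (m - e) (by omega) H n' hH0 hHh hn' ?_
      have h5 : ip D v m n = ip D v e u + ip D v (m - e) n' := by
        unfold ip
        have h6 : ∑ j, (v j : ℤ) * n j = ∑ j, (v j : ℤ) * u j + ∑ j, (v j : ℤ) * n' j := by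
          rw [← Finset.sum_add_distrib]
          refine Finset.sum_congr rfl fun j _ => ?_
          rw [hnn j]
          push_cast
          ring
        rw [h6, Nat.cast_sub hem]
        ring
      linarith

/-- A class in standard form meets all `(-1)`-curves nonnegatively. -/
theorem std_exc {r : ℕ} {P : Fin (r + 4) → Fin 2 → ℂ} (hP : Gen P) {d : ℕ}
    {w : Fin (r + 4) → ℕ} (hst : Reduced d w) :
    ∀ (e : ℕ) (u : Fin (r + 4) → ℕ), Ic P e u → ip e u e u = -1 → kk e u = 1 →
      0 ≤ ip d w e u := by
  classical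
  intro e
  induction e using Nat.strong_induction_on with
  | _ e ih =>
    intro u hE hs hk
    have hum : ∀ j, u j ≤ e := by
      obtain ⟨G, hG, hGe, hGo⟩ := hE
      exact fun j => van_le hG.ne_zero hGe (hGo j).1
    have he0 : 0 < e := by
      obtain ⟨G, hG, hGe, hGo⟩ := hE
      exact deg_pos hG hGe
    have hself := self_iff.2 hs
    have hcan := can_iff.2 hk
    by_cases hpair : ∀ i j, i ≠ j → u i + u j ≤ e
    · obtain ⟨M, hM⟩ : ∃ M, ∀ j, u j ≤ M := ⟨∑ j, u j, fun j =>
        Finset.single_le_sum (fun _ _ => Nat.zero_le _) (Finset.mem_univ j)⟩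
      have hfew : Few M e u := by
        left
        rw [Finset.filter_false_of_mem fun j _ => not_lt.2 (hM j)]
        simp
      have hnr : ¬ Reduced e u := by
        intro hred
        have h1 := red_ip hred hum (by omega)
        omega
      obtain ⟨i, hinj, p, -, hlt, -⟩ := exists_step hfew hnr hpair
      obtain ⟨P', hP', hr⟩ := exists_crel hP hinj
      have hE' : Ic P (cd i e u) (wcr e i u) := by
        obtain ⟨G, hG, hGe, hGo⟩ := hE
        obtain ⟨G', a1, a2, a3⟩ := hr.irr hG hGe hGo p.p01 p.p02 p.p12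
        exact Ic.move (P := P') hP' hP ⟨G', a1, a2, a3⟩
      have h1 := ih _ hlt _ hE' (by rw [ip_cr hinj p p, hs]) (by rw [kk_cr hinj p, hk])
      rw [ip_right hinj p] at h1
      have h2 := cd_cast p
      have h3 : dl i e u < 0 := by omega
      have h4 : 0 ≤ dl i d w := by
        have := hst (i 0) (i 1) (i 2) (fun h => absurd (hinj h) (by decide))
          (fun h => absurd (hinj h) (by decide)) (fun h => absurd (hinj h) (by decide))
        unfold dl
        omega
      nlinarith
    · push Not at hpair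
      obtain ⟨a, b, hab, hlt⟩ := hpair
      obtain ⟨G, hG, hGe, hGo⟩ := hE
      rcases pair_irr (inj_of_alg hP) hG hGe hGo hab with h | ⟨he1, ha, hb⟩
      · omega
      · subst he1
        obtain ⟨a1, b1, hz⟩ := two_of_sum hab (by omega) ha hb
        obtain ⟨c, hca, hcb⟩ := exists_third a b
        have hue : u = fun l => if l = a ∨ l = b then 1 else 0 := by
          funext l
          by_cases h : l = a ∨ l = b
          · rw [if_pos h]
            rcases h with h | h
            · rw [h, a1]
            · rw [h, b1]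
          · rw [if_neg h]
            push Not at h
            exact hz l h.1 h.2
        rw [hue, ip_ind hab d w]
        have := hst a b c hab hca.symm hcb.symm
        omega

/-- An irreducible curve which meets a class in standard form negatively can be moved to standard
form. -/
theorem to_std {r : ℕ} {P : Fin (r + 4) → Fin 2 → ℂ} (hP : Gen P) {d : ℕ}
    {w : Fin (r + 4) → ℕ} (hst : Reduced d w) :
    ∀ (e : ℕ) (u : Fin (r + 4) → ℕ), Ic P e u → NotExc e u → ip d w e u < 0 →
      ∃ (e' : ℕ) (u' : Fin (r + 4) → ℕ), Ic P e' u' ∧ NotExc e' u' ∧ Reduced e' u' ∧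
        ip e' u' e' u' = ip e u e u ∧ kk e' u' = kk e u ∧ ip d w e' u' ≤ ip d w e u ∧
        Relation.ReflTransGen Quad (e, u) (e', u') := by
  classical
  intro e
  induction e using Nat.strong_induction_on with
  | _ e ih =>
    intro u hE hne hneg
    by_cases hred : Reduced e u
    · exact ⟨e, u, hE, hne, hred, rfl, rfl, le_rfl, Relation.ReflTransGen.refl⟩
    · unfold Reduced at hred
      push Not at hred
      obtain ⟨i, j, l, hij, hil, hjl, hlt⟩ := hred
      have hinj := inj3 hij hil hjl
      obtain ⟨p, h1, h2⟩ := hE.quad hP hne hinj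
      have hcd := cd_cast p
      have hdl : dl ![i, j, l] e u = (e : ℤ) - u i - u j - u l := rfl
      have hdw : dl ![i, j, l] d w = (d : ℤ) - w i - w j - w l := rfl
      have hdneg : dl ![i, j, l] e u < 0 := by
        rw [hdl]
        omega
      have h4 : 0 ≤ dl ![i, j, l] d w := by
        have := hst i j l hij hil hjl
        rw [hdw]
        omega
      have h5 : ip d w (cd ![i, j, l] e u) (wcr e ![i, j, l] u) ≤ ip d w e u := by
        rw [ip_right hinj p]
        nlinarith
      obtain ⟨e', u', b1, b2, b3, b4, b5, b6, b7⟩ := ih _ (by omega) _ h1 h2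
        (lt_of_le_of_lt h5 hneg)
      refine ⟨e', u', b1, b2, b3, ?_, ?_, b6.trans h5, ?_⟩
      · rw [b4, ip_cr hinj p p]
      · rw [b5, kk_cr hinj p]
      · exact (Relation.ReflTransGen.single ⟨_, hinj, p, rfl⟩).trans b7

end Pool.Agent.X157.W
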