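import Pool.Agent.X157.W.FixK
import Pool.Agent.X157.W.Orth

set_option autoImplicit false

/-!
# The symmetries of the fixed part
-/

namespace Pool.Agent.X157.W

open MvPolynomial Pool.Agent.W609 Pool.Agent.W609.CR Pool.Agent.TH167 Pool.Agent.TH167.SH
  Pool.Agent.TH167.TT

theorem pr_sum {s : ℕ} (a : ℤ) (b : Fin s → ℤ) (T : Finset (ℕ × (Fin s → ℕ)))
    (k : ℕ × (Fin s → ℕ) → ℕ) :
    pr a b (∑ t ∈ T, k t * t.1) (fun j => ∑ t ∈ T, k t * t.2 j) =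
      ∑ t ∈ T, (k t : ℤ) * pr a b t.1 t.2 := by
  unfold pr
  push_cast
  rw [Finset.mul_sum, Finset.sum_congr rfl fun l _ => Finset.mul_sum _ _ _, Finset.sum_comm,
    ← Finset.sum_sub_distrib]
  refine Finset.sum_congr rfl fun t _ => ?_
  rw [mul_sub, Finset.mul_sum]
  congr 1
  · ring
  · exact Finset.sum_congr rfl fun l _ => by ring

/-- **The reflections in the roots orthogonal to a divisor contained in the fixed part permute its
components.** -/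
theorem refl_mem {s : ℕ} {P : Fin s → Fin 2 → ℂ} (hP : Gen P) {d : ℕ} {w : Fin s → ℕ}
    {F0 : MvPolynomial (Fin 3) ℂ} (hF0 : F0 ≠ 0) (hF : F0 ∈ VS (fun j => aff (P j)) w d)
    (T : Finset (ℕ × (Fin s → ℕ))) (k : ℕ × (Fin s → ℕ) → ℕ)
    (hk : ∀ t ∈ T, 0 < k t)
    (hT : ∀ t ∈ T, (∃ G, FxK P d w (k t) t.1 t.2 G) ∧ NotExc t.1 t.2)
    {a : ℤ} {b : Fin s → ℤ} (hα : Root a b)
    (h0 : pr a b (∑ t ∈ T, k t * t.1) (fun j => ∑ t ∈ T, k t * t.2 j) = 0)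
    (t : ℕ × (Fin s → ℕ)) (ht : t ∈ T) :
    ∃ t' ∈ T, k t ≤ k t' ∧ (t'.1 : ℤ) = t.1 + pr a b t.1 t.2 * a ∧
      ∀ l, (t'.2 l : ℤ) = t.2 l + pr a b t.1 t.2 * b l := by
  classical
  have hT1 : ∀ t : ℕ × (Fin s → ℕ), ∃ G, t ∈ T → FxK P d w (k t) t.1 t.2 G := by
    intro t
    by_cases ht : t ∈ T
    · obtain ⟨⟨G, hG⟩, -⟩ := hT t ht
      exact ⟨G, fun _ => hG⟩
    · exact ⟨0, fun h => absurd h ht⟩
  have hT2 : ∀ t : ℕ × (Fin s → ℕ), ∃ (t' : ℕ × (Fin s → ℕ)) (G : MvPolynomial (Fin 3) ℂ),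
      t ∈ T → (Irreducible G ∧ G.IsHomogeneous t'.1 ∧ ∀ j, Ord (aff (P j)) (t'.2 j) G) ∧
        (t'.1 : ℤ) = t.1 + pr a b t.1 t.2 * a ∧
        ∀ l, (t'.2 l : ℤ) = t.2 l + pr a b t.1 t.2 * b l := by
    intro t
    by_cases ht : t ∈ T
    · obtain ⟨⟨G, hG⟩, hne⟩ := hT t ht
      obtain ⟨e', u', ⟨G', hG'⟩, -, h1, h2⟩ :=
        root_curve hP hα t.1 t.2 ⟨G, hG.1, hG.2.1, hG.2.2.1⟩ hne
      exact ⟨(e', u'), G', fun _ => ⟨hG', h1, h2⟩⟩
    · exact ⟨(0, 0), 0, fun h => absurd h ht⟩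
  choose G hG using hT1
  choose f G' hG' using hT2
  have hps : ∑ t ∈ T, (k t : ℤ) * pr a b t.1 t.2 = 0 := by rw [← pr_sum, h0]
  have s1 : ∑ t ∈ T, k t * (f t).1 = ∑ t ∈ T, k t * t.1 := by
    have h1 : ∑ t ∈ T, (k t : ℤ) * ((f t).1 : ℤ) = ∑ t ∈ T, (k t : ℤ) * (t.1 : ℤ) := by
      have h2 : ∀ t ∈ T, (k t : ℤ) * ((f t).1 : ℤ) =
          (k t : ℤ) * (t.1 : ℤ) + (k t : ℤ) * pr a b t.1 t.2 * a := fun t ht => by
        rw [(hG' t ht).2.1]; ring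
      rw [Finset.sum_congr rfl h2, Finset.sum_add_distrib, ← Finset.sum_mul, hps, zero_mul,
        add_zero]
    exact_mod_cast h1
  have s2 : ∀ l, ∑ t ∈ T, k t * (f t).2 l = ∑ t ∈ T, k t * t.2 l := by
    intro l
    have h1 : ∑ t ∈ T, (k t : ℤ) * ((f t).2 l : ℤ) = ∑ t ∈ T, (k t : ℤ) * (t.2 l : ℤ) := by
      have h2 : ∀ t ∈ T, (k t : ℤ) * ((f t).2 l : ℤ) =
          (k t : ℤ) * (t.2 l : ℤ) + (k t : ℤ) * pr a b t.1 t.2 * b l := fun t ht => by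
        rw [(hG' t ht).2.2 l]; ring
      rw [Finset.sum_congr rfl h2, Finset.sum_add_distrib, ← Finset.sum_mul, hps, zero_mul,
        add_zero]
    exact_mod_cast h1
  have hB1 : (∏ t ∈ T, G' t ^ k t).IsHomogeneous (∑ t ∈ T, k t * (f t).1) :=
    MvPolynomial.IsHomogeneous.prod T (fun t => G' t ^ k t) (fun t => k t * (f t).1)
      fun t ht => by
        rw [mul_comm]
        exact (hG' t ht).1.2.1.pow _
  have hB2 : ∀ j, Ord (aff (P j)) (∑ t ∈ T, k t * (f t).2 j) (∏ t ∈ T, G' t ^ k t) := fun j =>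
    ord_prod T (fun t => G' t ^ k t) (fun t => k t * (f t).2 j)
      fun t ht => ord_pow ((hG' t ht).1.2.2 j) _
  obtain ⟨c, hc⟩ := rigidK hF0 hF T G k (fun t => t.1) (fun t => t.2) (fun t ht => hG t ht)
    (fun t _ t' _ htt h => htt (Prod.ext h.1 h.2)) (A := ∏ t ∈ T, G' t ^ k t) (by
      refine (mem_VS _ _ _ _).2 ⟨?_, fun j => ?_⟩
      · rw [← s1]
        exact hB1
      · show Van _ (∑ t ∈ T, k t * t.2 j) _
        rw [← s2 j]
        exact (hB2 j).1)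
  have hB0 : ∏ t ∈ T, G' t ^ k t ≠ 0 :=
    Finset.prod_ne_zero_iff.2 fun t ht => pow_ne_zero _ (hG' t ht).1.1.ne_zero
  have hc0 : c ≠ 0 := by
    intro h
    rw [h, C_0, zero_mul] at hc
    exact hB0 hc
  have hcu : IsUnit (C c : MvPolynomial (Fin 3) ℂ) := (isUnit_iff_ne_zero.2 hc0).map C
  -- the image of `t`
  have hd1 : G' t ^ k t ∣ ∏ t ∈ T, G t ^ k t := by
    refine hcu.dvd_mul_left.1 ?_
    rw [← hc]
    exact Finset.dvd_prod_of_mem (fun t => G' t ^ k t) ht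
  have hp : Prime (G' t) := (hG' t ht).1.1.prime
  have hd2 : G' t ∣ ∏ t ∈ T, G t ^ k t := dvd_trans (dvd_pow_self _ (hk t ht).ne') hd1
  obtain ⟨t', ht', h4⟩ := (Prime.dvd_finsetProd_iff hp _).1 hd2
  have h5 := hp.dvd_of_dvd_pow h4
  have h6 := assoc_class (hG' t ht).1.1 (hG t' ht').1 (hG' t ht).1.2.1 (hG t' ht').2.1
    (hG' t ht).1.2.2 (hG t' ht').2.2.1 h5
  have has : Associated (G' t) (G t') := (hG' t ht).1.1.associated_of_dvd (hG t' ht').1 h5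
  refine ⟨t', ht', ?_, ?_, ?_⟩
  · have h7 : G t' ^ k t ∣ ∏ t ∈ T, G t ^ k t := ((has.symm.pow_pow).dvd).trans hd1
    rw [← Finset.mul_prod_erase T (fun t => G t ^ k t) ht'] at h7
    have h8 : IsRelPrime (G t' ^ k t) (∏ t ∈ T.erase t', G t ^ k t) := by
      refine IsRelPrime.prod_right fun t'' ht'' => ?_
      refine IsRelPrime.pow ?_
      rw [(hG t' ht').1.isRelPrime_iff_not_dvd]
      intro hd
      obtain ⟨hne, hmem⟩ := Finset.mem_erase.1 ht''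
      obtain ⟨a1, a2, a3, -⟩ := hG t' ht'
      obtain ⟨b1, b2, b3, -⟩ := hG t'' hmem
      have h9 := assoc_class a1 b1 a2 b2 a3 b3 hd
      exact hne (Prod.ext h9.1.symm h9.2.symm)
    have h9 := h8.dvd_of_dvd_mul_right h7
    exact (pow_dvd_pow_iff (hG t' ht').1.ne_zero (hG t' ht').1.not_isUnit).1 h9
  · rw [← h6.1]
    exact (hG' t ht).2.1
  · intro l
    rw [← h6.2]
    exact (hG' t ht).2.2 l

/-- Orthogonal roots. -/
theorem orthM {s : ℕ} {P : Fin s → Fin 2 → ℂ} (hP : Gen P) {M : ℕ → (Fin s → ℕ) → Prop}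
    (hM : ∀ e u, M e u → Ic P e u ∧ NotExc e u)
    (hdis : ∀ T U : Finset (ℕ × (Fin s → ℕ)), Disjoint T U → T.Nonempty →
      (∀ t ∈ T, M t.1 t.2) → (∀ t ∈ U, M t.1 t.2) → ∑ t ∈ T, (t.1 : ℤ) = ∑ t ∈ U, (t.1 : ℤ) →
      (∀ j, ∑ t ∈ T, (t.2 j : ℤ) = ∑ t ∈ U, (t.2 j : ℤ)) → False)
    {a : ℤ} {b : Fin s → ℤ} {a' : ℤ} {b' : Fin s → ℤ} (hα : Root a b) (hβ : Root a' b')
    (clα : ∀ e u, M e u → ∀ (e' : ℕ) (u' : Fin s → ℕ), (e' : ℤ) = e + pr a b e u * a →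
      (∀ l, (u' l : ℤ) = u l + pr a b e u * b l) → M e' u')
    (clβ : ∀ e u, M e u → ∀ (e' : ℕ) (u' : Fin s → ℕ), (e' : ℤ) = e + pr a' b' e u * a' →
      (∀ l, (u' l : ℤ) = u l + pr a' b' e u * b' l) → M e' u')
    {e : ℕ} {u : Fin s → ℕ} (hC : M e u) (hab : bl a b a' b' = 0) :
    pr a b e u = 0 ∨ pr a' b' e u = 0 := by
  classical
  by_contra hcon
  push Not at hcon
  obtain ⟨hp, hq⟩ := hcon
  have sα := hα.self
  have sβ := hβ.self
  have hba : bl a' b' a b = 0 := by rw [bl_comm, hab]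
  obtain ⟨e1, u1, c1, n1, x1, y1⟩ := root_curve hP hα e u (hM _ _ hC).1 (hM _ _ hC).2
  obtain ⟨e2, u2, c2, n2, x2, y2⟩ := root_curve hP hβ e u (hM _ _ hC).1 (hM _ _ hC).2
  obtain ⟨e3, u3, c3, n3, x3, y3⟩ := root_curve hP hβ e1 u1 c1 n1
  have m1 : M e1 u1 := clα e u hC e1 u1 x1 y1
  have m2 : M e2 u2 := clβ e u hC e2 u2 x2 y2
  have m3 : M e3 u3 := clβ e1 u1 m1 e3 u3 x3 y3
  have q1 : pr a' b' e1 u1 = pr a' b' e u := by
    rw [pr_add x1 y1, hba]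
    ring
  rw [q1] at x3 y3
  have p1 : pr a b e1 u1 = -pr a b e u := by
    rw [pr_add x1 y1, sα]
    ring
  have p2 : pr a b e2 u2 = pr a b e u := by
    rw [pr_add x2 y2, hab]
    ring
  have q2 : pr a' b' e2 u2 = -pr a' b' e u := by
    rw [pr_add x2 y2, sβ]
    ring
  have p3 : pr a b e3 u3 = -pr a b e u := by
    rw [pr_add x3 y3, hab, p1]
    ring
  have q3 : pr a' b' e3 u3 = -pr a' b' e u := by
    rw [pr_add x3 y3, sβ, q1]
    ring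
  have ne : ∀ (z z' : ℕ × (Fin s → ℕ)) (f : ℕ → (Fin s → ℕ) → ℤ), f z.1 z.2 ≠ f z'.1 z'.2 →
      z ≠ z' := fun z z' f h h1 => h (by rw [h1])
  have ne03 : ((e, u) : ℕ × (Fin s → ℕ)) ≠ (e3, u3) := ne _ _ (pr a b) (by
    show pr a b e u ≠ pr a b e3 u3
    rw [p3]
    omega)
  have ne12 : ((e1, u1) : ℕ × (Fin s → ℕ)) ≠ (e2, u2) := ne _ _ (pr a b) (by
    show pr a b e1 u1 ≠ pr a b e2 u2
    rw [p1, p2]
    omega)
  have ne01 : ((e, u) : ℕ × (Fin s → ℕ)) ≠ (e1, u1) := ne _ _ (pr a b) (by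
    show pr a b e u ≠ pr a b e1 u1
    rw [p1]
    omega)
  have ne02 : ((e, u) : ℕ × (Fin s → ℕ)) ≠ (e2, u2) := ne _ _ (pr a' b') (by
    show pr a' b' e u ≠ pr a' b' e2 u2
    rw [q2]
    omega)
  have ne31 : ((e3, u3) : ℕ × (Fin s → ℕ)) ≠ (e1, u1) := ne _ _ (pr a' b') (by
    show pr a' b' e3 u3 ≠ pr a' b' e1 u1
    rw [q3, q1]
    omega)
  have ne32 : ((e3, u3) : ℕ × (Fin s → ℕ)) ≠ (e2, u2) := ne _ _ (pr a b) (by
    show pr a b e3 u3 ≠ pr a b e2 u2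
    rw [p3, p2]
    omega)
  refine hdis {(e, u), (e3, u3)} {(e1, u1), (e2, u2)} ?_ ⟨(e, u), by simp⟩ ?_ ?_ ?_ ?_
  · rw [Finset.disjoint_left]
    intro z hz hz'
    rw [Finset.mem_insert, Finset.mem_singleton] at hz hz'
    rcases hz with rfl | rfl <;> rcases hz' with h | h
    · exact ne01 h
    · exact ne02 h
    · exact ne31 h
    · exact ne32 h
  · intro t ht
    rw [Finset.mem_insert, Finset.mem_singleton] at ht
    rcases ht with rfl | rfl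
    · exact hC
    · exact m3
  · intro t ht
    rw [Finset.mem_insert, Finset.mem_singleton] at ht
    rcases ht with rfl | rfl
    · exact m1
    · exact m2
  · rw [Finset.sum_pair ne03, Finset.sum_pair ne12]
    show (e : ℤ) + e3 = e1 + e2
    rw [x3, x1, x2]
    ring
  · intro l
    rw [Finset.sum_pair ne03, Finset.sum_pair ne12]
    show (u l : ℤ) + u3 l = u1 l + u2 l
    rw [y3, y1, y2]
    ring

/-- Roots which generate a system of type `A₂`. -/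
theorem orth2M {s : ℕ} {P : Fin s → Fin 2 → ℂ} (hP : Gen P) {M : ℕ → (Fin s → ℕ) → Prop}
    (hM : ∀ e u, M e u → Ic P e u ∧ NotExc e u)
    (hdis : ∀ T U : Finset (ℕ × (Fin s → ℕ)), Disjoint T U → T.Nonempty →
      (∀ t ∈ T, M t.1 t.2) → (∀ t ∈ U, M t.1 t.2) → ∑ t ∈ T, (t.1 : ℤ) = ∑ t ∈ U, (t.1 : ℤ) →
      (∀ j, ∑ t ∈ T, (t.2 j : ℤ) = ∑ t ∈ U, (t.2 j : ℤ)) → False)
    {a : ℤ} {b : Fin s → ℤ} {a' : ℤ} {b' : Fin s → ℤ} (hα : Root a b) (hβ : Root a' b')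
    (clα : ∀ e u, M e u → ∀ (e' : ℕ) (u' : Fin s → ℕ), (e' : ℤ) = e + pr a b e u * a →
      (∀ l, (u' l : ℤ) = u l + pr a b e u * b l) → M e' u')
    (clβ : ∀ e u, M e u → ∀ (e' : ℕ) (u' : Fin s → ℕ), (e' : ℤ) = e + pr a' b' e u * a' →
      (∀ l, (u' l : ℤ) = u l + pr a' b' e u * b' l) → M e' u')
    {e : ℕ} {u : Fin s → ℕ} (hC : M e u) (hab : bl a b a' b' = 1) :
    pr a b e u = 0 ∨ pr a' b' e u = 0 ∨ pr a b e u + pr a' b' e u = 0 := by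
  classical
  by_contra hcon
  push Not at hcon
  obtain ⟨hp, hq, hpq⟩ := hcon
  have sα := hα.self
  have sβ := hβ.self
  have hba : bl a' b' a b = 1 := by rw [bl_comm, hab]
  obtain ⟨p, hp'⟩ : ∃ p, p = pr a b e u := ⟨_, rfl⟩
  obtain ⟨q, hq'⟩ : ∃ q, q = pr a' b' e u := ⟨_, rfl⟩
  rw [← hp'] at hp hpq
  rw [← hq'] at hq hpq
  obtain ⟨e1, u1, c1, n1, x1, y1⟩ := root_curve hP hα e u (hM _ _ hC).1 (hM _ _ hC).2
  obtain ⟨e2, u2, c2, n2, x2, y2⟩ := root_curve hP hβ e u (hM _ _ hC).1 (hM _ _ hC).2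
  have m1 : M e1 u1 := clα e u hC e1 u1 x1 y1
  have m2 : M e2 u2 := clβ e u hC e2 u2 x2 y2
  rw [← hp'] at x1 y1
  rw [← hq'] at x2 y2
  have q1 : pr a' b' e1 u1 = q + p := by rw [pr_add x1 y1, hba, ← hq']; ring
  have p1 : pr a b e1 u1 = -p := by rw [pr_add x1 y1, sα, ← hp']; ring
  have p2 : pr a b e2 u2 = p + q := by rw [pr_add x2 y2, hab, ← hp']; ring
  have q2 : pr a' b' e2 u2 = -q := by rw [pr_add x2 y2, sβ, ← hq']; ring
  obtain ⟨e3, u3, c3, n3, x3, y3⟩ := root_curve hP hβ e1 u1 c1 n1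
  obtain ⟨e4, u4, c4, n4, x4, y4⟩ := root_curve hP hα e2 u2 c2 n2
  have m3 : M e3 u3 := clβ e1 u1 m1 e3 u3 x3 y3
  have m4 : M e4 u4 := clα e2 u2 m2 e4 u4 x4 y4
  rw [q1] at x3 y3
  rw [p2] at x4 y4
  have p3 : pr a b e3 u3 = q := by rw [pr_add x3 y3, hab, p1]; ring
  have q3 : pr a' b' e3 u3 = -(q + p) := by rw [pr_add x3 y3, sβ, q1]; ring
  have p4 : pr a b e4 u4 = -(p + q) := by rw [pr_add x4 y4, sα, p2]; ring
  have q4 : pr a' b' e4 u4 = p := by rw [pr_add x4 y4, hba, q2]; ring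
  obtain ⟨e5, u5, c5, n5, x5, y5⟩ := root_curve hP hα e3 u3 c3 n3
  have m5 : M e5 u5 := clα e3 u3 m3 e5 u5 x5 y5
  rw [p3] at x5 y5
  have p5 : pr a b e5 u5 = -q := by rw [pr_add x5 y5, sα, p3]; ring
  have q5 : pr a' b' e5 u5 = -p := by rw [pr_add x5 y5, hba, q3]; ring
  have ne : ∀ (z z' : ℕ × (Fin s → ℕ)), z = z' →
      pr a b z.1 z.2 = pr a b z'.1 z'.2 ∧ pr a' b' z.1 z.2 = pr a' b' z'.1 z'.2 :=
    fun z z' h => by rw [h]; exact ⟨rfl, rfl⟩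
  have r0 : pr a b e u = p := hp'.symm
  have t0 : pr a' b' e u = q := hq'.symm
  have ne03 : ((e, u) : ℕ × (Fin s → ℕ)) ≠ (e3, u3) := fun h => by
    obtain ⟨g1, g2⟩ := ne _ _ h
    simp only at g1 g2
    rw [r0, p3] at g1
    rw [t0, q3] at g2
    omega
  have ne04 : ((e, u) : ℕ × (Fin s → ℕ)) ≠ (e4, u4) := fun h => by
    obtain ⟨g1, g2⟩ := ne _ _ h
    simp only at g1 g2
    rw [r0, p4] at g1
    rw [t0, q4] at g2
    omega
  have ne34 : ((e3, u3) : ℕ × (Fin s → ℕ)) ≠ (e4, u4) := fun h => by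
    obtain ⟨g1, g2⟩ := ne _ _ h
    simp only at g1 g2
    rw [p3, p4] at g1
    rw [q3, q4] at g2
    omega
  have ne12 : ((e1, u1) : ℕ × (Fin s → ℕ)) ≠ (e2, u2) := fun h => by
    obtain ⟨g1, g2⟩ := ne _ _ h
    simp only at g1 g2
    rw [p1, p2] at g1
    rw [q1, q2] at g2
    omega
  have ne15 : ((e1, u1) : ℕ × (Fin s → ℕ)) ≠ (e5, u5) := fun h => by
    obtain ⟨g1, g2⟩ := ne _ _ h
    simp only at g1 g2
    rw [p1, p5] at g1
    rw [q1, q5] at g2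
    omega
  have ne25 : ((e2, u2) : ℕ × (Fin s → ℕ)) ≠ (e5, u5) := fun h => by
    obtain ⟨g1, g2⟩ := ne _ _ h
    simp only at g1 g2
    rw [p2, p5] at g1
    rw [q2, q5] at g2
    omega
  refine hdis {(e, u), (e3, u3), (e4, u4)} {(e1, u1), (e2, u2), (e5, u5)} ?_
    ⟨(e, u), by simp⟩ ?_ ?_ ?_ ?_
  · rw [Finset.disjoint_left]
    intro z hz hz'
    rw [Finset.mem_insert, Finset.mem_insert, Finset.mem_singleton] at hz hz'
    rcases hz with rfl | rfl | rfl <;> rcases hz' with h | h | h <;>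
    · obtain ⟨g1, g2⟩ := ne _ _ h
      simp only [r0, t0, p1, p2, p3, p4, p5, q1, q2, q3, q4, q5] at g1 g2
      omega
  · intro t ht
    rw [Finset.mem_insert, Finset.mem_insert, Finset.mem_singleton] at ht
    rcases ht with rfl | rfl | rfl
    · exact hC
    · exact m3
    · exact m4
  · intro t ht
    rw [Finset.mem_insert, Finset.mem_insert, Finset.mem_singleton] at ht
    rcases ht with rfl | rfl | rfl
    · exact m1
    · exact m2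
    · exact m5
  · rw [Finset.sum_insert (by simp [ne03, ne04]), Finset.sum_pair ne34,
      Finset.sum_insert (by simp [ne12, ne15]), Finset.sum_pair ne25]
    show (e : ℤ) + (e3 + e4) = e1 + (e2 + e5)
    rw [x5, x4, x3, x2, x1]
    ring
  · intro l
    rw [Finset.sum_insert (by simp [ne03, ne04]), Finset.sum_pair ne34,
      Finset.sum_insert (by simp [ne12, ne15]), Finset.sum_pair ne25]
    show (u l : ℤ) + (u3 l + u4 l) = u1 l + (u2 l + u5 l)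
    rw [y5, y4, y3, y2, y1]
    ring

end Pool.Agent.X157.W
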