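import Pool.Agent.X157.W.FixK
import Pool.Agent.TH167.SH.Irr
import Pool.Agent.TH167.SH.Line

set_option autoImplicit false

/-!
# Fixed components of uniform systems: orbits of the symmetric group
-/

namespace Pool.Agent.X157.W

open MvPolynomial Pool.Agent.W609 Pool.Agent.W609.CR Pool.Agent.TH167 Pool.Agent.TH167.SH
  Pool.Agent.TH167.TT

/-- The line at infinity does not pass through the points. -/
theorem ord_X2 (p : Fin 2 → ℂ) : Ord (aff p) 0 (X 2 : MvPolynomial (Fin 3) ℂ) := by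
  refine ⟨van_zero _ _, ?_⟩
  unfold Van
  rw [zero_add, pow_one, RingHom.mem_ker, eval_X]
  show (1 : ℂ) ≠ 0
  exact one_ne_zero

theorem hom_dim (d : ℕ) :
    Module.finrank ℂ ↥(homogeneousSubmodule (Fin 3) ℂ d) = (d + 2).choose 2 :=
  H248R6.finrank_homog d

theorem hom_fin (d : ℕ) : Module.Finite ℂ ↥(homogeneousSubmodule (Fin 3) ℂ d) := by
  have h := vs_fin (fun _ : Fin 0 => (0 : Fin 3 → ℂ)) (fun _ => 0) d
  have h2 : VS (fun _ : Fin 0 => (0 : Fin 3 → ℂ)) (fun _ => 0) d =
      homogeneousSubmodule (Fin 3) ℂ d := by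
    ext f
    rw [mem_VS, mem_homogeneousSubmodule]
    exact ⟨fun h => h.1, fun h => ⟨h, fun i => i.elim0⟩⟩
  rw [h2] at h
  exact h

/-- The dimension grows by at most `d + 2`. -/
theorem dim_succ {s : ℕ} (P : Fin s → Fin 2 → ℂ) (w : Fin s → ℕ) (d : ℕ) :
    Module.finrank ℂ ↥(VS (fun j => aff (P j)) w (d + 1)) ≤
      Module.finrank ℂ ↥(VS (fun j => aff (P j)) w d) + (d + 2) := by
  obtain ⟨L, hL⟩ : ∃ L, L = LinearMap.mulLeft ℂ (X 2 : MvPolynomial (Fin 3) ℂ) := ⟨_, rfl⟩
  have hLa : ∀ f, L f = X 2 * f := fun f => by rw [hL, LinearMap.mulLeft_apply]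
  have hinj : Function.Injective L := by
    intro a b hab
    rw [hLa, hLa] at hab
    exact mul_left_cancel₀ (X_ne_zero 2) hab
  obtain ⟨R, hR⟩ : ∃ R, R = Submodule.map L (homogeneousSubmodule (Fin 3) ℂ d) := ⟨_, rfl⟩
  obtain ⟨V, hV⟩ : ∃ V, V = VS (fun j => aff (P j)) w (d + 1) := ⟨_, rfl⟩
  have f1 : Module.finrank ℂ ↥R = (d + 2).choose 2 := by
    rw [hR, ← hom_dim d]
    exact (LinearEquiv.finrank_eq (Submodule.equivMapOfInjective _ hinj _)).symm
  have hRle : R ≤ homogeneousSubmodule (Fin 3) ℂ (d + 1) := by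
    rw [hR]
    rintro _ ⟨g, hg, rfl⟩
    rw [hLa, mem_homogeneousSubmodule, add_comm]
    exact (isHomogeneous_X ℂ (2 : Fin 3)).mul hg
  have hVle : V ≤ homogeneousSubmodule (Fin 3) ℂ (d + 1) := by
    rw [hV]
    intro g hg
    exact ((mem_VS _ _ _ _).1 hg).1
  have hinf : V ⊓ R = Submodule.map L (VS (fun j => aff (P j)) w d) := by
    rw [hV, hR]
    ext g
    constructor
    · rintro ⟨h1, f, hf, rfl⟩
      refine ⟨f, ?_, rfl⟩
      have h2 := (mem_VS _ _ _ _).1 h1
      rw [hLa] at h2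
      by_cases hf0 : f = 0
      · rw [hf0]
        exact Submodule.zero_mem _
      refine (mem_VS _ _ _ _).2 ⟨hf, fun j => ?_⟩
      obtain ⟨n, hn⟩ := exists_ord (p := P j) hf0 hf
      have h3 := ord_mul (ord_X2 (P j)) hn
      rw [zero_add] at h3
      have h4 : w j ≤ n := by
        by_contra hcon
        exact h3.2 (van_mono (by omega) (h2.2 j))
      exact van_mono h4 hn.1
    · rintro ⟨f, hf, rfl⟩
      have hf' := (mem_VS _ _ _ _).1 hf
      refine ⟨(mem_VS _ _ _ _).2 ⟨?_, fun j => ?_⟩, f, hf'.1, rfl⟩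
      · rw [hLa, add_comm]
        exact (isHomogeneous_X ℂ (2 : Fin 3)).mul hf'.1
      · rw [hLa]
        have := van_mul (ord_X2 (P j)).1 (hf'.2 j)
        rwa [zero_add] at this
  have f2 : Module.finrank ℂ ↥(V ⊓ R) = Module.finrank ℂ ↥(VS (fun j => aff (P j)) w d) := by
    rw [hinf]
    exact (LinearEquiv.finrank_eq (Submodule.equivMapOfInjective _ hinj _)).symm
  have g1 := hom_fin (d + 1)
  have g2 : Module.Finite ℂ ↥V := by
    rw [hV]
    exact vs_fin _ _ _
  have g3 : Module.Finite ℂ ↥R := Submodule.finiteDimensional_of_le hRle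
  have h1 := Submodule.finrank_sup_add_finrank_inf_eq V R
  have h2 : Module.finrank ℂ ↥(V ⊔ R) ≤ (d + 1 + 2).choose 2 := by
    rw [← hom_dim (d + 1)]
    exact Submodule.finrank_mono (sup_le hVle hRle)
  have h3 : (d + 1 + 2).choose 2 = (d + 2).choose 2 + (d + 2) := by
    rw [Nat.choose_succ_succ' (d + 2) 1, Nat.choose_one_right]
    ring
  rw [f1, f2] at h1
  rw [← hV]
  omega

theorem chi_succ {s : ℕ} (d : ℕ) (w : Fin s → ℕ) : chi (d + 1) w = chi d w + (d + 2) := by
  unfold chi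
  have h3 : (d + 1 + 2).choose 2 = (d + 2).choose 2 + (d + 2) := by
    rw [Nat.choose_succ_succ' (d + 2) 1, Nat.choose_one_right]
    ring
  rw [h3]
  push_cast
  ring

/-- Independent conditions remain independent. -/
theorem persist {s : ℕ} (P : Fin s → Fin 2 → ℂ) (w : Fin s → ℕ) {f : ℕ}
    (h : (Module.finrank ℂ ↥(VS (fun j => aff (P j)) w f) : ℤ) = chi f w) (k : ℕ) :
    (Module.finrank ℂ ↥(VS (fun j => aff (P j)) w (f + k)) : ℤ) = chi (f + k) w := by
  induction k with
  | zero => exact h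
  | succ k ih =>
    have h1 := dim_succ P w (f + k)
    have h2 := chi_le_dim P (f + k + 1) w
    rw [chi_succ] at h2
    rw [← add_assoc, chi_succ]
    have h3 : ((Module.finrank ℂ ↥(VS (fun j => aff (P j)) w (f + k + 1)) : ℕ) : ℤ) ≤
        ((Module.finrank ℂ ↥(VS (fun j => aff (P j)) w (f + k)) + (f + k + 2) : ℕ) : ℤ) := by
      exact_mod_cast h1
    push_cast at h3 h2 ⊢
    linarith

/-- The orbit of a fixed component of a uniform system. -/
structure Orb {n : ℕ} (P : Fin n → Fin 2 → ℂ) (f φ : ℕ) (A : MvPolynomial (Fin 3) ℂ) : Prop where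
  hom : A.IsHomogeneous f
  ord : ∀ j, Ord (aff (P j)) φ A
  orb : Irreducible A ∨ ∃ (e y x : ℕ) (G : Fin n → MvPolynomial (Fin 3) ℂ), x ≠ y ∧ f = n * e ∧
    φ = (n - 1) * y + x ∧ A = ∏ i, G i ∧
      ∀ i, Irreducible (G i) ∧ (G i).IsHomogeneous e ∧
        ∀ j, Ord (aff (P j)) (if j = i then x else y) (G i)

theorem sum_ite_uni {n : ℕ} (i : Fin n) (x y : ℕ) :
    ∑ j : Fin n, (if j = i then x else y) = (n - 1) * y + x := by
  classical
  rw [Finset.sum_ite, Finset.sum_const, Finset.sum_const, Finset.filter_eq' Finset.univ i,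
    if_pos (Finset.mem_univ i), Finset.card_singleton, Finset.filter_ne' Finset.univ i,
    Finset.card_erase_of_mem (Finset.mem_univ i), Finset.card_univ, Fintype.card_fin,
    smul_eq_mul, smul_eq_mul]
  ring

/-- **Orbits of fixed components of uniform systems.** -/
theorem exists_orb {n : ℕ} {P : Fin n → Fin 2 → ℂ} (hP : Gen P) {d m : ℕ}
    {F : MvPolynomial (Fin 3) ℂ} (hF0 : F ≠ 0) (hF : F ∈ VS (fun j => aff (P j)) (fun _ => m) d)
    {e : ℕ} {u : Fin n → ℕ} {G : MvPolynomial (Fin 3) ℂ} (hG : Fx P d (fun _ => m) e u G) :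
    ∃ (f φ : ℕ) (A : MvPolynomial (Fin 3) ℂ), 0 < f ∧ Orb P f φ A ∧
      (∀ F ∈ VS (fun j => aff (P j)) (fun _ => m) d, A ∣ F) ∧
      Module.finrank ℂ ↥(VS (fun j => aff (P j)) (fun _ => φ) f) = 1 := by
  classical
  obtain ⟨I, hI, hu⟩ := fx_const hP hF0 hF hG
  have he := deg_pos hG.1 hG.2.1
  -- constant multiplicities
  by_cases hc : ∃ y, ∀ j, u j = y
  · obtain ⟨y, hy⟩ := hc
    have hu' : u = fun _ => y := funext hy
    refine ⟨e, y, G, he, ⟨hG.2.1, fun j => ?_, Or.inl hG.1⟩, hG.2.2.2, ?_⟩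
    · have := hG.2.2.1 j
      rwa [hy] at this
    · have h1 : Module.finrank ℂ ↥(VS (fun j => aff (P j))
          (fun j => ∑ _t ∈ ({0} : Finset (Fin 1)), 1 * u j)
          (∑ _t ∈ ({0} : Finset (Fin 1)), 1 * e)) = 1 :=
        rigid_dim hF0 hF ({0} : Finset (Fin 1)) (fun _ => G) (fun _ => 1) (fun _ => e)
        (fun _ => u) (fun t _ => ⟨hG.1, hG.2.1, hG.2.2.1, fun F hF => by
          rw [pow_one]
          exact hG.2.2.2 F hF⟩) (fun t _ t' _ h => absurd (Subsingleton.elim _ _) h)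
      have e1 : (fun j => ∑ _t ∈ ({0} : Finset (Fin 1)), 1 * u j) = fun _ => y := by
        funext j
        rw [Finset.sum_singleton, one_mul, hy]
      have e2 : (∑ _t ∈ ({0} : Finset (Fin 1)), 1 * e) = e := by
        rw [Finset.sum_singleton, one_mul]
      rw [e1, e2] at h1
      exact h1
  · -- one special index
    have hI1 : I.card = 1 := by
      by_contra hcon
      have h0 : I = ∅ := Finset.card_eq_zero.1 (by omega)
      apply hc
      rcases Nat.eq_zero_or_pos n with hn | hn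
      · exact ⟨0, fun j => by
          have := j.2
          omega⟩
      · exact ⟨u ⟨0, hn⟩, fun j => hu j _ (by rw [h0]; simp) (by rw [h0]; simp) rfl⟩
    obtain ⟨i0, hi0⟩ := Finset.card_eq_one.1 hI1
    have hn2 : ∃ j, j ≠ i0 := by
      by_contra hcon
      push Not at hcon
      exact hc ⟨u i0, fun j => by rw [hcon j]⟩
    obtain ⟨j0, hj0⟩ := hn2
    have huy : ∀ j, j ≠ i0 → u j = u j0 := fun j hj => hu j j0
      (by rw [hi0, Finset.mem_singleton]; exact hj) (by rw [hi0, Finset.mem_singleton]; exact hj0)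
      rfl
    have hxy : u i0 ≠ u j0 := by
      intro h
      exact hc ⟨u j0, fun j => by
        by_cases h1 : j = i0
        · rw [h1, h]
        · exact huy j h1⟩
    obtain ⟨x, hx⟩ : ∃ x, x = u i0 := ⟨_, rfl⟩
    obtain ⟨y, hy⟩ : ∃ y, y = u j0 := ⟨_, rfl⟩
    have hex : ∀ i : Fin n, ∃ G', Fx P d (fun _ => m) e (fun j => if j = i then x else y) G' := by
      intro i
      obtain ⟨G', hG'⟩ := hG.perm hP (Equiv.swap i0 i) (fun _ => rfl)
      have h1 : (fun j => u (Equiv.swap i0 i j)) = fun j => if j = i then x else y := by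
        funext j
        by_cases h2 : j = i
        · rw [h2, Equiv.swap_apply_right, if_pos rfl, hx]
        · rw [if_neg h2, hy]
          apply huy
          intro h3
          apply h2
          have h4 := congrArg (Equiv.swap i0 i) h3
          rwa [Equiv.swap_apply_self, Equiv.swap_apply_left] at h4
      rw [h1] at hG'
      exact ⟨G', hG'⟩
    choose G' hG' using hex
    have hne : ∀ t ∈ (Finset.univ : Finset (Fin n)), ∀ t' ∈ (Finset.univ : Finset (Fin n)),
        t ≠ t' → ¬ (e = e ∧ (fun j => if j = t then x else y) = fun j => if j = t' then x else y) := by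
      intro t _ t' _ htt h
      have h1 := congrFun h.2 t
      simp only [if_pos, if_neg htt] at h1
      exact hxy (by rw [← hx, ← hy]; exact h1)
    have hn0 : 0 < n := lt_of_le_of_lt (Nat.zero_le _) i0.2
    have hsum : (fun j : Fin n => ∑ t : Fin n, (if j = t then x else y)) =
        fun _ => (n - 1) * y + x := by
      funext j
      rw [← sum_ite_uni j x y]
      exact Finset.sum_congr rfl fun t _ => by
        by_cases h : t = j
        · rw [if_pos h, if_pos h.symm]
        · rw [if_neg h, if_neg (fun h' => h h'.symm)]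
    refine ⟨n * e, (n - 1) * y + x, ∏ i, G' i, Nat.mul_pos hn0 he, ⟨?_, fun j => ?_, ?_⟩, ?_, ?_⟩
    · have h1 := MvPolynomial.IsHomogeneous.prod Finset.univ G' (fun _ => e)
        fun t _ => (hG' t).2.1
      rwa [Finset.sum_const, Finset.card_univ, Fintype.card_fin, smul_eq_mul] at h1
    · have h1 := ord_prod (v := aff (P j)) Finset.univ G' (fun t => if j = t then x else y)
        fun t _ => (hG' t).2.2.1 j
      have h2 : ∑ t : Fin n, (if j = t then x else y) = (n - 1) * y + x := congrFun hsum j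
      rwa [h2] at h1
    · exact Or.inr ⟨e, y, x, G', by rw [hx, hy]; exact hxy, rfl, rfl, rfl, fun i =>
        ⟨(hG' i).1, (hG' i).2.1, (hG' i).2.2.1⟩⟩
    · intro F' hF'
      exact prod_dvd (P := P) Finset.univ G' (fun _ => e) (fun t j => if j = t then x else y)
        (fun t _ => ⟨(hG' t).1, (hG' t).2.1, (hG' t).2.2.1⟩) hne fun t _ => (hG' t).2.2.2 F' hF'
    · have h1 : Module.finrank ℂ ↥(VS (fun j => aff (P j))
          (fun j => ∑ t : Fin n, 1 * (if j = t then x else y)) (∑ _t : Fin n, 1 * e)) = 1 :=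
        rigid_dim hF0 hF Finset.univ G' (fun _ => 1) (fun _ => e)
        (fun t j => if j = t then x else y) (fun t _ => ⟨(hG' t).1, (hG' t).2.1, (hG' t).2.2.1,
          fun F' hF' => by
            rw [pow_one]
            exact (hG' t).2.2.2 F' hF'⟩) hne
      have e1 : (fun j : Fin n => ∑ t : Fin n, 1 * (if j = t then x else y)) =
          fun _ => (n - 1) * y + x := by
        rw [← hsum]
        funext j
        exact Finset.sum_congr rfl fun t _ => one_mul _
      have e2 : (∑ _t : Fin n, 1 * e) = n * e := by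
        rw [Finset.sum_const, Finset.card_univ, Fintype.card_fin, smul_eq_mul, one_mul]
      rw [e1, e2] at h1
      exact h1

theorem Orb.ne {n : ℕ} {P : Fin n → Fin 2 → ℂ} {f φ : ℕ} {A : MvPolynomial (Fin 3) ℂ}
    (h : Orb P f φ A) : A ≠ 0 := by
  rcases h.orb with h1 | ⟨e, y, x, G, -, -, -, h1, h2⟩
  · exact h1.ne_zero
  · rw [h1]
    exact Finset.prod_ne_zero_iff.2 fun i _ => (h2 i).1.ne_zero

/-- Dividing by the orbit. -/
theorem orb_dim {n : ℕ} {P : Fin n → Fin 2 → ℂ} {d m : ℕ}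
    {F : MvPolynomial (Fin 3) ℂ} (hF0 : F ≠ 0) (hF : F ∈ VS (fun j => aff (P j)) (fun _ => m) d)
    {f φ : ℕ} {A : MvPolynomial (Fin 3) ℂ} (hA : Orb P f φ A)
    (hdvd : ∀ F ∈ VS (fun j => aff (P j)) (fun _ => m) d, A ∣ F) :
    f ≤ d ∧ Module.finrank ℂ ↥(VS (fun j => aff (P j)) (fun _ => m) d) =
      Module.finrank ℂ ↥(VS (fun j => aff (P j)) (fun _ => m - φ) (d - f)) := by
  obtain ⟨H, hH⟩ := hdvd F hF
  obtain ⟨h1, -⟩ := mem_of_factor hF hF0 hA.hom hA.ord hH
  refine ⟨h1, ?_⟩
  -- the multiplicities are at least `φ`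
  have h2 : VS (fun j => aff (P j)) (fun _ => m) d =
      VS (fun j => aff (P j)) (fun _ : Fin n => (m - φ) + φ) ((d - f) + f) := by
    rw [Nat.sub_add_cancel h1]
    rcases le_total φ m with h3 | h3
    · rw [Nat.sub_add_cancel h3]
    · have e1 : m - φ + φ = φ := by omega
      rw [e1]
      ext K
      constructor
      · intro hK
        by_cases hK0 : K = 0
        · rw [hK0]
          exact Submodule.zero_mem _
        obtain ⟨H', hH'⟩ := hdvd K hK
        obtain ⟨-, h5⟩ := mem_of_factor hK hK0 hA.hom hA.ord hH'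
        have h6 := (mem_VS _ _ _ _).1 h5
        refine (mem_VS _ _ _ _).2 ⟨((mem_VS _ _ _ _).1 hK).1, fun j => ?_⟩
        rw [hH']
        have h7 := van_mul (hA.ord j).1 (h6.2 j)
        exact van_mono (by omega) h7
      · intro hK
        have h6 := (mem_VS _ _ _ _).1 hK
        exact (mem_VS _ _ _ _).2 ⟨h6.1, fun j => van_mono h3 (h6.2 j)⟩
  rw [h2]
  exact vs_finrank (w := fun _ => m - φ) (u := fun _ => φ) hA.ne hA.hom hA.ord fun K hK =>
    hdvd K (by rw [h2]; exact hK)

end Pool.Agent.X157.W
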