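import Pool.Agent.X157.W.Min

set_option autoImplicit false

/-!
# Common factors of uniform systems
-/

namespace Pool.Agent.X157.W

open MvPolynomial Pool.Agent.W609 Pool.Agent.W609.CR Pool.Agent.TH167 Pool.Agent.TH167.SH
  Pool.Agent.TH167.TT

/-- The product of the conjugates of a common irreducible factor. -/
theorem exists_orb2 {n : ℕ} {P : Fin n → Fin 2 → ℂ} (hP : Gen P) {d m : ℕ}
    {F : MvPolynomial (Fin 3) ℂ} (hF0 : F ≠ 0) (hF : F ∈ VS (fun j => aff (P j)) (fun _ => m) d)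
    {e : ℕ} {u : Fin n → ℕ} {G : MvPolynomial (Fin 3) ℂ} (hG : Fx P d (fun _ => m) e u G) :
    ∃ (f φ : ℕ) (A : MvPolynomial (Fin 3) ℂ), 0 < f ∧ Orb P f φ A ∧
      (∀ F ∈ VS (fun j => aff (P j)) (fun _ => m) d, A ∣ F) ∧
      Module.finrank ℂ ↥(VS (fun j => aff (P j)) (fun _ => φ) f) = 1 ∧
      ((A = G ∧ f = e ∧ u = fun _ => φ) ∨
        ∃ (y x : ℕ) (G' : Fin n → MvPolynomial (Fin 3) ℂ) (i0 : Fin n), x ≠ y ∧ f = n * e ∧
          φ = (n - 1) * y + x ∧ A = ∏ i, G' i ∧ G' i0 = G ∧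
          (u = fun j => if j = i0 then x else y) ∧
          ∀ i, Irreducible (G' i) ∧ (G' i).IsHomogeneous e ∧
            ∀ j, Ord (aff (P j)) (if j = i then x else y) (G' i)) := by
  classical
  obtain ⟨I, hI, hu⟩ := fx_const hP hF0 hF hG
  have he := deg_pos hG.1 hG.2.1
  -- constant multiplicities
  by_cases hc : ∃ y, ∀ j, u j = y
  · obtain ⟨y, hy⟩ := hc
    have hu' : u = fun _ => y := funext hy
    refine ⟨e, y, G, he, ⟨hG.2.1, fun j => ?_, Or.inl hG.1⟩, hG.2.2.2, ?_, Or.inl ⟨rfl, rfl, hu'⟩⟩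
    · have := hG.2.2.1 j
      rwa [hy] at this
    · have h1 : Module.finrank ℂ ↥(VS (fun j => aff (P j))
          (fun j => ∑ _t ∈ ({0} : Finset (Fin 1)), 1 * u j)
          (∑ _t ∈ ({0} : Finset (Fin 1)), 1 * e)) = 1 :=
        rigid_dim hF0 hF ({0} : Finset (Fin 1)) (fun _ => G) (fun _ => 1) (fun _ => e)
        (fun _ => u) (fun t _ => ⟨hG.1, hG.2.1, hG.2.2.1, fun F hF => by
          rw [pow_one]
          exact hG.2.2.2 F hF⟩) (fun t _ t' _ h => absurd (Subsingleton.elim _ _) h)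
      have e1 : (fun j => ∑ _t ∈ ({0} : Finset (Fin 1)), 1 * u j) = fun _ => y := by
        funext j
        rw [Finset.sum_singleton, one_mul, hy]
      have e2 : (∑ _t ∈ ({0} : Finset (Fin 1)), 1 * e) = e := by
        rw [Finset.sum_singleton, one_mul]
      rw [e1, e2] at h1
      exact h1
  · -- one special index
    have hI1 : I.card = 1 := by
      by_contra hcon
      have h0 : I = ∅ := Finset.card_eq_zero.1 (by omega)
      apply hc
      rcases Nat.eq_zero_or_pos n with hn | hn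
      · exact ⟨0, fun j => by
          have := j.2
          omega⟩
      · exact ⟨u ⟨0, hn⟩, fun j => hu j _ (by rw [h0]; simp) (by rw [h0]; simp) rfl⟩
    obtain ⟨i0, hi0⟩ := Finset.card_eq_one.1 hI1
    have hn2 : ∃ j, j ≠ i0 := by
      by_contra hcon
      push Not at hcon
      exact hc ⟨u i0, fun j => by rw [hcon j]⟩
    obtain ⟨j0, hj0⟩ := hn2
    have huy : ∀ j, j ≠ i0 → u j = u j0 := fun j hj => hu j j0
      (by rw [hi0, Finset.mem_singleton]; exact hj) (by rw [hi0, Finset.mem_singleton]; exact hj0)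
      rfl
    have hxy : u i0 ≠ u j0 := by
      intro h
      exact hc ⟨u j0, fun j => by
        by_cases h1 : j = i0
        · rw [h1, h]
        · exact huy j h1⟩
    obtain ⟨x, hx⟩ : ∃ x, x = u i0 := ⟨_, rfl⟩
    obtain ⟨y, hy⟩ : ∃ y, y = u j0 := ⟨_, rfl⟩
    have hui0 : u = fun j => if j = i0 then x else y := by
      funext j
      by_cases h1 : j = i0
      · rw [if_pos h1, h1, hx]
      · rw [if_neg h1, hy]
        exact huy j h1
    have hex : ∀ i : Fin n, ∃ G', Fx P d (fun _ => m) e (fun j => if j = i then x else y) G' ∧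
        (i = i0 → G' = G) := by
      intro i
      by_cases hii : i = i0
      · subst hii
        exact ⟨G, by rw [← hui0]; exact hG, fun _ => rfl⟩
      obtain ⟨G', hG'⟩ := hG.perm hP (Equiv.swap i0 i) (fun _ => rfl)
      have h1 : (fun j => u (Equiv.swap i0 i j)) = fun j => if j = i then x else y := by
        funext j
        by_cases h2 : j = i
        · rw [h2, Equiv.swap_apply_right, if_pos rfl, hx]
        · rw [if_neg h2, hy]
          apply huy
          intro h3
          apply h2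
          have h4 := congrArg (Equiv.swap i0 i) h3
          rwa [Equiv.swap_apply_self, Equiv.swap_apply_left] at h4
      rw [h1] at hG'
      exact ⟨G', hG', fun h => absurd h hii⟩
    choose G' hG'' using hex
    have hG' := fun i => (hG'' i).1
    have hne : ∀ t ∈ (Finset.univ : Finset (Fin n)), ∀ t' ∈ (Finset.univ : Finset (Fin n)),
        t ≠ t' → ¬ (e = e ∧ (fun j => if j = t then x else y) = fun j => if j = t' then x else y) := by
      intro t _ t' _ htt h
      have h1 := congrFun h.2 t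
      simp only [if_pos, if_neg htt] at h1
      exact hxy (by rw [← hx, ← hy]; exact h1)
    have hn0 : 0 < n := lt_of_le_of_lt (Nat.zero_le _) i0.2
    have hsum : (fun j : Fin n => ∑ t : Fin n, (if j = t then x else y)) =
        fun _ => (n - 1) * y + x := by
      funext j
      rw [← sum_ite_uni j x y]
      exact Finset.sum_congr rfl fun t _ => by
        by_cases h : t = j
        · rw [if_pos h, if_pos h.symm]
        · rw [if_neg h, if_neg (fun h' => h h'.symm)]
    refine ⟨n * e, (n - 1) * y + x, ∏ i, G' i, Nat.mul_pos hn0 he, ⟨?_, fun j => ?_, ?_⟩, ?_, ?_, ?_⟩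
    · have h1 := MvPolynomial.IsHomogeneous.prod Finset.univ G' (fun _ => e)
        fun t _ => (hG' t).2.1
      rwa [Finset.sum_const, Finset.card_univ, Fintype.card_fin, smul_eq_mul] at h1
    · have h1 := ord_prod (v := aff (P j)) Finset.univ G' (fun t => if j = t then x else y)
        fun t _ => (hG' t).2.2.1 j
      have h2 : ∑ t : Fin n, (if j = t then x else y) = (n - 1) * y + x := congrFun hsum j
      rwa [h2] at h1
    · exact Or.inr ⟨e, y, x, G', by rw [hx, hy]; exact hxy, rfl, rfl, rfl, fun i =>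
        ⟨(hG' i).1, (hG' i).2.1, (hG' i).2.2.1⟩⟩
    · intro F' hF'
      exact prod_dvd (P := P) Finset.univ G' (fun _ => e) (fun t j => if j = t then x else y)
        (fun t _ => ⟨(hG' t).1, (hG' t).2.1, (hG' t).2.2.1⟩) hne fun t _ => (hG' t).2.2.2 F' hF'
    · have h1 : Module.finrank ℂ ↥(VS (fun j => aff (P j))
          (fun j => ∑ t : Fin n, 1 * (if j = t then x else y)) (∑ _t : Fin n, 1 * e)) = 1 :=
        rigid_dim hF0 hF Finset.univ G' (fun _ => 1) (fun _ => e)
        (fun t j => if j = t then x else y) (fun t _ => ⟨(hG' t).1, (hG' t).2.1, (hG' t).2.2.1,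
          fun F' hF' => by
            rw [pow_one]
            exact (hG' t).2.2.2 F' hF'⟩) hne
      have e1 : (fun j : Fin n => ∑ t : Fin n, 1 * (if j = t then x else y)) =
          fun _ => (n - 1) * y + x := by
        rw [← hsum]
        funext j
        exact Finset.sum_congr rfl fun t _ => one_mul _
      have e2 : (∑ _t : Fin n, 1 * e) = n * e := by
        rw [Finset.sum_const, Finset.card_univ, Fintype.card_fin, smul_eq_mul, one_mul]
      rw [e1, e2] at h1
      exact h1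
    · exact Or.inr ⟨y, x, G', i0, by rw [hx, hy]; exact hxy, rfl, rfl, rfl, (hG'' i0).2 rfl, hui0,
        fun i => ⟨(hG' i).1, (hG' i).2.1, (hG' i).2.2.1⟩⟩

/-- The self-intersection of a rigid uniform class. -/
theorem orb_num {n : ℕ} (hn : 10 ≤ n) {P : Fin n → Fin 2 → ℂ} (hP : Gen P) {f φ : ℕ} (hf : 0 < f)
    (h1 : Module.finrank ℂ ↥(VS (fun j => aff (P j)) (fun _ : Fin n => φ) f) = 1) :
    0 < φ ∧ 0 < (f : ℤ) ^ 2 - n * φ ^ 2 ∧ (f : ℤ) ^ 2 - n * φ ^ 2 ≤ n * φ - 3 * f := by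
  have hφ : 0 < φ := by
    rcases Nat.eq_zero_or_pos φ with h | h
    · exfalso
      rw [h, vs_zero] at h1
      have h2 : Nat.choose 3 2 ≤ (f + 2).choose 2 := Nat.choose_le_choose 2 (by omega)
      rw [h1] at h2
      exact absurd h2 (by decide)
    · exact h
  refine ⟨hφ, ?_, ?_⟩
  · have h2 := nag hn hP (m := φ) (d := f) (by rw [h1]; exact one_pos) hφ
    have hss : √(n : ℝ) * √(n : ℝ) = n := Real.mul_self_sqrt (Nat.cast_nonneg n)
    have hs0 := Real.sqrt_nonneg (n : ℝ)
    have h3 : (√(n : ℝ) * φ) * (√(n : ℝ) * φ) < (f : ℝ) * f :=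
      mul_self_lt_mul_self (by positivity) h2
    have h4 : (√(n : ℝ) * φ) * (√(n : ℝ) * φ) = n * (φ * φ) := by
      calc (√(n : ℝ) * φ) * (√(n : ℝ) * φ) = (√(n : ℝ) * √(n : ℝ)) * (φ * φ) := by ring
        _ = n * (φ * φ) := by rw [hss]
    rw [h4] at h3
    have h5 : ((n * (φ * φ) : ℕ) : ℝ) < ((f * f : ℕ) : ℝ) := by
      push_cast
      exact h3
    have h6 : n * (φ * φ) < f * f := by exact_mod_cast h5
    have h7 : ((n * (φ * φ) : ℕ) : ℤ) < ((f * f : ℕ) : ℤ) := by exact_mod_cast h6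
    push_cast at h7
    have e : (f : ℤ) ^ 2 - n * φ ^ 2 = f * f - n * (φ * φ) := by ring
    rw [e]
    linarith
  · have h2 := chi_le_dim P f (fun _ : Fin n => φ)
    rw [h1] at h2
    have h3 := two_chi f (fun _ : Fin n => φ)
    rw [ip_const, kk_const] at h3
    push_cast at h2
    have e : (f : ℤ) ^ 2 - n * φ ^ 2 = f * f - n * (φ * φ) := by ring
    rw [e]
    linarith

/-- The lower end of the window. -/
theorem sp_win2 {n : ℕ} (hn : 10 ≤ n) {P : Fin n → Fin 2 → ℂ} (hP : Gen P) {m d : ℕ}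
    (hm : 1 ≤ m) (h : Sp P d m) :
    √(n : ℝ) * (2 * m + 1) - (2 * d + 3) ≤ 2 / 3 + 9 / (4 * √(n : ℝ)) := by
  obtain ⟨F, hF, hF'⟩ := Pool.Agent.TH641.NW.expDim_uni_win2 (L := ℂ) hn hm
  have h0 : aeval (fun ij : Fin n × Fin 2 => P ij.1 ij.2) F ≠ 0 := fun h0 =>
    hF (hP.eq_zero_of_aeval_eq_zero F h0)
  by_contra hcon
  push Not at hcon
  exact (sp_iff P d m).1 h (hF' P h0 d (Or.inl (lt_of_le_of_lt (min_le_right _ _) hcon)))

/-- Common factors in one degree are common factors in all lower degrees. -/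
theorem dvd_down {n : ℕ} {P : Fin n → Fin 2 → ℂ} {d m f φ : ℕ} {A : MvPolynomial (Fin 3) ℂ}
    (hA : Orb P f φ A) (hAd : ∀ F ∈ VS (fun j => aff (P j)) (fun _ => m) d, A ∣ F) {j : ℕ}
    (hj : j ≤ d) : ∀ K ∈ VS (fun j => aff (P j)) (fun _ : Fin n => m) j, A ∣ K := by
  intro K hK
  have hK' := (mem_VS _ _ _ _).1 hK
  obtain ⟨k, hk⟩ : ∃ k, k = d - j := ⟨_, rfl⟩
  have hX : ∀ l : Fin 3, A ∣ X l ^ k * K := by
    intro l
    apply hAd
    refine (mem_VS _ _ _ _).2 ⟨?_, fun i => ?_⟩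
    · have h7 := ((isHomogeneous_X ℂ l).pow k).mul hK'.1
      have e : 1 * k + j = d := by omega
      rwa [e] at h7
    · have h7 := van_mul (van_zero (aff (P i)) (X l ^ k : MvPolynomial (Fin 3) ℂ)) (hK'.2 i)
      rwa [zero_add] at h7
  have hrp : IsRelPrime ((X 0 : MvPolynomial (Fin 3) ℂ) ^ k) (X 2 ^ k) := by
    refine IsRelPrime.pow ?_
    have hx : Prime (X 0 : MvPolynomial (Fin 3) ℂ) := MvPolynomial.X_prime
    rw [hx.irreducible.isRelPrime_iff_not_dvd]
    intro hd
    have := (MvPolynomial.X_dvd_X (R := ℂ) (i := (0 : Fin 3)) (j := 2)).1 hd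
    exact absurd this (by decide)
  obtain ⟨a, ha⟩ := hX 0
  obtain ⟨c, hc⟩ := hX 2
  have h7 : X 2 ^ k * a = X 0 ^ k * c := by
    have h8 : A * (X 2 ^ k * a) = A * (X 0 ^ k * c) := by
      calc A * (X 2 ^ k * a) = X 2 ^ k * (A * a) := by ring
        _ = X 2 ^ k * (X 0 ^ k * K) := by rw [ha]
        _ = X 0 ^ k * (X 2 ^ k * K) := by ring
        _ = X 0 ^ k * (A * c) := by rw [hc]
        _ = A * (X 0 ^ k * c) := by ring
    exact mul_left_cancel₀ hA.ne h8
  obtain ⟨a', ha'⟩ := hrp.dvd_of_dvd_mul_left (Dvd.intro c h7.symm)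
  refine ⟨a', mul_left_cancel₀ (pow_ne_zero k (X_ne_zero (0 : Fin 3))) ?_⟩
  rw [ha, ha']
  ring

theorem choose_lt {a b : ℕ} (h : a < b) : (a + 2).choose 2 < (b + 2).choose 2 := by
  have h1 : (a + 1 + 2).choose 2 ≤ (b + 2).choose 2 := Nat.choose_le_choose 2 (by omega)
  have h2 : (a + 1 + 2).choose 2 = (a + 2).choose 2 + (a + 2) := by
    rw [Nat.choose_succ_succ' (a + 2) 1, Nat.choose_one_right]
    ring
  omega

/-- The multiplicities of a common factor are smaller than those of the system. -/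
theorem phi_lt {n : ℕ} (hn : 10 ≤ n) {P : Fin n → Fin 2 → ℂ} (hP : Gen P) {d m f φ : ℕ}
    {F A : MvPolynomial (Fin 3) ℂ} (hF0 : F ≠ 0)
    (hF : F ∈ VS (fun j => aff (P j)) (fun _ => m) d) (hf : 0 < f)
    (hA : Orb P f φ A) (hAd : ∀ F ∈ VS (fun j => aff (P j)) (fun _ => m) d, A ∣ F)
    (hA1 : Module.finrank ℂ ↥(VS (fun j => aff (P j)) (fun _ : Fin n => φ) f) = 1)
    (hfd : f < d) : φ < m := by
  by_contra hcon
  push Not at hcon
  obtain ⟨n1, n2, n3⟩ := orb_num hn hP hf hA1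
  have e0 : m - φ = 0 := by omega
  rcases Nat.eq_zero_or_pos m with hm0 | hm0
  · subst hm0
    obtain ⟨-, hdim⟩ := orb_dim hF0 hF hA hAd
    rw [e0, vs_zero, vs_zero] at hdim
    have := choose_lt (a := d - f) (b := d) (by omega)
    omega
  have hfin : ∀ e, Module.Finite ℂ ↥(VS (fun j => aff (P j)) (fun _ : Fin n => m) e) :=
    fun e => vs_fin (fun j => aff (P j)) (fun _ : Fin n => m) e
  have hAm : A ∈ VS (fun j => aff (P j)) (fun _ : Fin n => m) f :=
    (mem_VS _ _ _ _).2 ⟨hA.hom, fun j => van_mono hcon (hA.ord j).1⟩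
  have hAm1 : X 2 * A ∈ VS (fun j => aff (P j)) (fun _ : Fin n => m) (f + 1) := by
    refine (mem_VS _ _ _ _).2 ⟨?_, fun j => ?_⟩
    · have h7 := (isHomogeneous_X ℂ (2 : Fin 3)).mul hA.hom
      rwa [add_comm] at h7
    · have h7 := van_mul (van_zero (aff (P j)) (X 2 : MvPolynomial (Fin 3) ℂ))
        (van_mono hcon (hA.ord j).1)
      rwa [zero_add] at h7
  have hA10 : X 2 * A ≠ 0 := mul_ne_zero (X_ne_zero 2) hA.ne
  have d0 : Module.finrank ℂ ↥(VS (fun j => aff (P j)) (fun _ : Fin n => m) f) = 1 := by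
    obtain ⟨-, h1⟩ := orb_dim hA.ne hAm hA (dvd_down hA hAd hfd.le)
    rw [h1, e0, vs_zero, Nat.sub_self]
    decide
  have d1 : Module.finrank ℂ ↥(VS (fun j => aff (P j)) (fun _ : Fin n => m) (f + 1)) = 3 := by
    obtain ⟨-, h1⟩ := orb_dim hA10 hAm1 hA (dvd_down hA hAd hfd)
    rw [h1, e0, vs_zero, Nat.add_sub_cancel_left]
    decide
  -- the degree `f` is special
  have hsf : Sp P f m := by
    refine ⟨by rw [d0]; exact one_pos, ?_⟩
    by_contra hc
    push Not at hc
    have h2 := chi_le_dim P f (fun _ : Fin n => m)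
    have h3 := persist P (fun _ : Fin n => m) (le_antisymm hc h2) 1
    have h4 := chi_succ f (fun _ : Fin n => m)
    rw [d1, h4, ← le_antisymm hc h2, d0] at h3
    push_cast at h3
    omega
  have hsf1 : (Module.finrank ℂ ↥(VS (fun j => aff (P j)) (fun _ : Fin n => m) (f + 1)) : ℤ) =
      chi (f + 1) (fun _ : Fin n => m) := by
    refine le_antisymm ?_ (chi_le_dim P (f + 1) _)
    by_contra hc
    push Not at hc
    have := sp_unique hn hP hm0 hsf ⟨by rw [d1]; decide, hc⟩
    omega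
  rw [d1] at hsf1
  -- `f ^ 2 + 5 f = n m (m + 1)`
  have h5 := two_chi (f + 1) (fun _ : Fin n => m)
  rw [ip_const, kk_const, ← hsf1] at h5
  push_cast at h5
  have h6 : (f : ℤ) ^ 2 + 5 * f = n * (m * m) + n * m := by linear_combination -h5
  have h6R : (f : ℝ) ^ 2 + 5 * f = n * (m * m) + n * m := by exact_mod_cast h6
  have k1 := nag hn hP (m := m) (d := f) (by rw [d0]; exact one_pos) hm0
  have hnR : (10 : ℝ) ≤ n := by exact_mod_cast hn
  have hmR : (1 : ℝ) ≤ m := by exact_mod_cast hm0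
  obtain ⟨s, hs⟩ : ∃ s, s = √(n : ℝ) := ⟨_, rfl⟩
  have hss : s * s = n := by rw [hs]; exact Real.mul_self_sqrt (by linarith)
  have hs3 : 3 ≤ s := by
    rw [hs]
    exact Real.le_sqrt_of_sq_le (by linarith)
  rw [← hs] at k1
  rcases le_or_gt n 25 with h25 | h25
  · -- `s ≤ 5`
    have hs5 : s ≤ 5 := by
      rw [hs]
      apply Real.sqrt_le_iff.2
      refine ⟨by norm_num, ?_⟩
      have : (n : ℝ) ≤ 25 := by exact_mod_cast h25
      linarith
    have h7 : (s * m) * (s * m) < f * f := mul_self_lt_mul_self (by positivity) k1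
    have h8 : (s * m) * (s * m) = n * (m * m) := by
      rw [← hss]
      ring
    have h9 : n * (m : ℝ) = s * (s * m) := by rw [← hss]; ring
    have h10 : s * (s * m) ≤ 5 * (s * m) := mul_le_mul_of_nonneg_right hs5 (by positivity)
    nlinarith
  · -- the window
    have h26 : (26 : ℝ) ≤ n := by exact_mod_cast h25
    have h7 := sp_win2 hn hP hm0 hsf
    rw [← hs] at h7
    have hs5 : 5 < s := by
      rw [hs]
      exact Real.lt_sqrt_of_sq_lt (by linarith)
    have h8 : 9 / (4 * s) ≤ 9 / 20 := by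
      apply div_le_div_of_nonneg_left (by norm_num) (by norm_num)
      linarith
    have h9 : (2 * (f : ℝ) + 5) ^ 2 < (s * (2 * m + 1)) ^ 2 := by
      have e1 : (s * (2 * m + 1)) ^ 2 = 4 * (n * (m * m) + n * m) + n := by
        rw [← hss]
        ring
      rw [e1, ← h6R]
      nlinarith
    have h10 : 2 * (f : ℝ) + 5 < s * (2 * m + 1) := lt_of_pow_lt_pow_left₀ 2 (by positivity) h9
    linarith

/-- **Common factors.** -/
theorem common {n : ℕ} (hn : 10 ≤ n) {P : Fin n → Fin 2 → ℂ} (hP : Gen P) {d m f φ : ℕ}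
    {F A : MvPolynomial (Fin 3) ℂ} (hF0 : F ≠ 0)
    (hF : F ∈ VS (fun j => aff (P j)) (fun _ => m) d) (hf : 0 < f)
    (hA : Orb P f φ A) (hAd : ∀ F ∈ VS (fun j => aff (P j)) (fun _ => m) d, A ∣ F)
    (hA1 : Module.finrank ℂ ↥(VS (fun j => aff (P j)) (fun _ : Fin n => φ) f) = 1) :
    (f = d ∧ Module.finrank ℂ ↥(VS (fun j => aff (P j)) (fun _ : Fin n => m) d) = 1) ∨
      (f < d ∧ φ < m ∧ (Sp P f φ ∨ Sp P (d - f) (m - φ))) := by
  obtain ⟨hfd, hdim⟩ := orb_dim hF0 hF hA hAd
  have hpos : 0 < Module.finrank ℂ ↥(VS (fun j => aff (P j)) (fun _ : Fin n => m) d) := by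
    have hfin := vs_fin (fun j => aff (P j)) (fun _ : Fin n => m) d
    rw [Module.finrank_pos_iff]
    exact ⟨⟨F, hF⟩, 0, fun h => hF0 (congrArg Subtype.val h)⟩
  obtain ⟨n1, n2, n3⟩ := orb_num hn hP hf hA1
  rcases Nat.eq_or_lt_of_le hfd with hfd' | hfd'
  · -- the degree of the system
    left
    refine ⟨hfd', ?_⟩
    rw [hdim, hfd', Nat.sub_self]
    -- a form of degree zero
    have hpos' := hpos
    rw [hdim, hfd', Nat.sub_self] at hpos'
    have h2 : m - φ = 0 := by
      by_contra hcon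
      have h3 := nag hn hP hpos' (by omega)
      have h4 : (0 : ℝ) ≤ √(n : ℝ) * ((m - φ : ℕ) : ℝ) := by positivity
      push_cast at h3
      linarith
    rw [h2, vs_zero]
    decide
  · right
    have hφm := phi_lt hn hP hF0 hF hf hA hAd hA1 hfd'
    refine ⟨hfd', hφm, ?_⟩
    by_contra hcon
    push Not at hcon
    obtain ⟨c1, c2⟩ := hcon
    have h3 : 0 < Module.finrank ℂ ↥(VS (fun j => aff (P j)) (fun _ : Fin n => m - φ) (d - f)) := by
      rw [← hdim]
      exact hpos
    have h4 : (Module.finrank ℂ ↥(VS (fun j => aff (P j)) (fun _ : Fin n => m - φ) (d - f)) : ℤ) ≤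
        chi (d - f) (fun _ : Fin n => m - φ) := by
      by_contra hc
      push Not at hc
      exact c2 ⟨h3, hc⟩
    have h4' : (1 : ℤ) ≤ chi f (fun _ : Fin n => φ) := by
      by_contra hc
      push Not at hc
      exact c1 ⟨by rw [hA1]; exact one_pos, by rw [hA1]; exact_mod_cast hc⟩
    have h5 := chi_add (n := n) f (d - f) φ (m - φ)
    rw [Nat.add_sub_cancel' hfd, Nat.add_sub_cancel' hφm.le] at h5
    -- strict inequality
    have h6 : (0 : ℤ) < (f : ℤ) * (d - f : ℕ) - n * (φ * (m - φ : ℕ)) := by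
      have k1 := nag hn hP (m := φ) (d := f) (by rw [hA1]; exact one_pos) n1
      have k2 := nag hn hP h3 (by omega)
      have hss : √(n : ℝ) * √(n : ℝ) = n := Real.mul_self_sqrt (Nat.cast_nonneg n)
      have hs0 := Real.sqrt_nonneg (n : ℝ)
      have k3 : (√(n : ℝ) * φ) * (√(n : ℝ) * (m - φ : ℕ)) < (f : ℝ) * (d - f : ℕ) :=
        mul_lt_mul'' k1 k2 (by positivity) (by positivity)
      have k4 : (√(n : ℝ) * φ) * (√(n : ℝ) * (m - φ : ℕ)) = n * (φ * (m - φ : ℕ)) := by
        calc (√(n : ℝ) * φ) * (√(n : ℝ) * (m - φ : ℕ)) =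
            (√(n : ℝ) * √(n : ℝ)) * (φ * (m - φ : ℕ)) := by ring
          _ = n * (φ * (m - φ : ℕ)) := by rw [hss]
      rw [k4] at k3
      have k5 : ((n * (φ * (m - φ)) : ℕ) : ℝ) < ((f * (d - f) : ℕ) : ℝ) := by
        push_cast
        exact k3
      have k6 : n * (φ * (m - φ)) < f * (d - f) := by exact_mod_cast k5
      have k7 : ((n * (φ * (m - φ)) : ℕ) : ℤ) < ((f * (d - f) : ℕ) : ℤ) := by exact_mod_cast k6
      push_cast at k7 ⊢
      linarith
    have h7 := chi_le_dim P d (fun _ : Fin n => m)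
    rw [hdim] at h7
    linarith

end Pool.Agent.X157.W
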